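import Pool.Agent.NH21.Bty.Stm

/-! # Minor arcs: the sums over the multiples of `m` are small on average -/

set_option autoImplicit false

namespace Pool.Agent.NH21.Bty.AA

open Finset
open Pool.Agent.H807R2.Dav (ee ee_add norm_ee)
open Pool.Agent.H373R2.T7 (lam1 lam1_le)

/-- one block of length `q` -/
lemma block_card (θ : ℝ) (a : ℤ) (q : ℕ) (hq : 1 ≤ q) (hc : IsCoprime a (q : ℤ)) (hθ : |θ - a / q| ≤ 1 / (q : ℝ) ^ 2)
    (ρ : ℝ) (hρ : 0 ≤ ρ) (S : Finset ℕ) (z : ℕ → ℤ) (hS : ∀ n ∈ S, |(n : ℝ) * θ - z n| ≤ ρ) (j : ℕ)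
    (hj : ∀ n ∈ S, n / q = j) : (S.card : ℝ) ≤ 2 * ρ * q + 3 := by
  have hq0 : (0 : ℝ) < q := by exact_mod_cast hq
  set c : ℝ := (j : ℝ) * q * (q * θ - a) with hcdef
  -- u n = n a - q z n
  have hmem : ∀ n ∈ S, (n : ℤ) * a - q * z n ∈ Icc ⌈-c - ρ * q - 1⌉ ⌊-c + ρ * q + 1⌋ := by
    intro n hn
    have h1 := hS n hn
    have h2 := hj n hn
    have h3 : (n : ℝ) = j * q + (n % q : ℕ) := by
      have := Nat.div_add_mod n q
      rw [h2] at this
      rw [← this]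
      push_cast
      have h4 : (q * j + n % q) % q = n % q := by
        simp
      rw [h4]
      ring
    have h4 : ((n % q : ℕ) : ℝ) ≤ q := by exact_mod_cast (Nat.mod_lt n hq).le
    have h40 : (0 : ℝ) ≤ ((n % q : ℕ) : ℝ) := Nat.cast_nonneg _
    -- n a - q z = q (nθ - z) - n (qθ - a) = q (nθ - z) - c - r (qθ - a)
    have h5 : |q * θ - a| ≤ 1 / q := by
      have e : q * θ - a = q * (θ - a / q) := by field_simp
      rw [e, abs_mul, abs_of_pos hq0]
      calc (q : ℝ) * |θ - a / q| ≤ q * (1 / (q : ℝ) ^ 2) := by gcongr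
        _ = 1 / q := by field_simp
    have h6 : (n : ℝ) * a - q * z n = q * (n * θ - z n) - c - ((n % q : ℕ) : ℝ) * (q * θ - a) := by
      rw [hcdef]
      rw [h3]
      ring
    have h7 : |(q : ℝ) * (n * θ - z n)| ≤ ρ * q := by
      rw [abs_mul, abs_of_pos hq0, mul_comm]
      gcongr
    have h8 : |((n % q : ℕ) : ℝ) * (q * θ - a)| ≤ 1 := by
      rw [abs_mul, abs_of_nonneg h40]
      calc ((n % q : ℕ) : ℝ) * |q * θ - a| ≤ q * (1 / q) := by gcongr
        _ = 1 := by field_simp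
    rw [mem_Icc, Int.ceil_le, Int.le_floor]
    push_cast
    rw [h6]
    have h9 := abs_le.1 h7
    have h10 := abs_le.1 h8
    constructor <;> linarith [h9.1, h9.2, h10.1, h10.2]
  have hinj : Set.InjOn (fun n : ℕ => (n : ℤ) * a - q * z n) S := by
    intro n hn n' hn' h
    simp only at h
    have h1 := hj n hn
    have h2 := hj n' hn'
    have h3 : (q : ℤ) ∣ a * ((n : ℤ) - n') := by
      refine ⟨z n - z n', ?_⟩
      linarith [h]
    have h4 : (q : ℤ) ∣ (n : ℤ) - n' := hc.symm.dvd_of_dvd_mul_left h3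
    have h5 : n' ≡ n [MOD q] := (Nat.modEq_iff_dvd).2 h4
    have h6 : n' % q = n % q := h5
    rw [← Nat.div_add_mod n q, ← Nat.div_add_mod n' q, h1, h2, h6]
  have hcard := Finset.card_le_card_of_injOn _ hmem hinj
  rw [Int.card_Icc] at hcard
  have h1 : ((⌊-c + ρ * q + 1⌋ + 1 - ⌈-c - ρ * q - 1⌉ : ℤ) : ℝ) ≤ 2 * ρ * q + 3 := by
    push_cast
    have h2 := Int.floor_le (-c + ρ * q + 1)
    have h3 := Int.le_ceil (-c - ρ * q - 1)
    linarith
  have h2 : (((⌊-c + ρ * q + 1⌋ + 1 - ⌈-c - ρ * q - 1⌉ : ℤ).toNat : ℤ) : ℝ) ≤ 2 * ρ * q + 3 := by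
    rw [Int.toNat_eq_max]
    push_cast
    refine max_le ?_ ?_
    · exact_mod_cast h1
    · positivity
  calc (S.card : ℝ) ≤ ((⌊-c + ρ * q + 1⌋ + 1 - ⌈-c - ρ * q - 1⌉ : ℤ).toNat : ℝ) := by exact_mod_cast hcard
    _ ≤ _ := by exact_mod_cast h2

/-- the count up to `t` -/
lemma total_card (θ : ℝ) (a : ℤ) (q : ℕ) (hq : 1 ≤ q) (hc : IsCoprime a (q : ℤ)) (hθ : |θ - a / q| ≤ 1 / (q : ℝ) ^ 2)
    (ρ : ℝ) (hρ : 0 ≤ ρ) (t : ℕ) (S : Finset ℕ) (z : ℕ → ℤ) (hS : ∀ n ∈ S, |(n : ℝ) * θ - z n| ≤ ρ)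
    (ht : ∀ n ∈ S, n ≤ t) : (S.card : ℝ) ≤ ((t : ℝ) / q + 1) * (2 * ρ * q + 3) := by
  have hq0 : (0 : ℝ) < q := by exact_mod_cast hq
  have hmaps : ∀ n ∈ S, n / q ∈ range (t / q + 1) := by
    intro n hn
    rw [mem_range]
    have := Nat.div_le_div_right (c := q) (ht n hn)
    omega
  rw [card_eq_sum_card_fiberwise hmaps]
  push_cast
  calc ∑ j ∈ range (t / q + 1), (((S.filter (fun n => n / q = j)).card : ℕ) : ℝ)
      ≤ ∑ j ∈ range (t / q + 1), (2 * ρ * q + 3) := by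
        refine sum_le_sum fun j _ => ?_
        refine block_card θ a q hq hc hθ ρ hρ _ z (fun n hn => hS n (mem_filter.1 hn).1) j (fun n hn => (mem_filter.1 hn).2)
    _ = ((t / q : ℕ) + 1 : ℝ) * (2 * ρ * q + 3) := by
        rw [sum_const, card_range, nsmul_eq_mul]
        push_cast
        ring
    _ ≤ _ := by
        gcongr
        exact Nat.cast_div_le

/-- summation by parts for `∑ 1 / n` over a finite set -/
lemma inv_sum_eq (T : ℕ) (G : Finset ℕ) (hG : ∀ n ∈ G, 1 ≤ n ∧ n ≤ T) :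
    ∑ n ∈ G, (1 : ℝ) / n = ∑ t ∈ Icc 1 T, ((G.filter (fun n => n ≤ t)).card : ℝ) / (t * (t + 1)) +
      (G.card : ℝ) / (T + 1) := by
  have tele : ∀ n : ℕ, 1 ≤ n → n ≤ T + 1 → ∑ t ∈ Ico n (T + 1), (1 : ℝ) / (t * (t + 1)) = 1 / n - 1 / (T + 1) := by
    intro n hn hnT
    have h : ∀ M : ℕ, n ≤ M → ∑ t ∈ Ico n M, (1 : ℝ) / (t * (t + 1)) = 1 / n - 1 / M := by
      intro M hM
      induction M, hM using Nat.le_induction with
      | base => simp
      | succ M hM ih =>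
        rw [sum_Ico_succ_top hM, ih]
        have : (0 : ℝ) < M := by exact_mod_cast (by omega : 0 < M)
        push_cast
        field_simp
        ring
    have := h (T + 1) hnT
    push_cast at this
    exact this
  have e1 : ∀ n ∈ G, (1 : ℝ) / n = ∑ t ∈ Icc 1 T, (if n ≤ t then (1 : ℝ) / (t * (t + 1)) else 0) + 1 / (T + 1) := by
    intro n hn
    obtain ⟨h1, h2⟩ := hG n hn
    rw [← sum_filter]
    have : (Icc 1 T).filter (fun t => n ≤ t) = Ico n (T + 1) := by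
      ext t
      simp only [mem_filter, mem_Icc, mem_Ico]
      omega
    rw [this, tele n h1 (by omega)]
    ring
  rw [sum_congr rfl e1, sum_add_distrib, sum_comm, sum_const, nsmul_eq_mul]
  congr 1
  · refine sum_congr rfl fun t _ => ?_
    rw [← sum_filter, sum_const, nsmul_eq_mul]
    ring
  · ring

/-- the sum of `1 / n` over the `n` for which `n θ` is close to an integer -/
lemma sigma_bound (θ : ℝ) (a : ℤ) (q : ℕ) (hq : 1 ≤ q) (hc : IsCoprime a (q : ℤ)) (hθ : |θ - a / q| ≤ 1 / (q : ℝ) ^ 2)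
    (κ₀ X : ℝ) (hκ : 0 ≤ κ₀) (hX : 0 < X) (T : ℕ) (G : Finset ℕ) (z : ℕ → ℤ)
    (hS : ∀ n ∈ G, |(n : ℝ) * θ - z n| ≤ κ₀ * n / X) (hG : ∀ n ∈ G, 1 ≤ n ∧ n ≤ T) :
    ∑ n ∈ G, (1 : ℝ) / n ≤ 4 * κ₀ * T / X + (3 / q + 2 * κ₀ * q / X) * (∑ t ∈ Icc 1 T, (1 : ℝ) / t + 1) + 6 := by
  have hq0 : (0 : ℝ) < q := by exact_mod_cast hq
  have hN : ∀ t : ℕ, ((G.filter (fun n => n ≤ t)).card : ℝ) ≤ ((t : ℝ) / q + 1) * (2 * (κ₀ * t / X) * q + 3) := by
    intro t
    refine total_card θ a q hq hc hθ (κ₀ * t / X) (by positivity) t _ z ?_ (fun n hn => (mem_filter.1 hn).2)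
    intro n hn
    obtain ⟨h1, h2⟩ := mem_filter.1 hn
    refine (hS n h1).trans ?_
    gcongr
  rw [inv_sum_eq T G hG]
  have h1 : ∑ t ∈ Icc 1 T, ((G.filter (fun n => n ≤ t)).card : ℝ) / (t * (t + 1)) ≤
      2 * κ₀ * T / X + (3 / q + 2 * κ₀ * q / X) * ∑ t ∈ Icc 1 T, (1 : ℝ) / t + 3 := by
    have h2 : ∀ t ∈ Icc 1 T, ((G.filter (fun n => n ≤ t)).card : ℝ) / (t * (t + 1)) ≤
        2 * κ₀ / X + (3 / q + 2 * κ₀ * q / X) * (1 / t) + 3 * (1 / (t * (t + 1))) := by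
      intro t ht
      have ht1 : (1 : ℝ) ≤ t := by exact_mod_cast (mem_Icc.1 ht).1
      have ht0 : (0 : ℝ) < t := by linarith
      calc ((G.filter (fun n => n ≤ t)).card : ℝ) / (t * (t + 1))
          ≤ (((t : ℝ) / q + 1) * (2 * (κ₀ * t / X) * q + 3)) / (t * (t + 1)) := by
            gcongr
            exact hN t
        _ = (2 * κ₀ / X) * (t / (t + 1)) + (3 / q + 2 * κ₀ * q / X) * (1 / (t + 1)) + 3 * (1 / (t * (t + 1))) := by
            field_simp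
            ring
        _ ≤ _ := by
            have e1 : (t : ℝ) / (t + 1) ≤ 1 := by
              rw [div_le_one (by positivity)]
              linarith
            have e2 : (1 : ℝ) / (t + 1) ≤ 1 / t := by
              apply one_div_le_one_div_of_le ht0
              linarith
            have e3 : (2 * κ₀ / X) * (t / (t + 1)) ≤ (2 * κ₀ / X) * 1 := by gcongr
            have e4 : (3 / q + 2 * κ₀ * q / X) * (1 / (t + 1)) ≤ (3 / q + 2 * κ₀ * q / X) * (1 / t) := by gcongr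
            linarith
    refine (sum_le_sum h2).trans ?_
    rw [sum_add_distrib, sum_add_distrib, ← mul_sum, ← mul_sum, sum_const, Nat.card_Icc, nsmul_eq_mul]
    have h3 : ∑ t ∈ Icc 1 T, (1 : ℝ) / ((t : ℝ) * (t + 1)) ≤ 1 := by
      have h : ∀ M : ℕ, ∑ t ∈ Icc 1 M, (1 : ℝ) / ((t : ℝ) * (t + 1)) = 1 - 1 / (M + 1) := by
        intro M
        induction M with
        | zero => simp
        | succ M ih =>
          rw [sum_Icc_succ_top (by omega), ih]
          push_cast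
          field_simp
          ring
      rw [h]
      have : (0 : ℝ) ≤ 1 / ((T : ℝ) + 1) := by positivity
      linarith
    have h4 : ((T + 1 - 1 : ℕ) : ℝ) * (2 * κ₀ / X) = 2 * κ₀ * T / X := by
      rw [Nat.add_sub_cancel]
      ring
    rw [h4]
    linarith
  have h2 : (G.card : ℝ) / (T + 1) ≤ 2 * κ₀ * T / X + (3 / q + 2 * κ₀ * q / X) + 3 := by
    have e : G.filter (fun n => n ≤ T) = G := filter_true_of_mem fun n hn => (hG n hn).2
    have h3 := hN T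
    rw [e] at h3
    have hT1 : (0 : ℝ) < (T : ℝ) + 1 := by positivity
    rw [div_le_iff₀ hT1]
    refine h3.trans ?_
    have hT0 : (0 : ℝ) ≤ T := Nat.cast_nonneg _
    have e1 : ((T : ℝ) / q + 1) * (2 * (κ₀ * T / X) * q + 3) =
        2 * κ₀ * T / X * T + (3 / q + 2 * κ₀ * q / X) * T + 3 := by
      field_simp
      ring
    rw [e1]
    have e2 : (0 : ℝ) ≤ 2 * κ₀ * T / X := by positivity
    have e3 : (0 : ℝ) ≤ 3 / q + 2 * κ₀ * q / X := by positivity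
    nlinarith
  have e0 : 4 * κ₀ * T / X = 2 * κ₀ * T / X + 2 * κ₀ * T / X := by ring
  rw [e0]
  linarith


/-- the sum of `1 / m` over an interval -/
lemma sum_inv_Ioc (A B : ℕ) (hA : 1 ≤ A) (hAB : A ≤ B) : ∑ m ∈ Ioc A B, (1 : ℝ) / m ≤ Real.log (B / A) := by
  induction B, hAB using Nat.le_induction with
  | base =>
    have : (A : ℝ) ≠ 0 := by positivity
    simp [this]
  | succ B hAB ih =>
    rw [Finset.sum_Ioc_succ_top (by omega : A ≤ B)]
    have hA0 : (0 : ℝ) < A := by exact_mod_cast hA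
    have hB0 : (0 : ℝ) < B := by exact_mod_cast (by omega : 0 < B)
    have h1 : Real.log (((B + 1 : ℕ) : ℝ) / A) = Real.log (((B : ℝ) + 1) / B) + Real.log (B / A) := by
      rw [← Real.log_mul (by positivity) (by positivity)]
      congr 1
      push_cast
      field_simp
    have h2 : 1 - (((B : ℝ) + 1) / B)⁻¹ ≤ Real.log (((B : ℝ) + 1) / B) :=
      Real.one_sub_inv_le_log_of_pos (by positivity)
    have h3 : 1 - (((B : ℝ) + 1) / B)⁻¹ = 1 / ((B + 1 : ℕ) : ℝ) := by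
      push_cast
      field_simp
      ring
    rw [h1]
    linarith

/-- the terms with large `m` -/
lemma sum_large (X Y : ℕ) (hY : 1 ≤ Y) (hYX : Y ≤ X) :
    ∑ m ∈ (Icc 1 X).filter (fun m => X / m < Y), (1 : ℝ) / m ≤ Real.log (2 * Y) := by
  have hA : 1 ≤ X / Y := (Nat.one_le_div_iff hY).2 hYX
  have hsub : (Icc 1 X).filter (fun m => X / m < Y) ⊆ Ioc (X / Y) X := by
    intro m hm
    rw [mem_filter, mem_Icc] at hm
    rw [mem_Ioc]
    refine ⟨?_, hm.1.2⟩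
    have h1 : X < Y * m := (Nat.div_lt_iff_lt_mul hm.1.1).1 hm.2
    rw [Nat.div_lt_iff_lt_mul hY]
    rw [mul_comm]
    exact h1
  calc ∑ m ∈ (Icc 1 X).filter (fun m => X / m < Y), (1 : ℝ) / m ≤ ∑ m ∈ Ioc (X / Y) X, (1 : ℝ) / m :=
        sum_le_sum_of_subset_of_nonneg hsub fun _ _ _ => by positivity
    _ ≤ Real.log (X / (X / Y : ℕ)) := sum_inv_Ioc _ _ hA (Nat.div_le_self _ _)
    _ ≤ Real.log (2 * Y) := by
        have hA0 : (0 : ℝ) < (X / Y : ℕ) := by exact_mod_cast hA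
        have hX0 : (0 : ℝ) < X := by exact_mod_cast (by omega : 0 < X)
        apply Real.log_le_log (by positivity)
        rw [div_le_iff₀ hA0]
        have h1 : X ≤ 2 * Y * (X / Y) := by
          have h2 := Nat.div_add_mod X Y
          have h3 := Nat.mod_lt X hY
          have h4 : Y ≤ Y * (X / Y) := Nat.le_mul_of_pos_right _ hA
          calc X = Y * (X / Y) + X % Y := h2.symm
            _ ≤ Y * (X / Y) + Y * (X / Y) := by omega
            _ = 2 * Y * (X / Y) := by ring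
        exact_mod_cast h1


lemma ee_neg' (x : ℝ) : ee (-x) = (starRingEnd ℂ) (ee x) := by
  unfold Pool.Agent.H807R2.Dav.ee
  rw [← Complex.exp_conj]
  congr 1
  simp only [map_mul, Complex.conj_I, Complex.conj_ofReal, map_ofNat]
  push_cast
  ring

/-- the modulus of the exponential sum over primes -/
noncomputable def SS (y : ℕ) (φ : ℝ) : ℝ :=
  ‖∑ n ∈ Icc 1 y, ((ArithmeticFunction.vonMangoldt n : ℝ) : ℂ) * ee ((n : ℝ) * φ)‖

lemma SS_le (y : ℕ) (φ : ℝ) : SS y φ ≤ 6 * y := by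
  refine le_trans ?_ (lam1_le y)
  unfold SS lam1
  refine (norm_sum_le _ _).trans (sum_le_sum fun n _ => ?_)
  rw [norm_mul, norm_ee, mul_one, Complex.norm_real, Real.norm_eq_abs,
    abs_of_nonneg ArithmeticFunction.vonMangoldt_nonneg]

lemma SS_nonneg (y : ℕ) (φ : ℝ) : 0 ≤ SS y φ := norm_nonneg _

/-- a shift and a change of sign -/
lemma SS_shift (y : ℕ) (φ s : ℝ) (x : ℕ → ℝ) (hx : ∀ d, x d = s - d * φ) :
    ‖∑ n ∈ Icc 1 y, ((ArithmeticFunction.vonMangoldt n : ℝ) : ℂ) * ee (x n)‖ = SS y φ := by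
  have e : ∑ n ∈ Icc 1 y, ((ArithmeticFunction.vonMangoldt n : ℝ) : ℂ) * ee (x n) =
      ee s * (starRingEnd ℂ) (∑ n ∈ Icc 1 y, ((ArithmeticFunction.vonMangoldt n : ℝ) : ℂ) * ee ((n : ℝ) * φ)) := by
    rw [map_sum, mul_sum]
    refine sum_congr rfl fun n _ => ?_
    rw [hx, sub_eq_add_neg, ee_add, map_mul, Complex.conj_ofReal, ee_neg']
    ring
  rw [e, norm_mul, norm_ee, one_mul, RCLike.norm_conj]
  rfl

/-- the inequality for one `m` -/
lemma PP_le (hW : S_WET) (κ θ : ℝ) (X m K : ℕ) (hK : 1 ≤ K) (δ : ℝ) (hδ : 0 < δ) (hδ1 : δ ≤ 1) :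
    |PP κ θ X m| ≤ 2 * (∑ h ∈ Icc 1 K, SS (X / m) (h * m * θ) / h + 6 * (X / m : ℕ) / (K * δ) + 6 * (X / m : ℕ) * δ) := by
  have hK0 : (0 : ℝ) < K := by exact_mod_cast hK
  have hw : ∀ n ∈ Icc 1 (X / m), (0 : ℝ) ≤ ArithmeticFunction.vonMangoldt n :=
    fun _ _ => ArithmeticFunction.vonMangoldt_nonneg
  have hsum : (∑ n ∈ Icc 1 (X / m), ArithmeticFunction.vonMangoldt n) ≤ 6 * ((X / m : ℕ) : ℝ) := lam1_le _
  have key : ∀ (s : ℝ), |∑ n ∈ Icc 1 (X / m), ArithmeticFunction.vonMangoldt n *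
      (Int.fract (s - n * (m * θ)) - 1 / 2)| ≤
      ∑ h ∈ Icc 1 K, SS (X / m) (h * m * θ) / h + 6 * (X / m : ℕ) / (K * δ) + 6 * (X / m : ℕ) * δ := by
    intro s
    have h1 := hW (Icc 1 (X / m)) (fun n => ArithmeticFunction.vonMangoldt n) (fun n => s - n * (m * θ)) hw K hK δ hδ hδ1
    refine h1.trans ?_
    have e1 : ∀ h ∈ Icc 1 K, ‖∑ n ∈ Icc 1 (X / m), ((ArithmeticFunction.vonMangoldt n : ℝ) : ℂ) *
        ee (h * (s - n * (m * θ)))‖ / h = SS (X / m) (h * m * θ) / h := by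
      intro h _
      rw [SS_shift (X / m) (h * m * θ) (h * s) (fun n => h * (s - n * (m * θ))) (fun d => by ring)]
    rw [sum_congr rfl e1]
    gcongr
  have e : PP κ θ X m = (∑ n ∈ Icc 1 (X / m), ArithmeticFunction.vonMangoldt n *
      (Int.fract ((κ - θ) - n * (m * θ)) - 1 / 2)) - (∑ n ∈ Icc 1 (X / m), ArithmeticFunction.vonMangoldt n *
      (Int.fract (κ - n * (m * θ)) - 1 / 2)) := by
    unfold PP gB
    rw [← sum_sub_distrib]
    refine sum_congr rfl fun n _ => ?_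
    have e1 : κ - (((n * m : ℕ) : ℝ) + 1) * θ = (κ - θ) - n * (m * θ) := by push_cast; ring
    have e2 : κ - ((n * m : ℕ) : ℝ) * θ = κ - n * (m * θ) := by push_cast; ring
    rw [e1, e2]
    ring
  rw [e]
  refine (abs_sub _ _).trans ?_
  have h1 := key (κ - θ)
  have h2 := key κ
  linarith

/-- the trivial bound -/
lemma PP_triv (κ θ : ℝ) (X m : ℕ) : |PP κ θ X m| ≤ 6 * (X / m : ℕ) := by
  refine le_trans ?_ (lam1_le (X / m))
  unfold PP lam1
  refine (abs_sum_le_sum_abs _ _).trans (sum_le_sum fun n _ => ?_)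
  rw [abs_mul, abs_of_nonneg ArithmeticFunction.vonMangoldt_nonneg]
  have h1 : |gB κ θ (n * m)| ≤ 1 := by
    unfold gB
    have a1 := Int.fract_nonneg (κ - (((n * m : ℕ) : ℝ) + 1) * θ)
    have a2 := Int.fract_lt_one (κ - (((n * m : ℕ) : ℝ) + 1) * θ)
    have a3 := Int.fract_nonneg (κ - ((n * m : ℕ) : ℝ) * θ)
    have a4 := Int.fract_lt_one (κ - ((n * m : ℕ) : ℝ) * θ)
    rw [abs_le]
    constructor <;> linarith
  calc ArithmeticFunction.vonMangoldt n * |gB κ θ (n * m)| ≤ ArithmeticFunction.vonMangoldt n * 1 := by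
        apply mul_le_mul_of_nonneg_left h1 ArithmeticFunction.vonMangoldt_nonneg
    _ = _ := mul_one _


/-- the harmonic sums -/
noncomputable def HH (N : ℕ) : ℝ := ∑ t ∈ Icc 1 N, (1 : ℝ) / t

lemma HH_nonneg (N : ℕ) : 0 ≤ HH N := sum_nonneg fun _ _ => by positivity

lemma HH_le (N : ℕ) : HH N ≤ 1 + Real.log N := Pool.Agent.H316R2.harm_sum_le N

lemma inj_sum (G P : Finset ℕ) (k : ℕ) (hk : 1 ≤ k) :
    ∑ m ∈ P, (if k * m ∈ G then (1 : ℝ) / ((k * m : ℕ) : ℝ) else 0) ≤ ∑ n ∈ G, (1 : ℝ) / n := by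
  classical
  rw [← sum_filter]
  have hinj : Set.InjOn (fun m : ℕ => k * m) (P.filter (fun m => k * m ∈ G)) := by
    intro m _ m' _ h
    exact Nat.eq_of_mul_eq_mul_left hk h
  rw [← sum_image (f := fun n : ℕ => (1 : ℝ) / (n : ℝ)) hinj]
  refine sum_le_sum_of_subset_of_nonneg ?_ fun _ _ _ => by positivity
  intro n hn
  rw [mem_image] at hn
  obtain ⟨m, hm, rfl⟩ := hn
  exact (mem_filter.1 hm).2

/-- the bad pairs -/
lemma bad_sum (N0 : ℕ) (hE : ∀ N : ℕ, N0 ≤ N → ∀ c : ℝ, 0 < c → c ≤ 1 → 4 / c ≤ Real.log N → ∀ α : ℝ,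
    c * N ≤ ‖∑ n ∈ Icc 1 N, ((ArithmeticFunction.vonMangoldt n : ℝ) : ℂ) * ee ((n : ℝ) * α)‖ →
    ∃ b : ℕ, 1 ≤ b ∧ (b : ℝ) ≤ 16 / c ^ 2 ∧ ∃ a : ℤ, |α - a / b| ≤ 16 / c ^ 2 / N)
    (θ : ℝ) (a : ℤ) (q : ℕ) (hq : 1 ≤ q) (hc : IsCoprime a (q : ℤ)) (hθ : |θ - a / q| ≤ 1 / (q : ℝ) ^ 2)
    (X K Y : ℕ) (c : ℝ) (hc0 : 0 < c) (hc1 : c ≤ 1) (hY1 : 1 ≤ Y) (hX1 : 1 ≤ X)
    (hYN : N0 ≤ Y) (hYl : 4 / c ≤ Real.log Y) :
    ∑ m ∈ (Icc 1 X).filter (fun m => Y ≤ X / m), ∑ h ∈ Icc 1 K,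
      (if c * (X / m : ℕ) ≤ SS (X / m) (h * m * θ) then (1 : ℝ) / m / h else 0) ≤
    K * (⌊16 / c ^ 2⌋₊ : ℝ) ^ 2 * (4 * (2 * (16 / c ^ 2) ^ 2) * (⌊16 / c ^ 2⌋₊ * K : ℝ) +
      (3 / q + 2 * (2 * (16 / c ^ 2) ^ 2) * q / X) * (HH (⌊16 / c ^ 2⌋₊ * K * X) + 1) + 6) := by
  classical
  set B : ℝ := 16 / c ^ 2 with hB
  have hB0 : 0 < B := by positivity
  set Bn : ℕ := ⌊B⌋₊ with hBn
  set κ₀ : ℝ := 2 * B ^ 2 with hκ
  set T : ℕ := Bn * K * X with hT
  have hX0 : (0 : ℝ) < X := by exact_mod_cast hX1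
  set G : Finset ℕ := (Icc 1 T).filter (fun n => ∃ z : ℤ, |(n : ℝ) * θ - z| ≤ κ₀ * n / X) with hG
  have hz : ∀ n : ℕ, ∃ z : ℤ, n ∈ G → |(n : ℝ) * θ - z| ≤ κ₀ * n / X := by
    intro n
    by_cases h : n ∈ G
    · obtain ⟨z, hz⟩ := (mem_filter.1 h).2
      exact ⟨z, fun _ => hz⟩
    · exact ⟨0, fun h' => absurd h' h⟩
  choose z hz using hz
  have hsig := sigma_bound θ a q hq hc hθ κ₀ X (by positivity) hX0 T G z (fun n hn => hz n hn)
    (fun n hn => mem_Icc.1 (mem_filter.1 hn).1)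
  have hsig0 : 0 ≤ ∑ n ∈ G, (1 : ℝ) / n := sum_nonneg fun _ _ => by positivity
  have hstep : ∀ m ∈ (Icc 1 X).filter (fun m => Y ≤ X / m), ∀ h ∈ Icc 1 K,
      (if c * (X / m : ℕ) ≤ SS (X / m) (h * m * θ) then (1 : ℝ) / m / h else 0) ≤
      ∑ b ∈ Icc 1 Bn, (if (b * h) * m ∈ G then (Bn : ℝ) * (1 / (((b * h) * m : ℕ) : ℝ)) else 0) := by
    intro m hm h hh
    rw [mem_filter, mem_Icc] at hm
    rw [mem_Icc] at hh
    have hm0 : (0 : ℝ) < m := by exact_mod_cast hm.1.1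
    have hh0 : (0 : ℝ) < h := by exact_mod_cast hh.1
    have hnn : ∀ b ∈ Icc 1 Bn, (0 : ℝ) ≤ (if (b * h) * m ∈ G then (Bn : ℝ) * (1 / (((b * h) * m : ℕ) : ℝ)) else 0) := by
      intro b _
      split_ifs <;> positivity
    split_ifs with hbad
    · have hy1 : 1 ≤ X / m := hY1.trans hm.2
      have hy0 : (0 : ℝ) < (X / m : ℕ) := by exact_mod_cast hy1
      have hlog : 4 / c ≤ Real.log (X / m : ℕ) := by
        refine hYl.trans (Real.log_le_log (by exact_mod_cast hY1) (by exact_mod_cast hm.2))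
      obtain ⟨b, hb1, hb2, a', ha'⟩ := hE (X / m) (hYN.trans hm.2) c hc0 hc1 hlog (h * m * θ) hbad
      have hb0 : (0 : ℝ) < b := by exact_mod_cast hb1
      have hbB : b ≤ Bn := Nat.le_floor hb2
      have hbmem : b ∈ Icc 1 Bn := mem_Icc.2 ⟨hb1, hbB⟩
      have hmem : (b * h) * m ∈ G := by
        rw [hG, mem_filter, mem_Icc]
        refine ⟨⟨Nat.mul_pos (Nat.mul_pos hb1 hh.1) hm.1.1, ?_⟩, a', ?_⟩
        · rw [hT]
          exact Nat.mul_le_mul (Nat.mul_le_mul hbB hh.2) hm.1.2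
        · -- |b h m θ - a'| = b |h m θ - a'/b| ≤ b B / y ≤ B^2 / y ≤ 2 B^2 m / X
          have e1 : (((b * h) * m : ℕ) : ℝ) * θ - a' = b * (h * m * θ - a' / b) := by
            push_cast
            field_simp
          rw [e1, abs_mul, abs_of_pos hb0]
          have hyX : (X : ℝ) ≤ 2 * (X / m : ℕ) * m := by
            have h2 := Nat.div_add_mod X m
            have h3 := Nat.mod_lt X hm.1.1
            have h4 : m ≤ m * (X / m) := Nat.le_mul_of_pos_right _ hy1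
            have h5 : X ≤ 2 * (X / m) * m := by
              calc X = m * (X / m) + X % m := h2.symm
                _ ≤ m * (X / m) + m * (X / m) := by omega
                _ = 2 * (X / m) * m := by ring
            exact_mod_cast h5
          have h1m : (m : ℝ) ≤ (((b * h) * m : ℕ) : ℝ) := by
            have : m ≤ (b * h) * m := Nat.le_mul_of_pos_left _ (Nat.mul_pos hb1 hh.1)
            exact_mod_cast this
          calc (b : ℝ) * |h * m * θ - a' / b| ≤ B * (B / (X / m : ℕ)) := by gcongr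
            _ = B ^ 2 / (X / m : ℕ) := by ring
            _ ≤ 2 * B ^ 2 * m / X := by
                rw [div_le_div_iff₀ hy0 hX0]
                nlinarith [sq_nonneg B, mul_le_mul_of_nonneg_left hyX (sq_nonneg B)]
            _ ≤ κ₀ * (((b * h) * m : ℕ) : ℝ) / X := by
                rw [hκ]
                gcongr
      have h1 : (1 : ℝ) / m / h ≤ (if (b * h) * m ∈ G then (Bn : ℝ) * (1 / (((b * h) * m : ℕ) : ℝ)) else 0) := by
        rw [if_pos hmem]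
        push_cast
        have : (1 : ℝ) / m / h = b * (1 / (b * h * m)) := by field_simp
        rw [this]
        have hbBr : (b : ℝ) ≤ Bn := by exact_mod_cast hbB
        gcongr
      exact h1.trans (single_le_sum (f := fun b => (if (b * h) * m ∈ G then (Bn : ℝ) * (1 / (((b * h) * m : ℕ) : ℝ)) else 0))
        hnn hbmem)
    · exact sum_nonneg hnn
  calc ∑ m ∈ (Icc 1 X).filter (fun m => Y ≤ X / m), ∑ h ∈ Icc 1 K,
      (if c * (X / m : ℕ) ≤ SS (X / m) (h * m * θ) then (1 : ℝ) / m / h else 0)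
      ≤ ∑ m ∈ (Icc 1 X).filter (fun m => Y ≤ X / m), ∑ h ∈ Icc 1 K,
        ∑ b ∈ Icc 1 Bn, (if (b * h) * m ∈ G then (Bn : ℝ) * (1 / (((b * h) * m : ℕ) : ℝ)) else 0) :=
        sum_le_sum fun m hm => sum_le_sum fun h hh => hstep m hm h hh
    _ = ∑ h ∈ Icc 1 K, ∑ b ∈ Icc 1 Bn, (Bn : ℝ) * ∑ m ∈ (Icc 1 X).filter (fun m => Y ≤ X / m),
        (if (b * h) * m ∈ G then (1 / (((b * h) * m : ℕ) : ℝ)) else 0) := by
        rw [sum_comm]
        refine sum_congr rfl fun h _ => ?_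
        rw [sum_comm]
        refine sum_congr rfl fun b _ => ?_
        rw [mul_sum]
        refine sum_congr rfl fun m _ => ?_
        rw [mul_ite, mul_zero]
    _ ≤ ∑ h ∈ Icc 1 K, ∑ b ∈ Icc 1 Bn, (Bn : ℝ) * ∑ n ∈ G, (1 : ℝ) / n := by
        refine sum_le_sum fun h hh => sum_le_sum fun b hb => ?_
        refine mul_le_mul_of_nonneg_left ?_ (Nat.cast_nonneg _)
        exact inj_sum G _ (b * h) (Nat.mul_pos (mem_Icc.1 hb).1 (mem_Icc.1 hh).1)
    _ = K * (Bn : ℝ) ^ 2 * ∑ n ∈ G, (1 : ℝ) / n := by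
        rw [sum_const, sum_const, Nat.card_Icc, Nat.card_Icc, nsmul_eq_mul, nsmul_eq_mul]
        simp only [Nat.add_sub_cancel]
        ring
    _ ≤ _ := by
        refine mul_le_mul_of_nonneg_left ?_ (by positivity)
        refine hsig.trans (le_of_eq ?_)
        have : 4 * κ₀ * (T : ℝ) / X = 4 * κ₀ * (Bn * K) := by
          rw [hT]
          push_cast
          field_simp
        rw [this]
        rfl

/-- the sum over all `m` with free parameters -/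
lemma assemble (hW : S_WET) (N0 : ℕ) (hE : ∀ N : ℕ, N0 ≤ N → ∀ c : ℝ, 0 < c → c ≤ 1 → 4 / c ≤ Real.log N → ∀ α : ℝ,
    c * N ≤ ‖∑ n ∈ Icc 1 N, ((ArithmeticFunction.vonMangoldt n : ℝ) : ℂ) * ee ((n : ℝ) * α)‖ →
    ∃ b : ℕ, 1 ≤ b ∧ (b : ℝ) ≤ 16 / c ^ 2 ∧ ∃ a : ℤ, |α - a / b| ≤ 16 / c ^ 2 / N)
    (θ κ : ℝ) (a : ℤ) (q : ℕ) (hq : 1 ≤ q) (hc : IsCoprime a (q : ℤ)) (hθ : |θ - a / q| ≤ 1 / (q : ℝ) ^ 2)
    (X K Y : ℕ) (c δ : ℝ) (hc0 : 0 < c) (hc1 : c ≤ 1) (hK : 1 ≤ K) (hδ : 0 < δ) (hδ1 : δ ≤ 1) (hY1 : 1 ≤ Y)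
    (hYN : N0 ≤ Y) (hYX : Y ≤ X) (hYl : 4 / c ≤ Real.log Y) :
    ∑ m ∈ Icc 1 X, |PP κ θ X m| ≤ 6 * X * Real.log (2 * Y) + 2 * (c * X * HH X * HH K +
      6 * X * (K * (⌊16 / c ^ 2⌋₊ : ℝ) ^ 2 * (4 * (2 * (16 / c ^ 2) ^ 2) * (⌊16 / c ^ 2⌋₊ * K : ℝ) +
      (3 / q + 2 * (2 * (16 / c ^ 2) ^ 2) * q / X) * (HH (⌊16 / c ^ 2⌋₊ * K * X) + 1) + 6)) +
      6 * X * HH X / (K * δ) + 6 * X * HH X * δ) := by
  classical
  have hX1 : 1 ≤ X := hY1.trans hYX
  have hX0 : (0 : ℝ) < X := by exact_mod_cast hX1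
  have hK0 : (0 : ℝ) < K := by exact_mod_cast hK
  have hbad := bad_sum N0 hE θ a q hq hc hθ X K Y c hc0 hc1 hY1 hX1 hYN hYl
  have hsplit : ∑ m ∈ Icc 1 X, |PP κ θ X m| = ∑ m ∈ (Icc 1 X).filter (fun m => Y ≤ X / m), |PP κ θ X m| +
      ∑ m ∈ (Icc 1 X).filter (fun m => X / m < Y), |PP κ θ X m| := by
    rw [← sum_filter_add_sum_filter_not (Icc 1 X) (fun m => Y ≤ X / m)]
    simp only [not_le]
  have hsmall : ∑ m ∈ (Icc 1 X).filter (fun m => X / m < Y), |PP κ θ X m| ≤ 6 * X * Real.log (2 * Y) := by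
    calc ∑ m ∈ (Icc 1 X).filter (fun m => X / m < Y), |PP κ θ X m|
        ≤ ∑ m ∈ (Icc 1 X).filter (fun m => X / m < Y), 6 * X * ((1 : ℝ) / m) := by
          refine sum_le_sum fun m hm => ?_
          refine (PP_triv κ θ X m).trans ?_
          have : ((X / m : ℕ) : ℝ) ≤ X / m := Nat.cast_div_le
          calc 6 * ((X / m : ℕ) : ℝ) ≤ 6 * (X / m) := by gcongr
            _ = _ := by ring
      _ = 6 * X * ∑ m ∈ (Icc 1 X).filter (fun m => X / m < Y), (1 : ℝ) / m := by rw [mul_sum]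
      _ ≤ _ := by
          gcongr
          exact sum_large X Y hY1 hYX
  have hlarge : ∑ m ∈ (Icc 1 X).filter (fun m => Y ≤ X / m), |PP κ θ X m| ≤
      2 * (c * X * HH X * HH K + 6 * X * ∑ m ∈ (Icc 1 X).filter (fun m => Y ≤ X / m), ∑ h ∈ Icc 1 K,
        (if c * (X / m : ℕ) ≤ SS (X / m) (h * m * θ) then (1 : ℝ) / m / h else 0) +
        6 * X * HH X / (K * δ) + 6 * X * HH X * δ) := by
    have hm1 : ∀ m ∈ (Icc 1 X).filter (fun m => Y ≤ X / m), |PP κ θ X m| ≤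
        2 * (c * X * HH K * (1 / m) + 6 * X * ∑ h ∈ Icc 1 K,
        (if c * (X / m : ℕ) ≤ SS (X / m) (h * m * θ) then (1 : ℝ) / m / h else 0) +
        6 * X / (K * δ) * (1 / m) + 6 * X * δ * (1 / m)) := by
      intro m hm
      rw [mem_filter, mem_Icc] at hm
      have hm0 : (0 : ℝ) < m := by exact_mod_cast hm.1.1
      have hy : ((X / m : ℕ) : ℝ) ≤ X * (1 / m) := by
        have : ((X / m : ℕ) : ℝ) ≤ X / m := Nat.cast_div_le
        calc ((X / m : ℕ) : ℝ) ≤ X / m := this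
          _ = _ := by ring
      refine (PP_le hW κ θ X m K hK δ hδ hδ1).trans ?_
      have h1 : ∑ h ∈ Icc 1 K, SS (X / m) (h * m * θ) / h ≤ c * X * HH K * (1 / m) + 6 * X * ∑ h ∈ Icc 1 K,
          (if c * (X / m : ℕ) ≤ SS (X / m) (h * m * θ) then (1 : ℝ) / m / h else 0) := by
        have e : c * X * HH K * (1 / m) + 6 * X * ∑ h ∈ Icc 1 K,
          (if c * (X / m : ℕ) ≤ SS (X / m) (h * m * θ) then (1 : ℝ) / m / h else 0) =
          ∑ h ∈ Icc 1 K, (c * (X * (1 / m)) * (1 / h) + 6 * X *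
          (if c * (X / m : ℕ) ≤ SS (X / m) (h * m * θ) then (1 : ℝ) / m / h else 0)) := by
          rw [sum_add_distrib, ← mul_sum, ← mul_sum]
          unfold HH
          ring
        rw [e]
        refine sum_le_sum fun h hh => ?_
        have hh0 : (0 : ℝ) < h := by exact_mod_cast (mem_Icc.1 hh).1
        by_cases hb : c * (X / m : ℕ) ≤ SS (X / m) (h * m * θ)
        · rw [if_pos hb]
          have h2 : SS (X / m) (h * m * θ) / h ≤ 6 * X * (1 / m / h) := by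
            calc SS (X / m) (h * m * θ) / h ≤ 6 * (X * (1 / m)) / h := by
                  gcongr
                  exact (SS_le _ _).trans (by gcongr)
              _ = _ := by ring
          have h3 : 0 ≤ c * (X * (1 / m)) * (1 / h) := by positivity
          linarith
        · rw [if_neg hb, mul_zero, add_zero]
          push Not at hb
          calc SS (X / m) (h * m * θ) / h ≤ (c * (X * (1 / m))) / h := by
                gcongr
                exact hb.le.trans (by gcongr)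
            _ = _ := by ring
      have h2 : 6 * ((X / m : ℕ) : ℝ) / (K * δ) ≤ 6 * X / (K * δ) * (1 / m) := by
        calc 6 * ((X / m : ℕ) : ℝ) / (K * δ) ≤ 6 * (X * (1 / m)) / (K * δ) := by gcongr
          _ = _ := by ring
      have h3 : 6 * ((X / m : ℕ) : ℝ) * δ ≤ 6 * X * δ * (1 / m) := by
        calc 6 * ((X / m : ℕ) : ℝ) * δ ≤ 6 * (X * (1 / m)) * δ := by gcongr
          _ = _ := by ring
      linarith
    refine (sum_le_sum hm1).trans ?_
    have hsub : ∑ m ∈ (Icc 1 X).filter (fun m => Y ≤ X / m), (1 : ℝ) / m ≤ HH X := by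
      unfold HH
      exact sum_le_sum_of_subset_of_nonneg (filter_subset _ _) fun _ _ _ => by positivity
    rw [← mul_sum, sum_add_distrib, sum_add_distrib, sum_add_distrib, ← mul_sum, ← mul_sum, ← mul_sum, ← mul_sum]
    have hKnn := HH_nonneg K
    have e1 : c * X * HH K * ∑ m ∈ (Icc 1 X).filter (fun m => Y ≤ X / m), (1 : ℝ) / m ≤ c * X * HH X * HH K := by
      calc c * X * HH K * ∑ m ∈ (Icc 1 X).filter (fun m => Y ≤ X / m), (1 : ℝ) / m ≤ c * X * HH K * HH X := by gcongr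
        _ = _ := by ring
    have e2 : 6 * X / (K * δ) * ∑ m ∈ (Icc 1 X).filter (fun m => Y ≤ X / m), (1 : ℝ) / m ≤ 6 * X * HH X / (K * δ) := by
      calc 6 * X / (K * δ) * ∑ m ∈ (Icc 1 X).filter (fun m => Y ≤ X / m), (1 : ℝ) / m ≤ 6 * X / (K * δ) * HH X := by gcongr
        _ = _ := by ring
    have e3 : 6 * X * δ * ∑ m ∈ (Icc 1 X).filter (fun m => Y ≤ X / m), (1 : ℝ) / m ≤ 6 * X * HH X * δ := by
      calc 6 * X * δ * ∑ m ∈ (Icc 1 X).filter (fun m => Y ≤ X / m), (1 : ℝ) / m ≤ 6 * X * δ * HH X := by gcongr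
        _ = _ := by ring
    linarith
  rw [hsplit]
  have h6 : 6 * (X : ℝ) * ∑ m ∈ (Icc 1 X).filter (fun m => Y ≤ X / m), ∑ h ∈ Icc 1 K,
        (if c * (X / m : ℕ) ≤ SS (X / m) (h * m * θ) then (1 : ℝ) / m / h else 0) ≤
      6 * X * (K * (⌊16 / c ^ 2⌋₊ : ℝ) ^ 2 * (4 * (2 * (16 / c ^ 2) ^ 2) * (⌊16 / c ^ 2⌋₊ * K : ℝ) +
      (3 / q + 2 * (2 * (16 / c ^ 2) ^ 2) * q / X) * (HH (⌊16 / c ^ 2⌋₊ * K * X) + 1) + 6)) :=
    mul_le_mul_of_nonneg_left hbad (by positivity)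
  linarith

end Pool.Agent.NH21.Bty.AA

namespace Pool.Agent.NH21.Bty

open Finset Filter Topology AA

/-- minor arcs -/
theorem lem_A (hW : S_WET) (hE : S_EQ) : S_A := by
  obtain ⟨N0, hE⟩ := hE
  have hLL : Tendsto (fun X : ℕ => LL X) atTop atTop :=
    Real.tendsto_log_atTop.comp (Real.tendsto_log_atTop.comp tendsto_natCast_atTop_atTop)
  have hpow : ∀ᶠ x : ℝ in atTop, x ^ 48 ≤ Real.exp x := by
    have h := (Real.isLittleO_pow_exp_atTop (n := 48)).bound (zero_lt_one)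
    filter_upwards [h, eventually_ge_atTop 0] with x hx hx0
    rw [one_mul, Real.norm_eq_abs, Real.norm_eq_abs, abs_of_nonneg (by positivity), abs_of_pos (Real.exp_pos _)] at hx
    exact hx
  have hN0 : ∀ᶠ x : ℝ in atTop, (N0 : ℝ) ≤ Real.exp (4 * x ^ 3) := by
    filter_upwards [eventually_ge_atTop (N0 : ℝ), eventually_ge_atTop 1] with x hx hx1
    have h1 : x ≤ x ^ 3 := by nlinarith [sq_nonneg (x - 1), mul_nonneg (by linarith : (0 : ℝ) ≤ x) (by nlinarith : (0 : ℝ) ≤ x ^ 2 - 1)]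
    have h2 := Real.add_one_le_exp (4 * x ^ 3)
    linarith
  have hev : ∀ᶠ X : ℕ in atTop, 2 ≤ LL X ∧ LL X ^ 48 ≤ Real.exp (LL X) ∧ (N0 : ℝ) ≤ Real.exp (4 * LL X ^ 3) := by
    filter_upwards [hLL.eventually (eventually_ge_atTop 2), hLL.eventually hpow, hLL.eventually hN0] with X h1 h2 h3
    exact ⟨h1, h2, h3⟩
  obtain ⟨X0, hX0⟩ := eventually_atTop.1 hev
  refine ⟨36 + 40 + 6144 * 68623 + 48, X0, fun X hX θ κ a q hq hc hθ hq1 hq2 => ?_⟩
  obtain ⟨hL2, hLe, hLN⟩ := hX0 X hX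
  set L : ℝ := LL X with hLdef
  have hlogX0 : 0 ≤ Real.log X := Real.log_natCast_nonneg X
  have hlogpos : 0 < Real.log X := by
    rcases hlogX0.lt_or_eq with h | h
    · exact h
    · exfalso
      have : L = 0 := by rw [hLdef, LL, ← h, Real.log_zero]
      linarith
  have hexpL : Real.exp L = Real.log X := by rw [hLdef, LL, Real.exp_log hlogpos]
  set l : ℝ := Real.log X with hl
  have hX1 : (1 : ℝ) < X := by
    by_contra h
    push Not at h
    have : l ≤ 0 := Real.log_nonpos (Nat.cast_nonneg _) h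
    linarith
  have hXn : 1 ≤ X := by
    have : (1 : ℝ) ≤ X := hX1.le
    exact_mod_cast this
  have hXpos : (0 : ℝ) < X := by linarith
  have hexpl : Real.exp l = X := by rw [hl, Real.exp_log hXpos]
  have hL0 : (0 : ℝ) < L := by linarith
  have hL1 : (1 : ℝ) ≤ L := by linarith
  rw [hexpL] at hLe
  have hq0 : (0 : ℝ) < q := by exact_mod_cast hq
  -- small consequences
  have hL3 : (8 : ℝ) ≤ L ^ 3 := by
    calc (8 : ℝ) = 2 ^ 3 := by norm_num
      _ ≤ L ^ 3 := by gcongr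
  have hp5 : L ^ 5 ≤ l := (pow_le_pow_right₀ hL1 (by norm_num)).trans hLe
  have hl2 : 4 * L ^ 3 + 2 ≤ l := by
    have h1 : L ^ 6 ≤ l := (pow_le_pow_right₀ hL1 (by norm_num)).trans hLe
    have h2 : L ^ 6 = L ^ 3 * L ^ 3 := by ring
    nlinarith
  have hl3 : 6 + 14 * L ≤ l := by
    have h1 : L ^ 6 ≤ l := (pow_le_pow_right₀ hL1 (by norm_num)).trans hLe
    have h2 : L ^ 6 = L * L ^ 5 := by ring
    have h3 : (32 : ℝ) ≤ L ^ 5 := by
      calc (32 : ℝ) = 2 ^ 5 := by norm_num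
        _ ≤ L ^ 5 := by gcongr
    nlinarith
  have hl1 : 1 ≤ l := by linarith
  -- the parameters
  set c : ℝ := 1 / L ^ 3 with hcdef
  have hc0 : 0 < c := by positivity
  have hc1 : c ≤ 1 := by
    rw [hcdef, div_le_one (by positivity)]
    linarith
  set δ : ℝ := 1 / L ^ 4 with hδdef
  have hδ0 : 0 < δ := by positivity
  have hδ1 : δ ≤ 1 := by
    rw [hδdef, div_le_one (by positivity)]
    exact one_le_pow₀ hL1
  set K : ℕ := ⌈L ^ 8⌉₊ with hKdef
  have hK1 : L ^ 8 ≤ K := Nat.le_ceil _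
  have hL8 : (1 : ℝ) ≤ L ^ 8 := one_le_pow₀ hL1
  have hK2 : (K : ℝ) ≤ 2 * L ^ 8 := by
    have := Nat.ceil_lt_add_one (show (0 : ℝ) ≤ L ^ 8 by positivity)
    linarith
  have hKn : 1 ≤ K := by
    have : (1 : ℝ) ≤ K := by linarith
    exact_mod_cast this
  set Y : ℕ := max N0 ⌈Real.exp (4 * L ^ 3)⌉₊ with hYdef
  have hexp1 : (1 : ℝ) ≤ Real.exp (4 * L ^ 3) := Real.one_le_exp (by positivity)
  have hYlow : Real.exp (4 * L ^ 3) ≤ Y := by
    rw [hYdef]
    push_cast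
    exact (Nat.le_ceil _).trans (le_max_right _ _)
  have hYup : (Y : ℝ) ≤ 2 * Real.exp (4 * L ^ 3) := by
    rw [hYdef]
    push_cast
    refine max_le (by linarith) ?_
    have := Nat.ceil_lt_add_one (show (0 : ℝ) ≤ Real.exp (4 * L ^ 3) by positivity)
    linarith
  have hY1 : 1 ≤ Y := by
    have : (1 : ℝ) ≤ Y := by linarith
    exact_mod_cast this
  have hYpos : (0 : ℝ) < Y := by linarith
  have hYN : N0 ≤ Y := le_max_left _ _
  have hexp2 : (2 : ℝ) ≤ Real.exp 1 := by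
    have := Real.add_one_le_exp (1 : ℝ)
    linarith
  have hYX : Y ≤ X := by
    have : (Y : ℝ) ≤ X := by
      calc (Y : ℝ) ≤ 2 * Real.exp (4 * L ^ 3) := hYup
        _ ≤ Real.exp 1 * Real.exp (4 * L ^ 3) := by gcongr
        _ = Real.exp (1 + 4 * L ^ 3) := by rw [Real.exp_add]
        _ ≤ Real.exp l := Real.exp_le_exp.2 (by linarith)
        _ = X := hexpl
    exact_mod_cast this
  have hYl : 4 / c ≤ Real.log Y := by
    rw [hcdef, div_div_eq_mul_div, div_one]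
    rw [Real.le_log_iff_exp_le hYpos]
    exact hYlow
  have hmain := assemble hW N0 hE θ κ a q hq hc hθ X K Y c δ hc0 hc1 hKn hδ0 hδ1 hY1 hYN hYX hYl
  refine hmain.trans ?_
  have hB : 16 / c ^ 2 = 16 * L ^ 6 := by
    rw [hcdef]
    field_simp
  rw [hB]
  set Bn : ℕ := ⌊16 * L ^ 6⌋₊ with hBn
  have hBn1 : (Bn : ℝ) ≤ 16 * L ^ 6 := Nat.floor_le (by positivity)
  have hBnn : 1 ≤ Bn := by
    apply Nat.le_floor
    have : (1 : ℝ) ≤ L ^ 6 := one_le_pow₀ hL1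
    push_cast
    linarith
  have hlogY : Real.log (2 * Y) ≤ 6 * L ^ 3 := by
    have h1 : (2 : ℝ) * Y ≤ Real.exp (2 + 4 * L ^ 3) := by
      calc (2 : ℝ) * Y ≤ 2 * (2 * Real.exp (4 * L ^ 3)) := by gcongr
        _ = (2 * 2) * Real.exp (4 * L ^ 3) := by ring
        _ ≤ (Real.exp 1 * Real.exp 1) * Real.exp (4 * L ^ 3) := by gcongr
        _ = Real.exp (2 + 4 * L ^ 3) := by rw [← Real.exp_add, ← Real.exp_add]; norm_num
    have h2 : Real.log (2 * Y) ≤ 2 + 4 * L ^ 3 := by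
      rw [Real.log_le_iff_le_exp (by positivity)]
      exact h1
    linarith
  have hHX : HH X ≤ 2 * l := by
    have := HH_le X
    rw [← hl] at this
    linarith
  have hHX0 := HH_nonneg X
  have hHK : HH K ≤ 10 * L := by
    have h1 := HH_le K
    have h2 : Real.log K ≤ 1 + 8 * L := by
      have h3 : Real.log K ≤ Real.log (2 * L ^ 8) := Real.log_le_log (by exact_mod_cast hKn) hK2
      rw [Real.log_mul (by norm_num) (by positivity), Real.log_pow] at h3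
      have h4 : Real.log 2 ≤ 1 := by
        have := Real.log_two_lt_d9
        linarith
      have h5 : Real.log L ≤ L := (Real.log_le_sub_one_of_pos hL0).trans (by linarith)
      push_cast at h3
      linarith
    linarith
  have hHK0 := HH_nonneg K
  have hHT : HH (Bn * K * X) + 1 ≤ 3 * l := by
    have h1 := HH_le (Bn * K * X)
    have hT0 : (0 : ℝ) < ((Bn * K * X : ℕ) : ℝ) := by
      exact_mod_cast Nat.mul_pos (Nat.mul_pos hBnn hKn) hXn
    have h2 : ((Bn * K * X : ℕ) : ℝ) ≤ 32 * L ^ 14 * X := by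
      push_cast
      calc (Bn : ℝ) * K * X ≤ (16 * L ^ 6) * (2 * L ^ 8) * X := by gcongr
        _ = _ := by ring
    have h3 : Real.log ((Bn * K * X : ℕ) : ℝ) ≤ 4 + 14 * L + l := by
      have h4 := Real.log_le_log hT0 h2
      rw [Real.log_mul (by positivity) (by positivity), Real.log_mul (by norm_num) (by positivity), Real.log_pow] at h4
      have h5 : Real.log 32 ≤ 4 := by
        have e : (32 : ℝ) = 2 ^ 5 := by norm_num
        rw [e, Real.log_pow]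
        have := Real.log_two_lt_d9
        push_cast
        linarith
      have h6 : Real.log L ≤ L := (Real.log_le_sub_one_of_pos hL0).trans (by linarith)
      push_cast at h4
      push_cast
      rw [← hl] at h4
      linarith
    linarith
  have hHT0 := HH_nonneg (Bn * K * X)
  -- the five terms
  have hU : (0 : ℝ) ≤ X * l / L ^ 2 := by positivity
  have t1 : 6 * X * Real.log (2 * Y) ≤ 36 * (X * l / L ^ 2) := by
    calc 6 * X * Real.log (2 * Y) ≤ 6 * X * (6 * L ^ 3) := by gcongr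
      _ = 36 * (X * L ^ 5 / L ^ 2) := by field_simp; ring
      _ ≤ 36 * (X * l / L ^ 2) := by gcongr
  have t2 : c * X * HH X * HH K ≤ 20 * (X * l / L ^ 2) := by
    calc c * X * HH X * HH K ≤ c * X * (2 * l) * (10 * L) := by gcongr
      _ = 20 * (X * l / L ^ 2) := by rw [hcdef]; field_simp; ring
  have t4 : 6 * X * HH X / (K * δ) ≤ 12 * (X * l / L ^ 2) := by
    calc 6 * X * HH X / (K * δ) ≤ 6 * X * (2 * l) / (L ^ 8 * δ) := by gcongr
      _ = 12 * (X * l / L ^ 4) := by rw [hδdef]; field_simp; ring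
      _ ≤ 12 * (X * l / L ^ 2) := by
          gcongr
          norm_num
  have t5 : 6 * X * HH X * δ ≤ 12 * (X * l / L ^ 2) := by
    calc 6 * X * HH X * δ ≤ 6 * X * (2 * l) * δ := by gcongr
      _ = 12 * (X * l / L ^ 4) := by rw [hδdef]; field_simp; ring
      _ ≤ 12 * (X * l / L ^ 2) := by
          gcongr
          norm_num
  have t3 : 6 * X * (K * (Bn : ℝ) ^ 2 * (4 * (2 * (16 * L ^ 6) ^ 2) * (Bn * K : ℝ) +
      (3 / q + 2 * (2 * (16 * L ^ 6) ^ 2) * q / X) * (HH (Bn * K * X) + 1) + 6)) ≤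
      3072 * 68623 * (X * l / L ^ 2) := by
    have a1 : (K : ℝ) * (Bn : ℝ) ^ 2 ≤ 512 * L ^ 20 := by
      calc (K : ℝ) * (Bn : ℝ) ^ 2 ≤ (2 * L ^ 8) * (16 * L ^ 6) ^ 2 := by gcongr
        _ = _ := by ring
    have a2 : 4 * (2 * (16 * L ^ 6) ^ 2) * (Bn * K : ℝ) ≤ 65536 * L ^ 26 := by
      calc 4 * (2 * (16 * L ^ 6) ^ 2) * (Bn * K : ℝ) ≤ 4 * (2 * (16 * L ^ 6) ^ 2) * ((16 * L ^ 6) * (2 * L ^ 8)) := by gcongr
        _ = _ := by ring
    have a3 : 3 / (q : ℝ) + 2 * (2 * (16 * L ^ 6) ^ 2) * q / X ≤ 1027 / L ^ 24 := by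
      have b1 : 3 / (q : ℝ) ≤ 3 / L ^ 24 := by gcongr
      have b2 : 2 * (2 * (16 * L ^ 6) ^ 2) * q / X ≤ 1024 / L ^ 24 := by
        calc 2 * (2 * (16 * L ^ 6) ^ 2) * q / X ≤ 2 * (2 * (16 * L ^ 6) ^ 2) * (X / L ^ 36) / X := by gcongr
          _ = 1024 / L ^ 24 := by field_simp; ring
      calc 3 / (q : ℝ) + 2 * (2 * (16 * L ^ 6) ^ 2) * q / X ≤ 3 / L ^ 24 + 1024 / L ^ 24 := by linarith
        _ = _ := by ring
    have a4 : (3 / (q : ℝ) + 2 * (2 * (16 * L ^ 6) ^ 2) * q / X) * (HH (Bn * K * X) + 1) ≤ 3081 * l / L ^ 24 := by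
      calc (3 / (q : ℝ) + 2 * (2 * (16 * L ^ 6) ^ 2) * q / X) * (HH (Bn * K * X) + 1) ≤ (1027 / L ^ 24) * (3 * l) := by gcongr
        _ = _ := by ring
    calc 6 * X * (K * (Bn : ℝ) ^ 2 * (4 * (2 * (16 * L ^ 6) ^ 2) * (Bn * K : ℝ) +
      (3 / q + 2 * (2 * (16 * L ^ 6) ^ 2) * q / X) * (HH (Bn * K * X) + 1) + 6))
        ≤ 6 * X * ((512 * L ^ 20) * (65536 * L ^ 26 + 3081 * l / L ^ 24 + 6)) := by gcongr
      _ = 3072 * (X * (65536 * L ^ 48 / L ^ 2 + 3081 * (l / L ^ 4) + 6 * L ^ 22 / L ^ 2)) := by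
          field_simp
          ring
      _ ≤ 3072 * (X * (65536 * l / L ^ 2 + 3081 * (l / L ^ 2) + 6 * l / L ^ 2)) := by
          have c1 : L ^ 22 ≤ l := (pow_le_pow_right₀ hL1 (by norm_num)).trans hLe
          gcongr
          norm_num
      _ = 3072 * 68623 * (X * l / L ^ 2) := by ring
  have efin : (36 + 40 + 6144 * 68623 + 48) * X * l / L ^ 2 = (36 + 40 + 6144 * 68623 + 48) * (X * l / L ^ 2) := by ring
  rw [efin]
  linarith

end Pool.Agent.NH21.Bty
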