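import Pool.Agent.NH21.Bty.Ev

/-! # The characteristic function of `ω` along a Beatty sequence -/

set_option autoImplicit false

namespace Pool.Agent.NH21.Bty

open Finset Filter Topology

lemma cpow_close {L L' ε : ℝ} {w : ℂ} (hL : 0 < L) (hL' : 0 < L') (h : |Real.log L' - Real.log L| ≤ ε)
    (hw : ‖w‖ * ε ≤ 1) : ‖(L' : ℂ) ^ w - (L : ℂ) ^ w‖ ≤ L ^ w.re * (2 * (‖w‖ * ε)) := by
  have h1 : (L' : ℂ) ^ w = (L : ℂ) ^ w * Complex.exp (((Real.log L' - Real.log L : ℝ) : ℂ) * w) := by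
    rw [Complex.cpow_def_of_ne_zero (by exact_mod_cast hL'.ne'), Complex.cpow_def_of_ne_zero (by exact_mod_cast hL.ne'),
      ← Complex.exp_add, ← Complex.ofReal_log hL.le, ← Complex.ofReal_log hL'.le]
    congr 1
    push_cast
    ring
  have h2 : ‖(((Real.log L' - Real.log L : ℝ) : ℂ) * w)‖ ≤ ‖w‖ * ε := by
    rw [norm_mul, Complex.norm_real, Real.norm_eq_abs, mul_comm]
    exact mul_le_mul_of_nonneg_left h (norm_nonneg _)
  have h3 := Complex.norm_exp_sub_one_le (h2.trans hw)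
  rw [h1, show (L : ℂ) ^ w * Complex.exp (((Real.log L' - Real.log L : ℝ) : ℂ) * w) - (L : ℂ) ^ w =
    (L : ℂ) ^ w * (Complex.exp (((Real.log L' - Real.log L : ℝ) : ℂ) * w) - 1) by ring, norm_mul,
    Complex.norm_cpow_eq_rpow_re_of_pos hL]
  apply mul_le_mul_of_nonneg_left _ (Real.rpow_nonneg hL.le _)
  linarith

lemma log_close {L L' D : ℝ} (hL : 0 < L) (hD : 0 ≤ D) (h : |L' - L| ≤ D) (h2 : 2 * D ≤ L) :
    |Real.log L' - Real.log L| ≤ 2 * D / L := by
  have hL'2 : L / 2 ≤ L' := by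
    have := (abs_le.1 h).1
    linarith
  have hL' : 0 < L' := by linarith
  have key : ∀ x y : ℝ, 0 < x → L / 2 ≤ x → 0 < y → |y - x| ≤ D → Real.log y - Real.log x ≤ 2 * D / L := by
    intro x y hx hx2 hy hxy
    rw [← Real.log_div hy.ne' hx.ne']
    refine (Real.log_le_sub_one_of_pos (div_pos hy hx)).trans ?_
    have h3 : y / x - 1 = (y - x) / x := by field_simp
    rw [h3]
    calc (y - x) / x ≤ D / x := by
          apply div_le_div_of_nonneg_right ((le_abs_self _).trans hxy) hx.le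
      _ ≤ D / (L / 2) := by
          apply div_le_div_of_nonneg_left hD (by linarith) hx2
      _ = 2 * D / L := by field_simp
  rw [abs_le]
  constructor
  · have := key L' L hL' hL'2 hL (by rw [abs_sub_comm]; exact h)
    linarith
  · exact key L L' hL (by linarith) hL' h

theorem char_of (hC : S_Core) (hS : S_Sum) : S_Char := by
  intro α hα β
  obtain ⟨θ, hθ⟩ : ∃ θ : ℝ, θ = α⁻¹ := ⟨_, rfl⟩
  have hθ0 : 0 < θ := by rw [hθ]; positivity
  have hθα : θ * α = 1 := by rw [hθ]; exact inv_mul_cancel₀ hα.ne'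
  obtain ⟨C1, N1, h1⟩ := hS α hα β
  obtain ⟨C2, X2, h2⟩ := hC θ hθ0 (β * α⁻¹)
  obtain ⟨N3, hN3⟩ := ev_LL 2 1
  obtain ⟨A, hA⟩ : ∃ A : ℝ, A = |β| + 1 := ⟨_, rfl⟩
  have hA0 : 0 < A := by rw [hA]; positivity
  obtain ⟨D, hD⟩ : ∃ D : ℝ, D = |Real.log α| + Real.log 2 := ⟨_, rfl⟩
  have hD0 : 0 ≤ D := by rw [hD]; have := Real.log_nonneg (by norm_num : (1 : ℝ) ≤ 2); positivity
  have ev : ∀ᶠ N : ℕ in atTop, N1 ≤ N ∧ N3 ≤ N ∧ ((X2 : ℝ) + 2 * A + 1) / α ≤ N ∧ max 2 (2 * D) ≤ Real.log N ∧ 2 ≤ LL N := by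
    filter_upwards [eventually_ge_atTop N1, eventually_ge_atTop N3,
      tendsto_natCast_atTop_atTop.eventually_ge_atTop (((X2 : ℝ) + 2 * A + 1) / α),
      tendsto_log_nat.eventually_ge_atTop (max 2 (2 * D)), tendsto_LL.eventually_ge_atTop 2] with N a1 a2 a3 a4 a5
    exact ⟨a1, a2, a3, a4, a5⟩
  obtain ⟨N0, hN0⟩ := eventually_atTop.1 ev
  refine ⟨|C1| + 8 * α * |C2| + 2 * A / α + 4, max N0 1, ?_⟩
  intro N hN τ hτ
  obtain ⟨a1, a2, a3, a4, a5⟩ := hN0 N ((le_max_left _ _).trans hN)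
  have hN1 : 1 ≤ N := (le_max_right _ _).trans hN
  have hNr : (1 : ℝ) ≤ N := by exact_mod_cast hN1
  have hNp : (0 : ℝ) < N := by linarith
  rw [div_le_iff₀ hα] at a3
  have hlog2 : 2 ≤ Real.log N := (le_max_left _ _).trans a4
  have hlogD : 2 * D ≤ Real.log N := (le_max_right _ _).trans a4
  have hβ1 : |β| ≤ A := by rw [hA]; linarith
  have hβ2 := (abs_le.1 hβ1).1
  have hβ3 := (abs_le.1 hβ1).2
  have hX2r : (0 : ℝ) ≤ X2 := Nat.cast_nonneg _
  -- the parameter `X`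
  obtain ⟨X, hX⟩ : ∃ X : ℕ, X = ⌊α * N + β⌋.toNat := ⟨_, rfl⟩
  have hXz : (X : ℤ) = ⌊α * N + β⌋ := by
    rw [hX]
    apply Int.toNat_of_nonneg
    rw [Int.floor_nonneg]
    nlinarith
  have hXr : (X : ℝ) = (⌊α * N + β⌋ : ℝ) := by exact_mod_cast hXz
  have hXl : (X : ℝ) ≤ α * N + β := by rw [hXr]; exact Int.floor_le _
  have hXg : α * N + β - 1 < X := by rw [hXr]; exact Int.sub_one_lt_floor _
  have hXX2 : X2 ≤ X := by
    have : (X2 : ℝ) ≤ X := by nlinarith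
    exact_mod_cast this
  have hXN : |(X : ℝ) - α * N| ≤ A := by
    rw [abs_le]
    constructor
    · have : -|β| ≤ β := neg_abs_le β
      rw [hA]
      linarith
    · linarith
  have hXlo : α * N / 2 ≤ X := by
    have := (abs_le.1 hXN).1
    nlinarith
  have hXup : (X : ℝ) ≤ 2 * (α * N) := by
    have := (abs_le.1 hXN).2
    nlinarith
  have hαN : 0 < α * N := by positivity
  have hX0 : (0 : ℝ) < X := by linarith
  have hXND : |Real.log X - Real.log N| ≤ D := by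
    have e1 : Real.log (α * N / 2) ≤ Real.log X := Real.log_le_log (by positivity) hXlo
    have e2 : Real.log X ≤ Real.log (2 * (α * N)) := Real.log_le_log hX0 hXup
    rw [Real.log_div hαN.ne' (by norm_num), Real.log_mul hα.ne' hNp.ne'] at e1
    rw [Real.log_mul (by norm_num) hαN.ne', Real.log_mul hα.ne' hNp.ne'] at e2
    have e3 := neg_abs_le (Real.log α)
    have e4 := le_abs_self (Real.log α)
    rw [abs_le, hD]
    constructor <;> linarith
  obtain ⟨L, hL⟩ : ∃ L : ℝ, L = Real.log N := ⟨_, rfl⟩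
  obtain ⟨L', hL'⟩ : ∃ L' : ℝ, L' = Real.log X := ⟨_, rfl⟩
  rw [← hL, ← hL'] at hXND
  rw [← hL] at hlog2 hlogD
  have hL0 : 0 < L := by linarith
  have hL'2 : L / 2 ≤ L' := by
    have := (abs_le.1 hXND).1
    linarith
  have hL'0 : 0 < L' := by linarith
  have hLL : LL N = Real.log L := by rw [hL]; rfl
  have hLL' : LL X = Real.log L' := by rw [hL']; rfl
  have hLLX : LL N / 2 ≤ LL X := by
    rw [hLL, hLL']
    have e1 : Real.log (L / 2) ≤ Real.log L' := Real.log_le_log (by positivity) hL'2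
    rw [Real.log_div hL0.ne' (by norm_num)] at e1
    have e2 : Real.log 2 ≤ 1 := by
      have := Real.log_two_lt_d9
      linarith
    rw [hLL] at a5
    linarith
  have hLLp : 0 < LL N := by linarith
  have hcl := log_close hL0 hD0 hXND hlogD
  -- the parameter `z`
  obtain ⟨z, hz⟩ : ∃ z : ℂ, z = Complex.exp (τ * Complex.I) := ⟨_, rfl⟩
  have hz1 : ‖z‖ = 1 := by rw [hz]; exact Complex.norm_exp_ofReal_mul_I τ
  have hzt : ‖z - 1‖ ≤ |τ| := by
    rw [hz, mul_comm]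
    exact Real.norm_exp_I_mul_ofReal_sub_one_le
  have hz5 : ‖z - 1‖ ≤ 1 / 5 := hzt.trans hτ
  have hzre : z.re = Real.cos τ := by rw [hz]; exact Complex.exp_ofReal_mul_I_re τ
  have hzpow : ∀ k : ℕ, Complex.exp (τ * (k : ℂ) * Complex.I) = z ^ k := by
    intro k
    rw [hz, ← Complex.exp_nat_mul]
    congr 1
    ring
  have hc0 : z.re - 1 ≤ 0 := by rw [hzre]; linarith [Real.cos_le_one τ]
  have hcm : -1 ≤ z.re - 1 := by
    have e1 : |(z - 1).re| ≤ ‖z - 1‖ := Complex.abs_re_le_norm _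
    rw [Complex.sub_re, Complex.one_re] at e1
    have := (abs_le.1 e1).1
    linarith
  obtain ⟨c, hc⟩ : ∃ c : ℝ, c = z.re - 1 := ⟨_, rfl⟩
  rw [← hc] at hc0 hcm
  have hcw : (z - 1).re = c := by rw [hc, Complex.sub_re, Complex.one_re]
  have hLc0 : 0 < L ^ c := Real.rpow_pos_of_pos hL0 _
  have hLc1 : L ^ c ≤ 1 := Real.rpow_le_one_of_one_le_of_nonpos (by linarith) hc0
  have hL'c : L' ^ c ≤ 2 * L ^ c := by
    calc L' ^ c ≤ (L / 2) ^ c := Real.rpow_le_rpow_of_nonpos (by linarith) hL'2 hc0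
      _ = L ^ c * 2 ^ (-c) := by
          rw [Real.div_rpow hL0.le (by norm_num), Real.rpow_neg (by norm_num)]
          rfl
      _ ≤ L ^ c * 2 ^ (1 : ℝ) := by
          apply mul_le_mul_of_nonneg_left _ hLc0.le
          exact Real.rpow_le_rpow_of_exponent_le (by norm_num) (by linarith)
      _ = 2 * L ^ c := by rw [Real.rpow_one]; ring
  have hL'c0 : 0 < L' ^ c := Real.rpow_pos_of_pos hL'0 _
  -- the comparison of the powers
  have hpow : ‖(L' : ℂ) ^ (z - 1) - (L : ℂ) ^ (z - 1)‖ ≤ 2 * |τ| * L ^ c := by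
    have e1 : ‖z - 1‖ * (2 * D / L) ≤ 1 := by
      have e2 : 2 * D / L ≤ 1 := by rw [div_le_one hL0]; exact hlogD
      have e3 : 0 ≤ 2 * D / L := by positivity
      nlinarith [norm_nonneg (z - 1)]
    have e4 := cpow_close hL0 hL'0 hcl e1
    rw [hcw] at e4
    refine e4.trans ?_
    have e2 : 2 * D / L ≤ 1 := by rw [div_le_one hL0]; exact hlogD
    have e5 : ‖z - 1‖ * (2 * D / L) ≤ |τ| * 1 := by
      apply mul_le_mul hzt e2 (by positivity) (abs_nonneg _)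
    calc L ^ c * (2 * (‖z - 1‖ * (2 * D / L))) ≤ L ^ c * (2 * (|τ| * 1)) := by
          apply mul_le_mul_of_nonneg_left _ hLc0.le
          linarith
      _ = 2 * |τ| * L ^ c := by ring
  -- the two inputs
  have b1 := h1 N a1 (fun m => z ^ om m) (fun n => by rw [norm_pow, hz1, one_pow])
  have b2 := h2 X hXX2 z hz1 hz5
  rw [← hX, ← hθ] at b1
  rw [← hθ, ← hL', hLL'] at b2
  rw [← hLL'] at b2
  obtain ⟨S, hSd⟩ : ∃ S : ℂ, S = ∑ n ∈ Icc 1 N, z ^ om (⌊α * n + β⌋.toNat) := ⟨_, rfl⟩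
  obtain ⟨W, hWd⟩ : ∃ W : ℂ, W = ∑ m ∈ Icc 1 X, ((θ + gB (β * θ) θ m : ℝ) : ℂ) * z ^ om m := ⟨_, rfl⟩
  rw [← hSd, ← hWd] at b1
  rw [← hWd, ← hc] at b2
  have hsum : ∑ n ∈ Icc 1 N, Complex.exp (τ * (om (⌊α * n + β⌋.toNat) : ℂ) * Complex.I) = S := by
    rw [hSd]
    exact sum_congr rfl fun n _ => hzpow _
  rw [hsum, ← hz, ← hL, ← hzre, ← hc]
  -- put together
  have hNc : (N : ℂ) ≠ 0 := by exact_mod_cast hNp.ne'
  have hdec : (1 / (N : ℂ)) * S - (L : ℂ) ^ (z - 1) = (1 / (N : ℂ)) * (S - W) +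
      (1 / (N : ℂ)) * (W - (θ * X : ℝ) * z * (L' : ℂ) ^ (z - 1)) +
      (((θ * X / N - 1 : ℝ) : ℂ) * z * (L' : ℂ) ^ (z - 1) + (z - 1) * (L' : ℂ) ^ (z - 1) +
        ((L' : ℂ) ^ (z - 1) - (L : ℂ) ^ (z - 1))) := by
    push_cast
    field_simp
    ring
  have hN' : ‖(1 / (N : ℂ))‖ = 1 / N := by
    rw [norm_div, norm_one, Complex.norm_natCast]
  have hL'n : ‖(L' : ℂ) ^ (z - 1)‖ = L' ^ c := by
    rw [Complex.norm_cpow_eq_rpow_re_of_pos hL'0, hcw]
  have hNLL : 1 / (N : ℝ) ≤ 1 / LL N ^ 2 := by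
    obtain ⟨_, e1⟩ := hN3 N a2
    have e2 : √(Real.log N) ≤ N := by
      rw [Real.sqrt_le_left hNp.le]
      have e3 := Real.log_le_sub_one_of_pos hNp
      nlinarith
    apply one_div_le_one_div_of_le (by positivity)
    linarith
  have hθX : |θ * X / N - 1| ≤ A / α * (1 / N) := by
    have e1 : θ * X / N - 1 = θ * (X - α * N) / N := by
      rw [mul_sub, ← mul_assoc, hθα]
      field_simp
    rw [e1, abs_div, abs_mul, abs_of_pos hθ0, abs_of_pos hNp]
    calc θ * |(X : ℝ) - α * N| / N ≤ θ * A / N := by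
          apply div_le_div_of_nonneg_right _ hNp.le
          exact mul_le_mul_of_nonneg_left hXN hθ0.le
      _ = A / α * (1 / N) := by rw [hθ]; field_simp
  have hLLX2 : 1 / LL X ^ 2 ≤ 4 * (1 / LL N ^ 2) := by
    have e1 : (LL N / 2) ^ 2 ≤ LL X ^ 2 := pow_le_pow_left₀ (by positivity) hLLX 2
    calc 1 / LL X ^ 2 ≤ 1 / (LL N / 2) ^ 2 := one_div_le_one_div_of_le (by positivity) e1
      _ = 4 * (1 / LL N ^ 2) := by field_simp; norm_num
  have hXN2 : (X : ℝ) / N ≤ 2 * α := by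
    rw [div_le_iff₀ hNp]
    linarith
  obtain ⟨T, hT⟩ : ∃ T : ℝ, T = |τ| * L ^ c + 1 / LL N ^ 2 := ⟨_, rfl⟩
  have hT1 : |τ| * L ^ c ≤ T := by rw [hT]; have : 0 ≤ 1 / LL N ^ 2 := by positivity
                                   linarith
  have hT2 : 1 / LL N ^ 2 ≤ T := by rw [hT]; have : 0 ≤ |τ| * L ^ c := by positivity
                                    linarith
  have hT0 : 0 ≤ T := by rw [hT]; positivity
  rw [← hT]
  rw [hdec]
  have t1 : ‖(1 / (N : ℂ)) * (S - W)‖ ≤ |C1| * T := by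
    rw [norm_mul, hN', mul_comm]
    calc ‖S - W‖ * (1 / N) ≤ |C1| * (1 / N) := by
          apply mul_le_mul_of_nonneg_right (b1.trans (le_abs_self _)) (by positivity)
      _ ≤ |C1| * T := mul_le_mul_of_nonneg_left (hNLL.trans hT2) (abs_nonneg _)
  have t2 : ‖(1 / (N : ℂ)) * (W - (θ * X : ℝ) * z * (L' : ℂ) ^ (z - 1))‖ ≤ 8 * α * |C2| * T := by
    rw [norm_mul, hN']
    calc 1 / N * ‖W - (θ * X : ℝ) * z * (L' : ℂ) ^ (z - 1)‖
        ≤ 1 / N * (C2 * X * (‖z - 1‖ * L' ^ c + 1 / LL X ^ 2)) :=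
          mul_le_mul_of_nonneg_left b2 (by positivity)
      _ ≤ 1 / N * (|C2| * X * (|τ| * (2 * L ^ c) + 4 * (1 / LL N ^ 2))) := by
          apply mul_le_mul_of_nonneg_left _ (by positivity)
          apply mul_le_mul
          · exact mul_le_mul_of_nonneg_right (le_abs_self _) hX0.le
          · apply add_le_add _ hLLX2
            exact mul_le_mul hzt hL'c hL'c0.le (abs_nonneg _)
          · positivity
          · positivity
      _ = |C2| * (X / N) * (2 * (|τ| * L ^ c) + 4 * (1 / LL N ^ 2)) := by ring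
      _ ≤ |C2| * (2 * α) * (4 * T) := by
          apply mul_le_mul
          · exact mul_le_mul_of_nonneg_left hXN2 (abs_nonneg _)
          · rw [hT]
            have : 0 ≤ |τ| * L ^ c := by positivity
            linarith
          · positivity
          · positivity
      _ = 8 * α * |C2| * T := by ring
  have t3 : ‖((θ * X / N - 1 : ℝ) : ℂ) * z * (L' : ℂ) ^ (z - 1)‖ ≤ 2 * A / α * T := by
    rw [norm_mul, norm_mul, hz1, mul_one, hL'n, Complex.norm_real, Real.norm_eq_abs]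
    calc |θ * X / N - 1| * L' ^ c ≤ (A / α * (1 / N)) * 2 := by
          apply mul_le_mul hθX _ hL'c0.le (by positivity)
          linarith
      _ ≤ (A / α * T) * 2 := by
          apply mul_le_mul_of_nonneg_right _ (by norm_num)
          apply mul_le_mul_of_nonneg_left (hNLL.trans hT2) (by positivity)
      _ = 2 * A / α * T := by ring
  have t4 : ‖(z - 1) * (L' : ℂ) ^ (z - 1)‖ ≤ 2 * T := by
    rw [norm_mul, hL'n]
    calc ‖z - 1‖ * L' ^ c ≤ |τ| * (2 * L ^ c) := mul_le_mul hzt hL'c hL'c0.le (abs_nonneg _)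
      _ ≤ 2 * T := by linarith
  have t5 : ‖(L' : ℂ) ^ (z - 1) - (L : ℂ) ^ (z - 1)‖ ≤ 2 * T := by
    refine hpow.trans ?_
    linarith
  calc ‖(1 / (N : ℂ)) * (S - W) + (1 / (N : ℂ)) * (W - (θ * X : ℝ) * z * (L' : ℂ) ^ (z - 1)) +
      (((θ * X / N - 1 : ℝ) : ℂ) * z * (L' : ℂ) ^ (z - 1) + (z - 1) * (L' : ℂ) ^ (z - 1) +
        ((L' : ℂ) ^ (z - 1) - (L : ℂ) ^ (z - 1)))‖
      ≤ ‖(1 / (N : ℂ)) * (S - W)‖ + ‖(1 / (N : ℂ)) * (W - (θ * X : ℝ) * z * (L' : ℂ) ^ (z - 1))‖ +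
        (‖((θ * X / N - 1 : ℝ) : ℂ) * z * (L' : ℂ) ^ (z - 1)‖ + ‖(z - 1) * (L' : ℂ) ^ (z - 1)‖ +
          ‖(L' : ℂ) ^ (z - 1) - (L : ℂ) ^ (z - 1)‖) := by
        refine (norm_add_le _ _).trans (add_le_add (norm_add_le _ _) ?_)
        exact (norm_add_le _ _).trans (add_le_add (norm_add_le _ _) le_rfl)
    _ ≤ (|C1| + 8 * α * |C2| + 2 * A / α + 4) * T := by linarith

end Pool.Agent.NH21.Bty
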