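import Pool.Agent.NH21.Bty.Psi

/-! # The mean value of `z ^ ω(n)` with the weights of a Beatty sequence -/

set_option autoImplicit false

namespace Pool.Agent.NH21.Bty

open Finset Filter Topology
open Pool.Agent.H373R2.T7 (lam1 lam1_le pnt_lam)

/-- both kinds of arcs -/
lemma arcs (hA : S_A) (hB : S_B) : ∃ C : ℝ, 0 ≤ C ∧ ∃ X0 : ℕ, ∀ X : ℕ, X0 ≤ X → ∀ θ κ : ℝ,
    ∃ q : ℕ, 1 ≤ q ∧ 2 * q ≤ X ∧ ∃ b : ℕ → ℝ, (∀ d : ℕ, d ∣ q → |b d| ≤ (q.divisors.card : ℝ) ^ 2 * d / q) ∧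
      ∑ m ∈ Icc 1 X, |PP κ θ X m - (X : ℝ) / m * b (Nat.gcd m q)| ≤ C * X * Real.log X / LL X ^ 2 := by
  obtain ⟨CA, XA, hA⟩ := hA
  obtain ⟨CB, XB, hB⟩ := hB
  obtain ⟨X1, hX1⟩ := ev_LL 36 1
  obtain ⟨X2, hX2⟩ := ev_LL 24 1
  refine ⟨max (max CA CB) 0, le_max_right _ _, max (max XA XB) (max (max X1 X2) 16), fun X hX θ κ => ?_⟩
  have hXA : XA ≤ X := (le_trans (le_max_left _ _) (le_max_left _ _)).trans hX
  have hXB : XB ≤ X := (le_trans (le_max_right _ _) (le_max_left _ _)).trans hX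
  have hXc : X1 ≤ X := ((le_trans (le_max_left _ _) (le_max_left _ _)).trans (le_max_right _ _)).trans hX
  have hXd : X2 ≤ X := ((le_trans (le_max_right _ _) (le_max_left _ _)).trans (le_max_right _ _)).trans hX
  have hX16 : 16 ≤ X := ((le_max_right _ _).trans (le_max_right _ _)).trans hX
  obtain ⟨hL1, hL36⟩ := hX1 X hXc
  obtain ⟨_, hL24⟩ := hX2 X hXd
  rw [one_mul] at hL36 hL24
  have hXr : (16 : ℝ) ≤ X := by exact_mod_cast hX16
  have hX0 : (0 : ℝ) < X := by linarith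
  have hlog0 : 0 ≤ Real.log X := Real.log_natCast_nonneg X
  have hsq1 : √(Real.log X) ≤ √(X : ℝ) := Real.sqrt_le_sqrt ((Real.log_le_sub_one_of_pos hX0).trans (by linarith))
  have hsq2 : √(X : ℝ) ≤ X / 4 := by
    rw [Real.sqrt_le_left (by positivity)]
    nlinarith
  have hmono : ∀ C : ℝ, C ≤ max (max CA CB) 0 →
      C * X * Real.log X / LL X ^ 2 ≤ max (max CA CB) 0 * X * Real.log X / LL X ^ 2 := by
    intro C hC
    apply div_le_div_of_nonneg_right _ (by positivity)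
    apply mul_le_mul_of_nonneg_right _ hlog0
    exact mul_le_mul_of_nonneg_right hC hX0.le
  have hLp : 0 < LL X ^ 36 := by positivity
  obtain ⟨Q, hQ⟩ : ∃ Q : ℕ, Q = ⌊(X : ℝ) / LL X ^ 36⌋₊ := ⟨_, rfl⟩
  have hQ1 : 0 < Q := by
    rw [hQ]
    apply Nat.floor_pos.2
    rw [le_div_iff₀ hLp]
    linarith
  obtain ⟨r, hr1, hr2⟩ := Real.exists_rat_abs_sub_le_and_den_le θ hQ1
  obtain ⟨q, hq⟩ : ∃ q, q = r.den := ⟨_, rfl⟩
  have hq1 : 1 ≤ q := by rw [hq]; exact r.den_pos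
  have hqr : (0 : ℝ) < q := by exact_mod_cast hq1
  have hrr : (r : ℝ) = r.num / q := by rw [hq]; exact Rat.cast_def r
  rw [← hq] at hr1 hr2
  rw [hrr] at hr1
  have hqQ : (q : ℝ) ≤ X / LL X ^ 36 := by
    have h1 : (q : ℝ) ≤ Q := by exact_mod_cast hr2
    rw [hQ] at h1
    exact h1.trans (Nat.floor_le (by positivity))
  have hQl : (X : ℝ) / LL X ^ 36 < Q + 1 := by rw [hQ]; exact Nat.lt_floor_add_one _
  have hcop : IsCoprime r.num (q : ℤ) := by rw [hq]; exact Int.isCoprime_iff_gcd_eq_one.2 r.reduced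
  by_cases hbig : LL X ^ 24 ≤ q
  · have happ1 : |θ - r.num / q| ≤ 1 / (q : ℝ) ^ 2 := by
      refine hr1.trans ?_
      apply one_div_le_one_div_of_le (by positivity)
      have h1 : (q : ℝ) ≤ Q := by exact_mod_cast hr2
      nlinarith
    have h1 := hA X hXA θ κ r.num q hq1 hcop happ1 hbig hqQ
    refine ⟨1, le_rfl, by omega, fun _ => 0, fun d hd => ?_, ?_⟩
    · rw [abs_zero]; positivity
    · simp only [mul_zero, sub_zero]
      exact h1.trans (hmono CA ((le_max_left _ _).trans (le_max_left _ _)))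
  · push Not at hbig
    have happ2 : |θ - r.num / q| ≤ LL X ^ 36 / (q * X) := by
      refine hr1.trans ?_
      rw [div_le_div_iff₀ (by positivity) (by positivity)]
      rw [div_lt_iff₀ hLp] at hQl
      nlinarith
    obtain ⟨b, hb1, hb2⟩ := hB X hXB θ κ r.num q hq1 hcop hbig.le happ2
    refine ⟨q, hq1, ?_, b, hb1, hb2.trans (hmono CB ((le_max_right _ _).trans (le_max_left _ _)))⟩
    have h2 : (2 * q : ℝ) ≤ X := by linarith
    exact_mod_cast h2

lemma abs_gB_le (κ θ : ℝ) (n : ℕ) : |gB κ θ n| ≤ 1 := by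
  unfold gB
  have h1 := Int.fract_nonneg (κ - ((n : ℝ) + 1) * θ)
  have h2 := Int.fract_lt_one (κ - ((n : ℝ) + 1) * θ)
  have h3 := Int.fract_nonneg (κ - (n : ℝ) * θ)
  have h4 := Int.fract_lt_one (κ - (n : ℝ) * θ)
  rw [abs_le]
  constructor <;> linarith

lemma sum_gB (κ θ : ℝ) (X : ℕ) : |∑ n ∈ Icc 1 X, gB κ θ n| ≤ 1 := by
  have h1 : ∑ n ∈ Icc 1 X, gB κ θ n = Int.fract (κ - ((X : ℝ) + 1) * θ) - Int.fract (κ - 1 * θ) := by
    induction X with
    | zero => simp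
    | succ n ih =>
      rw [← insert_Icc_right_eq_Icc_add_one (by omega), sum_insert (by simp), ih]
      unfold gB
      push_cast
      ring
  rw [h1]
  have h1 := Int.fract_nonneg (κ - ((X : ℝ) + 1) * θ)
  have h2 := Int.fract_lt_one (κ - ((X : ℝ) + 1) * θ)
  have h3 := Int.fract_nonneg (κ - 1 * θ)
  have h4 := Int.fract_lt_one (κ - 1 * θ)
  rw [abs_le]
  constructor <;> linarith

theorem core_of (hL : S_Log) (hW : S_W) (hA : S_A) (hB : S_B) : S_Core := by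
  obtain ⟨C0, hlog⟩ := hL
  obtain ⟨C1, hC1, X1, harcs⟩ := arcs hA hB
  obtain ⟨C2, hC2, X2, hpsi⟩ := psi_sum
  obtain ⟨X3, hX3⟩ := ev_LL 2 1
  intro θ hθ κ
  obtain ⟨K, hK⟩ := hW θ
  have h5 : ∀ᶠ X : ℕ in atTop, 1 ≤ Real.log X := tendsto_log_nat.eventually_ge_atTop 1
  obtain ⟨X4, hX4⟩ := eventually_atTop.1 h5
  obtain ⟨C3, hC3⟩ : ∃ C3 : ℝ, C3 = |C0| * (θ + 1) + θ * C2 + C1 := ⟨_, rfl⟩
  have hC3p : 0 ≤ C3 := by rw [hC3]; positivity
  refine ⟨|K| + 2 * C3 + 1, max (max X1 X2) (max (max X3 X4) 2), fun X hX z hz hz1 => ?_⟩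
  have hXa : X1 ≤ X := (le_trans (le_max_left _ _) (le_max_left _ _)).trans hX
  have hXb : X2 ≤ X := (le_trans (le_max_right _ _) (le_max_left _ _)).trans hX
  have hXc : X3 ≤ X := ((le_trans (le_max_left _ _) (le_max_left _ _)).trans (le_max_right _ _)).trans hX
  have hXd : X4 ≤ X := ((le_trans (le_max_right _ _) (le_max_left _ _)).trans (le_max_right _ _)).trans hX
  have hX2' : 2 ≤ X := ((le_max_right _ _).trans (le_max_right _ _)).trans hX
  obtain ⟨hL1, hL2⟩ := hX3 X hXc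
  rw [one_mul] at hL2
  have hlog1 := hX4 X hXd
  have hXr : (2 : ℝ) ≤ X := by exact_mod_cast hX2'
  have hX0 : (0 : ℝ) < X := by linarith
  have hlogp : 0 < Real.log X := by linarith
  have hLsq : 0 < LL X ^ 2 := by positivity
  have hLlog : LL X ^ 2 ≤ Real.log X := by
    refine hL2.trans ?_
    rw [Real.sqrt_le_left (by linarith)]
    nlinarith
  obtain ⟨q, hq1, hq2, b, hb1, hb2⟩ := harcs X hXa θ κ
  have hps := hpsi X hXb
  obtain ⟨W, hWd⟩ : ∃ W : ℂ → ℂ, W = fun z => ∑ m ∈ Icc 1 X, ((θ + b (Nat.gcd m q) : ℝ) : ℂ) * z ^ om m / (m : ℂ) := ⟨_, rfl⟩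
  obtain ⟨D, hD⟩ : ∃ D : ℂ → ℂ, D = fun z => ∑ n ∈ Icc 1 X, ((θ + gB κ θ n : ℝ) : ℂ) * z ^ om n := ⟨_, rfl⟩
  obtain ⟨E, hE⟩ : ∃ E : ℝ, E = X * Real.log X / LL X ^ 2 := ⟨_, rfl⟩
  have hEX : (X : ℝ) ≤ E := by
    rw [hE, le_div_iff₀ hLsq]
    exact mul_le_mul_of_nonneg_left hLlog hX0.le
  have hE0 : 0 < E := by linarith
  -- the main identity
  have main : ∀ w : ℂ, ‖w‖ = 1 → ‖(Real.log X : ℂ) * D w - w * (X : ℂ) * W w‖ ≤ C3 * E := by
    intro w hw
    have h1 := hlog X hX2' (fun n => θ + gB κ θ n) (θ + 1) (fun n => by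
      have := abs_gB_le κ θ n
      refine (abs_add_le _ _).trans ?_
      rw [abs_of_pos hθ]
      linarith) w hw
    have h2 : ∀ m ∈ Icc 1 X, |(∑ d ∈ Icc 1 (X / m), ArithmeticFunction.vonMangoldt d * (θ + gB κ θ (d * m))) -
        (X : ℝ) / m * (θ + b (Nat.gcd m q))| ≤
        θ * |lam1 (X / m) - (X : ℝ) / m| + |PP κ θ X m - (X : ℝ) / m * b (Nat.gcd m q)| := by
      intro m _
      have e1 : (∑ d ∈ Icc 1 (X / m), ArithmeticFunction.vonMangoldt d * (θ + gB κ θ (d * m))) -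
          (X : ℝ) / m * (θ + b (Nat.gcd m q)) = θ * (lam1 (X / m) - (X : ℝ) / m) +
          (PP κ θ X m - (X : ℝ) / m * b (Nat.gcd m q)) := by
        unfold PP lam1
        simp only [mul_add, sum_add_distrib]
        rw [← sum_mul]
        ring
      rw [e1]
      refine (abs_add_le _ _).trans ?_
      rw [abs_mul, abs_of_pos hθ]
    have h3 : ‖w * ∑ m ∈ Icc 1 X, w ^ om m *
        ((∑ d ∈ Icc 1 (X / m), ArithmeticFunction.vonMangoldt d * (θ + gB κ θ (d * m)) : ℝ) : ℂ) -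
        w * (X : ℂ) * W w‖ ≤ θ * (C2 * X * Real.log X / LL X ^ 2) + C1 * X * Real.log X / LL X ^ 2 := by
      have e2 : w * ∑ m ∈ Icc 1 X, w ^ om m *
          ((∑ d ∈ Icc 1 (X / m), ArithmeticFunction.vonMangoldt d * (θ + gB κ θ (d * m)) : ℝ) : ℂ) -
          w * (X : ℂ) * W w = w * ∑ m ∈ Icc 1 X, w ^ om m *
          (((∑ d ∈ Icc 1 (X / m), ArithmeticFunction.vonMangoldt d * (θ + gB κ θ (d * m))) -
            (X : ℝ) / m * (θ + b (Nat.gcd m q)) : ℝ) : ℂ) := by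
        rw [hWd, mul_assoc, ← mul_sub, mul_sum, ← sum_sub_distrib]
        congr 1
        refine sum_congr rfl fun m _ => ?_
        push_cast
        ring
      rw [e2, norm_mul, hw, one_mul]
      refine (norm_sum_le _ _).trans ?_
      calc ∑ m ∈ Icc 1 X, ‖w ^ om m *
          (((∑ d ∈ Icc 1 (X / m), ArithmeticFunction.vonMangoldt d * (θ + gB κ θ (d * m))) -
            (X : ℝ) / m * (θ + b (Nat.gcd m q)) : ℝ) : ℂ)‖ ≤
          ∑ m ∈ Icc 1 X, (θ * |lam1 (X / m) - (X : ℝ) / m| + |PP κ θ X m - (X : ℝ) / m * b (Nat.gcd m q)|) := by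
            refine sum_le_sum fun m hm => ?_
            rw [norm_mul, norm_pow, hw, one_pow, one_mul, Complex.norm_real, Real.norm_eq_abs]
            exact h2 m hm
        _ = θ * ∑ m ∈ Icc 1 X, |lam1 (X / m) - (X : ℝ) / m| + ∑ m ∈ Icc 1 X, |PP κ θ X m - (X : ℝ) / m * b (Nat.gcd m q)| := by
            rw [sum_add_distrib, mul_sum]
        _ ≤ _ := add_le_add (mul_le_mul_of_nonneg_left hps hθ.le) hb2
    have h4 : ‖(Real.log X : ℂ) * D w - w * (X : ℂ) * W w‖ ≤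
        C0 * (θ + 1) * X + (θ * (C2 * X * Real.log X / LL X ^ 2) + C1 * X * Real.log X / LL X ^ 2) := by
      have e3 : (Real.log X : ℂ) * D w - w * (X : ℂ) * W w =
        ((Real.log X : ℂ) * D w - w * ∑ m ∈ Icc 1 X, w ^ om m *
        ((∑ d ∈ Icc 1 (X / m), ArithmeticFunction.vonMangoldt d * (θ + gB κ θ (d * m)) : ℝ) : ℂ)) +
        (w * ∑ m ∈ Icc 1 X, w ^ om m *
        ((∑ d ∈ Icc 1 (X / m), ArithmeticFunction.vonMangoldt d * (θ + gB κ θ (d * m)) : ℝ) : ℂ) -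
        w * (X : ℂ) * W w) := by ring
      rw [e3]
      refine (norm_add_le _ _).trans (add_le_add ?_ h3)
      rw [hD]
      exact h1
    refine h4.trans ?_
    have e5 : θ * (C2 * X * Real.log X / LL X ^ 2) + C1 * X * Real.log X / LL X ^ 2 = (θ * C2 + C1) * E := by
      rw [hE]; ring
    rw [e5, hC3]
    have e6 : C0 * (θ + 1) * X ≤ |C0| * (θ + 1) * E := by
      calc C0 * (θ + 1) * X ≤ |C0| * (θ + 1) * X := by
            apply mul_le_mul_of_nonneg_right _ hX0.le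
            exact mul_le_mul_of_nonneg_right (le_abs_self _) (by linarith)
        _ ≤ _ := mul_le_mul_of_nonneg_left hEX (by positivity)
    nlinarith
  -- the value at 1
  have hD1 : ‖D 1 - (θ * X : ℝ)‖ ≤ 1 := by
    have e1 : D 1 - (θ * X : ℝ) = ((∑ n ∈ Icc 1 X, gB κ θ n : ℝ) : ℂ) := by
      rw [hD]
      simp only [one_pow, mul_one]
      rw [← Complex.ofReal_sum, ← Complex.ofReal_sub, sum_add_distrib, sum_const, Nat.card_Icc, nsmul_eq_mul]
      congr 1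
      push_cast
      ring
    rw [e1, Complex.norm_real, Real.norm_eq_abs]
    exact sum_gB κ θ X
  have hW1 : ‖(X : ℂ) * (W 1 - (θ * Real.log X : ℝ))‖ ≤ (C3 + 1) * E := by
    have h1 := main 1 (by simp)
    have e1 : (X : ℂ) * (W 1 - (θ * Real.log X : ℝ)) = (Real.log X : ℂ) * (D 1 - (θ * X : ℝ)) -
        ((Real.log X : ℂ) * D 1 - 1 * (X : ℂ) * W 1) := by
      push_cast
      ring
    rw [e1]
    refine (norm_sub_le _ _).trans ?_
    rw [norm_mul, Complex.norm_real, Real.norm_eq_abs, abs_of_pos hlogp]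
    have h2 : Real.log X * ‖D 1 - (θ * X : ℝ)‖ ≤ E := by
      calc Real.log X * ‖D 1 - (θ * X : ℝ)‖ ≤ Real.log X * 1 := mul_le_mul_of_nonneg_left hD1 hlogp.le
        _ ≤ X := by
          rw [mul_one]
          exact (Real.log_le_sub_one_of_pos hX0).trans (by linarith)
        _ ≤ E := hEX
    linarith
  -- conclusion
  have hzW := hK q hq1 b hb1 X hq2 z hz1
  have hzre : z.re ≤ 1 := by
    have := Complex.re_le_norm z
    rwa [hz] at this
  have hpow1 : ‖(Real.log X : ℂ) ^ (z - 1)‖ ≤ 1 := by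
    rw [Complex.norm_cpow_eq_rpow_re_of_pos hlogp, Complex.sub_re, Complex.one_re]
    exact Real.rpow_le_one_of_one_le_of_nonpos hlog1 (by linarith)
  have hz2 := main z hz
  obtain ⟨P, hP⟩ : ∃ P : ℂ, P = (Real.log X : ℂ) ^ (z - 1) := ⟨_, rfl⟩
  rw [← hP] at hpow1 hzW
  have e1 : (Real.log X : ℂ) * (D z - (θ * X : ℝ) * z * P) =
      ((Real.log X : ℂ) * D z - z * (X : ℂ) * W z) + z * (X : ℂ) * (W z - P * W 1) +
        z * P * ((X : ℂ) * (W 1 - (θ * Real.log X : ℝ))) := by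
    push_cast
    ring
  have hW1' : W 1 = ∑ m ∈ Icc 1 X, ((θ + b (Nat.gcd m q) : ℝ) : ℂ) / (m : ℂ) := by
    rw [hWd]
    refine sum_congr rfl fun m _ => ?_
    rw [one_pow, mul_one]
  have hWz : W z = ∑ m ∈ Icc 1 X, ((θ + b (Nat.gcd m q) : ℝ) : ℂ) * z ^ om m / (m : ℂ) := by rw [hWd]
  rw [← hW1', ← hWz] at hzW
  have hR0 : 0 ≤ Real.log X ^ z.re := Real.rpow_nonneg hlogp.le _
  have h6 : ‖(Real.log X : ℂ) * (D z - (θ * X : ℝ) * z * P)‖ ≤
      C3 * E + X * (|K| * ‖z - 1‖ * Real.log X ^ z.re) + (C3 + 1) * E := by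
    rw [e1]
    refine (norm_add_le _ _).trans (add_le_add ((norm_add_le _ _).trans (add_le_add hz2 ?_)) ?_)
    · rw [norm_mul, norm_mul, hz, one_mul, Complex.norm_natCast]
      apply mul_le_mul_of_nonneg_left _ hX0.le
      refine hzW.trans ?_
      apply mul_le_mul_of_nonneg_right _ hR0
      exact mul_le_mul_of_nonneg_right (le_abs_self K) (norm_nonneg _)
    · rw [norm_mul, norm_mul, hz, one_mul]
      calc ‖P‖ * ‖(X : ℂ) * (W 1 - (θ * Real.log X : ℝ))‖ ≤ 1 * ‖(X : ℂ) * (W 1 - (θ * Real.log X : ℝ))‖ :=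
            mul_le_mul_of_nonneg_right hpow1 (norm_nonneg _)
        _ ≤ _ := by rw [one_mul]; exact hW1
  rw [norm_mul, Complex.norm_real, Real.norm_eq_abs, abs_of_pos hlogp] at h6
  have hDz : D z = ∑ n ∈ Icc 1 X, ((θ + gB κ θ n : ℝ) : ℂ) * z ^ om n := by rw [hD]
  rw [← hDz, ← hP]
  have h7 : ‖D z - (θ * X : ℝ) * z * P‖ ≤
      (C3 * E + X * (|K| * ‖z - 1‖ * Real.log X ^ z.re) + (C3 + 1) * E) / Real.log X := by
    rw [le_div_iff₀ hlogp, mul_comm]
    exact h6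
  refine h7.trans ?_
  have e8 : Real.log X ^ (z.re - 1) = Real.log X ^ z.re / Real.log X := by
    rw [Real.rpow_sub_one hlogp.ne']
  have e9 : E / Real.log X = X * (1 / LL X ^ 2) := by
    rw [hE]
    field_simp
  have e10 : (C3 * E + X * (|K| * ‖z - 1‖ * Real.log X ^ z.re) + (C3 + 1) * E) / Real.log X =
      (2 * C3 + 1) * (X * (1 / LL X ^ 2)) + |K| * (X * (‖z - 1‖ * Real.log X ^ (z.re - 1))) := by
    rw [← e9, e8]
    field_simp
    ring
  rw [e10]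
  have a1 : 0 ≤ X * (1 / LL X ^ 2) := by positivity
  have a2 : 0 ≤ X * (‖z - 1‖ * Real.log X ^ (z.re - 1)) := by
    have : 0 ≤ Real.log X ^ (z.re - 1) := Real.rpow_nonneg hlogp.le _
    positivity
  have a3 : 0 ≤ |K| := abs_nonneg K
  nlinarith [mul_nonneg a3 a1, mul_nonneg hC3p a2]

end Pool.Agent.NH21.Bty
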