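import Pool.Agent.NH21.Bty.Stm

/-! # Large exponential sums over primes, quantitative -/

set_option autoImplicit false

namespace Pool.Agent.NH21.Bty

open Finset Filter Topology
open Pool.Agent.H807R2.Dav
open Pool.Agent.H373R2.T7
open Pool.Agent.NH21.Nls

theorem eq : S_EQ := by
  obtain ⟨b, N1, hminor⟩ := minor_primes 1
  obtain ⟨N2, hrat⟩ := rat_point b (2 * b + 2)
  obtain ⟨N3, hL⟩ := ev_L' 16
  obtain ⟨N4, hroot⟩ := ev_log' b 1
  refine ⟨max (max N1 N2) (max (max N3 N4) 4), fun N hN c hc hc1 hLc' α hα => ?_⟩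
  have hN1 : N1 ≤ N := le_trans (le_trans (le_max_left _ _) (le_max_left _ _)) hN
  have hN2 : N2 ≤ N := le_trans (le_trans (le_max_right _ _) (le_max_left _ _)) hN
  have hN3 : N3 ≤ N := le_trans (le_trans (le_trans (le_max_left _ _) (le_max_left _ _)) (le_max_right _ _)) hN
  have hN4' : N4 ≤ N := le_trans (le_trans (le_trans (le_max_right _ _) (le_max_left _ _)) (le_max_right _ _)) hN
  have hN4 : 4 ≤ N := le_trans (le_trans (le_max_right _ _) (le_max_right _ _)) hN
  have hL := hL N hN3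
  have hroot := hroot N hN4'
  rw [one_mul] at hroot
  obtain ⟨L, hLd⟩ : ∃ L, L = Real.log N := ⟨_, rfl⟩
  rw [← hLd] at hL hroot hLc'
  have hL16 : 16 ≤ L := hL
  have hLc : 4 / c ≤ L := hLc'
  have hL0 : 0 < L := by linarith
  have hNr : (0 : ℝ) < N := by exact_mod_cast (by omega : 0 < N)
  have hN4r : (4 : ℝ) ≤ N := by exact_mod_cast hN4
  have hcN : N / L ≤ c * N / 4 := by
    rw [div_le_iff₀ hc] at hLc
    rw [div_le_iff₀ hL0]
    nlinarith
  have hLb1 : 1 ≤ L ^ b := one_le_pow₀ (by linarith)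
  have hLbN : L ^ b ≤ N / 2 := by
    have h1 : √(N : ℝ) ≤ N / 2 := by
      rw [Real.sqrt_le_left (by positivity)]
      nlinarith
    exact hroot.trans h1
  -- Dirichlet
  obtain ⟨Q, hQ⟩ : ∃ Q : ℕ, Q = ⌊(N : ℝ) / L ^ b⌋₊ := ⟨_, rfl⟩
  have hQ1 : 0 < Q := by
    rw [hQ]
    apply Nat.floor_pos.2
    rw [le_div_iff₀ (by positivity)]
    linarith
  obtain ⟨r, hr1, hr2⟩ := Real.exists_rat_abs_sub_le_and_den_le α hQ1
  obtain ⟨q, hq⟩ : ∃ q, q = r.den := ⟨_, rfl⟩
  have hq1 : 1 ≤ q := by rw [hq]; exact r.den_pos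
  have hqr : (0 : ℝ) < q := by exact_mod_cast hq1
  have hrr : (r : ℝ) = r.num / q := by rw [hq]; exact Rat.cast_def r
  rw [← hq] at hr1 hr2
  rw [hrr] at hr1
  have hqQ : (q : ℝ) ≤ N / L ^ b := by
    have h1 : (q : ℝ) ≤ Q := by exact_mod_cast hr2
    rw [hQ] at h1
    exact h1.trans (Nat.floor_le (by positivity))
  have hQl : (N : ℝ) / L ^ b < Q + 1 := by rw [hQ]; exact Nat.lt_floor_add_one _
  have hcop : IsCoprime r.num (q : ℤ) := by rw [hq]; exact Int.isCoprime_iff_gcd_eq_one.2 r.reduced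
  have happ1 : |α - r.num / q| ≤ 1 / (q : ℝ) ^ 2 := by
    refine hr1.trans ?_
    apply one_div_le_one_div_of_le (by positivity)
    have h1 : (q : ℝ) ≤ Q := by exact_mod_cast hr2
    nlinarith
  have happ2 : |α - r.num / q| ≤ L ^ b / (N * q) := by
    refine hr1.trans ?_
    rw [div_le_div_iff₀ (by positivity) (by positivity)]
    rw [div_lt_iff₀ (by positivity)] at hQl
    nlinarith
  by_cases hbig : L ^ b ≤ q
  · exfalso
    have h1 := hminor N hN1 q (by rw [← hLd]; exact hbig) (by rw [← hLd]; exact hqQ) r.num hcop α happ1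
    rw [← hLd, pow_one] at h1
    have h2 := hα.trans (h1.trans hcN)
    have : 0 < c * N := by positivity
    linarith
  · push Not at hbig
    -- the numerator as a natural number
    obtain ⟨n, t, hn, hncop⟩ : ∃ (n : ℕ) (t : ℤ), r.num = n + q * t ∧ n.Coprime q := by
      refine ⟨(r.num % q).toNat, r.num / q, ?_, ?_⟩
      · have h1 : 0 ≤ r.num % q := Int.emod_nonneg _ (by exact_mod_cast (by omega : q ≠ 0))
        rw [Int.toNat_of_nonneg h1]
        exact (Int.emod_add_mul_ediv _ _).symm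
      · have h1 : 0 ≤ r.num % q := Int.emod_nonneg _ (by exact_mod_cast (by omega : q ≠ 0))
        rw [← Nat.isCoprime_iff_coprime, Int.toNat_of_nonneg h1]
        have h2 : r.num % q = r.num + q * (-(r.num / q)) := by
          have := Int.emod_add_mul_ediv r.num q
          linarith
        rw [h2]
        exact (IsCoprime.add_mul_left_left_iff).2 hcop
    obtain ⟨β, hβ⟩ : ∃ β, β = α - r.num / q := ⟨_, rfl⟩
    rw [← hβ] at happ2 happ1
    have hβ1 : |β| ≤ L ^ b / (N * q) := happ2
    have hβ2 : |β| ≤ 1 / 2 := by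
      refine hβ1.trans ?_
      rw [div_le_iff₀ (by positivity)]
      have : (1 : ℝ) ≤ q := by exact_mod_cast hq1
      nlinarith
    obtain ⟨κ, hκ⟩ : ∃ κ : ℂ, κ = ((ArithmeticFunction.moebius q : ℤ) : ℂ) / (Nat.totient q : ℂ) := ⟨_, rfl⟩
    have hφ : (0 : ℝ) < Nat.totient q := by exact_mod_cast Nat.totient_pos.2 hq1
    have hκn : ‖κ‖ ≤ 1 / Nat.totient q := by
      rw [hκ, norm_div, Complex.norm_natCast, Complex.norm_intCast]
      apply div_le_div_of_nonneg_right _ hφ.le
      exact_mod_cast ArithmeticFunction.abs_moebius_le_one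
    obtain ⟨F, hF⟩ : ∃ F : ℕ → ℂ, F = fun m => ((ArithmeticFunction.vonMangoldt m : ℝ) : ℂ) * ee ((m : ℝ) * ((n : ℝ) / q)) - κ :=
      ⟨_, rfl⟩
    have hM : ∀ y : ℕ, y ≤ N → ‖∑ m ∈ Icc 1 y, F m‖ ≤ q * (N / L ^ (2 * b + 2)) := by
      intro y hy
      have h1 := hrat N hN2 q n hq1 (by rw [← hLd]; exact hbig.le) hncop y hy
      rw [hF, hκ]
      rw [← hLd] at h1
      exact h1
    have h1 := abel_ee F β (q * (N / L ^ (2 * b + 2))) N hM
    have h2 : ‖ee β - 1‖ ≤ 7 * |β| := by
      have h3 := dd_le β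
      unfold dd at h3
      rw [← norm_neg, neg_sub]
      have h4 := Real.pi_lt_d2
      nlinarith [abs_nonneg β, norm_nonneg (1 - ee β)]
    have h3 : q * (N / L ^ (2 * b + 2)) * (1 + N * ‖ee β - 1‖) ≤ N / L := by
      have h4 : N * ‖ee β - 1‖ ≤ 7 * L ^ b / q := by
        calc N * ‖ee β - 1‖ ≤ N * (7 * (L ^ b / (N * q))) := by
              apply mul_le_mul_of_nonneg_left _ hNr.le
              linarith
          _ = 7 * L ^ b / q := by field_simp
      have h5 : q * (1 + N * ‖ee β - 1‖) ≤ 8 * L ^ b := by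
        calc q * (1 + N * ‖ee β - 1‖) ≤ q * (1 + 7 * L ^ b / q) := by
              apply mul_le_mul_of_nonneg_left _ hqr.le
              linarith
          _ = q + 7 * L ^ b := by field_simp
          _ ≤ 8 * L ^ b := by linarith
      calc q * (N / L ^ (2 * b + 2)) * (1 + N * ‖ee β - 1‖) = (N / L ^ (2 * b + 2)) * (q * (1 + N * ‖ee β - 1‖)) := by ring
        _ ≤ (N / L ^ (2 * b + 2)) * (8 * L ^ b) := mul_le_mul_of_nonneg_left h5 (by positivity)
        _ = (N / L) * (8 / L ^ (b + 1)) := by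
            have : L ^ (2 * b + 2) = L ^ b * L ^ (b + 1) * L := by ring
            rw [this]
            field_simp
        _ ≤ (N / L) * 1 := by
            apply mul_le_mul_of_nonneg_left _ (by positivity)
            rw [div_le_one (by positivity)]
            rw [pow_succ]
            nlinarith
        _ = N / L := mul_one _
    -- the main term
    have h4 : ∑ m ∈ Icc 1 N, ((ArithmeticFunction.vonMangoldt m : ℝ) : ℂ) * ee ((m : ℝ) * α) =
        ∑ m ∈ Icc 1 N, F m * ee (m * β) + κ * ∑ m ∈ Ico 1 (N + 1), ee ((m : ℝ) * β) := by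
      have e1 : Ico 1 (N + 1) = Icc 1 N := by ext m; rw [mem_Ico, mem_Icc]; omega
      rw [e1, mul_sum, ← sum_add_distrib]
      refine sum_congr rfl fun m _ => ?_
      have e2 : (m : ℝ) * α = (m : ℝ) * ((n : ℝ) / q) + (m : ℝ) * β + ((m * t : ℤ) : ℝ) := by
        rw [hβ, hn]
        push_cast
        field_simp
        ring
      rw [e2, ee_add_int, ee_add, hF]
      ring
    have h5 : c * N / 2 ≤ (1 / Nat.totient q) * ‖∑ m ∈ Ico 1 (N + 1), ee ((m : ℝ) * β)‖ := by
      have h6 : ‖∑ m ∈ Icc 1 N, ((ArithmeticFunction.vonMangoldt m : ℝ) : ℂ) * ee ((m : ℝ) * α)‖ ≤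
          N / L + (1 / Nat.totient q) * ‖∑ m ∈ Ico 1 (N + 1), ee ((m : ℝ) * β)‖ := by
        rw [h4]
        refine (norm_add_le _ _).trans (add_le_add (h1.trans h3) ?_)
        rw [norm_mul]
        exact mul_le_mul_of_nonneg_right hκn (norm_nonneg _)
      have : 0 < c * N := by positivity
      linarith
    have hgeo : ‖∑ m ∈ Ico 1 (N + 1), ee ((m : ℝ) * β)‖ ≤ N := by
      refine (norm_sum_le _ _).trans ?_
      simp [norm_ee]
    have hφle : (Nat.totient q : ℝ) ≤ 2 / c := by
      have h6 : c * N / 2 ≤ (1 / Nat.totient q) * N :=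
        h5.trans (mul_le_mul_of_nonneg_left hgeo (by positivity))
      rw [one_div, inv_mul_eq_div, le_div_iff₀ hφ] at h6
      rw [le_div_iff₀ hc]
      have h7 : (Nat.totient q : ℝ) * c * N ≤ 2 * N := by linarith
      exact le_of_mul_le_mul_right h7 hNr
    have hqB : (q : ℝ) ≤ 8 / c ^ 2 := by
      have h6 : (q : ℝ) ≤ 2 * (Nat.totient q : ℝ) ^ 2 := by
        exact_mod_cast Pool.Agent.H998.LC.Pow.le_two_mul_totient_sq (by omega : q ≠ 0)
      calc (q : ℝ) ≤ 2 * (Nat.totient q : ℝ) ^ 2 := h6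
        _ ≤ 2 * (2 / c) ^ 2 := by gcongr
        _ = 8 / c ^ 2 := by ring
    have hc2 : 2 / c ≤ 16 / c ^ 2 := by
      rw [div_le_div_iff₀ hc (by positivity)]
      nlinarith
    refine ⟨q, hq1, hqB.trans (div_le_div_of_nonneg_right (by norm_num) (by positivity)), r.num, ?_⟩
    · rw [← hβ]
      rcases eq_or_ne β 0 with h0 | h0
      · rw [h0, abs_zero]; positivity
      · have hβ0 : 0 < |β| := abs_pos.2 h0
        have hdd : 4 * |β| ≤ dd β := by
          have h6 : dd β = dd |β| := by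
            rcases abs_choice β with h | h
            · rw [h]
            · rw [h, dd_neg]
          rw [h6]
          have h7 := dd_ge (abs_nonneg β) (by linarith : |β| ≤ 1)
          rwa [min_eq_left (by linarith)] at h7
        have h6 := geo_bound 1 (N + 1) (by omega) (M := N) (by push_cast; linarith) β
        have h7 := h6.trans (KK_le' hNr.le (by positivity) hdd)
        have h8 : (1 : ℝ) ≤ Nat.totient q := by exact_mod_cast Nat.totient_pos.2 hq1
        have h9 : c * N / 2 ≤ 3 / (4 * |β|) := by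
          refine h5.trans ?_
          calc (1 / (Nat.totient q : ℝ)) * ‖∑ m ∈ Ico 1 (N + 1), ee ((m : ℝ) * β)‖ ≤
                1 * ‖∑ m ∈ Ico 1 (N + 1), ee ((m : ℝ) * β)‖ := by
                apply mul_le_mul_of_nonneg_right _ (norm_nonneg _)
                rw [div_le_one hφ]
                exact h8
            _ ≤ _ := by rw [one_mul]; exact h7
        rw [le_div_iff₀ (by positivity)] at h9
        rw [le_div_iff₀ hNr]
        have h10 : |β| * N ≤ 2 / c := by
          rw [le_div_iff₀ hc]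
          nlinarith
        exact h10.trans hc2

end Pool.Agent.NH21.Bty
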