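import Pool.Agent.NH21.Bty.EssB

/-!
# Esseen's smoothing inequality: conclusion
-/

set_option autoImplicit false

open MeasureTheory Set Filter Topology
open scoped Real ComplexConjugate

namespace Pool.Agent.NH21.Bty.Esse

theorem char_nu (τ : ℝ) : ∫ y, Complex.exp (((τ * y : ℝ) : ℂ) * Complex.I) ∂nu =
    Complex.exp (-((τ : ℂ) ^ 2 / 2)) := by
  have h := ProbabilityTheory.charFun_gaussianReal (μ := 0) (v := 1) τ
  rw [charFun_apply_real] at h
  have e1 : (fun y : ℝ => Complex.exp (((τ * y : ℝ) : ℂ) * Complex.I)) =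
      fun x : ℝ => Complex.exp (↑τ * ↑x * Complex.I) := by
    ext y
    push_cast
    ring_nf
  rw [e1, h]
  congr 1
  push_cast
  ring

/-- the bracket -/
theorem bracket (N : ℕ) (a : ℕ → ℝ) (τ x : ℝ) :
    |(1 / (N : ℝ)) * ∑ n ∈ Finset.Icc 1 N, Real.sin (τ * (x - a n)) -
      ∫ y, Real.sin (τ * (x - y)) ∂nu| ≤
    ‖(1 / (N : ℂ)) * ∑ n ∈ Finset.Icc 1 N, Complex.exp (τ * (a n : ℂ) * Complex.I) -
      Complex.exp (-((τ : ℂ) ^ 2 / 2))‖ := by
  set P : ℂ := (1 / (N : ℂ)) * ∑ n ∈ Finset.Icc 1 N, Complex.exp (τ * (a n : ℂ) * Complex.I) with hP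
  set Q : ℂ := Complex.exp (-((τ : ℂ) ^ 2 / 2)) with hQ
  have hQc : conj Q = Q := by
    have h0 : (-((τ : ℂ) ^ 2 / 2)) = ((-(τ ^ 2 / 2) : ℝ) : ℂ) := by push_cast; ring
    rw [hQ, ← Complex.exp_conj, h0, Complex.conj_ofReal]
  have e1 : ((1 / (N : ℝ)) * ∑ n ∈ Finset.Icc 1 N, Real.sin (τ * (x - a n)) : ℝ) =
      (Complex.exp (((τ * x : ℝ) : ℂ) * Complex.I) * conj P).im := by
    have h1 : Complex.exp (((τ * x : ℝ) : ℂ) * Complex.I) * conj P =
        ((1 / (N : ℝ) : ℝ) : ℂ) * ∑ n ∈ Finset.Icc 1 N,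
          Complex.exp (((τ * (x - a n) : ℝ) : ℂ) * Complex.I) := by
      rw [hP, map_mul, map_sum]
      have h2 : conj (1 / (N : ℂ)) = ((1 / (N : ℝ) : ℝ) : ℂ) := by
        rw [map_div₀, map_one, Complex.conj_natCast]
        push_cast
        rfl
      rw [h2, mul_left_comm, Finset.mul_sum]
      congr 1
      refine Finset.sum_congr rfl fun n _ => ?_
      rw [← Complex.exp_conj, ← Complex.exp_add]
      congr 1
      simp only [map_mul, Complex.conj_ofReal, Complex.conj_I]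
      push_cast
      ring
    rw [h1, Complex.im_ofReal_mul, Complex.im_sum]
    congr 1
    refine Finset.sum_congr rfl fun n _ => ?_
    rw [Complex.exp_ofReal_mul_I_im]
  have e2 : ∫ y, Real.sin (τ * (x - y)) ∂nu =
      (Complex.exp (((τ * x : ℝ) : ℂ) * Complex.I) * Q).im := by
    have hint : Integrable (fun y : ℝ => Complex.exp (((τ * (x - y) : ℝ) : ℂ) * Complex.I)) nu := by
      refine Integrable.mono' (integrable_const (1 : ℝ)) (by fun_prop) ?_
      refine Eventually.of_forall fun y => ?_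
      rw [Complex.norm_exp_ofReal_mul_I]
    have h1 : ∫ y, Complex.exp (((τ * (x - y) : ℝ) : ℂ) * Complex.I) ∂nu =
        Complex.exp (((τ * x : ℝ) : ℂ) * Complex.I) * Q := by
      have h2 := char_nu (-τ)
      have h3 : Complex.exp (-(((-τ : ℝ) : ℂ) ^ 2 / 2)) = Q := by
        rw [hQ]
        congr 1
        push_cast
        ring
      rw [h3] at h2
      rw [← h2, ← integral_const_mul]
      congr 1
      ext y
      rw [← Complex.exp_add]
      congr 1
      push_cast
      ring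
    rw [← h1, ← RCLike.im_eq_complex_im, ← integral_im hint]
    congr 1
    ext y
    rw [RCLike.im_eq_complex_im, Complex.exp_ofReal_mul_I_im]
  rw [e1, e2, ← Complex.sub_im, ← mul_sub]
  refine (Complex.abs_im_le_norm _).trans ?_
  rw [norm_mul, Complex.norm_exp_ofReal_mul_I, one_mul]
  have : conj P - Q = conj (P - Q) := by rw [map_sub, hQc]
  rw [this, RCLike.norm_conj]

theorem GG_bound {N : ℕ} (hN : 1 ≤ N) (a : ℕ → ℝ) {T : ℝ} (hT : 0 < T) (b : ℝ → ℝ)
    (hb : IntervalIntegrable b volume 0 T)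
    (h : ∀ t ∈ Set.Ioo 0 T, ‖(1 / (N : ℂ)) * ∑ n ∈ Finset.Icc 1 N, Complex.exp (t * (a n : ℂ) * Complex.I) -
      Complex.exp (-((t : ℂ) ^ 2 / 2))‖ ≤ t * b t) (x : ℝ) :
    |GG N a T x| ≤ ∫ t in (0 : ℝ)..T, b t := by
  rw [GG_form2 hN a hT x]
  have hb2 : IntervalIntegrable (fun t => b (T * t)) volume 0 1 := by
    have := hb.comp_mul_left (c := T)
    rw [zero_div, div_self hT.ne'] at this
    exact this
  have hb3 : IntegrableOn (fun t => T * b (T * t)) (Set.Ioc (0:ℝ) 1) := by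
    rw [intervalIntegrable_iff_integrableOn_Ioc_of_le zero_le_one] at hb2
    exact hb2.const_mul T
  have h1 : ∫ t in (0 : ℝ)..T, b t = ∫ t in Set.Ioc (0:ℝ) 1, T * b (T * t) := by
    rw [← intervalIntegral.integral_of_le zero_le_one, intervalIntegral.integral_const_mul,
      intervalIntegral.integral_comp_mul_left _ hT.ne', smul_eq_mul]
    rw [mul_zero, mul_one]
    field_simp
  rw [h1, ← Real.norm_eq_abs]
  refine norm_integral_le_of_norm_le hb3 ?_
  have h2 : ∀ᵐ t ∂(volume.restrict (Set.Ioc (0:ℝ) 1)), t ∈ Set.Ioc (0:ℝ) 1 :=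
    ae_restrict_mem measurableSet_Ioc
  have h3 : ∀ᵐ t ∂(volume.restrict (Set.Ioc (0:ℝ) 1)), t ≠ 1 := by
    refine ae_restrict_of_ae ?_
    exact Measure.ae_ne volume 1
  filter_upwards [h2, h3] with t ht ht1
  have ht0 : 0 < t := ht.1
  have ht2 : t < 1 := lt_of_le_of_ne ht.2 ht1
  have h4 : (1 / (N : ℝ)) * ∑ n ∈ Finset.Icc 1 N, hh t (T * (x - a n)) - ∫ y, hh t (T * (x - y)) ∂nu =
      ((1 - t) / t) * ((1 / (N : ℝ)) * ∑ n ∈ Finset.Icc 1 N, Real.sin ((T * t) * (x - a n)) -
        ∫ y, Real.sin ((T * t) * (x - y)) ∂nu) := by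
    have e : ∀ z : ℝ, hh t (T * z) = ((1 - t) / t) * Real.sin ((T * t) * z) := by
      intro z
      unfold hh
      rw [show t * (T * z) = (T * t) * z by ring]
      ring
    simp_rw [e]
    rw [integral_const_mul, ← Finset.mul_sum]
    ring
  rw [h4, Real.norm_eq_abs, abs_mul, abs_of_nonneg (by
    apply div_nonneg <;> linarith : 0 ≤ (1 - t) / t)]
  have h5 := (bracket N a (T * t) x).trans (h (T * t) ⟨by positivity, by nlinarith⟩)
  have h6 : 0 ≤ (T * t) * b (T * t) := le_trans (abs_nonneg _) h5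
  calc (1 - t) / t * |1 / (N : ℝ) * ∑ n ∈ Finset.Icc 1 N, Real.sin (T * t * (x - a n)) -
        ∫ y, Real.sin (T * t * (x - y)) ∂nu|
      ≤ (1 / t) * ((T * t) * b (T * t)) := by
        apply mul_le_mul _ h5 (abs_nonneg _) (by positivity)
        gcongr
        linarith
    _ = T * b (T * t) := by
        field_simp

/-- the lower bound for the smoothed difference -/
theorem GG_lower (N : ℕ) (a : ℕ → ℝ) {T : ℝ} (hT : 0 < T) {η δ h x : ℝ} (hh0 : 0 < h)
    (hη : ∀ y, |DD N a y| ≤ η) (hδ : 0 ≤ δ) (σ : ℝ) (hσ : σ = 1 ∨ σ = -1)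
    (hx : ∀ s, |s| ≤ h → δ ≤ σ * DD N a (x - s)) :
    δ * M - (δ + η) * (4 / (T * h)) ≤ |GG N a T x| := by
  have hη0 : 0 ≤ η := le_trans (abs_nonneg _) (hη 0)
  have hint : Integrable (fun r => DD N a (x - r / T) * kk r) := by
    refine Integrable.mono' kk_int (((DD_meas N a).comp (by fun_prop :
      Measurable fun r : ℝ => x - r / T)).mul kk_cont.measurable).aestronglyMeasurable ?_
    refine Eventually.of_forall fun r => ?_
    rw [norm_mul, Real.norm_eq_abs, Real.norm_eq_abs, abs_of_nonneg (kk_nonneg r)]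
    calc |DD N a (x - r / T)| * kk r ≤ 1 * kk r := mul_le_mul_of_nonneg_right (DD_abs N a _) (kk_nonneg r)
      _ = kk r := one_mul _
  have hTh : 0 < T * h := by positivity
  have hmeasS : MeasurableSet {r : ℝ | T * h < |r|} :=
    measurableSet_lt measurable_const (by fun_prop)
  have hind : Integrable ({r : ℝ | T * h < |r|}.indicator kk) := kk_int.indicator hmeasS
  have h1 : ∀ r, δ * kk r - (δ + η) * {r : ℝ | T * h < |r|}.indicator kk r ≤
      σ * (DD N a (x - r / T) * kk r) := by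
    intro r
    have hk := kk_nonneg r
    by_cases hr : T * h < |r|
    · rw [Set.indicator_of_mem (by exact hr)]
      have h2 : -η ≤ σ * DD N a (x - r / T) := by
        have h3 := hη (x - r / T)
        rw [abs_le] at h3
        rcases hσ with rfl | rfl
        · linarith [h3.1]
        · linarith [h3.2]
      have := mul_le_mul_of_nonneg_right h2 hk
      linarith
    · rw [Set.indicator_of_notMem (by exact hr), mul_zero, sub_zero]
      have h2 : |r / T| ≤ h := by
        rw [abs_div, abs_of_pos hT, div_le_iff₀ hT]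
        push Not at hr
        linarith
      have := mul_le_mul_of_nonneg_right (hx (r / T) h2) hk
      linarith
  have h2 := integral_mono ((kk_int.const_mul δ).sub (hind.const_mul (δ + η))) (hint.const_mul σ) h1
  have h3 : ∫ r, (δ * kk r - (δ + η) * {r : ℝ | T * h < |r|}.indicator kk r) =
      δ * M - (δ + η) * ∫ r in {r : ℝ | T * h < |r|}, kk r := by
    rw [integral_sub (kk_int.const_mul δ) (hind.const_mul (δ + η)), integral_const_mul,
      integral_const_mul, integral_indicator hmeasS]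
    rfl
  have h4 := tail hTh
  have h5 : σ * GG N a T x ≤ |GG N a T x| := by
    rcases hσ with rfl | rfl
    · rw [one_mul]; exact le_abs_self _
    · rw [neg_one_mul]; exact neg_le_abs _
  have h6 : ∫ r, σ * (DD N a (x - r / T) * kk r) = σ * GG N a T x := by
    rw [integral_const_mul]; rfl
  rw [h6] at h2
  simp only [Pi.sub_apply] at h2
  rw [h3] at h2
  have h7 : (δ + η) * ∫ r in {r : ℝ | T * h < |r|}, kk r ≤ (δ + η) * (4 / (T * h)) :=
    mul_le_mul_of_nonneg_left h4 (by linarith)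
  linarith

/-- **Esseen's smoothing inequality** -/
theorem ess_main : ∃ C : ℝ, ∀ N : ℕ, 1 ≤ N → ∀ (a : ℕ → ℝ) (T : ℝ), 0 < T → ∀ b : ℝ → ℝ,
    IntervalIntegrable b MeasureTheory.volume 0 T →
    (∀ t ∈ Set.Ioo 0 T, ‖(1 / (N : ℂ)) * ∑ n ∈ Finset.Icc 1 N, Complex.exp (t * (a n : ℂ) * Complex.I) -
      Complex.exp (-((t : ℂ) ^ 2 / 2))‖ ≤ t * b t) →
    ∀ x : ℝ, |DD N a x| ≤ C * ((∫ t in (0 : ℝ)..T, b t) + 1 / T) := by
  have hM := M_pos
  refine ⟨4 / M * 40, fun N hN a T hT b hb h x => ?_⟩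
  set B : ℝ := ∫ t in (0 : ℝ)..T, b t with hB
  have hG : ∀ y, |GG N a T y| ≤ B := GG_bound hN a hT b hb h
  have hB0 : 0 ≤ B := le_trans (abs_nonneg _) (hG 0)
  have hbdd : BddAbove (Set.range fun y => |DD N a y|) := ⟨1, by
    rintro _ ⟨y, rfl⟩
    exact DD_abs N a y⟩
  set η : ℝ := ⨆ y, |DD N a y| with hη
  have hle : ∀ y, |DD N a y| ≤ η := fun y => le_ciSup hbdd y
  have hη0 : 0 ≤ η := le_trans (abs_nonneg _) (hle 0)
  suffices hmain : η ≤ 4 / M * (B + 40 / T) by
    refine (hle x).trans (hmain.trans ?_)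
    rw [mul_assoc]
    apply mul_le_mul_of_nonneg_left _ (by positivity)
    have : 40 * (B + 1 / T) = B + 39 * B + 40 / T := by ring
    linarith
  rcases hη0.eq_or_lt with h0 | hpos
  · rw [← h0]; positivity
  obtain ⟨x0, hx0⟩ := exists_lt_of_lt_ciSup (show η / 2 < ⨆ y, |DD N a y| by rw [← hη]; linarith)
  -- the two cases
  have key : ∃ (y σ : ℝ), (σ = 1 ∨ σ = -1) ∧ ∀ s, |s| ≤ η / 8 → η / 4 ≤ σ * DD N a (y - s) := by
    rcases le_or_gt 0 (DD N a x0) with hs | hs
    · rw [abs_of_nonneg hs] at hx0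
      refine ⟨x0 + η / 8, 1, Or.inl rfl, fun s hs' => ?_⟩
      rw [abs_le] at hs'
      have h1 : x0 ≤ x0 + η / 8 - s := by linarith [hs'.2]
      have h2 := FF_mono N a h1
      have h3 := Ph_lip h1
      unfold DD at hx0 ⊢
      linarith [hs'.1]
    · rw [abs_of_neg hs] at hx0
      refine ⟨x0 - η / 8, -1, Or.inr rfl, fun s hs' => ?_⟩
      rw [abs_le] at hs'
      have h1 : x0 - η / 8 - s ≤ x0 := by linarith [hs'.1]
      have h2 := FF_mono N a h1
      have h3 := Ph_lip h1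
      unfold DD at hx0 ⊢
      linarith [hs'.2]
  obtain ⟨y, σ, hσ, hy⟩ := key
  have h1 := GG_lower N a hT (by positivity : 0 < η / 8) hle (by positivity : 0 ≤ η / 4) σ hσ hy
  have h2 := hG y
  have h3 : (η / 4 + η) * (4 / (T * (η / 8))) = 40 / T := by
    field_simp
    ring
  rw [h3] at h1
  have h4 : η / 4 * M ≤ B + 40 / T := by linarith
  calc η = 4 / M * (η / 4 * M) := by field_simp
    _ ≤ 4 / M * (B + 40 / T) := mul_le_mul_of_nonneg_left h4 (by positivity)

end Pool.Agent.NH21.Bty.Esse
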