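import Pool.Agent.NH21.Bty.Stm
import Pool.Agent.NH21.Bty.EssC

/-! Ess: the smoothing inequality of Esseen. -/

set_option autoImplicit false

namespace Pool.Agent.NH21.Bty

theorem ess : S_Ess := by
  obtain ⟨C, hC⟩ := Esse.ess_main
  exact ⟨C, fun N hN a T hT b hb h x => hC N hN a T hT b hb h x⟩

end Pool.Agent.NH21.Bty
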