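import Mathlib

/-!
# Esseen's smoothing inequality for finite sequences and the normal law: the kernel
-/

set_option autoImplicit false

open MeasureTheory Set Filter Topology
open scoped Real

namespace Pool.Agent.NH21.Bty.Esse

/-- Fejér's kernel -/
noncomputable def kk (x : ℝ) : ℝ := ∫ t in (0:ℝ)..1, (1 - t) * Real.cos (t * x)

theorem kk_cont : Continuous kk := by
  unfold kk
  exact intervalIntegral.continuous_parametric_intervalIntegral_of_continuous' (by fun_prop) _ _

theorem kk_form {x : ℝ} (hx : x ≠ 0) : kk x = (1 - Real.cos x) / x ^ 2 := by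
  have h1 : ∀ t ∈ Set.uIcc (0:ℝ) 1, HasDerivAt
      (fun t => (1 - t) * Real.sin (t * x) / x - Real.cos (t * x) / x ^ 2)
      ((1 - t) * Real.cos (t * x)) t := by
    intro t _
    have e1 : HasDerivAt (fun t : ℝ => t * x) x t := by
      simpa using (hasDerivAt_id t).mul_const x
    have e2 : HasDerivAt (fun t : ℝ => Real.sin (t * x)) (Real.cos (t * x) * x) t := e1.sin
    have e3 : HasDerivAt (fun t : ℝ => Real.cos (t * x)) (-Real.sin (t * x) * x) t := e1.cos
    have e4 : HasDerivAt (fun t : ℝ => 1 - t) (-1) t := by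
      simpa using (hasDerivAt_id t).const_sub 1
    have e5 := ((e4.mul e2).div_const x).sub (e3.div_const (x ^ 2))
    refine e5.congr_deriv ?_
    field_simp
    ring
  unfold kk
  rw [intervalIntegral.integral_eq_sub_of_hasDerivAt h1
    (Continuous.intervalIntegrable (by fun_prop) _ _)]
  simp only [sub_self, zero_mul, one_mul, zero_div, Real.sin_zero, mul_zero, Real.cos_zero, sub_zero]
  ring

theorem kk_nonneg (x : ℝ) : 0 ≤ kk x := by
  by_cases hx : x = 0
  · subst hx
    unfold kk
    apply intervalIntegral.integral_nonneg (by norm_num)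
    intro t ht
    rw [mul_zero, Real.cos_zero, mul_one]
    linarith [ht.2]
  · rw [kk_form hx]
    apply div_nonneg
    · linarith [Real.cos_le_one x]
    · positivity

theorem kk_le_one (x : ℝ) : kk x ≤ 1 := by
  unfold kk
  have h := intervalIntegral.norm_integral_le_of_norm_le_const (a := (0:ℝ)) (b := 1) (C := 1)
    (f := fun t => (1 - t) * Real.cos (t * x)) (by
      intro t ht
      rw [Set.uIoc_of_le (by norm_num)] at ht
      rw [norm_mul, Real.norm_eq_abs, Real.norm_eq_abs]
      have h1 : |1 - t| ≤ 1 := by rw [abs_le]; constructor <;> linarith [ht.1, ht.2]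
      have h2 := Real.abs_cos_le_one (t * x)
      calc |1 - t| * |Real.cos (t * x)| ≤ 1 * 1 := by gcongr
        _ = 1 := by norm_num)
  rw [Real.norm_eq_abs] at h
  have := le_abs_self (∫ t in (0:ℝ)..1, (1 - t) * Real.cos (t * x))
  linarith [abs_of_pos (show (0:ℝ) < 1 - 0 by norm_num)]

theorem kk_le_sq {x : ℝ} (hx : x ≠ 0) : kk x ≤ 2 / x ^ 2 := by
  rw [kk_form hx]
  have : 0 < x ^ 2 := by positivity
  gcongr
  linarith [Real.neg_one_le_cos x]

theorem kk_le (x : ℝ) : kk x ≤ 4 * (1 + x ^ 2)⁻¹ := by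
  by_cases hx : x ^ 2 ≤ 1
  · have h1 := kk_le_one x
    have h2 : (1 / 2 : ℝ) ≤ (1 + x ^ 2)⁻¹ := by
      rw [one_div]
      gcongr
      linarith
    linarith
  · have hx0 : x ≠ 0 := by
      rintro rfl
      norm_num at hx
    refine (kk_le_sq hx0).trans ?_
    push Not at hx
    rw [div_le_iff₀ (by positivity), mul_assoc, mul_comm ((1 + x ^ 2)⁻¹), ← div_eq_mul_inv]
    have : (1 : ℝ) / 2 ≤ x ^ 2 / (1 + x ^ 2) := by
      rw [div_le_div_iff₀ (by norm_num) (by positivity)]
      linarith
    linarith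

theorem kk_int : Integrable kk := by
  refine Integrable.mono' (integrable_inv_one_add_sq.const_mul 4) kk_cont.aestronglyMeasurable ?_
  refine Eventually.of_forall fun x => ?_
  rw [Real.norm_eq_abs, abs_of_nonneg (kk_nonneg x)]
  exact kk_le x

theorem kk_even (x : ℝ) : kk (-x) = kk x := by
  unfold kk
  congr 1
  ext t
  rw [mul_neg, Real.cos_neg]

/-- total mass -/
noncomputable def M : ℝ := ∫ x, kk x

theorem kk_quarter (x : ℝ) (hx : |x| ≤ 1) : 1 / 4 ≤ kk x := by
  have h1 : ∀ t ∈ Set.Icc (0:ℝ) 1, (1 - t) * (1 / 2) ≤ (1 - t) * Real.cos (t * x) := by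
    intro t ht
    have h2 : 1 - (t * x) ^ 2 / 2 ≤ Real.cos (t * x) := Real.one_sub_sq_div_two_le_cos
    have h3 : (t * x) ^ 2 ≤ 1 := by
      rw [sq_le_one_iff_abs_le_one, abs_mul, abs_of_nonneg ht.1]
      calc t * |x| ≤ 1 * 1 := by gcongr; exact ht.2
        _ = 1 := by norm_num
    apply mul_le_mul_of_nonneg_left _ (by linarith [ht.2])
    linarith
  have h4 : ∫ t in (0:ℝ)..1, (1 - t) * (1 / 2) ≤ kk x := by
    unfold kk
    exact intervalIntegral.integral_mono_on (by norm_num)
      (Continuous.intervalIntegrable (by fun_prop) _ _)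
      (Continuous.intervalIntegrable (by fun_prop) _ _) h1
  have h5 : ∫ t in (0:ℝ)..1, (1 - t) * (1 / 2 : ℝ) = 1 / 4 := by
    rw [intervalIntegral.integral_mul_const, intervalIntegral.integral_sub (by simp) (by simp)]
    simp
    norm_num
  linarith

theorem M_pos : 0 < M := by
  have h1 : (1 / 2 : ℝ) ≤ ∫ x in Set.Icc (-1:ℝ) 1, kk x := by
    have h2 : ∫ x in Set.Icc (-1:ℝ) 1, (1 / 4 : ℝ) ≤ ∫ x in Set.Icc (-1:ℝ) 1, kk x := by
      refine setIntegral_mono_on (by simp) kk_int.integrableOn measurableSet_Icc ?_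
      intro x hx
      exact kk_quarter x (abs_le.mpr ⟨by linarith [hx.1], hx.2⟩)
    rw [setIntegral_const] at h2
    simp only [smul_eq_mul] at h2
    have h3 : volume.real (Set.Icc (-1:ℝ) 1) = 2 := by
      rw [Real.volume_real_Icc_of_le (by norm_num)]; norm_num
    rw [h3] at h2
    linarith
  have h2 : ∫ x in Set.Icc (-1:ℝ) 1, kk x ≤ ∫ x, kk x :=
    setIntegral_le_integral kk_int (Eventually.of_forall kk_nonneg)
  unfold M
  linarith

/-- the tails -/
theorem tail {R : ℝ} (hR : 0 < R) : ∫ x in {x : ℝ | R < |x|}, kk x ≤ 4 / R := by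
  have hset : {x : ℝ | R < |x|} = Set.Iio (-R) ∪ Set.Ioi R := by
    ext x
    simp only [Set.mem_ofPred_eq, Set.mem_union, Set.mem_Iio, Set.mem_Ioi, lt_abs]
    constructor
    · rintro (h | h)
      · right; exact h
      · left; linarith
    · rintro (h | h)
      · right; linarith
      · left; exact h
  have hpos : ∫ x in Set.Ioi R, kk x ≤ 2 / R := by
    have h1 : IntegrableOn (fun x : ℝ => 2 * x ^ (-2 : ℝ)) (Set.Ioi R) :=
      (integrableOn_Ioi_rpow_of_lt (by norm_num) hR).const_mul 2
    have h2 : ∫ x in Set.Ioi R, kk x ≤ ∫ x in Set.Ioi R, 2 * x ^ (-2 : ℝ) := by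
      refine setIntegral_mono_on kk_int.integrableOn h1 measurableSet_Ioi ?_
      intro x hx
      have hx0 : 0 < x := hR.trans hx
      refine (kk_le_sq hx0.ne').trans (le_of_eq ?_)
      rw [Real.rpow_neg hx0.le, div_eq_mul_inv]
      norm_num
    refine h2.trans (le_of_eq ?_)
    rw [integral_const_mul, integral_Ioi_rpow_of_lt (by norm_num) hR]
    have : (-2 : ℝ) + 1 = -1 := by norm_num
    rw [this, Real.rpow_neg_one]
    field_simp
  have hneg : ∫ x in Set.Iio (-R), kk x = ∫ x in Set.Ioi R, kk x := by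
    rw [← integral_Iic_eq_integral_Iio]
    have := integral_comp_neg_Iic (-R) kk
    rw [neg_neg] at this
    rw [← this]
    congr 1
    ext x
    exact (kk_even x).symm
  rw [hset, setIntegral_union (by
      rw [Set.disjoint_left]
      intro x h1 h2
      simp only [Set.mem_Iio, Set.mem_Ioi] at h1 h2
      linarith) measurableSet_Ioi kk_int.integrableOn kk_int.integrableOn, hneg]
  have : 4 / R = 2 / R + 2 / R := by ring
  linarith

/-- primitive -/
noncomputable def KK (u : ℝ) : ℝ := ∫ x in Set.Iic u, kk x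

theorem KK_sub (u : ℝ) : KK u - KK 0 = ∫ r in (0:ℝ)..u, kk r := by
  unfold KK
  exact intervalIntegral.integral_Iic_sub_Iic kk_int.integrableOn kk_int.integrableOn

/-- interchange on a rectangle -/
theorem swap_le (f : ℝ → ℝ → ℝ) (hf : Continuous (Function.uncurry f)) {a b : ℝ} (hab : a ≤ b) :
    ∫ x in a..b, ∫ y in (0:ℝ)..1, f x y = ∫ y in (0:ℝ)..1, ∫ x in a..b, f x y := by
  rw [intervalIntegral.integral_of_le hab, intervalIntegral.integral_of_le zero_le_one]
  have e1 : ∀ x : ℝ, ∫ y in (0:ℝ)..1, f x y = ∫ y in Set.Ioc (0:ℝ) 1, f x y :=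
    fun x => intervalIntegral.integral_of_le zero_le_one
  have e2 : ∀ y : ℝ, ∫ x in a..b, f x y = ∫ x in Set.Ioc a b, f x y :=
    fun y => intervalIntegral.integral_of_le hab
  simp_rw [e1, e2]
  refine integral_integral_swap ?_
  rw [Measure.prod_restrict]
  refine IntegrableOn.mono_set (t := Set.Icc a b ×ˢ Set.Icc 0 1) ?_
    (Set.prod_mono Set.Ioc_subset_Icc_self Set.Ioc_subset_Icc_self)
  exact hf.continuousOn.integrableOn_compact (isCompact_Icc.prod isCompact_Icc)

theorem swap (f : ℝ → ℝ → ℝ) (hf : Continuous (Function.uncurry f)) (a b : ℝ) :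
    ∫ x in a..b, ∫ y in (0:ℝ)..1, f x y = ∫ y in (0:ℝ)..1, ∫ x in a..b, f x y := by
  rcases le_total a b with h | h
  · exact swap_le f hf h
  · rw [intervalIntegral.integral_symm, swap_le f hf h, ← intervalIntegral.integral_neg]
    congr 1
    ext y
    rw [intervalIntegral.integral_symm, neg_neg]

/-- the integrand of the primitive -/
noncomputable def hh (t u : ℝ) : ℝ := (1 - t) * (Real.sin (t * u) / t)

theorem hh_bd {t : ℝ} (h0 : 0 < t) (h1 : t ≤ 1) (u : ℝ) : |hh t u| ≤ |u| := by
  unfold hh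
  rw [abs_mul, abs_div, abs_of_pos h0, abs_of_nonneg (by linarith : 0 ≤ 1 - t)]
  have h2 : |Real.sin (t * u)| ≤ t * |u| := by
    refine Real.abs_sin_le_abs.trans ?_
    rw [abs_mul, abs_of_pos h0]
  have h3 : |Real.sin (t * u)| / t ≤ |u| := by
    rw [div_le_iff₀ h0]
    linarith
  calc (1 - t) * (|Real.sin (t * u)| / t) ≤ 1 * |u| := by
        gcongr
        linarith
    _ = |u| := one_mul _

theorem KK_form (u : ℝ) : KK u - KK 0 = ∫ t in Set.Ioc (0:ℝ) 1, hh t u := by
  rw [KK_sub]
  unfold kk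
  rw [swap (fun r t => (1 - t) * Real.cos (t * r)) (by fun_prop) 0 u,
    intervalIntegral.integral_of_le zero_le_one]
  refine setIntegral_congr_fun measurableSet_Ioc ?_
  intro t ht
  have ht0 : t ≠ 0 := ht.1.ne'
  simp only
  rw [intervalIntegral.integral_const_mul]
  unfold hh
  congr 1
  have h1 : ∀ r ∈ Set.uIcc (0:ℝ) u, HasDerivAt (fun r => Real.sin (t * r) / t) (Real.cos (t * r)) r := by
    intro r _
    have e1 : HasDerivAt (fun r : ℝ => t * r) t r := by
      simpa using (hasDerivAt_id r).const_mul t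
    have e2 := e1.sin.div_const t
    refine e2.congr_deriv ?_
    field_simp
  rw [intervalIntegral.integral_eq_sub_of_hasDerivAt h1
    (Continuous.intervalIntegrable (by fun_prop) _ _)]
  simp

end Pool.Agent.NH21.Bty.Esse
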