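import Pool.Agent.NH21.Bty.EssA

/-!
# Esseen's smoothing inequality: the smoothed difference
-/

set_option autoImplicit false

open MeasureTheory Set Filter Topology
open scoped Real

namespace Pool.Agent.NH21.Bty.Esse

/-- the normal law -/
noncomputable abbrev nu : Measure ℝ := ProbabilityTheory.gaussianReal 0 1

/-- the normal distribution function -/
noncomputable def Ph (x : ℝ) : ℝ := nu.real (Set.Iic x)

/-- the empirical distribution function -/
noncomputable def FF (N : ℕ) (a : ℕ → ℝ) (x : ℝ) : ℝ :=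
  (((Finset.Icc 1 N).filter (fun n => a n ≤ x)).card : ℝ) / N

theorem Ph_mono : Monotone Ph := fun x y h =>
  measureReal_mono (Set.Iic_subset_Iic.mpr h)

theorem Ph_nonneg (x : ℝ) : 0 ≤ Ph x := measureReal_nonneg

theorem Ph_le_one (x : ℝ) : Ph x ≤ 1 := measureReal_le_one

theorem Ph_lip {x y : ℝ} (h : x ≤ y) : Ph y ≤ Ph x + (y - x) := by
  have h1 : Ph y - Ph x = nu.real (Set.Ioc x y) := by
    unfold Ph
    rw [← Set.Iic_union_Ioc_eq_Iic h, measureReal_union (by
      rw [Set.disjoint_left]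
      intro z h1 h2
      exact absurd h1 (not_le.mpr h2.1)) measurableSet_Ioc]
    ring
  have h2 : nu.real (Set.Ioc x y) ≤ y - x := by
    have h3 : nu (Set.Ioc x y) = ENNReal.ofReal (∫ z in Set.Ioc x y, ProbabilityTheory.gaussianPDFReal 0 1 z) :=
      ProbabilityTheory.gaussianReal_apply_eq_integral 0 (by norm_num) _
    rw [Measure.real, h3, ENNReal.toReal_ofReal (integral_nonneg fun z =>
      ProbabilityTheory.gaussianPDFReal_nonneg 0 1 z)]
    have h4 : ∫ z in Set.Ioc x y, ProbabilityTheory.gaussianPDFReal 0 1 z ≤ ∫ z in Set.Ioc x y, (1 : ℝ) := by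
      refine setIntegral_mono_on (ProbabilityTheory.integrable_gaussianPDFReal 0 1).integrableOn (by simp)
        measurableSet_Ioc ?_
      intro z _
      rw [ProbabilityTheory.gaussianPDFReal]
      have h5 : Real.exp (-(z - 0) ^ 2 / (2 * ((1 : NNReal) : ℝ))) ≤ 1 := by
        rw [Real.exp_le_one_iff]
        have : 0 ≤ (z - 0) ^ 2 := sq_nonneg _
        simp only [NNReal.coe_one, mul_one]
        linarith
      have h6 : (Real.sqrt (2 * Real.pi * ((1 : NNReal) : ℝ)))⁻¹ ≤ 1 := by
        apply inv_le_one_of_one_le₀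
        rw [Real.one_le_sqrt]
        simp only [NNReal.coe_one, mul_one]
        have := Real.pi_gt_three
        linarith
      calc (Real.sqrt (2 * Real.pi * ((1 : NNReal) : ℝ)))⁻¹ * Real.exp (-(z - 0) ^ 2 / (2 * ((1 : NNReal) : ℝ)))
          ≤ 1 * 1 := mul_le_mul h6 h5 (Real.exp_pos _).le zero_le_one
        _ = 1 := by norm_num
    refine h4.trans (le_of_eq ?_)
    rw [setIntegral_const, Real.volume_real_Ioc_of_le h]
    simp
  linarith

theorem FF_mono (N : ℕ) (a : ℕ → ℝ) : Monotone (FF N a) := by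
  intro x y h
  unfold FF
  gcongr

theorem FF_nonneg (N : ℕ) (a : ℕ → ℝ) (x : ℝ) : 0 ≤ FF N a x := by unfold FF; positivity

theorem FF_le_one (N : ℕ) (a : ℕ → ℝ) (x : ℝ) : FF N a x ≤ 1 := by
  unfold FF
  refine div_le_one_of_le₀ ?_ (Nat.cast_nonneg _)
  have h := Finset.card_filter_le (Finset.Icc 1 N) (fun n => a n ≤ x)
  rw [Nat.card_Icc] at h
  have : ((Finset.Icc 1 N).filter (fun n => a n ≤ x)).card ≤ N := by omega
  exact_mod_cast this

theorem FF_sum (N : ℕ) (a : ℕ → ℝ) (x : ℝ) :
    FF N a x = (1 / (N : ℝ)) * ∑ n ∈ Finset.Icc 1 N, if a n ≤ x then (1 : ℝ) else 0 := by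
  unfold FF
  rw [Finset.card_filter]
  push_cast
  ring

/-- the difference -/
noncomputable def DD (N : ℕ) (a : ℕ → ℝ) (x : ℝ) : ℝ := FF N a x - Ph x

theorem DD_abs (N : ℕ) (a : ℕ → ℝ) (x : ℝ) : |DD N a x| ≤ 1 := by
  unfold DD
  rw [abs_le]
  have h1 := FF_nonneg N a x
  have h2 := FF_le_one N a x
  have h3 := Ph_nonneg x
  have h4 := Ph_le_one x
  constructor <;> linarith

theorem DD_meas (N : ℕ) (a : ℕ → ℝ) : Measurable (DD N a) :=
  (FF_mono N a).measurable.sub Ph_mono.measurable

/-- the smoothed difference -/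
noncomputable def GG (N : ℕ) (a : ℕ → ℝ) (T x : ℝ) : ℝ := ∫ r, DD N a (x - r / T) * kk r

theorem int_FF {T : ℝ} (hT : 0 < T) (c x : ℝ) :
    Integrable (fun r => (if c ≤ x - r / T then (1 : ℝ) else 0) * kk r) ∧
    ∫ r, (if c ≤ x - r / T then (1 : ℝ) else 0) * kk r = KK (T * (x - c)) := by
  have h1 : (fun r => (if c ≤ x - r / T then (1 : ℝ) else 0) * kk r) =
      (Set.Iic (T * (x - c))).indicator kk := by
    ext r
    unfold Set.indicator
    have h2 : c ≤ x - r / T ↔ r ∈ Set.Iic (T * (x - c)) := by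
      rw [Set.mem_Iic]
      constructor
      · intro h
        have h3 : r / T ≤ x - c := by linarith
        rw [div_le_iff₀ hT] at h3
        linarith
      · intro h
        have h3 : r / T ≤ x - c := by
          rw [div_le_iff₀ hT]
          linarith
        linarith
    by_cases h : c ≤ x - r / T
    · rw [if_pos h, if_pos (h2.mp h), one_mul]
    · rw [if_neg h, if_neg (fun h' => h (h2.mpr h')), zero_mul]
  rw [h1]
  exact ⟨kk_int.indicator measurableSet_Iic, integral_indicator measurableSet_Iic⟩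

theorem KK_abs (u : ℝ) : |KK u| ≤ M := by
  unfold KK M
  rw [abs_of_nonneg (integral_nonneg fun x => kk_nonneg x)]
  exact setIntegral_le_integral kk_int (Eventually.of_forall kk_nonneg)

theorem KK_mono : Monotone KK := by
  intro x y h
  unfold KK
  exact setIntegral_mono_set kk_int.integrableOn (Eventually.of_forall kk_nonneg)
    (Set.Iic_subset_Iic.mpr h).eventuallyLE

theorem int_Ph {T : ℝ} (hT : 0 < T) (x : ℝ) :
    Integrable (fun r => Ph (x - r / T) * kk r) ∧
    ∫ r, Ph (x - r / T) * kk r = ∫ y, KK (T * (x - y)) ∂nu := by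
  have hmeas : Measurable (fun r : ℝ => Ph (x - r / T)) := Ph_mono.measurable.comp (by fun_prop)
  refine ⟨?_, ?_⟩
  · refine Integrable.mono' kk_int ((hmeas.mul kk_cont.measurable).aestronglyMeasurable) ?_
    refine Eventually.of_forall fun r => ?_
    rw [norm_mul, Real.norm_eq_abs, Real.norm_eq_abs, abs_of_nonneg (Ph_nonneg _),
      abs_of_nonneg (kk_nonneg r)]
    calc Ph (x - r / T) * kk r ≤ 1 * kk r := mul_le_mul_of_nonneg_right (Ph_le_one _) (kk_nonneg r)
      _ = kk r := one_mul _
  · have h1 : ∀ r : ℝ, Ph (x - r / T) * kk r =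
        ∫ y, (if y ≤ x - r / T then (1 : ℝ) else 0) * kk r ∂nu := by
      intro r
      rw [integral_mul_const]
      congr 1
      have : (fun y : ℝ => if y ≤ x - r / T then (1 : ℝ) else 0) =
          (Set.Iic (x - r / T)).indicator 1 := by
        ext y
        simp [Set.indicator]
      rw [this, integral_indicator_one measurableSet_Iic]
      rfl
    simp_rw [h1]
    rw [integral_integral_swap]
    · congr 1
      ext y
      exact (int_FF hT y x).2
    · have h2 : Integrable (fun z : ℝ × ℝ => kk z.1 * (1 : ℝ)) (volume.prod nu) :=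
        kk_int.mul_prod (integrable_const 1)
      have h3 : (Function.uncurry fun r y : ℝ => (if y ≤ x - r / T then (1 : ℝ) else 0) * kk r) =
          {z : ℝ × ℝ | z.2 ≤ x - z.1 / T}.indicator (fun z => kk z.1 * (1 : ℝ)) := by
        ext z
        by_cases h : z.2 ≤ x - z.1 / T
        · rw [Set.indicator_of_mem (by exact h)]
          simp only [Function.uncurry]
          rw [if_pos h]; ring
        · rw [Set.indicator_of_notMem (by exact h)]
          simp only [Function.uncurry]
          rw [if_neg h]; ring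
      rw [h3]
      refine h2.indicator ?_
      exact measurableSet_le (by fun_prop) (by fun_prop)

theorem GG_form (N : ℕ) (a : ℕ → ℝ) {T : ℝ} (hT : 0 < T) (x : ℝ) :
    GG N a T x = (1 / (N : ℝ)) * ∑ n ∈ Finset.Icc 1 N, KK (T * (x - a n)) -
      ∫ y, KK (T * (x - y)) ∂nu := by
  have hi : Integrable (fun r => FF N a (x - r / T) * kk r) ∧
      ∫ r, FF N a (x - r / T) * kk r = (1 / (N : ℝ)) * ∑ n ∈ Finset.Icc 1 N, KK (T * (x - a n)) := by
    have h1 : (fun r => FF N a (x - r / T) * kk r) = fun r => (1 / (N : ℝ)) *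
        ∑ n ∈ Finset.Icc 1 N, (if a n ≤ x - r / T then (1 : ℝ) else 0) * kk r := by
      ext r
      rw [FF_sum, mul_assoc, Finset.sum_mul]
    rw [h1]
    constructor
    · exact (integrable_finsetSum _ fun n _ => (int_FF hT (a n) x).1).const_mul _
    · rw [integral_const_mul, integral_finsetSum _ fun n _ => (int_FF hT (a n) x).1]
      congr 1
      exact Finset.sum_congr rfl fun n _ => (int_FF hT (a n) x).2
  obtain ⟨h2, h3⟩ := int_Ph hT x
  unfold GG DD
  simp_rw [sub_mul]
  rw [integral_sub hi.1 h2, hi.2, h3]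

theorem hh_meas : Measurable (Function.uncurry hh) := by
  unfold hh Function.uncurry
  fun_prop

theorem id_int : Integrable (fun y : ℝ => y) nu := by
  have h := ProbabilityTheory.memLp_id_gaussianReal (μ := 0) (v := 1) 1
  have h2 := h.integrable (by norm_num)
  exact h2

theorem hh_int_t (u : ℝ) : IntegrableOn (fun t => hh t u) (Set.Ioc (0:ℝ) 1) := by
  refine Measure.integrableOn_of_bounded (M := |u|) (by simp) ?_ ?_
  · exact (hh_meas.comp (by fun_prop : Measurable fun t : ℝ => (t, u))).aestronglyMeasurable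
  · rw [ae_restrict_iff' measurableSet_Ioc]
    refine Eventually.of_forall fun t ht => ?_
    exact hh_bd ht.1 ht.2 u

theorem hh_int_y {t : ℝ} (h0 : 0 < t) (h1 : t ≤ 1) (T x : ℝ) :
    Integrable (fun y => hh t (T * (x - y))) nu := by
  have hb : Integrable (fun y : ℝ => |T * (x - y)|) nu :=
    (((integrable_const x).sub id_int).const_mul T).abs
  refine Integrable.mono' hb ?_ (Eventually.of_forall fun y => hh_bd h0 h1 _)
  exact (hh_meas.comp (by fun_prop : Measurable fun y : ℝ => (t, T * (x - y)))).aestronglyMeasurable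

theorem GG_form2 {N : ℕ} (hN : 1 ≤ N) (a : ℕ → ℝ) {T : ℝ} (hT : 0 < T) (x : ℝ) :
    GG N a T x = ∫ t in Set.Ioc (0:ℝ) 1, ((1 / (N : ℝ)) * ∑ n ∈ Finset.Icc 1 N, hh t (T * (x - a n)) -
      ∫ y, hh t (T * (x - y)) ∂nu) := by
  have hN0 : (N : ℝ) ≠ 0 := by
    have : (1 : ℝ) ≤ N := by exact_mod_cast hN
    linarith
  have hpint : Integrable (Function.uncurry fun y t : ℝ => hh t (T * (x - y)))
      (nu.prod (volume.restrict (Set.Ioc (0:ℝ) 1))) := by
    have hb : Integrable (fun z : ℝ × ℝ => |T * (x - z.1)| * (1 : ℝ))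
        (nu.prod (volume.restrict (Set.Ioc (0:ℝ) 1))) := by
      refine Integrable.mul_prod (f := fun y : ℝ => |T * (x - y)|) (g := fun _ => (1 : ℝ)) ?_ ?_
      · exact (((integrable_const x).sub id_int).const_mul T).abs
      · exact integrable_const 1
    refine Integrable.mono' hb ?_ ?_
    · have : Measurable (Function.uncurry fun y t : ℝ => hh t (T * (x - y))) :=
        hh_meas.comp (by fun_prop : Measurable fun z : ℝ × ℝ => (z.2, T * (x - z.1)))
      exact this.aestronglyMeasurable
    · have h1 : ∀ᵐ z ∂(nu.prod (volume.restrict (Set.Ioc (0:ℝ) 1))), z.2 ∈ Set.Ioc (0:ℝ) 1 := by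
        have h2 : ∀ᵐ t ∂(volume.restrict (Set.Ioc (0:ℝ) 1)), t ∈ Set.Ioc (0:ℝ) 1 :=
          ae_restrict_mem measurableSet_Ioc
        exact Measure.quasiMeasurePreserving_snd.ae h2
      filter_upwards [h1] with z hz
      rw [mul_one]
      exact hh_bd hz.1 hz.2 _
  have hsw := integral_integral_swap hpint
  rw [GG_form N a hT x]
  have e1 : ∀ u : ℝ, KK u = KK 0 + ∫ t in Set.Ioc (0:ℝ) 1, hh t u := by
    intro u
    have := KK_form u
    linarith
  have e2 : (1 / (N : ℝ)) * ∑ n ∈ Finset.Icc 1 N, KK (T * (x - a n)) =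
      KK 0 + ∫ t in Set.Ioc (0:ℝ) 1, (1 / (N : ℝ)) * ∑ n ∈ Finset.Icc 1 N, hh t (T * (x - a n)) := by
    rw [integral_const_mul, integral_finsetSum _ fun n _ => hh_int_t _]
    rw [Finset.sum_congr rfl fun n _ => e1 (T * (x - a n)), Finset.sum_add_distrib,
      Finset.sum_const, Nat.card_Icc, nsmul_eq_mul]
    have : N + 1 - 1 = N := by omega
    rw [this]
    field_simp
  have e3 : ∫ y, KK (T * (x - y)) ∂nu = KK 0 + ∫ t in Set.Ioc (0:ℝ) 1, ∫ y, hh t (T * (x - y)) ∂nu := by
    rw [← hsw]
    have h1 : Integrable (fun y => ∫ t in Set.Ioc (0:ℝ) 1, hh t (T * (x - y))) nu :=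
      hpint.integral_prod_left
    have h2 : ∫ y, KK (T * (x - y)) ∂nu = ∫ y, (KK 0 + ∫ t in Set.Ioc (0:ℝ) 1, hh t (T * (x - y))) ∂nu := by
      congr 1
      ext y
      exact e1 _
    rw [h2, integral_add (integrable_const _) h1, integral_const]
    simp
  rw [e2, e3, integral_sub]
  · ring
  · exact (integrable_finsetSum _ fun n _ => hh_int_t _).const_mul _
  · exact hpint.integral_prod_right

end Pool.Agent.NH21.Bty.Esse
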