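import Pool.Agent.NH21.Bty.Stm

/-! # Growth of the iterated logarithm, harmonic sums over short ranges -/

set_option autoImplicit false

namespace Pool.Agent.NH21.Bty

open Finset Filter Topology

lemma tendsto_log_nat : Tendsto (fun X : ℕ => Real.log X) atTop atTop :=
  Real.tendsto_log_atTop.comp tendsto_natCast_atTop_atTop

lemma tendsto_LL : Tendsto LL atTop atTop := Real.tendsto_log_atTop.comp tendsto_log_nat

/-- powers of `LL X` are small compared with `√(log X)` -/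
lemma ev_LL (k : ℕ) (C : ℝ) : ∃ X0 : ℕ, ∀ X : ℕ, X0 ≤ X → 1 ≤ LL X ∧ C * LL X ^ k ≤ √(Real.log X) := by
  have h1 : Tendsto (fun t : ℝ => Real.log t ^ (k : ℝ) / t ^ (1 / 2 : ℝ)) atTop (𝓝 0) :=
    (isLittleO_log_rpow_rpow_atTop (k : ℝ) (by norm_num : (0 : ℝ) < 1 / 2)).tendsto_div_nhds_zero
  have h2 : ∀ᶠ t : ℝ in atTop, Real.log t ^ (k : ℝ) / t ^ (1 / 2 : ℝ) < 1 / (|C| + 1) :=
    h1.eventually (gt_mem_nhds (by positivity))
  have h3 : ∀ᶠ X : ℕ in atTop, Real.log (Real.log X) ^ (k : ℝ) / (Real.log X) ^ (1 / 2 : ℝ) < 1 / (|C| + 1) :=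
    tendsto_log_nat.eventually h2
  have h4 : ∀ᶠ X : ℕ in atTop, 1 ≤ LL X := tendsto_LL.eventually_ge_atTop 1
  have h5 : ∀ᶠ X : ℕ in atTop, 1 ≤ Real.log X := tendsto_log_nat.eventually_ge_atTop 1
  obtain ⟨X0, h⟩ := eventually_atTop.1 (h3.and (h4.and h5))
  refine ⟨X0, fun X hX => ?_⟩
  obtain ⟨a1, a2, a3⟩ := h X hX
  refine ⟨a2, ?_⟩
  have a4 : (0 : ℝ) < (Real.log X) ^ (1 / 2 : ℝ) := Real.rpow_pos_of_pos (by linarith) _
  rw [div_lt_iff₀ a4, Real.rpow_natCast] at a1
  rw [Real.sqrt_eq_rpow]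
  have a5 : LL X ^ k ≤ 1 / (|C| + 1) * Real.log X ^ (1 / 2 : ℝ) := a1.le
  have a6 : 0 ≤ LL X ^ k := by positivity
  calc C * LL X ^ k ≤ |C| * LL X ^ k := mul_le_mul_of_nonneg_right (le_abs_self C) a6
    _ ≤ |C| * (1 / (|C| + 1) * Real.log X ^ (1 / 2 : ℝ)) := mul_le_mul_of_nonneg_left a5 (abs_nonneg C)
    _ = (|C| / (|C| + 1)) * Real.log X ^ (1 / 2 : ℝ) := by ring
    _ ≤ 1 * Real.log X ^ (1 / 2 : ℝ) := by
        apply mul_le_mul_of_nonneg_right _ a4.le
        rw [div_le_one (by positivity)]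
        linarith
    _ = _ := one_mul _

/-- the harmonic sum between `X / Y` and `X` -/
lemma harm_short (X : ℕ) (Y : ℝ) (hY : 1 ≤ Y) :
    ∑ m ∈ (Icc 1 X).filter (fun m : ℕ => (X : ℝ) / Y < m), (1 : ℝ) / m ≤ Real.log Y + 2 := by
  rcases Nat.eq_zero_or_pos X with h0 | hX
  · subst h0
    simp
    have := Real.log_nonneg hY
    linarith
  have hXr : (0 : ℝ) < X := by exact_mod_cast hX
  have hY0 : 0 < Y := by linarith
  obtain ⟨a, ha⟩ : ∃ a : ℕ, a = ⌊(X : ℝ) / Y⌋₊ := ⟨_, rfl⟩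
  have hlt : (X : ℝ) / Y < a + 1 := by rw [ha]; exact Nat.lt_floor_add_one _
  have hle : (a : ℝ) ≤ (X : ℝ) / Y := by rw [ha]; exact Nat.floor_le (by positivity)
  have haX : a ≤ X := by
    have : (a : ℝ) ≤ X := hle.trans (div_le_self hXr.le hY)
    exact_mod_cast this
  have hsub : (Icc 1 X).filter (fun m : ℕ => (X : ℝ) / Y < m) ⊆ Icc (a + 1) X := by
    intro m hm
    rw [mem_filter, mem_Icc] at hm
    rw [mem_Icc]
    refine ⟨?_, hm.1.2⟩
    have : (a : ℝ) < m := hle.trans_lt hm.2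
    exact_mod_cast this
  refine (sum_le_sum_of_subset_of_nonneg hsub (fun _ _ _ => by positivity)).trans ?_
  -- compare with log
  have key : ∀ n : ℕ, a + 1 ≤ n → ∑ m ∈ Icc (a + 1) n, (1 : ℝ) / m ≤ 1 + Real.log n - Real.log (a + 1) := by
    intro n hn
    induction n, hn using Nat.le_induction with
    | base =>
      rw [Icc_self, sum_singleton]
      push_cast
      have : (1 : ℝ) / ((a : ℝ) + 1) ≤ 1 := by
        rw [div_le_one (by positivity)]
        have : (0 : ℝ) ≤ a := Nat.cast_nonneg a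
        linarith
      linarith
    | succ n hn ih =>
      rw [← Nat.succ_eq_add_one, ← insert_Icc_right_eq_Icc_add_one (by omega), sum_insert (by simp)]
      have hn0 : (0 : ℝ) < n := by exact_mod_cast (by omega : 0 < n)
      have h1 : (1 : ℝ) / ((n + 1 : ℕ) : ℝ) ≤ Real.log ((n + 1 : ℕ) : ℝ) - Real.log n := by
        rw [← Real.log_div (by positivity) hn0.ne']
        have h2 := Real.one_sub_inv_le_log_of_pos (x := ((n + 1 : ℕ) : ℝ) / n) (by positivity)
        refine le_trans (le_of_eq ?_) h2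
        push_cast
        field_simp
        ring
      linarith
  by_cases h : a + 1 ≤ X
  · refine (key X h).trans ?_
    have h1 : Real.log X - Real.log (a + 1) ≤ Real.log Y := by
      have h2 : Real.log ((X : ℝ) / Y) ≤ Real.log (a + 1) := Real.log_le_log (by positivity) hlt.le
      rw [Real.log_div hXr.ne' hY0.ne'] at h2
      linarith
    linarith
  · rw [Icc_eq_empty (by omega), sum_empty]
    have := Real.log_nonneg hY
    linarith

end Pool.Agent.NH21.Bty
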