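import Pool.Agent.NH21.Bty.Stm

/-!
# The rate in the Erdős–Kac theorem for Beatty sequences: from the characteristic function to the rate
-/

set_option autoImplicit false

namespace Pool.Agent.NH21.Bty

open Finset Filter Topology

/-- the difference of two exponentials -/
theorem fin_exp_sub (a b : ℂ) (c : ℝ) (ha : a.re ≤ c) (hb : b.re ≤ c) :
    ‖Complex.exp a - Complex.exp b‖ ≤ Real.exp c * ‖a - b‖ := by
  have hconv : Convex ℝ {z : ℂ | z.re ≤ c} := by
    exact convex_halfSpace_re_le c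
  refine Convex.norm_image_sub_le_of_norm_deriv_le (𝕜 := ℂ) (s := {z : ℂ | z.re ≤ c})
    (fun x _ => Complex.differentiableAt_exp) ?_ hconv hb ha
  intro x hx
  rw [Complex.deriv_exp, Complex.norm_exp]
  exact Real.exp_le_exp.2 hx

theorem fin_cos {t : ℝ} (ht : |t| ≤ 1) : Real.cos t - 1 ≤ -(t ^ 2 / 4) := by
  have h := Real.cos_bound ht
  have h1 := (abs_le.1 h).2
  have h2 : |t| ^ 4 ≤ t ^ 2 := by
    have : |t| ^ 4 = t ^ 2 * t ^ 2 := by
      rw [← sq_abs t]
      ring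
    rw [this]
    have h3 : t ^ 2 ≤ 1 := by
      rw [← sq_abs]
      exact pow_le_one₀ (abs_nonneg t) ht
    nlinarith [sq_nonneg t]
  nlinarith

/-- the second order expansion -/
theorem fin_taylor {t : ℝ} (ht : |t| ≤ 1) :
    ‖Complex.exp (t * Complex.I) - 1 - t * Complex.I + (t : ℂ) ^ 2 / 2‖ ≤ |t| ^ 3 := by
  have h1 : ‖(t * Complex.I : ℂ)‖ = |t| := by simp
  have h := Complex.exp_bound (x := t * Complex.I) (by rw [h1]; exact ht) (n := 3) (by norm_num)
  rw [h1] at h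
  have h2 : ∑ m ∈ range 3, (t * Complex.I : ℂ) ^ m / (m.factorial : ℂ) =
      1 + t * Complex.I - (t : ℂ) ^ 2 / 2 := by
    have hI : ((t : ℂ) * Complex.I) ^ 2 = -((t : ℂ) ^ 2) := by
      rw [mul_pow, Complex.I_sq]
      ring
    simp only [sum_range_succ, sum_range_zero, Nat.factorial]
    rw [hI]
    push_cast
    ring
  rw [h2] at h
  have h3 : Complex.exp (t * Complex.I) - 1 - t * Complex.I + (t : ℂ) ^ 2 / 2 =
      Complex.exp (t * Complex.I) - (1 + t * Complex.I - (t : ℂ) ^ 2 / 2) := by ring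
  rw [h3]
  refine h.trans ?_
  have h4 : 0 ≤ |t| ^ 3 := by positivity
  have h5 : ((Nat.succ 3 : ℕ) : ℝ) * (((Nat.factorial 3 : ℕ) : ℝ) * ((3 : ℕ) : ℝ))⁻¹ ≤ 1 := by
    norm_num [Nat.factorial]
  calc |t| ^ 3 * (((Nat.succ 3 : ℕ) : ℝ) * (((Nat.factorial 3 : ℕ) : ℝ) * ((3 : ℕ) : ℝ))⁻¹)
      ≤ |t| ^ 3 * 1 := mul_le_mul_of_nonneg_left h5 h4
    _ = |t| ^ 3 := mul_one _

/-- the majorant -/
noncomputable def finB (A ε κ1 κ2 : ℝ) (t : ℝ) : ℝ :=
  A * (4 * ε ^ 2 / (t + ε) ^ 2) + κ1 / (1 + t ^ 2) + κ2 * (2 / (t + ε))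

theorem fin_int (A ε κ1 κ2 T : ℝ) (hε : 0 < ε) (hT : 0 ≤ T) (hA : 0 ≤ A) (h1 : 0 ≤ κ1) :
    IntervalIntegrable (finB A ε κ1 κ2) MeasureTheory.volume 0 T ∧
    ∫ t in (0 : ℝ)..T, finB A ε κ1 κ2 t ≤
      4 * A * ε + 2 * κ1 + 2 * κ2 * (Real.log (T + ε) - Real.log ε) := by
  have hcont : ContinuousOn (finB A ε κ1 κ2) (Set.uIcc 0 T) := by
    rw [Set.uIcc_of_le hT]
    unfold finB
    intro t ht
    have h3 : t + ε ≠ 0 := by
      have := ht.1
      positivity
    have h4 : (1 : ℝ) + t ^ 2 ≠ 0 := by positivity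
    apply ContinuousAt.continuousWithinAt
    have : (t + ε) ^ 2 ≠ 0 := pow_ne_zero 2 h3
    fun_prop (disch := assumption)
  have hint := hcont.intervalIntegrable (μ := MeasureTheory.volume)
  refine ⟨hint, ?_⟩
  have hder : ∀ t ∈ Set.uIcc 0 T, HasDerivAt
      (fun t => A * (-(4 * ε ^ 2) * (t + ε)⁻¹) + κ1 * Real.arctan t + κ2 * (2 * Real.log (t + ε)))
      (finB A ε κ1 κ2 t) t := by
    intro t ht
    rw [Set.uIcc_of_le hT] at ht
    have h3 : t + ε ≠ 0 := by
      have := ht.1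
      positivity
    have d0 : HasDerivAt (fun t => t + ε) 1 t := (hasDerivAt_id t).add_const ε
    have d1 := (((d0.inv h3).const_mul (-(4 * ε ^ 2))).const_mul A)
    have d2 := (Real.hasDerivAt_arctan t).const_mul κ1
    have d3 := ((d0.log h3).const_mul 2).const_mul κ2
    have d := (d1.add d2).add d3
    refine d.congr_deriv ?_
    unfold finB
    field_simp
  have hftc := intervalIntegral.integral_eq_sub_of_hasDerivAt hder hint
  rw [hftc]
  have e0 : Real.arctan 0 = 0 := Real.arctan_zero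
  have e1 : Real.arctan T ≤ 2 := by
    have := Real.arctan_lt_pi_div_two T
    have := Real.pi_lt_four
    linarith
  have e2 : 0 ≤ (T + ε)⁻¹ := by positivity
  have e3 : ε ^ 2 * ε⁻¹ = ε := by field_simp
  have e4 : 0 ≤ A * (4 * ε ^ 2) * (T + ε)⁻¹ := by positivity
  rw [e0]
  simp only [zero_add]
  have e5 : κ1 * Real.arctan T ≤ κ1 * 2 := mul_le_mul_of_nonneg_left e1 h1
  have e6 : A * (-(4 * ε ^ 2) * ε⁻¹) = -(4 * A * ε) := by
    rw [show A * (-(4 * ε ^ 2) * ε⁻¹) = -(4 * A * (ε ^ 2 * ε⁻¹)) by ring, e3]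
  rw [e6]
  nlinarith

/-- rapid decay -/
theorem fin_decay (K t : ℝ) (hK : 0 ≤ K) :
    (K + t ^ 2) * Real.exp (-(t ^ 2 / 4)) ≤ 64 * (K + 1) / (1 + t ^ 2) := by
  have h1 : (1 + t ^ 2) ^ 2 / 64 ≤ Real.exp (t ^ 2 / 4) := by
    have h2 : 1 + t ^ 2 / 4 + (t ^ 2 / 4) ^ 2 / 2 ≤ Real.exp (t ^ 2 / 4) :=
      Real.quadratic_le_exp_of_nonneg (by positivity)
    refine le_trans ?_ h2
    nlinarith [sq_nonneg t, sq_nonneg (t ^ 2)]
  rw [Real.exp_neg, ← div_eq_mul_inv, div_le_div_iff₀ (Real.exp_pos _) (by positivity)]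
  have h3 : (K + t ^ 2) * (1 + t ^ 2) ≤ (K + 1) * (1 + t ^ 2) ^ 2 := by
    nlinarith [sq_nonneg t, mul_nonneg hK (sq_nonneg t), mul_nonneg hK (sq_nonneg (t ^ 2)),
      sq_nonneg (t ^ 2)]
  have h4 : 0 ≤ 64 * (K + 1) := by positivity
  calc (K + t ^ 2) * (1 + t ^ 2) ≤ (K + 1) * (1 + t ^ 2) ^ 2 := h3
    _ = 64 * (K + 1) * ((1 + t ^ 2) ^ 2 / 64) := by ring
    _ ≤ 64 * (K + 1) * Real.exp (t ^ 2 / 4) := mul_le_mul_of_nonneg_left h1 h4

/-- small values of `t` -/
theorem fin_small (N : ℕ) (hN : 1 ≤ N) (a : ℕ → ℝ) (M t : ℝ) (ht : 0 < t)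
    (ha : ∀ n ∈ Icc 1 N, |a n| ≤ M) (ht1 : t ≤ 1) :
    ‖(1 / (N : ℂ)) * ∑ n ∈ Icc 1 N, Complex.exp (t * (a n : ℂ) * Complex.I) -
      Complex.exp (-((t : ℂ) ^ 2 / 2))‖ ≤ t * (M + 1) := by
  have hN0 : (0 : ℝ) < N := by exact_mod_cast hN
  have hNc : (N : ℂ) ≠ 0 := by exact_mod_cast (Nat.one_le_iff_ne_zero.1 hN)
  have h1 : ‖(1 / (N : ℂ)) * ∑ n ∈ Icc 1 N, Complex.exp (t * (a n : ℂ) * Complex.I) - 1‖ ≤
      t * M := by
    have h2 : (1 / (N : ℂ)) * ∑ n ∈ Icc 1 N, Complex.exp (t * (a n : ℂ) * Complex.I) - 1 =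
        (1 / (N : ℂ)) * ∑ n ∈ Icc 1 N, (Complex.exp (t * (a n : ℂ) * Complex.I) - 1) := by
      rw [sum_sub_distrib, sum_const, Nat.card_Icc, mul_sub]
      simp only [Nat.add_sub_cancel, nsmul_eq_mul, mul_one]
      rw [one_div_mul_cancel hNc]
    rw [h2, norm_mul]
    have h3 : ‖∑ n ∈ Icc 1 N, (Complex.exp (t * (a n : ℂ) * Complex.I) - 1)‖ ≤
        ∑ n ∈ Icc 1 N, t * M := by
      refine (norm_sum_le _ _).trans (sum_le_sum fun n hn => ?_)
      have h4 : Complex.exp (t * (a n : ℂ) * Complex.I) - 1 =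
          Complex.exp (Complex.I * ((t * a n : ℝ) : ℂ)) - 1 := by
        congr 2
        push_cast
        ring
      rw [h4]
      refine (Real.norm_exp_I_mul_ofReal_sub_one_le).trans ?_
      rw [Real.norm_eq_abs, abs_mul, abs_of_pos ht]
      exact mul_le_mul_of_nonneg_left (ha n hn) ht.le
    rw [sum_const, Nat.card_Icc, nsmul_eq_mul, Nat.add_sub_cancel] at h3
    have h5 : ‖(1 / (N : ℂ))‖ = 1 / N := by
      rw [norm_div, norm_one, Complex.norm_natCast]
    rw [h5]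
    calc 1 / (N : ℝ) * ‖∑ n ∈ Icc 1 N, (Complex.exp (t * (a n : ℂ) * Complex.I) - 1)‖
        ≤ 1 / (N : ℝ) * (N * (t * M)) := mul_le_mul_of_nonneg_left h3 (by positivity)
      _ = t * M := by field_simp
  have h6 : ‖1 - Complex.exp (-((t : ℂ) ^ 2 / 2))‖ ≤ t := by
    have h7 : (1 : ℂ) - Complex.exp (-((t : ℂ) ^ 2 / 2)) =
        ((1 - Real.exp (-(t ^ 2 / 2)) : ℝ) : ℂ) := by
      push_cast
      ring
    rw [h7, Complex.norm_real, Real.norm_eq_abs, abs_of_nonneg]
    · have := Real.add_one_le_exp (-(t ^ 2 / 2))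
      nlinarith
    · have : Real.exp (-(t ^ 2 / 2)) ≤ 1 := Real.exp_le_one_iff.2 (by
        have := sq_nonneg t
        linarith)
      linarith
  calc _ = ‖((1 / (N : ℂ)) * ∑ n ∈ Icc 1 N, Complex.exp (t * (a n : ℂ) * Complex.I) - 1) +
        (1 - Complex.exp (-((t : ℂ) ^ 2 / 2)))‖ := by
        congr 1
        ring
    _ ≤ t * M + t := (norm_add_le _ _).trans (add_le_add h1 h6)
    _ = t * (M + 1) := by ring

/-- large values of `t` -/
theorem fin_large (N : ℕ) (v : ℕ → ℕ) (K L t : ℝ) (hN : 0 < Real.log N) (hL : L = LL N)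
    (hL1 : 1 ≤ L) (ht : 0 < t) (htT : t < Real.sqrt L / 5)
    (hv : ∀ τ : ℝ, |τ| ≤ 1 / 5 →
      ‖(1 / (N : ℂ)) * ∑ n ∈ Icc 1 N, Complex.exp (τ * (v n : ℂ) * Complex.I) -
        (Real.log N : ℂ) ^ (Complex.exp (τ * Complex.I) - 1)‖ ≤
        K * (|τ| * Real.log N ^ (Real.cos τ - 1) + 1 / LL N ^ 2)) :
    ‖(1 / (N : ℂ)) * ∑ n ∈ Icc 1 N,
        Complex.exp (t * (((v n : ℝ) - L) / Real.sqrt L : ℝ) * Complex.I) -
      Complex.exp (-((t : ℂ) ^ 2 / 2))‖ ≤
      t * ((1 / Real.sqrt L) * ((|K| + t ^ 2) * Real.exp (-(t ^ 2 / 4)))) + |K| / L ^ 2 := by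
  have hL0 : 0 < L := by linarith
  set s := Real.sqrt L with hs
  have hs0 : 0 < s := Real.sqrt_pos.2 hL0
  have hs2 : s ^ 2 = L := Real.sq_sqrt hL0.le
  set τ : ℝ := t / s with hτ
  have hτ0 : 0 < τ := div_pos ht hs0
  have hτ1 : τ ≤ 1 / 5 := by
    rw [hτ, div_le_iff₀ hs0]
    linarith
  have hτa : |τ| ≤ 1 / 5 := by rwa [abs_of_pos hτ0]
  have hτb : |τ| ≤ 1 := hτa.trans (by norm_num)
  have hts : t = τ * s := by
    rw [hτ]
    field_simp
  have hLt : L * τ ^ 2 = t ^ 2 := by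
    rw [hts, ← hs2]
    ring
  have hsc : (s : ℂ) ≠ 0 := by exact_mod_cast hs0.ne'
  -- rewrite the sum
  have e1 : (1 / (N : ℂ)) * ∑ n ∈ Icc 1 N,
        Complex.exp (t * (((v n : ℝ) - L) / s : ℝ) * Complex.I) =
      Complex.exp (-(τ * L * Complex.I)) *
        ((1 / (N : ℂ)) * ∑ n ∈ Icc 1 N, Complex.exp (τ * (v n : ℂ) * Complex.I)) := by
    rw [mul_left_comm]
    congr 1
    rw [Finset.mul_sum]
    refine sum_congr rfl fun n _ => ?_
    rw [← Complex.exp_add]
    congr 1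
    rw [hts]
    push_cast
    field_simp
    ring
  have e2 : (Real.log N : ℂ) ^ (Complex.exp (τ * Complex.I) - 1) =
      Complex.exp (L * (Complex.exp (τ * Complex.I) - 1)) := by
    rw [Complex.cpow_def_of_ne_zero (by exact_mod_cast hN.ne'), ← Complex.ofReal_log hN.le, hL]
    rfl
  have e3 : Complex.exp (-((t : ℂ) ^ 2 / 2)) = Complex.exp (-(L * (τ : ℂ) ^ 2 / 2)) := by
    congr 1
    rw [← Complex.ofReal_pow, ← Complex.ofReal_pow, ← hLt]
    push_cast
    ring
  have h1 := hv τ hτa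
  rw [e2] at h1
  have hmod : ‖Complex.exp (-(τ * L * Complex.I))‖ = 1 := by
    rw [Complex.norm_exp]
    simp
  have hcos := fin_cos hτb
  have hdec : Real.log N ^ (Real.cos τ - 1) ≤ Real.exp (-(t ^ 2 / 4)) := by
    rw [Real.rpow_def_of_pos hN]
    apply Real.exp_le_exp.2
    have : Real.log (Real.log N) = L := by rw [hL]; rfl
    rw [this]
    calc L * (Real.cos τ - 1) ≤ L * (-(τ ^ 2 / 4)) := mul_le_mul_of_nonneg_left hcos hL0.le
      _ = -(t ^ 2 / 4) := by rw [← hLt]; ring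
  -- the first difference
  have f1 : ‖Complex.exp (-(τ * L * Complex.I)) *
        ((1 / (N : ℂ)) * ∑ n ∈ Icc 1 N, Complex.exp (τ * (v n : ℂ) * Complex.I)) -
      Complex.exp (-(τ * L * Complex.I)) *
        Complex.exp (L * (Complex.exp (τ * Complex.I) - 1))‖ ≤
      t * ((1 / s) * (|K| * Real.exp (-(t ^ 2 / 4)))) + |K| / L ^ 2 := by
    rw [← mul_sub, norm_mul, hmod, one_mul]
    refine h1.trans ?_
    rw [← hL, abs_of_pos hτ0]
    have g1 : 0 ≤ τ * Real.log N ^ (Real.cos τ - 1) + 1 / L ^ 2 := by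
      have := Real.rpow_nonneg hN.le (Real.cos τ - 1)
      positivity
    calc K * (τ * Real.log N ^ (Real.cos τ - 1) + 1 / L ^ 2)
        ≤ |K| * (τ * Real.log N ^ (Real.cos τ - 1) + 1 / L ^ 2) :=
          mul_le_mul_of_nonneg_right (le_abs_self K) g1
      _ ≤ |K| * (τ * Real.exp (-(t ^ 2 / 4)) + 1 / L ^ 2) := by
          apply mul_le_mul_of_nonneg_left _ (abs_nonneg K)
          have := mul_le_mul_of_nonneg_left hdec hτ0.le
          linarith
      _ = t * ((1 / s) * (|K| * Real.exp (-(t ^ 2 / 4)))) + |K| / L ^ 2 := by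
          rw [hτ]
          ring
  -- the second difference
  have f2 : ‖Complex.exp (-(τ * L * Complex.I)) *
        Complex.exp (L * (Complex.exp (τ * Complex.I) - 1)) -
      Complex.exp (-(L * (τ : ℂ) ^ 2 / 2))‖ ≤
      t * ((1 / s) * (t ^ 2 * Real.exp (-(t ^ 2 / 4)))) := by
    rw [← Complex.exp_add]
    have g1 : (-(τ * L * Complex.I) + L * (Complex.exp (τ * Complex.I) - 1) : ℂ) =
        L * (Complex.exp (τ * Complex.I) - 1 - τ * Complex.I) := by ring
    rw [g1]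
    have g2 : ((L : ℂ) * (Complex.exp (τ * Complex.I) - 1 - τ * Complex.I)).re ≤ -(t ^ 2 / 4) := by
      have : ((L : ℂ) * (Complex.exp (τ * Complex.I) - 1 - τ * Complex.I)).re =
          L * (Real.cos τ - 1) := by
        rw [Complex.re_ofReal_mul]
        congr 1
        simp [Complex.exp_ofReal_mul_I_re]
      rw [this]
      calc L * (Real.cos τ - 1) ≤ L * (-(τ ^ 2 / 4)) := mul_le_mul_of_nonneg_left hcos hL0.le
        _ = -(t ^ 2 / 4) := by rw [← hLt]; ring
    have g3 : (-(L * (τ : ℂ) ^ 2 / 2)).re ≤ -(t ^ 2 / 4) := by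
      have : (-(L * (τ : ℂ) ^ 2 / 2)) = ((-(t ^ 2 / 2) : ℝ) : ℂ) := by
        rw [← hLt]
        push_cast
        ring
      rw [this, Complex.ofReal_re]
      have := sq_nonneg t
      linarith
    refine (fin_exp_sub _ _ _ g2 g3).trans ?_
    have g4 : ‖(L : ℂ) * (Complex.exp (τ * Complex.I) - 1 - τ * Complex.I) -
        -(L * (τ : ℂ) ^ 2 / 2)‖ ≤ L * τ ^ 3 := by
      have : (L : ℂ) * (Complex.exp (τ * Complex.I) - 1 - τ * Complex.I) -
          -(L * (τ : ℂ) ^ 2 / 2) =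
          L * (Complex.exp (τ * Complex.I) - 1 - τ * Complex.I + (τ : ℂ) ^ 2 / 2) := by ring
      rw [this, norm_mul, Complex.norm_real, Real.norm_eq_abs, abs_of_pos hL0]
      have h5 := fin_taylor hτb
      rw [abs_of_pos hτ0] at h5
      exact mul_le_mul_of_nonneg_left h5 hL0.le
    calc Real.exp (-(t ^ 2 / 4)) * _ ≤ Real.exp (-(t ^ 2 / 4)) * (L * τ ^ 3) :=
          mul_le_mul_of_nonneg_left g4 (Real.exp_pos _).le
      _ = t * ((1 / s) * (t ^ 2 * Real.exp (-(t ^ 2 / 4)))) := by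
          rw [show L * τ ^ 3 = L * τ ^ 2 * τ by ring, hLt, hτ]
          ring
  rw [e1, e3]
  have hsplit : Complex.exp (-(τ * L * Complex.I)) *
        ((1 / (N : ℂ)) * ∑ n ∈ Icc 1 N, Complex.exp (τ * (v n : ℂ) * Complex.I)) -
      Complex.exp (-(L * (τ : ℂ) ^ 2 / 2)) =
      (Complex.exp (-(τ * L * Complex.I)) *
        ((1 / (N : ℂ)) * ∑ n ∈ Icc 1 N, Complex.exp (τ * (v n : ℂ) * Complex.I)) -
      Complex.exp (-(τ * L * Complex.I)) *
        Complex.exp (L * (Complex.exp (τ * Complex.I) - 1))) +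
      (Complex.exp (-(τ * L * Complex.I)) *
        Complex.exp (L * (Complex.exp (τ * Complex.I) - 1)) -
      Complex.exp (-(L * (τ : ℂ) ^ 2 / 2))) := by ring
  rw [hsplit]
  refine (norm_add_le _ _).trans ((add_le_add f1 f2).trans (le_of_eq ?_))
  ring

/-- from the characteristic function to the rate -/
theorem fin_of (h : S_Ess) : S_Fin := by
  intro v K hvK hchar
  obtain ⟨N0, hN0⟩ := hchar
  obtain ⟨C, hC⟩ := h
  set A : ℝ := 2 * |K| + 2 with hA
  have hA0 : 0 < A := by positivity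
  refine ⟨|C| * (4 * A + 128 * (|K| + 1) + 6 * |K| + 5), max N0 ⌈Real.exp (Real.exp 1)⌉₊,
    fun N hN x => ?_⟩
  have hNN0 : N0 ≤ N := (le_max_left _ _).trans hN
  have hNe : Real.exp (Real.exp 1) ≤ N := by
    have : (⌈Real.exp (Real.exp 1)⌉₊ : ℝ) ≤ N := by exact_mod_cast (le_max_right _ _).trans hN
    exact (Nat.le_ceil _).trans this
  have hNpos : (0 : ℝ) < N := lt_of_lt_of_le (Real.exp_pos _) hNe
  have hlog : Real.exp 1 ≤ Real.log N := by
    rw [Real.le_log_iff_exp_le hNpos]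
    exact hNe
  have hlogpos : 0 < Real.log N := lt_of_lt_of_le (Real.exp_pos _) hlog
  have hlog1 : 1 ≤ Real.log N := le_trans (by have := Real.add_one_le_exp (1 : ℝ); linarith) hlog
  set L : ℝ := LL N with hL
  have hL1 : 1 ≤ L := by
    rw [hL]
    unfold LL
    rw [Real.le_log_iff_exp_le hlogpos]
    exact hlog
  have hLlog : L ≤ Real.log N := by
    rw [hL]
    unfold LL
    have := Real.log_le_sub_one_of_pos hlogpos
    linarith
  have hL0 : 0 < L := by linarith
  set s := Real.sqrt L with hs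
  have hs0 : 0 < s := Real.sqrt_pos.2 hL0
  have hs2 : s ^ 2 = L := Real.sq_sqrt hL0.le
  have hs1 : 1 ≤ s := by
    rw [hs]
    exact Real.one_le_sqrt.2 hL1
  have hsL : s ≤ L := by nlinarith
  have hN1 : 1 ≤ N := by
    have : (0 : ℝ) < N := hNpos
    exact_mod_cast this
  set ε : ℝ := 1 / Real.log N ^ 2 with hε
  have hε0 : 0 < ε := by positivity
  have hε1 : ε ≤ 1 := by
    rw [hε, div_le_one (by positivity)]
    exact one_le_pow₀ hlog1
  set T : ℝ := s / 5 with hT
  have hT0 : 0 < T := by positivity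
  set κ1 : ℝ := 64 * (|K| + 1) / s with hκ1
  set κ2 : ℝ := |K| / L ^ 2 with hκ2
  have hκ1n : 0 ≤ κ1 := by positivity
  have hκ2n : 0 ≤ κ2 := by positivity
  obtain ⟨hint, hbd⟩ := fin_int (A * Real.log N) ε κ1 κ2 T hε0 hT0.le (by positivity) hκ1n
  have hmain := hC N hN1 (fun n => ((v n : ℝ) - L) / s) T hT0
    (finB (A * Real.log N) ε κ1 κ2) hint ?_ x
  · refine hmain.trans ?_
    have k1 : 4 * (A * Real.log N) * ε ≤ 4 * A / s := by
      rw [hε, show 4 * (A * Real.log N) * (1 / Real.log N ^ 2) = 4 * A / Real.log N by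
        field_simp]
      exact div_le_div_of_nonneg_left (by positivity) hs0 (hsL.trans hLlog)
    have k2 : Real.log (T + ε) ≤ L := by
      have : Real.log (T + ε) ≤ T + ε - 1 := Real.log_le_sub_one_of_pos (by positivity)
      rw [hT] at this ⊢
      linarith
    have k3 : Real.log ε = -(2 * L) := by
      rw [hε, one_div, Real.log_inv, Real.log_pow]
      rw [hL]
      unfold LL
      push_cast
      ring
    have k4 : 2 * κ2 * (Real.log (T + ε) - Real.log ε) ≤ 6 * |K| / s := by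
      rw [k3]
      calc 2 * κ2 * (Real.log (T + ε) - -(2 * L)) ≤ 2 * κ2 * (3 * L) := by
            apply mul_le_mul_of_nonneg_left _ (by positivity)
            linarith
        _ = 6 * |K| / L := by
            rw [hκ2]
            field_simp
            ring
        _ ≤ 6 * |K| / s := div_le_div_of_nonneg_left (by positivity) hs0 hsL
    have k5 : (∫ t in (0 : ℝ)..T, finB (A * Real.log N) ε κ1 κ2 t) + 1 / T ≤
        (4 * A + 128 * (|K| + 1) + 6 * |K| + 5) / s := by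
      have : 1 / T = 5 / s := by
        rw [hT]
        field_simp
      rw [this]
      have k6 : 2 * κ1 = 128 * (|K| + 1) / s := by
        rw [hκ1]
        ring
      have k7 : (4 * A + 128 * (|K| + 1) + 6 * |K| + 5) / s =
          4 * A / s + 128 * (|K| + 1) / s + 6 * |K| / s + 5 / s := by ring
      rw [k7]
      linarith
    have k8 : 0 ≤ (∫ t in (0 : ℝ)..T, finB (A * Real.log N) ε κ1 κ2 t) + 1 / T := by
      have : 0 ≤ ∫ t in (0 : ℝ)..T, finB (A * Real.log N) ε κ1 κ2 t := by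
        apply intervalIntegral.integral_nonneg hT0.le
        intro t ht
        unfold finB
        have := ht.1
        positivity
      positivity
    calc C * ((∫ t in (0 : ℝ)..T, finB (A * Real.log N) ε κ1 κ2 t) + 1 / T)
        ≤ |C| * ((∫ t in (0 : ℝ)..T, finB (A * Real.log N) ε κ1 κ2 t) + 1 / T) :=
          mul_le_mul_of_nonneg_right (le_abs_self C) k8
      _ ≤ |C| * ((4 * A + 128 * (|K| + 1) + 6 * |K| + 5) / s) :=
          mul_le_mul_of_nonneg_left k5 (abs_nonneg C)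
      _ = |C| * (4 * A + 128 * (|K| + 1) + 6 * |K| + 5) / s := by ring
  · intro t ht
    have ht0 : 0 < t := ht.1
    have htT : t < T := ht.2
    by_cases hte : t ≤ ε
    · -- small values
      have hbound : ∀ n ∈ Icc 1 N, |((v n : ℝ) - L) / s| ≤ (2 * |K| + 1) * Real.log N := by
        intro n hn
        rw [abs_div, abs_of_pos hs0, div_le_iff₀ hs0]
        have h1 := hvK N n hn
        have h2 : (0 : ℝ) ≤ v n := by positivity
        have h3 : (v n : ℝ) ≤ 2 * |K| * Real.log N := by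
          refine h1.trans ?_
          calc K * (1 + Real.log N) ≤ |K| * (1 + Real.log N) :=
                mul_le_mul_of_nonneg_right (le_abs_self K) (by positivity)
            _ ≤ |K| * (2 * Real.log N) := by
                apply mul_le_mul_of_nonneg_left _ (abs_nonneg K)
                linarith
            _ = 2 * |K| * Real.log N := by ring
        have h4 : |(v n : ℝ) - L| ≤ (2 * |K| + 1) * Real.log N := by
          rw [abs_le]
          constructor
          · have : 0 ≤ |K| * Real.log N := by positivity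
            nlinarith
          · nlinarith
        calc |(v n : ℝ) - L| ≤ (2 * |K| + 1) * Real.log N := h4
          _ ≤ (2 * |K| + 1) * Real.log N * s := by
              apply le_mul_of_one_le_right (by positivity) hs1
      have h5 := fin_small N hN1 (fun n => ((v n : ℝ) - L) / s) _ t ht0 hbound
        (hte.trans hε1)
      refine h5.trans ?_
      apply mul_le_mul_of_nonneg_left _ ht0.le
      unfold finB
      have h6 : 1 ≤ 4 * ε ^ 2 / (t + ε) ^ 2 := by
        rw [le_div_iff₀ (by positivity)]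
        nlinarith
      have h7 : A * Real.log N * 1 ≤ A * Real.log N * (4 * ε ^ 2 / (t + ε) ^ 2) :=
        mul_le_mul_of_nonneg_left h6 (by positivity)
      have h8 : 0 ≤ κ1 / (1 + t ^ 2) := by positivity
      have h9 : 0 ≤ κ2 * (2 / (t + ε)) := by positivity
      rw [hA] at h7 ⊢
      nlinarith
    · -- large values
      have hte' : ε ≤ t := (not_le.1 hte).le
      have h5 := fin_large N v K L t hlogpos hL hL1 ht0 htT (hN0 N hNN0)
      refine h5.trans ?_
      have h6 := fin_decay |K| t (abs_nonneg K)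
      have h7 : (1 / s) * ((|K| + t ^ 2) * Real.exp (-(t ^ 2 / 4))) ≤ κ1 / (1 + t ^ 2) := by
        calc (1 / s) * ((|K| + t ^ 2) * Real.exp (-(t ^ 2 / 4)))
            ≤ (1 / s) * (64 * (|K| + 1) / (1 + t ^ 2)) :=
              mul_le_mul_of_nonneg_left h6 (by positivity)
          _ = κ1 / (1 + t ^ 2) := by
              rw [hκ1]
              field_simp
      have h8 : 1 ≤ t * (2 / (t + ε)) := by
        rw [mul_div_assoc', le_div_iff₀ (by positivity)]
        linarith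
      have h9 : κ2 ≤ t * (κ2 * (2 / (t + ε))) := by
        calc κ2 = κ2 * 1 := (mul_one _).symm
          _ ≤ κ2 * (t * (2 / (t + ε))) := mul_le_mul_of_nonneg_left h8 hκ2n
          _ = t * (κ2 * (2 / (t + ε))) := by ring
      have h10 : 0 ≤ A * Real.log N * (4 * ε ^ 2 / (t + ε) ^ 2) := by positivity
      unfold finB
      have h11 := mul_le_mul_of_nonneg_left h7 ht0.le
      have h12 := mul_nonneg ht0.le h10
      calc t * (1 / s * ((|K| + t ^ 2) * Real.exp (-(t ^ 2 / 4)))) + |K| / L ^ 2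
          ≤ t * (κ1 / (1 + t ^ 2)) + t * (κ2 * (2 / (t + ε))) := add_le_add h11 h9
        _ ≤ t * (A * Real.log N * (4 * ε ^ 2 / (t + ε) ^ 2) + κ1 / (1 + t ^ 2) +
            κ2 * (2 / (t + ε))) := by linarith

end Pool.Agent.NH21.Bty
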