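import Pool.Agent.NH21.Bty.Stm
import Pool.Agent.Erdos456.Mertens
import Pool.Agent.H316R2.LS

/-!
# Sums of the von Mangoldt function
-/

set_option autoImplicit false

namespace Pool.Agent.NH21.Bty

open Finset Filter Topology
open ArithmeticFunction (vonMangoldt)


/-- a prime power is a power of its least prime factor -/
theorem ipp_minFac {d : ℕ} (hd : IsPrimePow d) : ∃ k : ℕ, 0 < k ∧ d.minFac ^ k = d := by
  obtain ⟨k, _, hk, hk2⟩ := (isPrimePow_nat_iff_bounded_log_minFac d).1 hd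
  exact ⟨k, hk, hk2.symm⟩


/-- sums over prime powers are at most sums over primes -/
theorem lam_fiber (N : ℕ) (F G : ℕ → ℝ) (hG : ∀ p, 0 ≤ G p)
    (hF : ∀ d ∈ Icc 1 N, IsPrimePow d → F d ≤ G d.minFac / d) :
    ∑ d ∈ Icc 1 N, ArithmeticFunction.vonMangoldt d * F d ≤ ∑ p ∈ Pool.Agent.Erdos456.Mert.PP N, Real.log p * G p / ((p : ℝ) - 1) := by
  classical
  have h1 : ∑ d ∈ Icc 1 N, ArithmeticFunction.vonMangoldt d * F d = ∑ d ∈ (Icc 1 N).filter IsPrimePow, ArithmeticFunction.vonMangoldt d * F d := by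
    rw [sum_filter]
    refine sum_congr rfl fun d _ => ?_
    split_ifs with h
    · rfl
    · rw [ArithmeticFunction.vonMangoldt_eq_zero_iff.2 h, zero_mul]
  rw [h1]
  have hmaps : ∀ d ∈ (Icc 1 N).filter IsPrimePow, d.minFac ∈ Pool.Agent.Erdos456.Mert.PP N := by
    intro d hd
    rw [mem_filter, mem_Icc] at hd
    have hd1 : d ≠ 1 := hd.2.ne_one
    rw [mem_filter, mem_Icc]
    exact ⟨⟨d.minFac_pos, (Nat.minFac_le hd.1.1).trans hd.1.2⟩, Nat.minFac_prime hd1⟩
  rw [← sum_fiberwise_of_maps_to hmaps]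
  refine sum_le_sum fun p hp => ?_
  rw [mem_filter, mem_Icc] at hp
  have hp2 : (2 : ℝ) ≤ p := by exact_mod_cast hp.2.two_le
  have hp0 : (0 : ℝ) < p := by linarith
  have hlog : 0 ≤ Real.log p := Real.log_nonneg (by linarith)
  have hsub : ((Icc 1 N).filter IsPrimePow).filter (fun d => d.minFac = p) ⊆
      (Icc 1 N).image (fun k => p ^ k) := by
    intro d hd
    rw [mem_filter, mem_filter, mem_Icc] at hd
    obtain ⟨⟨⟨h1, h2⟩, h3⟩, h4⟩ := hd
    obtain ⟨k, hk0, hk⟩ := ipp_minFac h3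
    rw [mem_image]
    refine ⟨k, ?_, ?_⟩
    · rw [mem_Icc]
      refine ⟨hk0, ?_⟩
      have : k < p ^ k := Nat.lt_pow_self hp.2.one_lt
      rw [h4] at hk
      omega
    · rw [h4] at hk
      exact hk
  calc ∑ d ∈ ((Icc 1 N).filter IsPrimePow).filter (fun d => d.minFac = p), ArithmeticFunction.vonMangoldt d * F d
      ≤ ∑ d ∈ ((Icc 1 N).filter IsPrimePow).filter (fun d => d.minFac = p), Real.log p * (G p / d) := by
        refine sum_le_sum fun d hd => ?_
        rw [mem_filter, mem_filter] at hd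
        have e : ArithmeticFunction.vonMangoldt d = Real.log p := by
          rw [ArithmeticFunction.vonMangoldt_apply, if_pos hd.1.2, hd.2]
        rw [e]
        have := hF d hd.1.1 hd.1.2
        rw [hd.2] at this
        exact mul_le_mul_of_nonneg_left this hlog
    _ ≤ ∑ d ∈ (Icc 1 N).image (fun k => p ^ k), Real.log p * (G p / d) :=
        sum_le_sum_of_subset_of_nonneg hsub fun d _ _ =>
          mul_nonneg hlog (div_nonneg (hG p) (by positivity))
    _ = ∑ k ∈ Icc 1 N, Real.log p * (G p / ((p ^ k : ℕ) : ℝ)) := by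
        rw [sum_image]
        intro a _ b _ hab
        exact Nat.pow_right_injective hp.2.two_le hab
    _ = Real.log p * G p * ∑ k ∈ Icc 1 N, ((p : ℝ)⁻¹) ^ k := by
        rw [mul_sum]
        refine sum_congr rfl fun k _ => ?_
        push_cast
        rw [inv_pow]
        ring
    _ ≤ Real.log p * G p * (1 / (p - 1)) := by
        refine mul_le_mul_of_nonneg_left ?_ (mul_nonneg hlog (hG p))
        have h5 : ∑ k ∈ Icc 1 N, ((p : ℝ)⁻¹) ^ k = (p : ℝ)⁻¹ * ∑ k ∈ range N, ((p : ℝ)⁻¹) ^ k := by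
          rw [mul_sum, ← Ico_add_one_right_eq_Icc 1 N, sum_Ico_eq_sum_range]
          refine sum_congr (by simp) fun k _ => ?_
          rw [pow_add, pow_one]
        have hinv : (p : ℝ)⁻¹ < 1 := by
          rw [inv_lt_one_iff₀]; right; linarith
        have h6 : ∑ k ∈ range N, ((p : ℝ)⁻¹) ^ k ≤ (1 - (p : ℝ)⁻¹)⁻¹ := by
          rw [← tsum_geometric_of_lt_one (by positivity) hinv]
          exact (summable_geometric_of_lt_one (by positivity) hinv).sum_le_tsum _
            fun k _ => by positivity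
        rw [h5]
        calc (p : ℝ)⁻¹ * ∑ k ∈ range N, ((p : ℝ)⁻¹) ^ k ≤ (p : ℝ)⁻¹ * (1 - (p : ℝ)⁻¹)⁻¹ :=
              mul_le_mul_of_nonneg_left h6 (by positivity)
          _ = 1 / (p - 1) := by
              have : (p : ℝ) - 1 ≠ 0 := by linarith
              field_simp
    _ = Real.log p * G p / ((p : ℝ) - 1) := by ring

/-- `∑ ArithmeticFunction.vonMangoldt(d) / (d p)`, `p` the prime dividing `d`, is bounded -/
theorem lam_minFac_sum : ∃ C : ℝ, 0 ≤ C ∧ ∀ N : ℕ, ∑ d ∈ Icc 1 N, ArithmeticFunction.vonMangoldt d * (1 / (d * d.minFac)) ≤ C := by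
  obtain ⟨C, hC0, hC⟩ := Pool.Agent.Erdos456.Mert.sum_small_bound
  refine ⟨C, hC0, fun N => ?_⟩
  refine (lam_fiber N (fun d => 1 / (d * d.minFac)) (fun p => 1 / p) (fun p => by positivity)
    (fun d _ _ => le_of_eq ?_)).trans ?_
  · rw [div_div, mul_comm]
  · refine le_trans (le_of_eq ?_) (hC N)
    refine sum_congr rfl fun p _ => ?_
    rw [mul_one_div, div_div]

/-- the prime powers of primes dividing `Q` -/
theorem lam_Q_sum (Q : ℕ) (hQ : 1 ≤ Q) (N : ℕ) :
    ∑ d ∈ Icc 1 N, ArithmeticFunction.vonMangoldt d * (if d.minFac ∣ Q then 1 / (d : ℝ) else 0) ≤ Real.log Q := by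
  classical
  refine (lam_fiber N (fun d => if d.minFac ∣ Q then 1 / (d : ℝ) else 0)
    (fun p => if p ∣ Q then (1 : ℝ) else 0) (fun p => by split_ifs <;> norm_num)
    (fun d _ _ => le_of_eq ?_)).trans ?_
  · split_ifs <;> simp
  · have h1 : ∑ p ∈ Pool.Agent.Erdos456.Mert.PP N,
        Real.log p * (if p ∣ Q then (1 : ℝ) else 0) / (p - 1) ≤
        ∑ p ∈ (Pool.Agent.Erdos456.Mert.PP N).filter (fun p => p ∣ Q), Real.log p := by
      rw [sum_filter (fun p => p ∣ Q)]
      refine sum_le_sum fun p hp => ?_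
      rw [mem_filter] at hp
      have hp2 : (2 : ℝ) ≤ p := by exact_mod_cast hp.2.two_le
      have hlog : 0 ≤ Real.log p := Real.log_nonneg (by linarith)
      split_ifs with h
      · rw [mul_one, div_le_iff₀ (by linarith)]
        nlinarith
      · simp
    refine h1.trans ?_
    have h2 : (Pool.Agent.Erdos456.Mert.PP N).filter (fun p => p ∣ Q) ⊆ Q.primeFactors := by
      intro p hp
      rw [mem_filter, mem_filter] at hp
      exact Nat.mem_primeFactors.2 ⟨hp.1.2, hp.2, by omega⟩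
    refine (sum_le_sum_of_subset_of_nonneg h2 fun p hp _ => ?_).trans ?_
    · exact Real.log_natCast_nonneg p
    · rw [← Real.log_prod]
      · have h3 : ∏ p ∈ Q.primeFactors, (p : ℝ) = ((∏ p ∈ Q.primeFactors, p : ℕ) : ℝ) := by push_cast; rfl
        rw [h3]
        have h4 : ∏ p ∈ Q.primeFactors, p ∣ Q := Nat.prod_primeFactors_dvd Q
        apply Real.log_le_log
        · exact_mod_cast Nat.pos_of_dvd_of_pos h4 hQ
        · exact_mod_cast Nat.le_of_dvd hQ h4
      · intro p hp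
        have := (Nat.prime_of_mem_primeFactors hp).pos
        exact_mod_cast this.ne'

/-- logarithms as sums of `ArithmeticFunction.vonMangoldt` -/
theorem sum_log_eq {G : Type*} [AddCommMonoid G] [Module ℝ G] (X : ℕ) (h : ℕ → G) :
    ∑ n ∈ Icc 1 X, Real.log n • h n =
      ∑ m ∈ Icc 1 X, ∑ d ∈ Icc 1 (X / m), ArithmeticFunction.vonMangoldt d • h (d * m) := by
  have h1 : ∀ n ∈ Icc 1 X, Real.log n • h n =
      ∑ i ∈ n.divisorsAntidiagonal, ArithmeticFunction.vonMangoldt i.1 • h (i.1 * i.2) := by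
    intro n _
    rw [← ArithmeticFunction.vonMangoldt_sum, sum_smul,
      ← Nat.sum_divisorsAntidiagonal (fun i _ => ArithmeticFunction.vonMangoldt i • h n)]
    refine sum_congr rfl fun i hi => ?_
    rw [(Nat.mem_divisorsAntidiagonal.1 hi).1]
  rw [sum_congr rfl h1, Pool.Agent.H316R2.hyperC X (fun b c => ArithmeticFunction.vonMangoldt b • h (b * c))]

theorem log_fact_eq (N : ℕ) : Real.log (N.factorial : ℝ) = ∑ n ∈ Icc 1 N, Real.log n := by
  induction N with
  | zero => simp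
  | succ N ih =>
    rw [sum_Icc_succ_top (by omega), ← ih, Nat.factorial_succ]
    push_cast
    rw [Real.log_mul (by positivity) (by positivity)]
    ring

theorem log_fact_ge (N : ℕ) (hN : 1 ≤ N) : N * Real.log N - N ≤ Real.log (N.factorial : ℝ) := by
  have hN1 : (1 : ℝ) ≤ N := by exact_mod_cast hN
  have h1 := Stirling.le_log_factorial_stirling (n := N) (by omega)
  have h2 : 0 ≤ Real.log N := Real.log_nonneg hN1
  have h3 : 0 ≤ Real.log (2 * Real.pi) := Real.log_nonneg (by linarith [Real.pi_gt_three])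
  linarith

theorem log_fact_le (N : ℕ) : Real.log (N.factorial : ℝ) ≤ N * Real.log N := by
  rw [← Real.log_pow]
  apply Real.log_le_log
  · exact_mod_cast N.factorial_pos
  · exact_mod_cast N.factorial_le_pow

theorem psi_le6 (N : ℕ) : ∑ d ∈ Icc 1 N, ArithmeticFunction.vonMangoldt d ≤ 6 * N := by
  have h := Chebyshev.psi_le_const_mul_self (x := (N : ℝ)) (by positivity)
  have h2 : Chebyshev.psi (N : ℝ) = ∑ d ∈ Icc 1 N, ArithmeticFunction.vonMangoldt d := by
    rw [Chebyshev.psi, Nat.floor_natCast]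
    rfl
  rw [h2] at h
  have h3 : Real.log 4 ≤ 2 := by
    have : Real.log 4 = 2 * Real.log 2 := by
      rw [show (4 : ℝ) = 2 ^ 2 by norm_num, Real.log_pow]; norm_num
    have := Real.log_two_lt_d9
    linarith
  have : (0 : ℝ) ≤ N := by positivity
  nlinarith

/-- `∑_{d ≤ N} ArithmeticFunction.vonMangoldt(d) / d = log N + O(1)` -/
theorem lam_div_bound (N : ℕ) (hN : 1 ≤ N) : |∑ d ∈ Icc 1 N, ArithmeticFunction.vonMangoldt d / d - Real.log N| ≤ 6 := by
  have hN' : (0 : ℝ) < N := by exact_mod_cast hN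
  set P := ∑ d ∈ Icc 1 N, ArithmeticFunction.vonMangoldt d / d with hP
  have hfac : Real.log (N.factorial : ℝ) = ∑ d ∈ Icc 1 N, ArithmeticFunction.vonMangoldt d * ((N / d : ℕ) : ℝ) := by
    rw [log_fact_eq]
    have h1 := sum_log_eq N (fun _ => (1 : ℝ))
    simp only [smul_eq_mul, mul_one] at h1
    rw [h1]
    have h2 : ∀ m ∈ Icc 1 N, ∑ d ∈ Icc 1 (N / m), ArithmeticFunction.vonMangoldt d = ∑ d ∈ Icc 1 N, if d * m ≤ N then ArithmeticFunction.vonMangoldt d else 0 := by
      intro m hm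
      rw [mem_Icc] at hm
      rw [← sum_filter]
      refine sum_congr ?_ fun _ _ => rfl
      ext d
      simp only [mem_filter, mem_Icc]
      rw [Nat.le_div_iff_mul_le hm.1]
      constructor
      · rintro ⟨h1, h2⟩
        exact ⟨⟨h1, le_trans (Nat.le_mul_of_pos_right d hm.1) h2⟩, h2⟩
      · rintro ⟨⟨h1, _⟩, h2⟩
        exact ⟨h1, h2⟩
    rw [sum_congr rfl h2, sum_comm]
    refine sum_congr rfl fun d hd => ?_
    rw [mem_Icc] at hd
    rw [← sum_filter, sum_const, nsmul_eq_mul, mul_comm]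
    congr 2
    have h3 : (Icc 1 N).filter (fun m => d * m ≤ N) = Icc 1 (N / d) := by
      ext m
      simp only [mem_filter, mem_Icc]
      rw [Nat.le_div_iff_mul_le hd.1, mul_comm m d]
      constructor
      · rintro ⟨⟨h1, _⟩, h2⟩
        exact ⟨h1, h2⟩
      · rintro ⟨h1, h2⟩
        exact ⟨⟨h1, le_trans (Nat.le_mul_of_pos_left m hd.1) h2⟩, h2⟩
    rw [h3, Nat.card_Icc]
    simp
  have hup := log_fact_le N
  have hlo := log_fact_ge N hN
  have hpsi := psi_le6 N
  have h1 : Real.log (N.factorial : ℝ) ≤ N * P := by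
    rw [hfac, hP, mul_sum]
    refine sum_le_sum fun d hd => ?_
    have h2 : ((N / d : ℕ) : ℝ) ≤ N / d := Nat.cast_div_le
    have h3 : 0 ≤ ArithmeticFunction.vonMangoldt d := ArithmeticFunction.vonMangoldt_nonneg
    calc ArithmeticFunction.vonMangoldt d * ((N / d : ℕ) : ℝ) ≤ ArithmeticFunction.vonMangoldt d * (N / d) := mul_le_mul_of_nonneg_left h2 h3
      _ = N * (ArithmeticFunction.vonMangoldt d / d) := by ring
  have h2 : N * P - 6 * N ≤ Real.log (N.factorial : ℝ) := by
    have h3 : (N : ℝ) * P - ∑ d ∈ Icc 1 N, ArithmeticFunction.vonMangoldt d ≤ ∑ d ∈ Icc 1 N, ArithmeticFunction.vonMangoldt d * ((N / d : ℕ) : ℝ) := by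
      rw [hP, mul_sum, ← sum_sub_distrib]
      refine sum_le_sum fun d hd => ?_
      have h6 : (N : ℝ) / d < ((N / d : ℕ) : ℝ) + 1 := by
        rw [← Nat.floor_div_eq_div (K := ℝ)]
        exact Nat.lt_floor_add_one _
      have h3 : 0 ≤ ArithmeticFunction.vonMangoldt d := ArithmeticFunction.vonMangoldt_nonneg
      calc (N : ℝ) * (ArithmeticFunction.vonMangoldt d / d) - ArithmeticFunction.vonMangoldt d = ArithmeticFunction.vonMangoldt d * (N / d - 1) := by ring
        _ ≤ _ := mul_le_mul_of_nonneg_left (by linarith) h3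
    rw [hfac]
    linarith
  rw [abs_le]
  constructor
  · have h3 : (N : ℝ) * (Real.log N - 1) ≤ N * P := by linarith
    have := le_of_mul_le_mul_left h3 hN'
    linarith
  · have h3 : (N : ℝ) * (P - 6) ≤ N * Real.log N := by linarith
    have := le_of_mul_le_mul_left h3 hN'
    linarith

/-- exchange of two sums over a hyperbola -/
theorem hyp_comm {G : Type*} [AddCommMonoid G] (X : ℕ) (h : ℕ → ℕ → G) :
    ∑ m ∈ Icc 1 X, ∑ d ∈ Icc 1 (X / m), h d m = ∑ d ∈ Icc 1 X, ∑ m ∈ Icc 1 (X / d), h d m := by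
  refine sum_comm' fun m d => ?_
  simp only [mem_Icc]
  constructor
  · rintro ⟨⟨h1, h2⟩, h3, h4⟩
    rw [Nat.le_div_iff_mul_le h1] at h4
    rw [Nat.le_div_iff_mul_le h3, mul_comm m d]
    exact ⟨⟨h1, h4⟩, h3, le_trans (Nat.le_mul_of_pos_right d h1) h4⟩
  · rintro ⟨⟨h1, h2⟩, h3, h4⟩
    rw [Nat.le_div_iff_mul_le h3] at h2
    rw [Nat.le_div_iff_mul_le h1, mul_comm d m]
    exact ⟨⟨h1, le_trans (Nat.le_mul_of_pos_right m h3) h2⟩, h3, h2⟩

/-- the number of prime factors of `d m`, `d` a power of a prime not dividing `m` -/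
theorem om_mul {d m : ℕ} (hd : IsPrimePow d) (h : ¬ d.minFac ∣ m) :
    om (d * m) = om m + 1 := by
  obtain ⟨k, hk0, hk⟩ := ipp_minFac hd
  have hp : d.minFac.Prime := Nat.minFac_prime hd.ne_one
  have hcop : Nat.Coprime d m := by
    rw [← hk]
    exact Nat.Coprime.pow_left _ ((Nat.Prime.coprime_iff_not_dvd hp).2 h)
  unfold om
  rw [hcop.primeFactors_mul, card_union_of_disjoint hcop.disjoint_primeFactors]
  have : d.primeFactors = {d.minFac} := by
    conv_lhs => rw [← hk]
    rw [Nat.primeFactors_pow _ hk0.ne', hp.primeFactors]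
  rw [this, card_singleton, add_comm]

end Pool.Agent.NH21.Bty
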