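import Pool.Agent.NH21.Bty.Stm
import Pool.Agent.NH21.Bty.LamAux

/-!
# The logarithmic identity for `z ^ ω(n)` with a bounded weight
-/

set_option autoImplicit false

namespace Pool.Agent.NH21.Bty

open Finset Filter Topology


/-- the pairs `(d, m)` with `d` a power of a prime dividing `m` -/
theorem bad_pairs (X : ℕ) : ∑ m ∈ Icc 1 X, ∑ d ∈ Icc 1 (X / m), ArithmeticFunction.vonMangoldt d * (if d.minFac ∣ m then 1 else 0) ≤
    X * ∑ d ∈ Icc 1 X, ArithmeticFunction.vonMangoldt d * (1 / (d * d.minFac)) := by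
  rw [hyp_comm X (fun d m => ArithmeticFunction.vonMangoldt d * (if d.minFac ∣ m then 1 else 0)), mul_sum]
  refine sum_le_sum fun d hd => ?_
  rw [mem_Icc] at hd
  have h3 : 0 ≤ ArithmeticFunction.vonMangoldt d := ArithmeticFunction.vonMangoldt_nonneg
  rw [← mul_sum, ← sum_filter, sum_const, nsmul_eq_mul, mul_one]
  have h4 : ((Icc 1 (X / d)).filter (fun m => d.minFac ∣ m)).card = X / d / d.minFac := by
    rw [← Nat.Ioc_filter_dvd_card_eq_div (X / d)]
    rfl
  rw [h4]
  have h5 : ((X / d / d.minFac : ℕ) : ℝ) ≤ X / (d * d.minFac) := by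
    rw [Nat.div_div_eq_div_mul]
    refine Nat.cast_div_le.trans (le_of_eq ?_)
    push_cast
    rfl
  calc ArithmeticFunction.vonMangoldt d * ((X / d / d.minFac : ℕ) : ℝ) ≤ ArithmeticFunction.vonMangoldt d * (X / (d * d.minFac)) := mul_le_mul_of_nonneg_left h5 h3
    _ = _ := by ring

theorem log_id : S_Log := by
  obtain ⟨C0, hC0, hC⟩ := lam_minFac_sum
  refine ⟨1 + 2 * C0, fun X hX g B hg z hz => ?_⟩
  have hB : 0 ≤ B := (abs_nonneg _).trans (hg 0)
  have hX0 : (0 : ℝ) < X := by exact_mod_cast (by omega : 0 < X)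
  set w : ℕ → ℂ := fun n => (g n : ℂ) * z ^ om n with hw
  have hwB : ∀ n, ‖w n‖ ≤ B := fun n => by
    rw [hw]
    simp only [norm_mul, norm_pow, hz, one_pow, mul_one, Complex.norm_real, Real.norm_eq_abs]
    exact hg n
  -- first step
  have h1 : ‖(Real.log X : ℂ) * ∑ n ∈ Icc 1 X, w n - ∑ n ∈ Icc 1 X, Real.log n • w n‖ ≤ B * X := by
    rw [mul_sum, ← sum_sub_distrib]
    refine (norm_sum_le _ _).trans ?_
    have h2 : ∀ n ∈ Icc 1 X, ‖(Real.log X : ℂ) * w n - Real.log n • w n‖ ≤
        (Real.log X - Real.log n) * B := by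
      intro n hn
      rw [mem_Icc] at hn
      have e : (Real.log X : ℂ) * w n - Real.log n • w n = ((Real.log X - Real.log n : ℝ) : ℂ) * w n := by
        rw [Complex.real_smul]; push_cast; ring
      rw [e, norm_mul, Complex.norm_real, Real.norm_eq_abs]
      have h3 : 0 ≤ Real.log X - Real.log n := by
        rw [sub_nonneg]
        exact Real.log_le_log (by exact_mod_cast hn.1) (by exact_mod_cast hn.2)
      rw [abs_of_nonneg h3]
      exact mul_le_mul_of_nonneg_left (hwB n) h3
    refine (sum_le_sum h2).trans ?_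
    rw [← sum_mul, sum_sub_distrib, ← log_fact_eq, sum_const, Nat.card_Icc, nsmul_eq_mul]
    have h4 := log_fact_ge X (by omega)
    have h5 : ((X + 1 - 1 : ℕ) : ℝ) = X := by simp
    rw [h5, mul_comm B]
    exact mul_le_mul_of_nonneg_right (by linarith) hB
  -- second step
  have h2 := sum_log_eq X w
  -- third step
  have h3 : ‖∑ n ∈ Icc 1 X, Real.log n • w n - z * ∑ m ∈ Icc 1 X, z ^ om m *
      ((∑ d ∈ Icc 1 (X / m), ArithmeticFunction.vonMangoldt d * g (d * m) : ℝ) : ℂ)‖ ≤ 2 * C0 * B * X := by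
    rw [h2, mul_sum, ← sum_sub_distrib]
    have h4 : ∀ m ∈ Icc 1 X, ‖∑ d ∈ Icc 1 (X / m), ArithmeticFunction.vonMangoldt d • w (d * m) -
        z * (z ^ om m * ((∑ d ∈ Icc 1 (X / m), ArithmeticFunction.vonMangoldt d * g (d * m) : ℝ) : ℂ))‖ ≤
        ∑ d ∈ Icc 1 (X / m), (2 * B) * (ArithmeticFunction.vonMangoldt d * (if d.minFac ∣ m then 1 else 0)) := by
      intro m hm
      rw [mem_Icc] at hm
      have e : z * (z ^ om m * ((∑ d ∈ Icc 1 (X / m), ArithmeticFunction.vonMangoldt d * g (d * m) : ℝ) : ℂ)) =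
          ∑ d ∈ Icc 1 (X / m), ArithmeticFunction.vonMangoldt d • ((g (d * m) : ℂ) * z ^ (om m + 1)) := by
        rw [Complex.ofReal_sum, mul_sum, mul_sum]
        refine sum_congr rfl fun d _ => ?_
        rw [Complex.real_smul, pow_succ]
        push_cast
        ring
      rw [e, ← sum_sub_distrib]
      refine (norm_sum_le _ _).trans (sum_le_sum fun d hd => ?_)
      have hL : 0 ≤ ArithmeticFunction.vonMangoldt d := ArithmeticFunction.vonMangoldt_nonneg
      rw [← smul_sub, norm_smul, Real.norm_eq_abs, abs_of_nonneg hL]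
      by_cases hp : IsPrimePow d
      · split_ifs with hdm
        · rw [mul_one, mul_comm]
          refine mul_le_mul_of_nonneg_right ?_ hL
          refine (norm_sub_le _ _).trans ?_
          have h6 : ‖(g (d * m) : ℂ) * z ^ (om m + 1)‖ ≤ B := by
            simp only [norm_mul, norm_pow, hz, one_pow, mul_one, Complex.norm_real, Real.norm_eq_abs]
            exact hg _
          linarith [hwB (d * m)]
        · rw [hw]
          simp only
          rw [om_mul hp hdm, sub_self, norm_zero]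
          simp
      · rw [ArithmeticFunction.vonMangoldt_eq_zero_iff.2 hp]
        simp
    refine (norm_sum_le _ _).trans ((sum_le_sum h4).trans ?_)
    simp_rw [← mul_sum]
    calc 2 * B * ∑ m ∈ Icc 1 X, ∑ d ∈ Icc 1 (X / m), ArithmeticFunction.vonMangoldt d * (if d.minFac ∣ m then 1 else 0)
        ≤ 2 * B * (X * ∑ d ∈ Icc 1 X, ArithmeticFunction.vonMangoldt d * (1 / (d * d.minFac))) :=
          mul_le_mul_of_nonneg_left (bad_pairs X) (by positivity)
      _ ≤ 2 * B * (X * C0) := by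
          refine mul_le_mul_of_nonneg_left ?_ (by positivity)
          exact mul_le_mul_of_nonneg_left (hC X) hX0.le
      _ = 2 * C0 * B * X := by ring
  calc ‖(Real.log X : ℂ) * ∑ n ∈ Icc 1 X, w n - z * ∑ m ∈ Icc 1 X, z ^ om m *
      ((∑ d ∈ Icc 1 (X / m), ArithmeticFunction.vonMangoldt d * g (d * m) : ℝ) : ℂ)‖
      = ‖((Real.log X : ℂ) * ∑ n ∈ Icc 1 X, w n - ∑ n ∈ Icc 1 X, Real.log n • w n) +
        (∑ n ∈ Icc 1 X, Real.log n • w n - z * ∑ m ∈ Icc 1 X, z ^ om m *
          ((∑ d ∈ Icc 1 (X / m), ArithmeticFunction.vonMangoldt d * g (d * m) : ℝ) : ℂ))‖ := by congr 1; ring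
    _ ≤ B * X + 2 * C0 * B * X := (norm_add_le _ _).trans (add_le_add h1 h3)
    _ = (1 + 2 * C0) * B * X := by ring

end Pool.Agent.NH21.Bty
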