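import Pool.Agent.NH21.Bty.Stm
import Pool.Agent.H332R2.FL.Saw

/-! # Beatty sequences: the major arcs -/

set_option autoImplicit false

namespace Pool.Agent.NH21.Bty.MBx

open Finset Filter Topology
open Pool.Agent.H373R2.T7
open H332.FL (sw sw_add_int sw_add_nat abs_sw_le sw_distr sw_perm)

/-! ## Complete sums of the sawtooth -/

lemma periodic_mul (l : ℕ) (f : ℕ → ℝ) (hf : ∀ c, f (c + l) = f c) (g c : ℕ) : f (g * l + c) = f c := by
  induction g with
  | zero => simp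
  | succ g ih =>
    have : (g + 1) * l + c = (g * l + c) + l := by ring
    rw [this, hf, ih]

/-- a sum over a whole number of periods -/
lemma sum_periods (l : ℕ) (f : ℕ → ℝ) (hf : ∀ c, f (c + l) = f c) (g : ℕ) :
    ∑ c ∈ range (g * l), f c = g * ∑ c ∈ range l, f c := by
  induction g with
  | zero => simp
  | succ g ih =>
    have h1 : (g + 1) * l = g * l + l := by ring
    rw [h1, sum_range_add, ih]
    have h2 : ∑ x ∈ range l, f (g * l + x) = ∑ x ∈ range l, f x :=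
      sum_congr rfl fun c _ => periodic_mul l f hf g c
    rw [h2]
    push_cast
    ring

lemma sum_sw_nat (n : ℕ) (hn : 0 < n) (M : ℕ) (w : ℝ) :
    ∑ c ∈ range n, sw (w + c * ((M : ℝ) / n)) =
      (Nat.gcd M n : ℝ) * sw (((n / Nat.gcd M n : ℕ) : ℝ) * w) := by
  obtain ⟨g, hg⟩ : ∃ g, g = Nat.gcd M n := ⟨_, rfl⟩
  have hg0 : 0 < g := by rw [hg]; exact Nat.gcd_pos_of_pos_right _ hn
  obtain ⟨M1, hM1⟩ : g ∣ M := by rw [hg]; exact Nat.gcd_dvd_left _ _
  obtain ⟨l, hl⟩ : g ∣ n := by rw [hg]; exact Nat.gcd_dvd_right _ _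
  have hl0 : 0 < l := by
    rcases Nat.eq_zero_or_pos l with h | h
    · rw [h] at hl; omega
    · exact h
  have hcop : Nat.Coprime M1 l := by
    have h1 : Nat.gcd (g * M1) (g * l) = g := by rw [← hM1, ← hl, ← hg]
    rw [Nat.gcd_mul_left] at h1
    exact Nat.eq_of_mul_eq_mul_left hg0 (by rw [h1, mul_one])
  have hnl : n / g = l := by rw [hl]; exact Nat.mul_div_cancel_left _ hg0
  rw [← hg, hnl]
  have hgr : (g : ℝ) ≠ 0 := by exact_mod_cast hg0.ne'
  have hlr : (l : ℝ) ≠ 0 := by exact_mod_cast hl0.ne'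
  have h2 : ∀ c : ℕ, sw (w + c * ((M : ℝ) / n)) = sw ((l * w + M1 * c) / l) := by
    intro c
    congr 1
    rw [hl, hM1]
    push_cast
    field_simp
  rw [sum_congr rfl (fun c _ => h2 c), hl]
  rw [sum_periods l (fun c => sw ((l * w + M1 * c) / l)) _ g]
  · rw [sw_perm M1 l hl0 hcop, sw_distr l hl0]
  · intro c
    have : (l * w + M1 * ((c + l : ℕ) : ℝ)) / l = (l * w + M1 * c) / l + (M1 : ℝ) := by
      push_cast
      field_simp
      ring
    show sw ((l * w + M1 * ((c + l : ℕ) : ℝ)) / l) = _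
    rw [this, sw_add_nat]

/-- the complete sum of the sawtooth along an arithmetic progression of rationals -/
lemma sum_sw (n : ℕ) (hn : 0 < n) (M : ℤ) (w : ℝ) :
    ∑ c ∈ range n, sw (w + c * ((M : ℝ) / n)) =
      (Int.gcd M n : ℝ) * sw (((n / Int.gcd M n : ℕ) : ℝ) * w) := by
  obtain ⟨M0, hM0⟩ : ∃ M0 : ℕ, (M0 : ℤ) = M % n := ⟨(M % n).toNat, Int.toNat_of_nonneg (Int.emod_nonneg _ (by omega))⟩
  have hM : M = M0 + n * (M / n) := by rw [hM0]; exact (Int.emod_add_mul_ediv _ _).symm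
  have hgcd : Int.gcd M n = Nat.gcd M0 n := by
    rw [← Int.gcd_natCast_natCast, hM0]
    exact (Int.gcd_emod M n).symm
  rw [hgcd, ← sum_sw_nat n hn M0 w]
  refine sum_congr rfl fun c _ => ?_
  have hnr : (n : ℝ) ≠ 0 := by exact_mod_cast hn.ne'
  have : w + c * ((M : ℝ) / n) = w + c * ((M0 : ℝ) / n) + ((c * (M / n) : ℤ) : ℝ) := by
    have h1 : (M : ℝ) = M0 + n * ((M / n : ℤ) : ℝ) := by
      conv_lhs => rw [hM]
      push_cast
      ring
    rw [h1]
    push_cast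
    field_simp
    ring
  rw [this, sw_add_int]

/-! ## Sums over reduced residues -/

lemma ind_coprime (q : ℕ) (hq : 0 < q) (c : ℕ) :
    (if c.Coprime q then (1 : ℝ) else 0) = ∑ k ∈ q.divisors, if k ∣ c then ((ArithmeticFunction.moebius k : ℤ) : ℝ) else 0 := by
  rw [← sum_filter]
  have h1 : q.divisors.filter (fun k => k ∣ c) = (Nat.gcd c q).divisors := by
    ext k
    rw [mem_filter, Nat.mem_divisors, Nat.mem_divisors]
    constructor
    · rintro ⟨⟨h1, h2⟩, h3⟩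
      exact ⟨Nat.dvd_gcd h3 h1, (Nat.gcd_pos_of_pos_right _ hq).ne'⟩
    · rintro ⟨h1, _⟩
      exact ⟨⟨h1.trans (Nat.gcd_dvd_right _ _), hq.ne'⟩, h1.trans (Nat.gcd_dvd_left _ _)⟩
  rw [h1]
  have h2 : (∑ k ∈ (Nat.gcd c q).divisors, ArithmeticFunction.moebius k) = if Nat.gcd c q = 1 then 1 else 0 := by
    rw [← ArithmeticFunction.coe_mul_zeta_apply, ArithmeticFunction.moebius_mul_coe_zeta, ArithmeticFunction.one_apply]
  have h3 : (∑ k ∈ (Nat.gcd c q).divisors, ((ArithmeticFunction.moebius k : ℤ) : ℝ)) =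
      ((∑ k ∈ (Nat.gcd c q).divisors, ArithmeticFunction.moebius k : ℤ) : ℝ) := by push_cast; rfl
  rw [h3, h2]
  unfold Nat.Coprime
  split_ifs <;> simp

lemma sum_mult (q k : ℕ) (hk : k ∣ q) (hq : 0 < q) (F : ℕ → ℝ) :
    ∑ c ∈ (range q).filter (fun c => k ∣ c), F c = ∑ c ∈ range (q / k), F (k * c) := by
  have hk0 : 0 < k := Nat.pos_of_dvd_of_pos hk hq
  symm
  refine sum_nbij (fun c => k * c) ?_ ?_ ?_ (fun _ _ => rfl)
  · intro c hc
    rw [mem_range] at hc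
    rw [mem_filter, mem_range]
    refine ⟨?_, dvd_mul_right _ _⟩
    obtain ⟨t, rfl⟩ := hk
    rw [Nat.mul_div_cancel_left _ hk0] at hc
    exact Nat.mul_lt_mul_of_pos_left hc hk0
  · intro x _ y _ h
    exact Nat.eq_of_mul_eq_mul_left hk0 h
  · intro c hc
    rw [mem_coe, mem_filter, mem_range] at hc
    obtain ⟨h1, t, rfl⟩ := hc
    refine ⟨t, ?_, rfl⟩
    rw [mem_coe, mem_range]
    rw [Nat.lt_div_iff_mul_lt' hk]
    exact h1

lemma sum_coprime (q : ℕ) (hq : 0 < q) (F : ℕ → ℝ) :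
    ∑ c ∈ (range q).filter (fun c => c.Coprime q), F c =
      ∑ k ∈ q.divisors, ((ArithmeticFunction.moebius k : ℤ) : ℝ) * ∑ c ∈ range (q / k), F (k * c) := by
  have h1 : ∑ c ∈ (range q).filter (fun c => c.Coprime q), F c =
      ∑ c ∈ range q, (∑ k ∈ q.divisors, if k ∣ c then ((ArithmeticFunction.moebius k : ℤ) : ℝ) else 0) * F c := by
    rw [sum_filter]
    refine sum_congr rfl fun c _ => ?_
    rw [← ind_coprime q hq c]
    split_ifs <;> simp
  rw [h1]
  simp_rw [sum_mul]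
  rw [sum_comm]
  refine sum_congr rfl fun k hk => ?_
  rw [← sum_mult q k (Nat.dvd_of_mem_divisors hk) hq F, mul_sum, sum_filter]
  refine sum_congr rfl fun c _ => ?_
  split_ifs <;> simp

/-! ## Variation -/

lemma sw_sub (x y : ℝ) : |sw x - sw y| ≤ |x - y| + |(⌊x⌋ : ℝ) - ⌊y⌋| := by
  have h1 : sw x - sw y = (x - y) - ((⌊x⌋ : ℝ) - ⌊y⌋) := by
    unfold sw
    rw [← Int.self_sub_floor, ← Int.self_sub_floor]
    ring
  rw [h1]
  exact abs_sub _ _

lemma var_pos (w β : ℝ) (hβ : 0 ≤ β) (n : ℕ) :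
    ∑ d ∈ range n, |sw (w - ((d + 1 : ℕ) : ℝ) * β) - sw (w - (d : ℝ) * β)| ≤
      n * β + ((⌊w⌋ : ℝ) - ⌊w - n * β⌋) := by
  induction n with
  | zero => simp
  | succ n ih =>
    rw [sum_range_succ]
    have h1 := sw_sub (w - ((n + 1 : ℕ) : ℝ) * β) (w - (n : ℝ) * β)
    have h2 : |w - ((n + 1 : ℕ) : ℝ) * β - (w - (n : ℝ) * β)| = β := by
      have : w - ((n + 1 : ℕ) : ℝ) * β - (w - (n : ℝ) * β) = -β := by push_cast; ring
      rw [this, abs_neg, abs_of_nonneg hβ]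
    have h3 : |(⌊w - ((n + 1 : ℕ) : ℝ) * β⌋ : ℝ) - ⌊w - (n : ℝ) * β⌋| = (⌊w - (n : ℝ) * β⌋ : ℝ) - ⌊w - ((n + 1 : ℕ) : ℝ) * β⌋ := by
      rw [abs_of_nonpos]
      · ring
      · have : ⌊w - ((n + 1 : ℕ) : ℝ) * β⌋ ≤ ⌊w - (n : ℝ) * β⌋ := by
          apply Int.floor_le_floor
          push_cast
          nlinarith
        have : (⌊w - ((n + 1 : ℕ) : ℝ) * β⌋ : ℝ) ≤ ⌊w - (n : ℝ) * β⌋ := by exact_mod_cast this
        linarith
    rw [h2, h3] at h1
    push_cast at h1 ih ⊢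
    linarith

lemma var_neg (w β : ℝ) (hβ : β ≤ 0) (n : ℕ) :
    ∑ d ∈ range n, |sw (w - ((d + 1 : ℕ) : ℝ) * β) - sw (w - (d : ℝ) * β)| ≤
      n * (-β) + ((⌊w - n * β⌋ : ℝ) - ⌊w⌋) := by
  induction n with
  | zero => simp
  | succ n ih =>
    rw [sum_range_succ]
    have h1 := sw_sub (w - ((n + 1 : ℕ) : ℝ) * β) (w - (n : ℝ) * β)
    have h2 : |w - ((n + 1 : ℕ) : ℝ) * β - (w - (n : ℝ) * β)| = -β := by
      have : w - ((n + 1 : ℕ) : ℝ) * β - (w - (n : ℝ) * β) = -β := by push_cast; ring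
      rw [this, abs_of_nonneg (by linarith)]
    have h3 : |(⌊w - ((n + 1 : ℕ) : ℝ) * β⌋ : ℝ) - ⌊w - (n : ℝ) * β⌋| = (⌊w - ((n + 1 : ℕ) : ℝ) * β⌋ : ℝ) - ⌊w - (n : ℝ) * β⌋ := by
      rw [abs_of_nonneg]
      have : ⌊w - (n : ℝ) * β⌋ ≤ ⌊w - ((n + 1 : ℕ) : ℝ) * β⌋ := by
        apply Int.floor_le_floor
        push_cast
        nlinarith
      have : (⌊w - (n : ℝ) * β⌋ : ℝ) ≤ ⌊w - ((n + 1 : ℕ) : ℝ) * β⌋ := by exact_mod_cast this
      linarith
    rw [h2, h3] at h1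
    push_cast at h1 ih ⊢
    linarith

/-- the variation of the sawtooth along a line -/
lemma var_sw (w β : ℝ) (n : ℕ) :
    ∑ d ∈ range n, |sw (w - ((d + 1 : ℕ) : ℝ) * β) - sw (w - (d : ℝ) * β)| ≤ 2 * (n * |β|) + 1 := by
  rcases le_total 0 β with hβ | hβ
  · refine (var_pos w β hβ n).trans ?_
    rw [abs_of_nonneg hβ]
    have h1 := Int.floor_le w
    have h2 := Int.lt_floor_add_one (w - n * β)
    linarith
  · refine (var_neg w β hβ n).trans ?_
    rw [abs_of_nonpos hβ]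
    have h1 := Int.floor_le (w - n * β)
    have h2 := Int.lt_floor_add_one w
    linarith

/-- the difference of two sawtooth functions -/
noncomputable def GG (κ θ u : ℝ) : ℝ := sw (κ - θ - u) - sw (κ - u)

lemma abs_GG_le (κ θ u : ℝ) : |GG κ θ u| ≤ 1 := by
  unfold GG
  have h1 := abs_sw_le (κ - θ - u)
  have h2 := abs_sw_le (κ - u)
  rw [abs_le] at h1 h2 ⊢
  constructor <;> linarith

lemma GG_add_int (κ θ u : ℝ) (t : ℤ) : GG κ θ (u + t) = GG κ θ u := by
  unfold GG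
  have h1 : κ - θ - (u + t) = κ - θ - u + ((-t : ℤ) : ℝ) := by push_cast; ring
  have h2 : κ - (u + t) = κ - u + ((-t : ℤ) : ℝ) := by push_cast; ring
  rw [h1, h2, sw_add_int, sw_add_int]

lemma gB_eq (κ θ : ℝ) (n : ℕ) : gB κ θ n = GG κ θ (n * θ) := by
  unfold gB GG sw
  have : κ - ((n : ℝ) + 1) * θ = κ - θ - n * θ := by ring
  rw [this]
  ring

lemma var_GG (κ θ u β : ℝ) (n : ℕ) :
    ∑ d ∈ range n, |GG κ θ (u + ((d + 1 : ℕ) : ℝ) * β) - GG κ θ (u + (d : ℝ) * β)| ≤ 4 * (n * |β|) + 2 := by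
  have h1 := var_sw (κ - θ - u) β n
  have h2 := var_sw (κ - u) β n
  have h3 : ∑ d ∈ range n, |GG κ θ (u + ((d + 1 : ℕ) : ℝ) * β) - GG κ θ (u + (d : ℝ) * β)| ≤
      ∑ d ∈ range n, (|sw (κ - θ - u - ((d + 1 : ℕ) : ℝ) * β) - sw (κ - θ - u - (d : ℝ) * β)| +
        |sw (κ - u - ((d + 1 : ℕ) : ℝ) * β) - sw (κ - u - (d : ℝ) * β)|) := by
    refine sum_le_sum fun d _ => ?_
    unfold GG
    have e1 : sw (κ - θ - (u + ((d + 1 : ℕ) : ℝ) * β)) - sw (κ - (u + ((d + 1 : ℕ) : ℝ) * β)) -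
        (sw (κ - θ - (u + (d : ℝ) * β)) - sw (κ - (u + (d : ℝ) * β))) =
        (sw (κ - θ - u - ((d + 1 : ℕ) : ℝ) * β) - sw (κ - θ - u - (d : ℝ) * β)) -
        (sw (κ - u - ((d + 1 : ℕ) : ℝ) * β) - sw (κ - u - (d : ℝ) * β)) := by
      have a1 : κ - θ - (u + ((d + 1 : ℕ) : ℝ) * β) = κ - θ - u - ((d + 1 : ℕ) : ℝ) * β := by ring
      have a2 : κ - (u + ((d + 1 : ℕ) : ℝ) * β) = κ - u - ((d + 1 : ℕ) : ℝ) * β := by ring
      have a3 : κ - θ - (u + (d : ℝ) * β) = κ - θ - u - (d : ℝ) * β := by ring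
      have a4 : κ - (u + (d : ℝ) * β) = κ - u - (d : ℝ) * β := by ring
      rw [a1, a2, a3, a4]
      ring
    rw [e1]
    exact abs_sub _ _
  rw [sum_add_distrib] at h3
  linarith

/-! ## Summation by parts and comparison of sums -/

lemma abel_id (x v : ℕ → ℝ) (N : ℕ) :
    ∑ d ∈ Icc 1 N, x d * v d = (∑ d ∈ Icc 1 N, x d) * v N - ∑ t ∈ range N, (∑ d ∈ Icc 1 t, x d) * (v (t + 1) - v t) := by
  induction N with
  | zero => simp
  | succ N ih =>
    rw [sum_Icc_succ_top (by omega), sum_Icc_succ_top (by omega), sum_range_succ, ih]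
    ring

lemma abel_var (x v : ℕ → ℝ) (B V : ℝ) (N : ℕ) (hx : ∀ t, t ≤ N → |∑ d ∈ Icc 1 t, x d| ≤ B) (hv : |v N| ≤ 1)
    (hV : ∑ t ∈ range N, |v (t + 1) - v t| ≤ V) : |∑ d ∈ Icc 1 N, x d * v d| ≤ B * (1 + V) := by
  have hB : 0 ≤ B := (abs_nonneg _).trans (hx N le_rfl)
  rw [abel_id]
  refine (abs_sub _ _).trans ?_
  have h1 : |(∑ d ∈ Icc 1 N, x d) * v N| ≤ B * 1 := by
    rw [abs_mul]
    exact mul_le_mul (hx N le_rfl) hv (abs_nonneg _) hB
  have h2 : |∑ t ∈ range N, (∑ d ∈ Icc 1 t, x d) * (v (t + 1) - v t)| ≤ B * V := by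
    refine (abs_sum_le_sum_abs _ _).trans ?_
    calc ∑ t ∈ range N, |(∑ d ∈ Icc 1 t, x d) * (v (t + 1) - v t)| ≤
          ∑ t ∈ range N, B * |v (t + 1) - v t| := by
          refine sum_le_sum fun t ht => ?_
          rw [abs_mul]
          exact mul_le_mul_of_nonneg_right (hx t (mem_range.1 ht).le) (abs_nonneg _)
      _ = B * ∑ t ∈ range N, |v (t + 1) - v t| := by rw [mul_sum]
      _ ≤ B * V := mul_le_mul_of_nonneg_left hV hB
  linarith

lemma path_le (v : ℕ → ℝ) (a : ℕ) (n j : ℕ) (hj : j ≤ n) :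
    |v (a + j) - v (a + n)| ≤ ∑ i ∈ range n, |v (a + i + 1) - v (a + i)| := by
  induction n with
  | zero =>
    have : j = 0 := by omega
    rw [this]; simp
  | succ n ih =>
    rw [sum_range_succ]
    rcases Nat.lt_or_ge j (n + 1) with h | h
    · have h1 := ih (by omega)
      have h2 : v (a + j) - v (a + (n + 1)) = (v (a + j) - v (a + n)) - (v (a + n + 1) - v (a + n)) := by
        rw [← add_assoc]; ring
      rw [h2]
      exact (abs_sub _ _).trans (by linarith)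
    · have : j = n + 1 := by omega
      rw [this, sub_self, abs_zero]
      have : 0 ≤ ∑ i ∈ range n, |v (a + i + 1) - v (a + i)| := sum_nonneg fun _ _ => abs_nonneg _
      have := abs_nonneg (v (a + n + 1) - v (a + n))
      linarith

lemma sum_Icc_add (v : ℕ → ℝ) (a n : ℕ) :
    ∑ s ∈ Icc 1 (a + n), v s = ∑ s ∈ Icc 1 a, v s + ∑ j ∈ range n, v (a + j + 1) := by
  induction n with
  | zero => simp
  | succ n ih =>
    rw [← add_assoc, sum_Icc_succ_top (by omega), ih, sum_range_succ]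
    ring

lemma block_cmp (v : ℕ → ℝ) (m N : ℕ) :
    |∑ s ∈ Icc 1 (N * m), v s - m * ∑ d ∈ Icc 1 N, v (d * m)| ≤ m * ∑ s ∈ range (N * m), |v (s + 1) - v s| := by
  induction N with
  | zero => simp
  | succ N ih =>
    have e0 : (N + 1) * m = N * m + m := by ring
    rw [e0, sum_Icc_add, sum_Icc_succ_top (by omega), sum_range_add, e0]
    have h1 : |∑ j ∈ range m, v (N * m + j + 1) - m * v (N * m + m)| ≤
        m * ∑ i ∈ range m, |v (N * m + i + 1) - v (N * m + i)| := by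
      have h2 : ∑ j ∈ range m, v (N * m + j + 1) - m * v (N * m + m) =
          ∑ j ∈ range m, (v (N * m + (j + 1)) - v (N * m + m)) := by
        rw [sum_sub_distrib, sum_const, card_range, nsmul_eq_mul]
        rfl
      rw [h2]
      refine (abs_sum_le_sum_abs _ _).trans ?_
      calc ∑ j ∈ range m, |v (N * m + (j + 1)) - v (N * m + m)| ≤
            ∑ _j ∈ range m, ∑ i ∈ range m, |v (N * m + i + 1) - v (N * m + i)| := by
            refine sum_le_sum fun j hj => ?_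
            rw [mem_range] at hj
            exact path_le v (N * m) m (j + 1) (by omega)
        _ = _ := by rw [sum_const, card_range, nsmul_eq_mul]
    have h3 : ∑ s ∈ Icc 1 (N * m), v s + ∑ j ∈ range m, v (N * m + j + 1) - m * (∑ d ∈ Icc 1 N, v (d * m) + v (N * m + m)) =
        (∑ s ∈ Icc 1 (N * m), v s - m * ∑ d ∈ Icc 1 N, v (d * m)) +
        (∑ j ∈ range m, v (N * m + j + 1) - m * v (N * m + m)) := by ring
    rw [h3]
    refine (abs_add_le _ _).trans ?_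
    rw [mul_add]
    exact add_le_add ih h1

lemma full_cmp (v : ℕ → ℝ) (hv : ∀ s, |v s| ≤ 1) (m X : ℕ) (hm : 0 < m) (V : ℝ)
    (hV : ∑ s ∈ range (X / m * m), |v (s + 1) - v s| ≤ V) :
    |∑ s ∈ Icc 1 X, v s - m * ∑ d ∈ Icc 1 (X / m), v (d * m)| ≤ m * (V + 1) := by
  have h1 := block_cmp v m (X / m)
  have h2 : X / m * m + X % m = X := by rw [mul_comm]; exact Nat.div_add_mod X m
  have h3 : ∑ s ∈ Icc 1 X, v s = ∑ s ∈ Icc 1 (X / m * m), v s + ∑ j ∈ range (X % m), v (X / m * m + j + 1) := by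
    conv_lhs => rw [← h2]
    exact sum_Icc_add v _ _
  have h4 : |∑ j ∈ range (X % m), v (X / m * m + j + 1)| ≤ m := by
    refine (abs_sum_le_sum_abs _ _).trans ?_
    calc ∑ j ∈ range (X % m), |v (X / m * m + j + 1)| ≤ ∑ _j ∈ range (X % m), (1 : ℝ) := sum_le_sum fun _ _ => hv _
      _ = ((X % m : ℕ) : ℝ) := by simp
      _ ≤ m := by exact_mod_cast (Nat.mod_lt X hm).le
  rw [h3]
  have h5 : ∑ s ∈ Icc 1 (X / m * m), v s + ∑ j ∈ range (X % m), v (X / m * m + j + 1) - m * ∑ d ∈ Icc 1 (X / m), v (d * m) =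
      (∑ s ∈ Icc 1 (X / m * m), v s - m * ∑ d ∈ Icc 1 (X / m), v (d * m)) + ∑ j ∈ range (X % m), v (X / m * m + j + 1) := by ring
  rw [h5]
  refine (abs_add_le _ _).trans ?_
  have hm0 : (0 : ℝ) ≤ m := Nat.cast_nonneg _
  have h6 : (m : ℝ) * ∑ s ∈ range (X / m * m), |v (s + 1) - v s| ≤ m * V := mul_le_mul_of_nonneg_left hV hm0
  linarith

/-! ## The main terms -/

/-- the averages of the sawtooth differences along the drift -/
noncomputable def rho (κ θ δ : ℝ) (X l : ℕ) : ℝ :=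
  (1 / (X : ℝ)) * ∑ s ∈ Icc 1 X, (sw (l * (κ - θ - s * δ)) - sw (l * (κ - s * δ)))

/-- the main coefficients -/
noncomputable def bb (κ θ δ : ℝ) (X q d : ℕ) : ℝ :=
  (1 / (Nat.totient q : ℝ)) * ∑ k ∈ q.divisors, ((ArithmeticFunction.moebius k : ℤ) : ℝ) *
    ((Nat.gcd (q / k) d : ℝ) * rho κ θ δ X (q / k / Nat.gcd (q / k) d))

lemma abs_rho_le (κ θ δ : ℝ) (X l : ℕ) (hX : 0 < X) : |rho κ θ δ X l| ≤ 1 := by
  have hXr : (0 : ℝ) < X := by exact_mod_cast hX
  unfold rho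
  rw [abs_mul, abs_of_pos (by positivity : (0 : ℝ) < 1 / X)]
  have h1 : |∑ s ∈ Icc 1 X, (sw (l * (κ - θ - s * δ)) - sw (l * (κ - s * δ)))| ≤ X := by
    refine (abs_sum_le_sum_abs _ _).trans ?_
    calc ∑ s ∈ Icc 1 X, |sw (l * (κ - θ - s * δ)) - sw (l * (κ - s * δ))| ≤ ∑ _s ∈ Icc 1 X, (1 : ℝ) := by
          refine sum_le_sum fun s _ => ?_
          have h1 := abs_sw_le (l * (κ - θ - s * δ))
          have h2 := abs_sw_le (l * (κ - s * δ))
          rw [abs_le] at h1 h2 ⊢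
          constructor <;> linarith
      _ = X := by simp
  rw [one_div, inv_mul_le_iff₀ hXr, mul_one]
  exact h1

/-- a sum over a progression of rationals modulo one -/
lemma sum_GG (κ θ v : ℝ) (a : ℤ) (n m : ℕ) (hn : 0 < n) (ha : IsCoprime a (n : ℤ)) :
    ∑ c ∈ range n, GG κ θ (c * (((m * a : ℤ) : ℝ) / n) + v) =
      (Nat.gcd n m : ℝ) * (sw (((n / Nat.gcd n m : ℕ) : ℝ) * (κ - θ - v)) - sw (((n / Nat.gcd n m : ℕ) : ℝ) * (κ - v))) := by
  have hg : Int.gcd (-(m * a)) n = Nat.gcd n m := by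
    rw [Int.neg_gcd]
    have h1 : Int.gcd a n = 1 := Int.isCoprime_iff_gcd_eq_one.1 ha
    rw [Int.gcd_comm]
    have h2 : Int.gcd (n : ℤ) (m * a) = Int.gcd (n : ℤ) m := by
      rw [mul_comm]
      apply Int.gcd_mul_right_right_of_gcd_eq_one
      rw [Int.gcd_comm]; exact h1
    rw [h2, Int.gcd_natCast_natCast]
  have h1 := sum_sw n hn (-(m * a)) (κ - θ - v)
  have h2 := sum_sw n hn (-(m * a)) (κ - v)
  rw [hg] at h1 h2
  rw [mul_sub, ← h1, ← h2, ← sum_sub_distrib]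
  refine sum_congr rfl fun c _ => ?_
  unfold GG
  have e1 : κ - θ - (c * (((m * a : ℤ) : ℝ) / n) + v) = κ - θ - v + c * (((-(m * a) : ℤ) : ℝ) / n) := by
    push_cast
    ring
  have e2 : κ - (c * (((m * a : ℤ) : ℝ) / n) + v) = κ - v + c * (((-(m * a) : ℤ) : ℝ) / n) := by
    push_cast
    ring
  rw [e1, e2]

/-- the averages over reduced residues and over the drift -/
lemma key (κ θ δ : ℝ) (a : ℤ) (q m X : ℕ) (hq : 0 < q) (hX : 0 < X) (ha : IsCoprime a (q : ℤ)) :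
    ∑ s ∈ Icc 1 X, ∑ c ∈ (range q).filter (fun c => c.Coprime q), GG κ θ (c * (((m * a : ℤ) : ℝ) / q) + s * δ) =
      X * Nat.totient q * bb κ θ δ X q (Nat.gcd m q) := by
  have hXr : (X : ℝ) ≠ 0 := by exact_mod_cast hX.ne'
  have hφ : (Nat.totient q : ℝ) ≠ 0 := by exact_mod_cast (Nat.totient_pos.2 hq).ne'
  have h1 : ∀ s ∈ Icc 1 X, ∑ c ∈ (range q).filter (fun c => c.Coprime q), GG κ θ (c * (((m * a : ℤ) : ℝ) / q) + s * δ) =
      ∑ k ∈ q.divisors, ((ArithmeticFunction.moebius k : ℤ) : ℝ) * ((Nat.gcd (q / k) (Nat.gcd m q) : ℝ) *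
        (sw (((q / k / Nat.gcd (q / k) (Nat.gcd m q) : ℕ) : ℝ) * (κ - θ - s * δ)) -
          sw (((q / k / Nat.gcd (q / k) (Nat.gcd m q) : ℕ) : ℝ) * (κ - s * δ)))) := by
    intro s _
    rw [sum_coprime q hq]
    refine sum_congr rfl fun k hk => ?_
    have hkq := Nat.dvd_of_mem_divisors hk
    have hk0 : 0 < k := Nat.pos_of_dvd_of_pos hkq hq
    have hn0 : 0 < q / k := Nat.div_pos (Nat.le_of_dvd hq hkq) hk0
    have hnq : q / k ∣ q := Nat.div_dvd_of_dvd hkq
    have hgg : Nat.gcd (q / k) (Nat.gcd m q) = Nat.gcd (q / k) m := by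
      rw [Nat.gcd_comm m q, ← Nat.gcd_assoc, Nat.gcd_eq_left hnq]
    have han : IsCoprime a ((q / k : ℕ) : ℤ) := by
      refine IsCoprime.of_isCoprime_of_dvd_right ha ?_
      exact_mod_cast hnq
    rw [hgg, ← sum_GG κ θ (s * δ) a (q / k) m hn0 han]
    congr 1
    refine sum_congr rfl fun c _ => ?_
    congr 2
    have hqk : (q : ℝ) = k * ((q / k : ℕ) : ℝ) := by exact_mod_cast (Nat.mul_div_cancel' hkq).symm
    have hkr : (k : ℝ) ≠ 0 := by exact_mod_cast hk0.ne'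
    have hnr : ((q / k : ℕ) : ℝ) ≠ 0 := by exact_mod_cast hn0.ne'
    conv_lhs => rw [hqk]
    rw [Nat.cast_mul]
    field_simp
  rw [sum_congr rfl h1, sum_comm]
  unfold bb
  rw [mul_assoc, ← mul_assoc (Nat.totient q : ℝ), mul_one_div_cancel hφ, one_mul, mul_sum]
  refine sum_congr rfl fun k _ => ?_
  unfold rho
  rw [← mul_sum, ← mul_sum]
  have : ∀ A B C : ℝ, A * (B * C) = X * (A * (B * (1 / X * C))) := by
    intro A B C
    field_simp
  exact this _ _ _

lemma abs_bb_gcd_le (κ θ δ : ℝ) (a : ℤ) (q m X : ℕ) (hq : 0 < q) (hX : 0 < X) (ha : IsCoprime a (q : ℤ)) :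
    |bb κ θ δ X q (Nat.gcd m q)| ≤ 1 := by
  have hXr : (0 : ℝ) < X := by exact_mod_cast hX
  have hφ : (0 : ℝ) < Nat.totient q := by exact_mod_cast Nat.totient_pos.2 hq
  have h1 := key κ θ δ a q m X hq hX ha
  have hcard : (((range q).filter (fun c => c.Coprime q)).card : ℝ) = Nat.totient q := by
    rw [Nat.totient_eq_card_coprime]
    congr 2
    refine filter_congr fun c _ => ?_
    exact Nat.coprime_comm
  have h2 : |∑ s ∈ Icc 1 X, ∑ c ∈ (range q).filter (fun c => c.Coprime q), GG κ θ (c * (((m * a : ℤ) : ℝ) / q) + s * δ)| ≤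
      X * Nat.totient q := by
    refine (abs_sum_le_sum_abs _ _).trans ?_
    calc ∑ s ∈ Icc 1 X, |∑ c ∈ (range q).filter (fun c => c.Coprime q), GG κ θ (c * (((m * a : ℤ) : ℝ) / q) + s * δ)| ≤
          ∑ _s ∈ Icc 1 X, (Nat.totient q : ℝ) := by
          refine sum_le_sum fun s _ => ?_
          refine (abs_sum_le_sum_abs _ _).trans ?_
          calc ∑ c ∈ (range q).filter (fun c => c.Coprime q), |GG κ θ (c * (((m * a : ℤ) : ℝ) / q) + s * δ)| ≤
                ∑ _c ∈ (range q).filter (fun c => c.Coprime q), (1 : ℝ) := sum_le_sum fun _ _ => abs_GG_le _ _ _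
            _ = Nat.totient q := by rw [sum_const, nsmul_eq_mul, mul_one, hcard]
      _ = X * Nat.totient q := by rw [sum_const, Nat.card_Icc, nsmul_eq_mul]; simp
  rw [h1, abs_mul, abs_of_pos (by positivity)] at h2
  have h3 : (X : ℝ) * Nat.totient q * |bb κ θ δ X q (Nat.gcd m q)| ≤ X * Nat.totient q * 1 := by linarith
  exact le_of_mul_le_mul_left h3 (by positivity)

lemma totient_bound (q : ℕ) (hq : 0 < q) : q ≤ q.divisors.card * Nat.totient q := by
  conv_lhs => rw [← Nat.sum_totient q]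
  have h1 : ∑ d ∈ q.divisors, Nat.totient d ≤ ∑ _d ∈ q.divisors, Nat.totient q := by
    refine sum_le_sum fun d hd => ?_
    exact Nat.le_of_dvd (Nat.totient_pos.2 hq) (Nat.totient_dvd_of_dvd (Nat.dvd_of_mem_divisors hd))
  rw [sum_const, smul_eq_mul] at h1
  exact h1

lemma abs_bb_le (κ θ δ : ℝ) (X q d : ℕ) (hq : 0 < q) (hX : 0 < X) (hd : d ∣ q) :
    |bb κ θ δ X q d| ≤ (q.divisors.card : ℝ) ^ 2 * d / q := by
  have hφ : (0 : ℝ) < Nat.totient q := by exact_mod_cast Nat.totient_pos.2 hq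
  have hqr : (0 : ℝ) < q := by exact_mod_cast hq
  have hd0 : 0 < d := Nat.pos_of_dvd_of_pos hd hq
  unfold bb
  rw [abs_mul, abs_of_pos (by positivity : (0 : ℝ) < 1 / Nat.totient q)]
  have h1 : |∑ k ∈ q.divisors, ((ArithmeticFunction.moebius k : ℤ) : ℝ) *
      ((Nat.gcd (q / k) d : ℝ) * rho κ θ δ X (q / k / Nat.gcd (q / k) d))| ≤ q.divisors.card * d := by
    refine (abs_sum_le_sum_abs _ _).trans ?_
    calc ∑ k ∈ q.divisors, |((ArithmeticFunction.moebius k : ℤ) : ℝ) *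
        ((Nat.gcd (q / k) d : ℝ) * rho κ θ δ X (q / k / Nat.gcd (q / k) d))| ≤ ∑ _k ∈ q.divisors, (d : ℝ) := by
          refine sum_le_sum fun k _ => ?_
          rw [abs_mul, abs_mul]
          have a1 : |((ArithmeticFunction.moebius k : ℤ) : ℝ)| ≤ 1 := by
            exact_mod_cast ArithmeticFunction.abs_moebius_le_one
          have a2 := abs_rho_le κ θ δ X (q / k / Nat.gcd (q / k) d) hX
          have a3 : |(Nat.gcd (q / k) d : ℝ)| ≤ d := by
            rw [Nat.abs_cast]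
            exact_mod_cast Nat.le_of_dvd hd0 (Nat.gcd_dvd_right _ _)
          calc |((ArithmeticFunction.moebius k : ℤ) : ℝ)| * (|(Nat.gcd (q / k) d : ℝ)| *
                |rho κ θ δ X (q / k / Nat.gcd (q / k) d)|) ≤ 1 * (d * 1) := by
                apply mul_le_mul a1 _ (by positivity) (by norm_num)
                exact mul_le_mul a3 a2 (abs_nonneg _) (Nat.cast_nonneg _)
            _ = d := by ring
      _ = _ := by rw [sum_const, nsmul_eq_mul]
  have h2 : (q : ℝ) ≤ q.divisors.card * Nat.totient q := by exact_mod_cast totient_bound q hq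
  calc 1 / (Nat.totient q : ℝ) * |∑ k ∈ q.divisors, ((ArithmeticFunction.moebius k : ℤ) : ℝ) *
      ((Nat.gcd (q / k) d : ℝ) * rho κ θ δ X (q / k / Nat.gcd (q / k) d))| ≤
        1 / (Nat.totient q : ℝ) * (q.divisors.card * d) := mul_le_mul_of_nonneg_left h1 (by positivity)
    _ ≤ (q.divisors.card : ℝ) ^ 2 * d / q := by
        rw [one_div, inv_mul_eq_div, div_le_div_iff₀ hφ hqr]
        have : (0 : ℝ) ≤ q.divisors.card * d := by positivity
        calc (q.divisors.card : ℝ) * d * q ≤ (q.divisors.card : ℝ) * d * (q.divisors.card * Nat.totient q) :=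
              mul_le_mul_of_nonneg_left h2 this
          _ = _ := by ring

/-! ## One multiplier -/

lemma per_m (κ θ δ : ℝ) (a : ℤ) (q m X : ℕ) (hq : 0 < q) (hm : 0 < m) (hX : 0 < X) (ha : IsCoprime a (q : ℤ))
    (hθ : θ = a / q + δ) (E : ℝ)
    (hAP : ∀ c t : ℕ, t ≤ X / m → |∑ n ∈ (Icc 1 t).filter (fun n => n ≡ c [MOD q]), ArithmeticFunction.vonMangoldt n -
      (if c.Coprime q then (t : ℝ) / (Nat.totient q : ℝ) else 0)| ≤ E) :
    |PP κ θ X m - (X : ℝ) / m * bb κ θ δ X q (Nat.gcd m q)| ≤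
      q * (E * (1 + (4 * (X * |δ|) + 2))) + (4 * (X * |δ|) + 2 + 1) := by
  have hqr : (0 : ℝ) < q := by exact_mod_cast hq
  have hmr : (0 : ℝ) < m := by exact_mod_cast hm
  have hφ : (0 : ℝ) < Nat.totient q := by exact_mod_cast Nat.totient_pos.2 hq
  have hNm : ((X / m : ℕ) : ℝ) * m ≤ X := by exact_mod_cast Nat.div_mul_le_self X m
  have hcard : (((range q).filter (fun c => c.Coprime q)).card : ℝ) = Nat.totient q := by
    rw [Nat.totient_eq_card_coprime]
    congr 2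
    refine filter_congr fun c _ => ?_
    exact Nat.coprime_comm
  obtain ⟨v, hv⟩ : ∃ v : ℕ → ℕ → ℝ, v = fun (c s : ℕ) => GG κ θ (c * (((m * a : ℤ) : ℝ) / q) + s * δ) := ⟨_, rfl⟩
  have hv1 : ∀ c s, |v c s| ≤ 1 := fun c s => by rw [hv]; exact abs_GG_le _ _ _
  -- the sum over primes by classes
  have e1 : PP κ θ X m = ∑ c ∈ range q, ∑ d ∈ Icc 1 (X / m),
      (if d ≡ c [MOD q] then ArithmeticFunction.vonMangoldt d else 0) * v c (d * m) := by
    unfold PP
    have hmaps : ∀ d ∈ Icc 1 (X / m), d % q ∈ range q := fun d _ => mem_range.2 (Nat.mod_lt _ hq)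
    rw [← sum_fiberwise_of_maps_to hmaps]
    refine sum_congr rfl fun c hc => ?_
    rw [mem_range] at hc
    rw [sum_filter]
    refine sum_congr rfl fun d _ => ?_
    have e2 : d % q = c ↔ d ≡ c [MOD q] := by
      unfold Nat.ModEq
      rw [Nat.mod_eq_of_lt hc]
    by_cases hdc : d ≡ c [MOD q]
    · rw [if_pos (e2.2 hdc), if_pos hdc, gB_eq, hv]
      congr 1
      obtain ⟨t, ht⟩ : ∃ t : ℤ, (d : ℤ) = c + q * t := by
        obtain ⟨t, ht⟩ := Nat.modEq_iff_dvd.1 hdc.symm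
        exact ⟨t, by linarith⟩
      have ht' : (d : ℝ) = c + q * t := by exact_mod_cast ht
      have e3 : ((d * m : ℕ) : ℝ) * θ = (c * (((m * a : ℤ) : ℝ) / q) + ((d * m : ℕ) : ℝ) * δ) + ((t * (m * a) : ℤ) : ℝ) := by
        rw [hθ]
        push_cast
        rw [ht']
        field_simp
        ring
      show GG κ θ (((d * m : ℕ) : ℝ) * θ) = GG κ θ (c * (((m * a : ℤ) : ℝ) / q) + ((d * m : ℕ) : ℝ) * δ)
      rw [e3, GG_add_int]
    · rw [if_neg (fun h => hdc (e2.1 h)), if_neg hdc, zero_mul]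
  -- the variation
  have hvar : ∀ c : ℕ, ∑ t ∈ range (X / m), |v c ((t + 1) * m) - v c (t * m)| ≤ 4 * (X * |δ|) + 2 := by
    intro c
    have h1 := var_GG κ θ (c * (((m * a : ℤ) : ℝ) / q)) (m * δ) (X / m)
    have h2 : ((X / m : ℕ) : ℝ) * |m * δ| ≤ X * |δ| := by
      rw [abs_mul, Nat.abs_cast, ← mul_assoc]
      exact mul_le_mul_of_nonneg_right hNm (abs_nonneg _)
    have h3 : ∑ t ∈ range (X / m), |v c ((t + 1) * m) - v c (t * m)| =
        ∑ d ∈ range (X / m), |GG κ θ (c * (((m * a : ℤ) : ℝ) / q) + ((d + 1 : ℕ) : ℝ) * (m * δ)) -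
          GG κ θ (c * (((m * a : ℤ) : ℝ) / q) + (d : ℝ) * (m * δ))| := by
      refine sum_congr rfl fun t _ => ?_
      rw [hv]
      have a1 : (((t + 1) * m : ℕ) : ℝ) * δ = ((t + 1 : ℕ) : ℝ) * (m * δ) := by push_cast; ring
      have a2 : ((t * m : ℕ) : ℝ) * δ = (t : ℝ) * (m * δ) := by push_cast; ring
      show |GG κ θ (c * (((m * a : ℤ) : ℝ) / q) + (((t + 1) * m : ℕ) : ℝ) * δ) -
        GG κ θ (c * (((m * a : ℤ) : ℝ) / q) + ((t * m : ℕ) : ℝ) * δ)| = _
      rw [a1, a2]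
    rw [h3]
    linarith
  have hvar2 : ∀ c : ℕ, ∑ s ∈ range (X / m * m), |v c (s + 1) - v c s| ≤ 4 * (X * |δ|) + 2 := by
    intro c
    have h1 := var_GG κ θ (c * (((m * a : ℤ) : ℝ) / q)) δ (X / m * m)
    have h2 : ((X / m * m : ℕ) : ℝ) * |δ| ≤ X * |δ| := by
      apply mul_le_mul_of_nonneg_right _ (abs_nonneg _)
      exact_mod_cast Nat.div_mul_le_self X m
    have h3 : ∑ s ∈ range (X / m * m), |v c (s + 1) - v c s| =
        ∑ d ∈ range (X / m * m), |GG κ θ (c * (((m * a : ℤ) : ℝ) / q) + ((d + 1 : ℕ) : ℝ) * δ) -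
          GG κ θ (c * (((m * a : ℤ) : ℝ) / q) + (d : ℝ) * δ)| := by
      rw [hv]
    rw [h3]
    linarith
  -- the classes
  have hcl : ∀ c : ℕ, |∑ d ∈ Icc 1 (X / m), (if d ≡ c [MOD q] then ArithmeticFunction.vonMangoldt d else 0) * v c (d * m) -
      (if c.Coprime q then 1 / (Nat.totient q : ℝ) else 0) * ∑ d ∈ Icc 1 (X / m), v c (d * m)| ≤
      E * (1 + (4 * (X * |δ|) + 2)) := by
    intro c
    have h1 := abel_var (fun d => (if d ≡ c [MOD q] then ArithmeticFunction.vonMangoldt d else 0) -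
      (if c.Coprime q then 1 / (Nat.totient q : ℝ) else 0)) (fun d => v c (d * m)) E (4 * (X * |δ|) + 2) (X / m) ?_
      (hv1 _ _) (hvar c)
    · refine le_trans (le_of_eq ?_) h1
      congr 1
      rw [mul_sum, ← sum_sub_distrib]
      refine sum_congr rfl fun d _ => ?_
      ring
    · intro t ht
      refine le_trans (le_of_eq ?_) (hAP c t ht)
      congr 1
      rw [sum_sub_distrib, ← sum_filter, sum_const, Nat.card_Icc, Nat.add_sub_cancel, nsmul_eq_mul]
      congr 1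
      split_ifs
      · rw [mul_one_div]
      · rw [mul_zero]
  have hA : |PP κ θ X m - (1 / (Nat.totient q : ℝ)) * ∑ c ∈ (range q).filter (fun c => c.Coprime q),
      ∑ d ∈ Icc 1 (X / m), v c (d * m)| ≤ q * (E * (1 + (4 * (X * |δ|) + 2))) := by
    have e2 : PP κ θ X m - (1 / (Nat.totient q : ℝ)) * ∑ c ∈ (range q).filter (fun c => c.Coprime q),
        ∑ d ∈ Icc 1 (X / m), v c (d * m) = ∑ c ∈ range q, (∑ d ∈ Icc 1 (X / m),
        (if d ≡ c [MOD q] then ArithmeticFunction.vonMangoldt d else 0) * v c (d * m) -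
        (if c.Coprime q then 1 / (Nat.totient q : ℝ) else 0) * ∑ d ∈ Icc 1 (X / m), v c (d * m)) := by
      rw [e1, sum_sub_distrib]
      congr 1
      rw [sum_filter, mul_sum]
      refine sum_congr rfl fun c _ => ?_
      split_ifs <;> simp
    rw [e2]
    refine (abs_sum_le_sum_abs _ _).trans ?_
    calc _ ≤ ∑ _c ∈ range q, E * (1 + (4 * (X * |δ|) + 2)) := sum_le_sum fun c _ => hcl c
      _ = _ := by rw [sum_const, card_range, nsmul_eq_mul]
  -- comparison with the average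
  have hB : |(1 / (Nat.totient q : ℝ)) * ∑ c ∈ (range q).filter (fun c => c.Coprime q),
      ∑ d ∈ Icc 1 (X / m), v c (d * m) - (X : ℝ) / m * bb κ θ δ X q (Nat.gcd m q)| ≤ 4 * (X * |δ|) + 2 + 1 := by
    have h1 := key κ θ δ a q m X hq hX ha
    rw [sum_comm] at h1
    have h2 : ∑ c ∈ (range q).filter (fun c => c.Coprime q), ∑ s ∈ Icc 1 X, v c s =
        X * Nat.totient q * bb κ θ δ X q (Nat.gcd m q) := by
      rw [← h1, hv]
    have h3 : (1 / (Nat.totient q : ℝ)) * ∑ c ∈ (range q).filter (fun c => c.Coprime q),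
        ∑ d ∈ Icc 1 (X / m), v c (d * m) - (X : ℝ) / m * bb κ θ δ X q (Nat.gcd m q) =
        -((1 / (Nat.totient q * m : ℝ)) * ∑ c ∈ (range q).filter (fun c => c.Coprime q),
          (∑ s ∈ Icc 1 X, v c s - m * ∑ d ∈ Icc 1 (X / m), v c (d * m))) := by
      rw [sum_sub_distrib, h2, ← mul_sum]
      field_simp
      ring
    rw [h3, abs_neg, abs_mul, abs_of_pos (by positivity : (0 : ℝ) < 1 / (Nat.totient q * m))]
    have h4 : |∑ c ∈ (range q).filter (fun c => c.Coprime q),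
        (∑ s ∈ Icc 1 X, v c s - m * ∑ d ∈ Icc 1 (X / m), v c (d * m))| ≤
        (Nat.totient q * m : ℝ) * (4 * (X * |δ|) + 2 + 1) := by
      refine (abs_sum_le_sum_abs _ _).trans ?_
      calc _ ≤ ∑ _c ∈ (range q).filter (fun c => c.Coprime q), (m * (4 * (X * |δ|) + 2 + 1) : ℝ) :=
            sum_le_sum fun c _ => full_cmp (v c) (hv1 c) m X hm _ (hvar2 c)
        _ = _ := by rw [sum_const, nsmul_eq_mul, hcard]; ring
    rw [one_div, inv_mul_le_iff₀ (by positivity)]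
    exact h4
  have h5 : PP κ θ X m - (X : ℝ) / m * bb κ θ δ X q (Nat.gcd m q) =
      (PP κ θ X m - (1 / (Nat.totient q : ℝ)) * ∑ c ∈ (range q).filter (fun c => c.Coprime q),
        ∑ d ∈ Icc 1 (X / m), v c (d * m)) +
      ((1 / (Nat.totient q : ℝ)) * ∑ c ∈ (range q).filter (fun c => c.Coprime q),
        ∑ d ∈ Icc 1 (X / m), v c (d * m) - (X : ℝ) / m * bb κ θ δ X q (Nat.gcd m q)) := by ring
  rw [h5]
  exact (abs_add_le _ _).trans (add_le_add hA hB)

/-! ## Assembly -/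

lemma sum_inv_Ioc (A X : ℕ) (hA : 0 < A) (h : A ≤ X) : ∑ m ∈ Ioc A X, (1 : ℝ) / m ≤ Real.log X - Real.log A := by
  induction X, h using Nat.le_induction with
  | base => simp
  | succ n hn ih =>
    rw [sum_Ioc_succ_top (by omega)]
    have hn0 : (0 : ℝ) < n := by exact_mod_cast lt_of_lt_of_le hA hn
    have h1 := Real.one_sub_inv_le_log_of_pos (show (0 : ℝ) < ((n + 1 : ℕ) : ℝ) / n by positivity)
    rw [Real.log_div (by positivity) hn0.ne'] at h1
    have h2 : 1 - (((n + 1 : ℕ) : ℝ) / n)⁻¹ = 1 / ((n + 1 : ℕ) : ℝ) := by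
      push_cast
      field_simp
      ring
    rw [h2] at h1
    linarith

lemma sum_inv_Icc (X : ℕ) : ∑ m ∈ Icc 1 X, (1 : ℝ) / m ≤ 1 + Real.log X := by
  have h1 := harmonic_le_one_add_log X
  rw [harmonic_eq_sum_Icc] at h1
  push_cast at h1
  simpa [one_div] using h1

lemma abs_PP_le (κ θ : ℝ) (X m : ℕ) : |PP κ θ X m| ≤ 6 * ((X : ℝ) / m) := by
  unfold PP
  refine (abs_sum_le_sum_abs _ _).trans ?_
  calc ∑ d ∈ Icc 1 (X / m), |ArithmeticFunction.vonMangoldt d * gB κ θ (d * m)| ≤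
        ∑ d ∈ Icc 1 (X / m), ArithmeticFunction.vonMangoldt d := by
        refine sum_le_sum fun d _ => ?_
        rw [abs_mul, abs_of_nonneg ArithmeticFunction.vonMangoldt_nonneg, gB_eq]
        exact mul_le_of_le_one_right ArithmeticFunction.vonMangoldt_nonneg (abs_GG_le _ _ _)
    _ ≤ 6 * ((X / m : ℕ) : ℝ) := lam1_le (X / m)
    _ ≤ 6 * ((X : ℝ) / m) := mul_le_mul_of_nonneg_left Nat.cast_div_le (by norm_num)

/-- the asymptotic conditions -/
lemma ev_cond (R : ℝ) : ∃ X0 : ℕ, ∀ X : ℕ, X0 ≤ X → R ≤ Real.log X ∧ 1 ≤ LL X ∧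
    (LL X ^ 24 + 1) * (4 * LL X ^ 36 + 3) * LL X ^ 2 ≤ √(Real.log X) := by
  have hlog : Tendsto (fun X : ℕ => Real.log X) atTop atTop := Real.tendsto_log_atTop.comp tendsto_natCast_atTop_atTop
  have h1 : ∀ᶠ x : ℝ in atTop, 1 ≤ Real.log x := Real.tendsto_log_atTop.eventually_ge_atTop 1
  have h2 : ∀ᶠ x : ℝ in atTop, Real.log x ^ 62 * 14 ≤ √x := by
    have h3 := Real.isLittleO_pow_log_id_atTop (n := 62 * 2)
    have h4 := h3.bound (show (0 : ℝ) < 1 / 196 by norm_num)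
    filter_upwards [h4, h1, eventually_ge_atTop 0] with x hx h5 h6
    rw [Real.norm_eq_abs, Real.norm_eq_abs, id, abs_of_nonneg h6, abs_of_nonneg (by positivity)] at hx
    apply Real.le_sqrt_of_sq_le
    have : (Real.log x ^ 62 * 14) ^ 2 = 196 * Real.log x ^ (62 * 2) := by ring
    rw [this]
    linarith
  have h3 := hlog.eventually ((h1.and h2).and (eventually_ge_atTop R))
  obtain ⟨X0, hX0⟩ := eventually_atTop.1 h3
  refine ⟨X0, fun X hX => ?_⟩
  obtain ⟨⟨h4, h5⟩, h6⟩ := hX0 X hX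
  refine ⟨h6, h4, ?_⟩
  have hL : 1 ≤ LL X := h4
  have e : Real.log (Real.log X) = LL X := rfl
  rw [e] at h5
  refine le_trans ?_ h5
  have a1 : (1 : ℝ) ≤ LL X ^ 24 := one_le_pow₀ hL
  have a2 : (1 : ℝ) ≤ LL X ^ 36 := one_le_pow₀ hL
  calc (LL X ^ 24 + 1) * (4 * LL X ^ 36 + 3) * LL X ^ 2 ≤ (LL X ^ 24 + LL X ^ 24) * (4 * LL X ^ 36 + 3 * LL X ^ 36) * LL X ^ 2 := by
        gcongr
        linarith
    _ = LL X ^ 62 * 14 := by ring

theorem main : S_B := by
  obtain ⟨N0, hap⟩ := lam_ap 1 1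
  obtain ⟨X0, hX0⟩ := ev_cond (max 16 ((N0 : ℝ) ^ 2))
  refine ⟨9, X0, fun X hX θ κ a q hq ha hqL hδ => ?_⟩
  obtain ⟨hR, hL1, hbig⟩ := hX0 X hX
  have hℓ16 : 16 ≤ Real.log X := (le_max_left _ _).trans hR
  have hℓN : (N0 : ℝ) ^ 2 ≤ Real.log X := (le_max_right _ _).trans hR
  obtain ⟨l, hl⟩ : ∃ l, l = Real.log X := ⟨_, rfl⟩
  obtain ⟨L, hL⟩ : ∃ L, L = LL X := ⟨_, rfl⟩
  rw [← hl] at hℓ16 hℓN
  rw [← hl, ← hL] at hbig
  rw [← hL] at hL1 hqL hδ
  rw [← hl, ← hL]
  have hXne : X ≠ 0 := by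
    rintro rfl
    rw [hl] at hℓ16
    norm_num at hℓ16
  have hX0' : 0 < X := Nat.pos_of_ne_zero hXne
  have hXr : (0 : ℝ) < X := by exact_mod_cast hX0'
  have hqr : (0 : ℝ) < q := by exact_mod_cast hq
  have hq1 : (1 : ℝ) ≤ q := by exact_mod_cast hq
  have hexp : Real.exp l = X := by rw [hl, Real.exp_log hXr]
  obtain ⟨r, hr⟩ : ∃ r, r = √l := ⟨_, rfl⟩
  have hrr : r * r = l := by rw [hr]; exact Real.mul_self_sqrt (by linarith)
  have hr4 : 4 ≤ r := by rw [hr]; exact Real.le_sqrt_of_sq_le (by linarith)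
  rw [← hr] at hbig
  obtain ⟨δ, hδd⟩ : ∃ δ, δ = θ - a / q := ⟨_, rfl⟩
  rw [← hδd] at hδ
  have hθ : θ = a / q + δ := by rw [hδd]; ring
  have hXδ : X * |δ| ≤ L ^ 36 := by
    calc X * |δ| ≤ X * (L ^ 36 / (q * X)) := mul_le_mul_of_nonneg_left hδ hXr.le
      _ = L ^ 36 / q := by field_simp
      _ ≤ L ^ 36 := div_le_self (by positivity) hq1
  obtain ⟨Y, hY⟩ : ∃ Y : ℕ, Y = ⌈Real.exp r⌉₊ := ⟨_, rfl⟩
  have hY1 : Real.exp r ≤ Y := by rw [hY]; exact Nat.le_ceil _
  have hY2 : (Y : ℝ) ≤ 2 * Real.exp r := by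
    have h1 : (Y : ℝ) < Real.exp r + 1 := by rw [hY]; exact Nat.ceil_lt_add_one (Real.exp_pos _).le
    have h2 : 1 ≤ Real.exp r := Real.one_le_exp (by linarith)
    linarith
  have hY0 : 0 < Y := by
    have : (0 : ℝ) < Y := lt_of_lt_of_le (Real.exp_pos _) hY1
    exact_mod_cast this
  have hrY : r ≤ Y := by
    have := Real.add_one_le_exp r
    linarith
  have hYX : (Y : ℝ) ≤ X := by
    have h1 : (2 : ℝ) ≤ Real.exp 1 := by
      have := Real.add_one_le_exp (1 : ℝ)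
      linarith
    calc (Y : ℝ) ≤ 2 * Real.exp r := hY2
      _ ≤ Real.exp 1 * Real.exp r := mul_le_mul_of_nonneg_right h1 (Real.exp_pos _).le
      _ = Real.exp (1 + r) := (Real.exp_add _ _).symm
      _ ≤ Real.exp l := by
          apply Real.exp_le_exp.2
          nlinarith
      _ = X := hexp
  have hYX' : Y ≤ X := by exact_mod_cast hYX
  obtain ⟨A, hA⟩ : ∃ A : ℕ, A = X / Y := ⟨_, rfl⟩
  have hA0 : 0 < A := by rw [hA]; exact Nat.div_pos hYX' hY0
  have hAX : A ≤ X := by rw [hA]; exact Nat.div_le_self _ _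
  have hlogA : Real.log X - Real.log A ≤ r + 2 := by
    have hAr : (0 : ℝ) < A := by exact_mod_cast hA0
    have h1 : (X : ℝ) ≤ 2 * Y * A := by
      have h2 : X < (A + 1) * Y := by
        rw [hA]
        have := Nat.lt_mul_div_succ X hY0
        rw [mul_comm]
        exact this
      have h3 : (X : ℝ) < (A + 1) * Y := by exact_mod_cast h2
      have h4 : (1 : ℝ) ≤ A := by exact_mod_cast hA0
      have h5 : (0 : ℝ) < Y := by exact_mod_cast hY0
      nlinarith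
    have h2 : (X : ℝ) ≤ Real.exp (r + 2) * A := by
      have h4e : (4 : ℝ) ≤ Real.exp 2 := by
        have h6 : (2 : ℝ) ≤ Real.exp 1 := by
          have := Real.add_one_le_exp (1 : ℝ)
          linarith
        have h7 : Real.exp 2 = Real.exp 1 * Real.exp 1 := by rw [← Real.exp_add]; norm_num
        rw [h7]
        nlinarith
      calc (X : ℝ) ≤ 2 * Y * A := h1
        _ ≤ 2 * (2 * Real.exp r) * A := by gcongr
        _ = 4 * Real.exp r * A := by ring
        _ ≤ Real.exp 2 * Real.exp r * A := by gcongr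
        _ = Real.exp (r + 2) * A := by rw [Real.exp_add]; ring
    have h3 := Real.log_le_log hXr h2
    rw [Real.log_mul (Real.exp_pos _).ne' hAr.ne', Real.log_exp] at h3
    linarith
  refine ⟨bb κ θ δ X q, fun d hd => abs_bb_le κ θ δ X q d hq hX0' hd, ?_⟩
  -- the two ranges
  have hsplit : ∑ m ∈ Icc 1 X, |PP κ θ X m - (X : ℝ) / m * bb κ θ δ X q (Nat.gcd m q)| =
      ∑ m ∈ Icc 1 A, |PP κ θ X m - (X : ℝ) / m * bb κ θ δ X q (Nat.gcd m q)| +
      ∑ m ∈ Ioc A X, |PP κ θ X m - (X : ℝ) / m * bb κ θ δ X q (Nat.gcd m q)| := by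
    rw [← sum_union]
    · congr 1
      ext m
      rw [mem_union, mem_Icc, mem_Icc, mem_Ioc]
      omega
    · rw [disjoint_left]
      intro m h1 h2
      rw [mem_Icc] at h1
      rw [mem_Ioc] at h2
      omega
  have hL2 : 0 < L ^ 2 := by positivity
  have hsmall : ∑ m ∈ Icc 1 A, |PP κ θ X m - (X : ℝ) / m * bb κ θ δ X q (Nat.gcd m q)| ≤ 2 * X * l / L ^ 2 := by
    have h1 : ∀ m ∈ Icc 1 A, |PP κ θ X m - (X : ℝ) / m * bb κ θ δ X q (Nat.gcd m q)| ≤ (X / L ^ 2) * (1 / m) := by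
      intro m hm
      rw [mem_Icc] at hm
      have hm0 : 0 < m := hm.1
      have hmr : (0 : ℝ) < m := by exact_mod_cast hm0
      obtain ⟨N, hN⟩ : ∃ N, N = X / m := ⟨_, rfl⟩
      have hYN : Y ≤ N := by
        rw [hN, Nat.le_div_iff_mul_le hm0]
        calc Y * m ≤ Y * A := Nat.mul_le_mul_left _ hm.2
          _ ≤ X := by rw [hA]; exact Nat.mul_div_le X Y
      have hYNr : (Y : ℝ) ≤ N := by exact_mod_cast hYN
      have hNX : (N : ℝ) ≤ X / m := by rw [hN]; exact Nat.cast_div_le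
      have hlogN : r ≤ Real.log N := by
        rw [← Real.log_exp r]
        exact Real.log_le_log (Real.exp_pos _) (hY1.trans hYNr)
      have hN0N : N0 ≤ N := by
        have h2 : (N0 : ℝ) ≤ r := by
          rw [hr]; exact Real.le_sqrt_of_sq_le hℓN
        exact_mod_cast h2.trans (hrY.trans hYNr)
      have hL24 : L ^ 24 ≤ r := by
        refine le_trans ?_ hbig
        have b1 : (1 : ℝ) ≤ 4 * L ^ 36 + 3 := by
          have : 0 ≤ L ^ 36 := by positivity
          linarith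
        have b2 : (1 : ℝ) ≤ L ^ 2 := one_le_pow₀ hL1
        have b3 : 0 ≤ L ^ 24 := by positivity
        calc L ^ 24 ≤ (L ^ 24 + 1) * 1 * 1 := by linarith
          _ ≤ _ := by gcongr
      have hqN : (q : ℝ) ≤ Real.log N ^ 1 := by
        rw [pow_one]
        exact hqL.trans (hL24.trans hlogN)
      have h2 := per_m κ θ δ a q m X hq hm0 hX0' ha hθ (N / Real.log N ^ 1) (by
        intro c t ht
        exact hap N hN0N q hq hqN c t (by rw [hN]; exact ht))
      refine h2.trans ?_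
      rw [pow_one]
      have hr0 : 0 < r := by linarith
      have hE : (N : ℝ) / Real.log N ≤ (X / m) / r := by
        apply div_le_div₀ (by positivity) hNX hr0 hlogN
      have hV : 4 * (X * |δ|) + 2 ≤ 4 * L ^ 36 + 2 := by linarith
      have hV0 : 0 ≤ 4 * (X * |δ|) + 2 := by positivity
      have h3 : (q : ℝ) * (N / Real.log N * (1 + (4 * (X * |δ|) + 2))) ≤ L ^ 24 * ((X / m) / r * (4 * L ^ 36 + 3)) := by
        have hN' : (0 : ℝ) ≤ N / Real.log N := div_nonneg (Nat.cast_nonneg _) (by linarith)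
        apply mul_le_mul hqL _ (by positivity) (by positivity)
        apply mul_le_mul hE _ (by positivity) (by positivity)
        linarith
      have h4 : 4 * (X * |δ|) + 2 + 1 ≤ (X / m) / r * (4 * L ^ 36 + 3) := by
        have h5 : 1 ≤ (X / m) / r := by
          rw [one_le_div hr0]
          exact hrY.trans (hYNr.trans hNX)
        calc 4 * (X * |δ|) + 2 + 1 ≤ 1 * (4 * L ^ 36 + 3) := by linarith
          _ ≤ _ := mul_le_mul_of_nonneg_right h5 (by positivity)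
      calc (q : ℝ) * (N / Real.log N * (1 + (4 * (X * |δ|) + 2))) + (4 * (X * |δ|) + 2 + 1) ≤
            L ^ 24 * ((X / m) / r * (4 * L ^ 36 + 3)) + (X / m) / r * (4 * L ^ 36 + 3) := add_le_add h3 h4
        _ = ((L ^ 24 + 1) * (4 * L ^ 36 + 3) * L ^ 2 / r) * ((X / L ^ 2) * (1 / m)) := by
            field_simp
        _ ≤ 1 * ((X / L ^ 2) * (1 / m)) := by
            apply mul_le_mul_of_nonneg_right _ (by positivity)
            rw [div_le_one hr0]
            exact hbig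
        _ = _ := one_mul _
    calc ∑ m ∈ Icc 1 A, |PP κ θ X m - (X : ℝ) / m * bb κ θ δ X q (Nat.gcd m q)| ≤
          ∑ m ∈ Icc 1 A, (X / L ^ 2) * (1 / (m : ℝ)) := sum_le_sum h1
      _ ≤ ∑ m ∈ Icc 1 X, (X / L ^ 2) * (1 / (m : ℝ)) := by
          apply sum_le_sum_of_subset_of_nonneg (Icc_subset_Icc_right hAX)
          intro m _ _
          positivity
      _ = (X / L ^ 2) * ∑ m ∈ Icc 1 X, (1 : ℝ) / m := by rw [mul_sum]
      _ ≤ (X / L ^ 2) * (1 + Real.log X) := mul_le_mul_of_nonneg_left (sum_inv_Icc X) (by positivity)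
      _ ≤ (X / L ^ 2) * (2 * l) := by
          apply mul_le_mul_of_nonneg_left _ (by positivity)
          rw [← hl]
          linarith
      _ = _ := by ring
  have hlarge : ∑ m ∈ Ioc A X, |PP κ θ X m - (X : ℝ) / m * bb κ θ δ X q (Nat.gcd m q)| ≤ 7 * X * l / L ^ 2 := by
    have h1 : ∀ m ∈ Ioc A X, |PP κ θ X m - (X : ℝ) / m * bb κ θ δ X q (Nat.gcd m q)| ≤ (7 * X) * (1 / m) := by
      intro m hm
      rw [mem_Ioc] at hm
      have hm0 : 0 < m := by omega
      have hmr : (0 : ℝ) < m := by exact_mod_cast hm0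
      refine (abs_sub _ _).trans ?_
      have h2 := abs_PP_le κ θ X m
      have h3 := abs_bb_gcd_le κ θ δ a q m X hq hX0' ha
      have h4 : |(X : ℝ) / m * bb κ θ δ X q (Nat.gcd m q)| ≤ X / m * 1 := by
        rw [abs_mul, abs_of_nonneg (by positivity : (0 : ℝ) ≤ X / m)]
        exact mul_le_mul_of_nonneg_left h3 (by positivity)
      have h5 : (7 * X : ℝ) * (1 / m) = 6 * (X / m) + X / m * 1 := by ring
      rw [h5]
      linarith
    calc ∑ m ∈ Ioc A X, |PP κ θ X m - (X : ℝ) / m * bb κ θ δ X q (Nat.gcd m q)| ≤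
          ∑ m ∈ Ioc A X, (7 * X) * (1 / (m : ℝ)) := sum_le_sum h1
      _ = (7 * X) * ∑ m ∈ Ioc A X, (1 : ℝ) / m := by rw [mul_sum]
      _ ≤ (7 * X) * (r + 2) := mul_le_mul_of_nonneg_left ((sum_inv_Ioc A X hA0 hAX).trans hlogA) (by positivity)
      _ ≤ (7 * X) * (l / L ^ 2) := by
          apply mul_le_mul_of_nonneg_left _ (by positivity)
          rw [le_div_iff₀ hL2]
          have b1 : (2 : ℝ) ≤ (L ^ 24 + 1) * (4 * L ^ 36 + 3) := by
            have c1 : (0 : ℝ) ≤ L ^ 24 := by positivity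
            have c2 : (0 : ℝ) ≤ L ^ 36 := by positivity
            nlinarith [mul_nonneg c1 c2]
          have b2 : 2 * L ^ 2 ≤ r := le_trans (mul_le_mul_of_nonneg_right b1 hL2.le) hbig
          nlinarith
      _ = _ := by ring
  rw [hsplit]
  have : 9 * X * l / L ^ 2 = 2 * X * l / L ^ 2 + 7 * X * l / L ^ 2 := by ring
  rw [this]
  exact add_le_add hsmall hlarge

end Pool.Agent.NH21.Bty.MBx

namespace Pool.Agent.NH21.Bty

/-- B: major arcs -/
theorem lem_B : S_B := MBx.main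

end Pool.Agent.NH21.Bty
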