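import Pool.Agent.NH21.Bty.Stm

/-! # From the terms of the Beatty sequence to weights on the integers -/

set_option autoImplicit false

namespace Pool.Agent.NH21.Bty

open Finset Filter Topology

lemma norm_sum_Ico_sub_le (G : ℤ → ℂ) (hG : ∀ n, ‖G n‖ ≤ 1) (a b a' b' : ℤ) :
    ‖∑ n ∈ Ico a b, G n - ∑ n ∈ Ico a' b', G n‖ ≤ |(a : ℝ) - a'| + |(b : ℝ) - b'| := by
  have hb : ∀ s : Finset ℤ, ‖∑ n ∈ s, G n‖ ≤ s.card := by
    intro s
    refine (norm_sum_le _ _).trans ((sum_le_sum fun n _ => hG n).trans ?_)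
    simp
  rw [← sum_sdiff_sub_sum_sdiff]
  refine (norm_sub_le _ _).trans ((add_le_add (hb _) (hb _)).trans ?_)
  have h1 : ((Ico a b \ Ico a' b').card : ℝ) + ((Ico a' b' \ Ico a b).card : ℝ) =
      ((Ico a b \ Ico a' b' ∪ Ico a' b' \ Ico a b).card : ℝ) := by
    rw [card_union_of_disjoint disjoint_sdiff_sdiff]
    push_cast
    ring
  rw [h1]
  have hsub : Ico a b \ Ico a' b' ∪ Ico a' b' \ Ico a b ⊆
      Ico (min a a') (max a a') ∪ Ico (min b b') (max b b') := by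
    intro n hn
    simp only [Finset.mem_union, Finset.mem_sdiff, Finset.mem_Ico] at hn ⊢
    omega
  have h2 : ∀ x y : ℤ, ((Ico (min x y) (max x y)).card : ℝ) = |(x : ℝ) - y| := by
    intro x y
    rw [Int.card_Ico]
    rcases le_total x y with h | h
    · rw [min_eq_left h, max_eq_right h, abs_sub_comm, abs_of_nonneg (by
        have : (x : ℝ) ≤ y := by exact_mod_cast h
        linarith)]
      have : ((y - x).toNat : ℤ) = y - x := Int.toNat_of_nonneg (by omega)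
      exact_mod_cast this
    · rw [min_eq_right h, max_eq_left h, abs_of_nonneg (by
        have : (y : ℝ) ≤ x := by exact_mod_cast h
        linarith)]
      have : ((x - y).toNat : ℤ) = x - y := Int.toNat_of_nonneg (by omega)
      exact_mod_cast this
  calc ((Ico a b \ Ico a' b' ∪ Ico a' b' \ Ico a b).card : ℝ)
      ≤ ((Ico (min a a') (max a a') ∪ Ico (min b b') (max b b')).card : ℝ) := by
        exact_mod_cast card_le_card hsub
    _ ≤ ((Ico (min a a') (max a a')).card : ℝ) + ((Ico (min b b') (max b b')).card : ℝ) := by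
        exact_mod_cast card_union_le _ _
    _ = _ := by rw [h2, h2]

theorem sum_beatty : S_Sum := by
  intro α hα β
  obtain ⟨θ, hθ⟩ : ∃ θ : ℝ, θ = α⁻¹ := ⟨_, rfl⟩
  obtain ⟨κ, hκ⟩ : ∃ κ : ℝ, κ = β * α⁻¹ := ⟨_, rfl⟩
  have hθα : θ * α = 1 := by rw [hθ]; exact inv_mul_cancel₀ hα.ne'
  have hκα : κ * α = β := by rw [hκ, mul_assoc, inv_mul_cancel₀ hα.ne', mul_one]
  have hθ0 : 0 < θ := by rw [hθ]; positivity
  -- the first integer with floor at least `m`
  obtain ⟨c, hc⟩ : ∃ c : ℤ → ℤ, c = fun m : ℤ => -⌊κ - (m : ℝ) * θ⌋ := ⟨_, rfl⟩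
  have hcle : ∀ m n : ℤ, c m ≤ n ↔ (m : ℝ) ≤ α * n + β := by
    intro m n
    rw [hc]
    simp only
    rw [neg_le, Int.le_floor]
    push_cast
    constructor
    · intro h
      have h1 := mul_le_mul_of_nonneg_right h hα.le
      have h2 : (κ - m * θ) * α = β - m := by
        rw [sub_mul, hκα, mul_assoc, hθα, mul_one]
      rw [h2] at h1
      linarith
    · intro h
      have h1 := mul_le_mul_of_nonneg_right h hθ0.le
      have h2 : (α * n + β) * θ = n + κ := by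
        rw [add_mul, hκ, ← hθ]
        linear_combination (n : ℝ) * hθα
      rw [h2] at h1
      linarith
  have hcfl : ∀ m n : ℤ, n ∈ Ico (c m) (c (m + 1)) → ⌊α * (n : ℝ) + β⌋ = m := by
    intro m n hn
    rw [mem_Ico] at hn
    have h1 := (hcle m n).1 hn.1
    have h2 : ¬ (((m + 1 : ℤ) : ℝ) ≤ α * n + β) := fun h => by
      have := (hcle (m + 1) n).2 h
      omega
    rw [Int.floor_eq_iff]
    push_cast at h2
    exact ⟨h1, not_le.1 h2⟩
  have hcmono : ∀ m : ℤ, c m ≤ c (m + 1) := by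
    intro m
    rw [hcle]
    have := (hcle (m + 1) (c (m + 1))).1 le_rfl
    push_cast at this
    linarith
  have hcmono' : ∀ k : ℕ, c 1 ≤ c ((k : ℤ) + 1) := by
    intro k
    induction k with
    | zero => simp
    | succ k ih =>
      push_cast
      exact ih.trans (hcmono _)
  have hw : ∀ m : ℕ, α⁻¹ + gB (β * α⁻¹) α⁻¹ m = ((c (m + 1) - c m : ℤ) : ℝ) := by
    intro m
    rw [← hκ, ← hθ, hc]
    unfold gB
    simp only [Int.fract]
    push_cast
    ring
  refine ⟨|(1 : ℝ) - c 1| + (1 / α + 1), ⌈(1 - β) / α⌉₊, ?_⟩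
  intro N hN F hF
  have hN1 : 1 ≤ α * N + β := by
    have h1 : (1 - β) / α ≤ N := (Nat.le_ceil _).trans (by exact_mod_cast hN)
    rw [div_le_iff₀ hα] at h1
    linarith
  obtain ⟨M, hM⟩ : ∃ M : ℕ, M = ⌊α * N + β⌋.toNat := ⟨_, rfl⟩
  rw [← hM]
  have hMz : (M : ℤ) = ⌊α * N + β⌋ := by
    rw [hM]
    apply Int.toNat_of_nonneg
    rw [Int.floor_nonneg]
    linarith
  have hMr : (M : ℝ) = (⌊α * N + β⌋ : ℝ) := by exact_mod_cast hMz
  have hM1 : (M : ℝ) ≤ α * N + β := by rw [hMr]; exact Int.floor_le _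
  have hM2 : α * N + β < M + 1 := by rw [hMr]; exact Int.lt_floor_add_one _
  obtain ⟨G, hG⟩ : ∃ G : ℤ → ℂ, G = fun n : ℤ => F (⌊α * (n : ℝ) + β⌋.toNat) := ⟨_, rfl⟩
  have hG1 : ∀ n, ‖G n‖ ≤ 1 := fun n => by rw [hG]; exact hF _
  -- the first sum
  have e1 : ∑ n ∈ Icc 1 N, F (⌊α * n + β⌋.toNat) = ∑ n ∈ Ico (1 : ℤ) ((N : ℤ) + 1), G n := by
    refine sum_nbij (fun n : ℕ => (n : ℤ)) ?_ ?_ ?_ ?_
    · intro n hn
      rw [mem_Icc] at hn
      rw [mem_Ico]
      omega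
    · intro x _ y _ h
      simpa using h
    · intro y hy
      rw [mem_coe, mem_Ico] at hy
      refine ⟨y.toNat, ?_, ?_⟩
      · rw [mem_coe, mem_Icc]
        omega
      · simp only
        omega
    · intro n _
      rw [hG]
      simp only
      push_cast
      rfl
  -- the second sum
  have e2 : ∀ K : ℕ, ∑ m ∈ Icc 1 K, ((α⁻¹ + gB (β * α⁻¹) α⁻¹ m : ℝ) : ℂ) * F m =
      ∑ n ∈ Ico (c 1) (c ((K : ℤ) + 1)), G n := by
    intro K
    induction K with
    | zero => simp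
    | succ K ih =>
      rw [← insert_Icc_right_eq_Icc_add_one (by omega), sum_insert (by simp), ih]
      have hdis : Ico (c 1) (c ((K : ℤ) + 1 + 1)) =
          Ico (c 1) (c ((K : ℤ) + 1)) ∪ Ico (c ((K : ℤ) + 1)) (c ((K : ℤ) + 1 + 1)) := by
        rw [Ico_union_Ico_eq_Ico (hcmono' K) (hcmono _)]
      push_cast
      rw [hdis, sum_union (Ico_disjoint_Ico_consecutive _ _ _), add_comm]
      congr 1
      have h1 : ∀ n ∈ Ico (c ((K : ℤ) + 1)) (c ((K : ℤ) + 1 + 1)), G n = F (K + 1) := by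
        intro n hn
        rw [hG]
        simp only
        rw [hcfl _ _ hn]
        congr 1
      rw [sum_congr rfl h1, sum_const, Int.card_Ico, nsmul_eq_mul]
      congr 1
      have h2 := hw (K + 1)
      have h3 : ((c ((K : ℤ) + 1 + 1) - c ((K : ℤ) + 1)).toNat : ℤ) = c ((K : ℤ) + 1 + 1) - c ((K : ℤ) + 1) :=
        Int.toNat_of_nonneg (by have := hcmono ((K : ℤ) + 1); omega)
      have h4 : ((c ((K : ℤ) + 1 + 1) - c ((K : ℤ) + 1)).toNat : ℝ) = α⁻¹ + gB (β * α⁻¹) α⁻¹ (K + 1 : ℕ) := by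
        rw [h2]
        push_cast at h3 ⊢
        exact_mod_cast h3
      rw [← Complex.ofReal_natCast, h4]
      push_cast
      rfl
  rw [e1, e2 M]
  refine (norm_sum_Ico_sub_le G hG1 _ _ _ _).trans ?_
  push_cast
  apply add_le_add le_rfl
  -- the end points
  have h1 : (N : ℤ) + 1 ≤ c ((M : ℤ) + 1) := by
    by_contra hcon
    have h2 : c ((M : ℤ) + 1) ≤ (N : ℤ) := by omega
    rw [hcle] at h2
    push_cast at h2
    linarith
  have h1r : (N : ℝ) + 1 ≤ c ((M : ℤ) + 1) := by exact_mod_cast h1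
  have h2 : (c ((M : ℤ) + 1) : ℝ) ≤ N + 1 + (1 / α + 1) := by
    have h3 : c ((M : ℤ) + 1) ≤ ⌈(N : ℝ) + 1 / α⌉ := by
      rw [hcle]
      push_cast
      have h4 : (N : ℝ) + 1 / α ≤ ⌈(N : ℝ) + 1 / α⌉ := Int.le_ceil _
      have h5 := mul_le_mul_of_nonneg_left h4 hα.le
      have h6 : α * ((N : ℝ) + 1 / α) = α * N + 1 := by field_simp
      rw [h6] at h5
      linarith
    have h4 : (c ((M : ℤ) + 1) : ℝ) ≤ ⌈(N : ℝ) + 1 / α⌉ := by exact_mod_cast h3
    have h5 : (⌈(N : ℝ) + 1 / α⌉ : ℝ) < N + 1 / α + 1 := Int.ceil_lt_add_one _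
    linarith
  rw [abs_sub_comm, abs_of_nonneg (by linarith)]
  linarith

end Pool.Agent.NH21.Bty
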