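import Pool.Agent.NH21.Bty.Stm
import Pool.Agent.H353R2.Z2

/-! # The main terms are close to their values at `z = 1` -/

set_option autoImplicit false

namespace Pool.Agent.NH21.Bty

open Finset Filter Topology

lemma om_zero : om 0 = 0 := by simp [om]

lemma two_pow_om_le (n : ℕ) (hn : n ≠ 0) : 2 ^ om n ≤ n.divisors.card := by
  unfold om
  rw [Nat.card_divisors hn, ← Finset.prod_const]
  apply Finset.prod_le_prod' 
  intro p hp
  have : 1 ≤ n.factorization p := (Nat.prime_of_mem_primeFactors hp).factorization_pos_of_dvd hn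
    (Nat.dvd_of_mem_primeFactors hp)
  omega

/-- the function with the primes of `d` removed and the condition of coprimality -/
noncomputable def fd (d e : ℕ) (z : ℂ) (n : ℕ) : ℂ :=
  if Nat.Coprime n e then z ^ (n.primeFactors \ d.primeFactors).card else 0

lemma norm_pow_le {z : ℂ} (hz : ‖z - 1‖ ≤ 2 / 5) {k l : ℕ} (h : k ≤ l) : ‖z ^ k‖ ≤ (7 / 5 : ℝ) ^ l := by
  rw [norm_pow]
  have h1 : ‖z‖ ≤ 7 / 5 := by
    have := norm_add_le (z - 1) 1
    rw [sub_add_cancel, norm_one] at this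
    linarith
  calc ‖z‖ ^ k ≤ (7 / 5 : ℝ) ^ k := pow_le_pow_left₀ (norm_nonneg _) h1 k
    _ ≤ _ := pow_le_pow_right₀ (by norm_num) h

lemma fd_le (d e : ℕ) {z : ℂ} (hz : ‖z - 1‖ ≤ 2 / 5) (n : ℕ) : ‖fd d e z n‖ ≤ (7 / 5 : ℝ) ^ om n := by
  unfold fd
  split_ifs
  · exact norm_pow_le hz (card_le_card sdiff_subset)
  · rw [norm_zero]; positivity

lemma fd_mul (d e q : ℕ) (hde : d * e = q) (z : ℂ) (p k n : ℕ) (hp : p.Prime) (hk : 1 ≤ k) (hn : 1 ≤ n)
    (hpq : ¬ p ∣ q) (hpn : ¬ p ∣ n) : fd d e z (p ^ k * n) = z * fd d e z n := by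
  have hpe : ¬ p ∣ e := fun h => hpq (h.trans ⟨d, by rw [← hde, mul_comm]⟩)
  have hpd : ¬ p ∣ d := fun h => hpq (h.trans ⟨e, hde.symm⟩)
  have hcop : Nat.Coprime (p ^ k * n) e ↔ Nat.Coprime n e := by
    rw [Nat.coprime_mul_iff_left]
    constructor
    · exact fun h => h.2
    · exact fun h => ⟨((Nat.Prime.coprime_iff_not_dvd hp).2 hpe).pow_left k, h⟩
  unfold fd
  by_cases h : Nat.Coprime n e
  · rw [if_pos h, if_pos (hcop.2 h), Nat.primeFactors_mul (pow_ne_zero _ hp.ne_zero) (by omega),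
      Nat.primeFactors_pow _ (by omega), hp.primeFactors, union_sdiff_distrib]
    have h1 : ({p} : Finset ℕ) \ d.primeFactors = {p} := by
      rw [Finset.sdiff_eq_self_iff_disjoint, disjoint_singleton_left]
      exact fun h2 => hpd (Nat.dvd_of_mem_primeFactors h2)
    rw [h1, card_union_of_disjoint, card_singleton, pow_add, pow_one]
    rw [disjoint_singleton_left, Finset.mem_sdiff]
    exact fun h2 => hpn (Nat.dvd_of_mem_primeFactors h2.1)
  · rw [if_neg h, if_neg (fun h2 => h (hcop.1 h2)), mul_zero]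

lemma fd_bad (d e q : ℕ) (hde : d * e = q) (hq : 1 ≤ q) {z : ℂ} (hz : ‖z - 1‖ ≤ 2 / 5) (p k n : ℕ) (hp : p.Prime) (hk : 1 ≤ k) (hn : 1 ≤ n)
    (h : p ∣ q ∨ p ∣ n) : ‖fd d e z (p ^ k * n)‖ ≤ (7 / 5 : ℝ) ^ om n := by
  unfold fd
  by_cases hc : Nat.Coprime (p ^ k * n) e
  · rw [if_pos hc]
    apply norm_pow_le hz
    apply card_le_card
    rw [Nat.primeFactors_mul (pow_ne_zero _ hp.ne_zero) (by omega), Nat.primeFactors_pow _ (by omega),
      hp.primeFactors]
    intro r hr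
    rw [Finset.mem_sdiff, Finset.mem_union, Finset.mem_singleton] at hr
    rcases hr.1 with h1 | h1
    · subst h1
      rcases h with h | h
      · exfalso
        rw [← hde] at h
        rcases hp.dvd_mul.1 h with h2 | h2
        · apply hr.2
          rw [Nat.mem_primeFactors]
          refine ⟨hp, h2, ?_⟩
          rintro rfl
          omega
        · have h3 : Nat.Coprime (r ^ k) e := (Nat.coprime_mul_iff_left.1 hc).1
          have h4 : Nat.Coprime r e := Nat.Coprime.coprime_dvd_left (dvd_pow_self r (by omega)) h3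
          exact (Nat.Prime.coprime_iff_not_dvd hp).1 h4 h2
      · exact Nat.mem_primeFactors.2 ⟨hp, h, by omega⟩
    · exact h1
  · rw [if_neg hc, norm_zero]; positivity

lemma om_mul_eq (d n : ℕ) (hd : d ≠ 0) (hn : n ≠ 0) :
    om (d * n) = om d + (n.primeFactors \ d.primeFactors).card := by
  unfold om
  rw [Nat.primeFactors_mul hd hn, ← card_union_of_disjoint disjoint_sdiff, union_sdiff_self_eq_union]

/-- the terms with given greatest common divisor -/
lemma gcd_part (q d X : ℕ) (hq : 1 ≤ q) (hd : d ∣ q) (z : ℂ) :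
    ∑ m ∈ (Icc 1 X).filter (fun m => Nat.gcd m q = d), z ^ om m / (m : ℂ) =
      z ^ om d / (d : ℂ) * ∑ n ∈ Icc 1 (X / d), fd d (q / d) z n / (n : ℂ) := by
  have hd0 : 0 < d := Nat.pos_of_dvd_of_pos hd (by omega)
  obtain ⟨e, he⟩ := hd
  have he' : q / d = e := by rw [he, Nat.mul_div_cancel_left _ hd0]
  rw [he']
  have h1 : ∑ n ∈ Icc 1 (X / d), fd d e z n / (n : ℂ) =
      ∑ n ∈ (Icc 1 (X / d)).filter (fun n => Nat.Coprime n e), z ^ (n.primeFactors \ d.primeFactors).card / (n : ℂ) := by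
    rw [sum_filter]
    refine sum_congr rfl fun n _ => ?_
    unfold fd
    split_ifs
    · rfl
    · simp
  rw [h1, mul_sum]
  symm
  apply sum_bij (fun n _ => d * n)
  · intro n hn
    rw [mem_filter, mem_Icc] at hn ⊢
    obtain ⟨⟨h2, h3⟩, h4⟩ := hn
    refine ⟨⟨Nat.mul_pos hd0 h2, ?_⟩, ?_⟩
    · calc d * n ≤ d * (X / d) := Nat.mul_le_mul_left _ h3
        _ ≤ X := Nat.mul_div_le X d
    · rw [he, Nat.gcd_mul_left, h4.gcd_eq_one, mul_one]
  · intro a _ b _ h
    exact Nat.eq_of_mul_eq_mul_left hd0 h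
  · intro m hm
    rw [mem_filter, mem_Icc] at hm
    obtain ⟨⟨h2, h3⟩, h4⟩ := hm
    have h5 : d ∣ m := h4 ▸ Nat.gcd_dvd_left m q
    obtain ⟨n, rfl⟩ := h5
    refine ⟨n, ?_, rfl⟩
    rw [mem_filter, mem_Icc]
    refine ⟨⟨Nat.pos_of_mul_pos_left h2 |>.bot_lt.trans_le le_rfl, ?_⟩, ?_⟩
    · exact (Nat.le_div_iff_mul_le hd0).2 (by rw [mul_comm]; exact h3)
    · rw [he, Nat.gcd_mul_left] at h4
      have : d * Nat.gcd n e = d * 1 := by rw [h4, mul_one]
      exact Nat.eq_of_mul_eq_mul_left hd0 this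
  · intro n hn
    rw [mem_filter, mem_Icc] at hn
    have hn0 : n ≠ 0 := by omega
    rw [om_mul_eq d n hd0.ne' hn0, pow_add]
    push_cast
    have h6 : (d : ℂ) ≠ 0 := by exact_mod_cast hd0.ne'
    have h7 : (n : ℂ) ≠ 0 := by exact_mod_cast hn0
    field_simp

/-- the bound for the part with the gcd -/
lemma part2 (K : ℝ) (hK : 0 < K) (q X : ℕ) (hq : 1 ≤ q) (hX : 2 * q ≤ X) (z : ℂ) (hz : ‖z - 1‖ ≤ 2 / 5)
    (hub : ∀ f : ℕ → ℂ,
      (∀ n, ‖f n‖ ≤ (7 / 5) ^ om n) →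
      (∀ p k n : ℕ, p.Prime → 1 ≤ k → 1 ≤ n → ¬ p ∣ q → ¬ p ∣ n → f (p ^ k * n) = z * f n) →
      (∀ p k n : ℕ, p.Prime → 1 ≤ k → 1 ≤ n → (p ∣ q ∨ p ∣ n) → ‖f (p ^ k * n)‖ ≤ (7 / 5) ^ om n) →
      ∀ X : ℕ, 2 ≤ X → ‖∑ m ∈ Icc 1 X, f m / (m : ℂ)‖ ≤ K * (1 + Real.log q) * Real.log X ^ z.re)
    (b : ℕ → ℝ) (hb : ∀ d : ℕ, d ∣ q → |b d| ≤ (q.divisors.card : ℝ) ^ 2 * d / q) :
    ‖∑ m ∈ Icc 1 X, (b (Nat.gcd m q) : ℂ) * z ^ om m / (m : ℂ)‖ ≤
      K * (1 + Real.log q) * ((q.divisors.card : ℝ) ^ 4 / q) * Real.log X ^ z.re := by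
  have hq0 : (0 : ℝ) < q := by exact_mod_cast hq
  have hlq : 0 ≤ Real.log q := Real.log_natCast_nonneg q
  have hzre : 3 / 5 ≤ z.re := by
    have h1 := (Complex.abs_re_le_norm (z - 1)).trans hz
    rw [Complex.sub_re, Complex.one_re, abs_le] at h1
    linarith [h1.1]
  have h1 : ∑ m ∈ Icc 1 X, (b (Nat.gcd m q) : ℂ) * z ^ om m / (m : ℂ) =
      ∑ d ∈ q.divisors, (b d : ℂ) * ∑ m ∈ (Icc 1 X).filter (fun m => Nat.gcd m q = d), z ^ om m / (m : ℂ) := by
    have hmap : ∀ m ∈ Icc 1 X, Nat.gcd m q ∈ q.divisors := fun m _ =>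
      Nat.mem_divisors.2 ⟨Nat.gcd_dvd_right m q, by omega⟩
    rw [← sum_fiberwise_of_maps_to hmap]
    refine sum_congr rfl fun d _ => ?_
    rw [mul_sum]
    refine sum_congr rfl fun m hm => ?_
    rw [mem_filter] at hm
    rw [hm.2, mul_div_assoc]
  rw [h1]
  refine (norm_sum_le _ _).trans ?_
  have h2 : ∀ d ∈ q.divisors, ‖(b d : ℂ) * ∑ m ∈ (Icc 1 X).filter (fun m => Nat.gcd m q = d), z ^ om m / (m : ℂ)‖ ≤
      (q.divisors.card : ℝ) ^ 3 / q * (K * (1 + Real.log q) * Real.log X ^ z.re) := by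
    intro d hd
    have hdq : d ∣ q := Nat.dvd_of_mem_divisors hd
    have hd0 : 0 < d := Nat.pos_of_mem_divisors hd
    have hd0r : (0 : ℝ) < d := by exact_mod_cast hd0
    have hdle : d ≤ q := Nat.le_of_dvd (by omega) hdq
    rw [gcd_part q d X hq hdq z, norm_mul, norm_mul, norm_div, Complex.norm_natCast, Complex.norm_real,
      Real.norm_eq_abs]
    have h3 : ‖z ^ om d‖ ≤ q.divisors.card := by
      refine (norm_pow_le hz le_rfl).trans ?_
      calc (7 / 5 : ℝ) ^ om d ≤ 2 ^ om d := pow_le_pow_left₀ (by norm_num) (by norm_num) _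
        _ ≤ d.divisors.card := by exact_mod_cast two_pow_om_le d hd0.ne'
        _ ≤ q.divisors.card := by
          exact_mod_cast card_le_card (Nat.divisors_subset_of_dvd (by omega) hdq)
    have h4 : 2 ≤ X / d := by
      rw [Nat.le_div_iff_mul_le hd0]
      exact (Nat.mul_le_mul_left 2 hdle).trans hX
    have h5 := hub (fd d (q / d) z) (fd_le d (q / d) hz)
      (fun p k n hp hk hn h6 h7 => fd_mul d (q / d) q (Nat.mul_div_cancel' hdq) z p k n hp hk hn h6 h7)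
      (fun p k n hp hk hn h6 => fd_bad d (q / d) q (Nat.mul_div_cancel' hdq) hq hz p k n hp hk hn h6)
      (X / d) h4
    have h6 : Real.log ((X / d : ℕ) : ℝ) ^ z.re ≤ Real.log X ^ z.re := by
      apply Real.rpow_le_rpow (Real.log_natCast_nonneg _) _ (by linarith)
      apply Real.log_le_log (by exact_mod_cast (by omega : 0 < X / d))
      exact_mod_cast Nat.div_le_self X d
    have h7 : ‖∑ n ∈ Icc 1 (X / d), fd d (q / d) z n / (n : ℂ)‖ ≤ K * (1 + Real.log q) * Real.log X ^ z.re :=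
      h5.trans (mul_le_mul_of_nonneg_left h6 (by positivity))
    have h8 := hb d hdq
    calc |b d| * (‖z ^ om d‖ / d * ‖∑ n ∈ Icc 1 (X / d), fd d (q / d) z n / (n : ℂ)‖) ≤
        ((q.divisors.card : ℝ) ^ 2 * d / q) * ((q.divisors.card : ℝ) / d * (K * (1 + Real.log q) * Real.log X ^ z.re)) := by
          gcongr
      _ = _ := by
          field_simp
  refine (sum_le_sum h2).trans ?_
  rw [sum_const, nsmul_eq_mul]
  apply le_of_eq
  ring

lemma div_log_bound : ∃ C : ℝ, 0 < C ∧ ∀ q : ℕ, 1 ≤ q → (1 + Real.log q) * ((q.divisors.card : ℝ) ^ 4 / q) ≤ C := by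
  obtain ⟨K8, hK8⟩ := H353.divisor_bound 8
  refine ⟨2 * √(K8 : ℝ) + 1, by positivity, fun q hq => ?_⟩
  have hq0 : (0 : ℝ) < q := by exact_mod_cast hq
  have hsq : 0 < √(q : ℝ) := Real.sqrt_pos.2 hq0
  have h1 : (q.divisors.card : ℝ) ^ 4 ≤ √(K8 : ℝ) * √(q : ℝ) := by
    rw [← Real.sqrt_mul (Nat.cast_nonneg _)]
    apply Real.le_sqrt_of_sq_le
    have h2 := hK8 q (by omega)
    rw [← pow_mul]
    exact_mod_cast h2
  have h2 : 1 + Real.log q ≤ 2 * √(q : ℝ) := by
    have h3 : Real.log (√(q : ℝ)) ≤ √(q : ℝ) - 1 := Real.log_le_sub_one_of_pos hsq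
    rw [Real.log_sqrt hq0.le] at h3
    linarith
  have h3 : 0 ≤ 1 + Real.log q := by have := Real.log_natCast_nonneg q; linarith
  calc (1 + Real.log q) * ((q.divisors.card : ℝ) ^ 4 / q) ≤ (2 * √(q : ℝ)) * ((√(K8 : ℝ) * √(q : ℝ)) / q) := by
        gcongr
    _ = 2 * √(K8 : ℝ) * ((√(q : ℝ) * √(q : ℝ)) / q) := by ring
    _ = 2 * √(K8 : ℝ) := by rw [Real.mul_self_sqrt hq0.le, div_self hq0.ne', mul_one]
    _ ≤ _ := by linarith

theorem ww (hUB : S_UB) : S_W := by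
  obtain ⟨K, hK, hub⟩ := hUB
  obtain ⟨C, hC, hdiv⟩ := div_log_bound
  intro θ
  obtain ⟨K1, hK1⟩ : ∃ K1 : ℝ, K1 = |θ| * K + K * C := ⟨_, rfl⟩
  have hK1p : 0 ≤ K1 := by rw [hK1]; positivity
  refine ⟨5 * K1, fun q hq b hb X hX z hz => ?_⟩
  have hX2 : 2 ≤ X := by omega
  have hXr : (2 : ℝ) ≤ X := by exact_mod_cast hX2
  have hL : 0 < Real.log X := Real.log_pos (by linarith)
  have hLc : (Real.log X : ℂ) ≠ 0 := by exact_mod_cast hL.ne'
  obtain ⟨W, hW⟩ : ∃ W : ℂ → ℂ, W = fun z => ∑ m ∈ Icc 1 X, ((θ + b (Nat.gcd m q) : ℝ) : ℂ) * z ^ om m / (m : ℂ) := ⟨_, rfl⟩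
  have hWb : ∀ w : ℂ, ‖w - 1‖ ≤ 2 / 5 → ‖W w‖ ≤ K1 * Real.log X ^ w.re := by
    intro w hw
    have e1 : W w = θ * ∑ m ∈ Icc 1 X, w ^ om m / (m : ℂ) + ∑ m ∈ Icc 1 X, (b (Nat.gcd m q) : ℂ) * w ^ om m / (m : ℂ) := by
      rw [hW, mul_sum, ← sum_add_distrib]
      refine sum_congr rfl fun m _ => ?_
      push_cast
      ring
    have h1 := hub 1 le_rfl w hw (fun n => w ^ om n) (fun n => norm_pow_le hw le_rfl)
      (fun p k n hp hk hn _ hpn => by
        have h2 : om (p ^ k * n) = om n + 1 := by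
          unfold om
          rw [Nat.primeFactors_mul (pow_ne_zero _ hp.ne_zero) (by omega), Nat.primeFactors_pow _ (by omega),
            hp.primeFactors, card_union_of_disjoint, card_singleton, add_comm]
          rw [disjoint_singleton_left]
          exact fun h3 => hpn (Nat.dvd_of_mem_primeFactors h3)
        show w ^ om (p ^ k * n) = w * w ^ om n
        rw [h2, pow_succ]; ring)
      (fun p k n hp hk hn h => by
        have hpn : p ∣ n := by
          rcases h with h | h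
          · exact absurd (Nat.dvd_one.1 h) hp.one_lt.ne'
          · exact h
        have h2 : om (p ^ k * n) = om n := by
          unfold om
          rw [Nat.primeFactors_mul (pow_ne_zero _ hp.ne_zero) (by omega), Nat.primeFactors_pow _ (by omega),
            hp.primeFactors]
          congr 1
          apply union_eq_right.2
          rw [singleton_subset_iff]
          exact Nat.mem_primeFactors.2 ⟨hp, hpn, by omega⟩
        show ‖w ^ om (p ^ k * n)‖ ≤ _
        rw [h2]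
        exact norm_pow_le hw le_rfl) X hX2
    have h2 := part2 K hK q X hq hX w hw (hub q hq w hw) b hb
    rw [Nat.cast_one, Real.log_one, add_zero, mul_one] at h1
    have hR : 0 ≤ Real.log X ^ w.re := Real.rpow_nonneg hL.le _
    rw [e1]
    refine (norm_add_le _ _).trans ?_
    rw [norm_mul, Complex.norm_real, Real.norm_eq_abs]
    calc |θ| * ‖∑ m ∈ Icc 1 X, w ^ om m / (m : ℂ)‖ + ‖∑ m ∈ Icc 1 X, (b (Nat.gcd m q) : ℂ) * w ^ om m / (m : ℂ)‖ ≤
        |θ| * (K * Real.log X ^ w.re) + K * (1 + Real.log q) * ((q.divisors.card : ℝ) ^ 4 / q) * Real.log X ^ w.re := by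
          gcongr
      _ ≤ |θ| * (K * Real.log X ^ w.re) + K * C * Real.log X ^ w.re := by
          have := mul_le_mul_of_nonneg_left (hdiv q hq) hK.le
          have h3 := mul_le_mul_of_nonneg_right this hR
          nlinarith
      _ = K1 * Real.log X ^ w.re := by rw [hK1]; ring
  obtain ⟨f, hf⟩ : ∃ f : ℂ → ℂ, f = fun w => W w * (Real.log X : ℂ) ^ (-w) := ⟨_, rfl⟩
  have hfb : ∀ w : ℂ, ‖w - 1‖ ≤ 2 / 5 → ‖f w‖ ≤ K1 := by
    intro w hw
    rw [hf]
    show ‖W w * (Real.log X : ℂ) ^ (-w)‖ ≤ K1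
    rw [norm_mul, Complex.norm_cpow_eq_rpow_re_of_pos hL, Complex.neg_re, Real.rpow_neg hL.le]
    have h1 := hWb w hw
    have hR : 0 < Real.log X ^ w.re := Real.rpow_pos_of_pos hL _
    rw [← div_eq_mul_inv, div_le_iff₀ hR]
    exact h1
  have hfd : Differentiable ℂ f := by
    rw [hf, hW]
    apply Differentiable.mul
    · apply Differentiable.fun_sum
      intro m _
      apply Differentiable.div_const
      apply Differentiable.const_mul
      exact differentiable_pow _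
    · intro w
      apply DifferentiableAt.const_cpow (differentiableAt_id.neg)
      exact Or.inl hLc
  have hmem : z ∈ Metric.ball (1 : ℂ) (2 / 5) := by
    rw [Metric.mem_ball, dist_eq_norm]
    linarith
  have hS := Complex.dist_le_div_mul_dist_of_mapsTo_ball (f := f) (c := 1) (R₁ := 2 / 5) (R₂ := 2 * K1)
    hfd.differentiableOn (fun w hw => by
      rw [Metric.mem_ball, dist_eq_norm] at hw
      rw [Metric.mem_closedBall, dist_eq_norm]
      refine (norm_sub_le _ _).trans ?_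
      have h1 := hfb w hw.le
      have h2 := hfb 1 (by norm_num)
      linarith) hmem
  rw [dist_eq_norm, dist_eq_norm] at hS
  have e2 : ∑ m ∈ Icc 1 X, ((θ + b (Nat.gcd m q) : ℝ) : ℂ) * z ^ om m / (m : ℂ) -
      (Real.log X : ℂ) ^ (z - 1) * ∑ m ∈ Icc 1 X, ((θ + b (Nat.gcd m q) : ℝ) : ℂ) / (m : ℂ) =
      (Real.log X : ℂ) ^ z * (f z - f 1) := by
    have e3 : W z = ∑ m ∈ Icc 1 X, ((θ + b (Nat.gcd m q) : ℝ) : ℂ) * z ^ om m / (m : ℂ) := by rw [hW]
    have e4 : W 1 = ∑ m ∈ Icc 1 X, ((θ + b (Nat.gcd m q) : ℝ) : ℂ) / (m : ℂ) := by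
      rw [hW]
      refine sum_congr rfl fun m _ => ?_
      rw [one_pow, mul_one]
    rw [← e3, ← e4, hf]
    show W z - (Real.log X : ℂ) ^ (z - 1) * W 1 = (Real.log X : ℂ) ^ z * (W z * (Real.log X : ℂ) ^ (-z) -
      W 1 * (Real.log X : ℂ) ^ (-(1 : ℂ)))
    rw [mul_sub]
    have e5 : (Real.log X : ℂ) ^ z * (W z * (Real.log X : ℂ) ^ (-z)) = W z := by
      rw [Complex.cpow_neg]
      have : (Real.log X : ℂ) ^ z ≠ 0 := by
        rw [Complex.cpow_ne_zero_iff]
        exact Or.inl hLc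
      field_simp
    have e6 : (Real.log X : ℂ) ^ z * (W 1 * (Real.log X : ℂ) ^ (-(1 : ℂ))) = (Real.log X : ℂ) ^ (z - 1) * W 1 := by
      rw [sub_eq_add_neg, Complex.cpow_add _ _ hLc]
      ring
    rw [e5, e6]
  rw [e2, norm_mul, Complex.norm_cpow_eq_rpow_re_of_pos hL]
  have hR : 0 ≤ Real.log X ^ z.re := Real.rpow_nonneg hL.le _
  calc Real.log X ^ z.re * ‖f z - f 1‖ ≤ Real.log X ^ z.re * (2 * K1 / (2 / 5) * ‖z - 1‖) :=
        mul_le_mul_of_nonneg_left hS hR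
    _ = _ := by ring

end Pool.Agent.NH21.Bty
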