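import Pool.Agent.NH21.Bty.Core
import Pool.Agent.NH21.Bty.Char
import Pool.Agent.NH21.Bty.Sm
import Pool.Agent.NH21.Bty.WET
import Pool.Agent.NH21.Bty.EQ
import Pool.Agent.NH21.Bty.WW

/-! # The rate in the Erdős–Kac theorem for Beatty sequences: assembly -/

set_option autoImplicit false

namespace Pool.Agent.NH21.Bty

open Finset Filter Topology

lemma om_le_log (m : ℕ) (hm : 1 ≤ m) : (om m : ℝ) * Real.log 2 ≤ Real.log m := by
  have h1 : 2 ^ om m ≤ m := by
    unfold om
    calc 2 ^ m.primeFactors.card = ∏ p ∈ m.primeFactors, 2 := by rw [prod_const]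
      _ ≤ ∏ p ∈ m.primeFactors, p :=
          prod_le_prod' fun p hp => (Nat.prime_of_mem_primeFactors hp).two_le
      _ ≤ m := Nat.le_of_dvd hm (Nat.prod_primeFactors_dvd m)
  have h2 : ((2 : ℝ) ^ om m) ≤ m := by exact_mod_cast h1
  have h3 := Real.log_le_log (by positivity) h2
  rwa [Real.log_pow] at h3

/-- the theorem, from the analytic inputs -/
theorem main_of (hL : S_Log) (hW : S_W) (hA : S_A) (hB : S_B) (hF : S_Fin) (α : ℝ) (hα : 0 < α) (β : ℝ) :
    ∃ C : ℝ, ∃ N0 : ℕ, ∀ N : ℕ, N0 ≤ N → ∀ x : ℝ,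
      |(((Icc 1 N).filter (fun n : ℕ => ((om (⌊α * n + β⌋.toNat) : ℝ) - LL N) / Real.sqrt (LL N) ≤ x)).card : ℝ) / N -
        (ProbabilityTheory.gaussianReal 0 1).real (Set.Iic x)| ≤ C / Real.sqrt (LL N) := by
  obtain ⟨K, N0, hK⟩ := char_of (core_of hL hW hA hB) sum_beatty α hα β
  obtain ⟨B, hB0⟩ : ∃ B : ℝ, B = α + |β| + 1 := ⟨_, rfl⟩
  have hB1 : 1 ≤ B := by rw [hB0]; have := abs_nonneg β; linarith
  have hlB : 0 ≤ Real.log B := Real.log_nonneg hB1
  have hl2 : (1 / 2 : ℝ) < Real.log 2 := by have := Real.log_two_gt_d9; linarith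
  refine hF (fun n => om (⌊α * n + β⌋.toNat)) (max K (2 * (1 + Real.log B))) ?_ ⟨max N0 3, ?_⟩
  · intro N n hn
    rw [mem_Icc] at hn
    have hN : 1 ≤ N := hn.1.trans hn.2
    have hNr : (1 : ℝ) ≤ N := by exact_mod_cast hN
    have hlN : 0 ≤ Real.log N := Real.log_nonneg hNr
    obtain ⟨m, hm⟩ : ∃ m : ℕ, m = ⌊α * n + β⌋.toNat := ⟨_, rfl⟩
    rw [← hm]
    have hgoal : (om m : ℝ) ≤ 2 * (1 + Real.log B) * (1 + Real.log N) := by
      rcases Nat.eq_zero_or_pos m with h0 | hpos
      · rw [h0, om_zero]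
        push_cast
        positivity
      · have h1 := om_le_log m hpos
        have h2 : (m : ℝ) ≤ B * N := by
          have h3 : (m : ℤ) = ⌊α * n + β⌋ := by
            rw [hm]
            apply Int.toNat_of_nonneg
            by_contra hcon
            rw [hm, Int.toNat_of_nonpos (by omega)] at hpos
            exact absurd hpos (lt_irrefl 0)
          have h4 : (m : ℝ) = (⌊α * n + β⌋ : ℝ) := by exact_mod_cast h3
          have h5 : (m : ℝ) ≤ α * n + β := by rw [h4]; exact Int.floor_le _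
          have h6 : (n : ℝ) ≤ N := by exact_mod_cast hn.2
          have h7 := le_abs_self β
          have h8 := abs_nonneg β
          rw [hB0]
          nlinarith
        have h3 : Real.log m ≤ Real.log B + Real.log N := by
          rw [← Real.log_mul (by linarith) (by linarith)]
          exact Real.log_le_log (by exact_mod_cast hpos) h2
        have h4 : (0 : ℝ) ≤ om m := Nat.cast_nonneg _
        nlinarith
    refine hgoal.trans ?_
    exact mul_le_mul_of_nonneg_right (le_max_right _ _) (by linarith)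
  · intro N hN τ hτ
    refine (hK N ((le_max_left _ _).trans hN) τ hτ).trans ?_
    apply mul_le_mul_of_nonneg_right (le_max_left _ _)
    have h1 : 0 ≤ Real.log N := Real.log_natCast_nonneg N
    positivity

end Pool.Agent.NH21.Bty
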