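import Pool.Agent.NH21.Bty.Ev

/-! # The prime number theorem summed over `X / m` -/

set_option autoImplicit false

namespace Pool.Agent.NH21.Bty

open Finset Filter Topology
open Pool.Agent.H373R2.T7 (lam1 lam1_le pnt_lam)

lemma psi_sum : ∃ C : ℝ, 0 ≤ C ∧ ∃ X0 : ℕ, ∀ X : ℕ, X0 ≤ X →
    ∑ m ∈ Icc 1 X, |lam1 (X / m) - (X : ℝ) / m| ≤ C * X * Real.log X / LL X ^ 2 := by
  obtain ⟨C1, N1, hC1, h1⟩ := pnt_lam 1
  obtain ⟨X1, hX1⟩ := ev_LL 2 1
  have h2 : ∀ᶠ X : ℕ in atTop, max 16 (4 * (Real.log (N1 + 2)) ^ 2 + 16) ≤ Real.log X :=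
    tendsto_log_nat.eventually_ge_atTop _
  obtain ⟨X2, hX2⟩ := eventually_atTop.1 h2
  refine ⟨8 * (C1 + 1) + 40, by positivity, max X1 (max X2 2), fun X hX => ?_⟩
  have hXa : X1 ≤ X := (le_max_left _ _).trans hX
  have hXb : X2 ≤ X := ((le_max_left _ _).trans (le_max_right _ _)).trans hX
  have hXc : 2 ≤ X := ((le_max_right _ _).trans (le_max_right _ _)).trans hX
  obtain ⟨hL1, hL2⟩ := hX1 X hXa
  rw [one_mul] at hL2
  have hX3 := hX2 X hXb
  have hlog16 : 16 ≤ Real.log X := (le_max_left _ _).trans hX3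
  have hlogN : 4 * (Real.log (N1 + 2)) ^ 2 + 16 ≤ Real.log X := (le_max_right _ _).trans hX3
  obtain ⟨s, hs⟩ : ∃ s : ℝ, s = √(Real.log X) := ⟨_, rfl⟩
  rw [← hs] at hL2
  have hs2 : s ^ 2 = Real.log X := by rw [hs, Real.sq_sqrt (by linarith)]
  have hs4 : 4 ≤ s := by
    rw [hs]
    apply Real.le_sqrt_of_sq_le
    linarith
  have hs0 : 0 < s := by linarith
  have hXr : (0 : ℝ) < X := by exact_mod_cast (by omega : 0 < X)
  have hes : 1 ≤ Real.exp s := Real.one_le_exp hs0.le
  have hes0 : 0 < Real.exp s := Real.exp_pos s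
  have hL0 : 0 < LL X ^ 2 := by positivity
  have hs_le : 1 / s ≤ 1 / LL X ^ 2 := one_div_le_one_div_of_le hL0 hL2
  -- split the range
  rw [← sum_filter_add_sum_filter_not (Icc 1 X) (fun m : ℕ => (X : ℝ) / Real.exp s < m)]
  have hbig : ∑ m ∈ (Icc 1 X).filter (fun m : ℕ => (X : ℝ) / Real.exp s < m), |lam1 (X / m) - (X : ℝ) / m| ≤
      7 * X * (s + 2) := by
    have h3 : ∀ m ∈ (Icc 1 X).filter (fun m : ℕ => (X : ℝ) / Real.exp s < m), |lam1 (X / m) - (X : ℝ) / m| ≤
        7 * X * ((1 : ℝ) / m) := by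
      intro m hm
      rw [mem_filter, mem_Icc] at hm
      have hm0 : (0 : ℝ) < m := by exact_mod_cast hm.1.1
      have h4 := lam1_le (X / m)
      have h5 : ((X / m : ℕ) : ℝ) ≤ (X : ℝ) / m := Nat.cast_div_le
      have h6 : 0 ≤ lam1 (X / m) := by
        unfold lam1
        exact sum_nonneg fun _ _ => ArithmeticFunction.vonMangoldt_nonneg
      have h7 : 0 ≤ (X : ℝ) / m := by positivity
      rw [abs_le]
      have h8 : 7 * (X : ℝ) * ((1 : ℝ) / m) = 7 * ((X : ℝ) / m) := by ring
      rw [h8]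
      constructor <;> linarith
    refine (sum_le_sum h3).trans ?_
    rw [← mul_sum]
    have h9 := harm_short X (Real.exp s) hes
    rw [Real.log_exp] at h9
    exact mul_le_mul_of_nonneg_left h9 (by positivity)
  have hsmall : ∑ m ∈ (Icc 1 X).filter (fun m : ℕ => ¬ (X : ℝ) / Real.exp s < m), |lam1 (X / m) - (X : ℝ) / m| ≤
      (4 * (C1 + 1) * (1 / s)) * X * (1 + Real.log X) := by
    have h3 : ∀ m ∈ (Icc 1 X).filter (fun m : ℕ => ¬ (X : ℝ) / Real.exp s < m), |lam1 (X / m) - (X : ℝ) / m| ≤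
        (4 * (C1 + 1) * (1 / s)) * X * ((1 : ℝ) / m) := by
      intro m hm
      rw [mem_filter, mem_Icc, not_lt] at hm
      obtain ⟨⟨hm1, hm2⟩, hm3⟩ := hm
      have hm0 : (0 : ℝ) < m := by exact_mod_cast hm1
      have h4 : Real.exp s ≤ (X : ℝ) / m := by
        rw [le_div_iff₀ hes0] at hm3
        rw [le_div_iff₀ hm0]
        linarith
      obtain ⟨y, hy⟩ : ∃ y : ℕ, y = X / m := ⟨_, rfl⟩
      have hy1 : (y : ℝ) ≤ (X : ℝ) / m := by rw [hy]; exact Nat.cast_div_le
      have hy2 : (X : ℝ) / m < y + 1 := by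
        rw [div_lt_iff₀ hm0, hy]
        have := Nat.lt_mul_div_succ X (by omega : 0 < m)
        have h5 : X < (X / m + 1) * m := by rw [mul_comm]; exact this
        exact_mod_cast h5
      have h6 : Real.exp (s / 2) ≤ y := by
        have h7 : Real.exp s = Real.exp (s / 2) * Real.exp (s / 2) := by rw [← Real.exp_add]; ring_nf
        have h8 : 2 ≤ Real.exp (s / 2) := by
          have := Real.add_one_le_exp (s / 2)
          linarith
        nlinarith
      have hy0 : (0 : ℝ) < y := lt_of_lt_of_le (Real.exp_pos _) h6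
      have hlogy : s / 2 ≤ Real.log y := by
        rw [Real.le_log_iff_exp_le hy0]; exact h6
      have hyN : N1 ≤ y := by
        have h7 : Real.log (N1 + 2) ≤ s / 2 := by
          have h8 : (2 * Real.log (N1 + 2)) ^ 2 ≤ s ^ 2 := by rw [hs2]; nlinarith
          have h9 := abs_le_of_sq_le_sq h8 hs0.le
          have h10 := le_abs_self (2 * Real.log (N1 + 2 : ℝ))
          linarith
        have h8 : ((N1 : ℝ) + 2) ≤ y := by
          have h9 : Real.log (N1 + 2) ≤ Real.log y := h7.trans hlogy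
          exact (Real.log_le_log_iff (by positivity) hy0).1 h9
        have : (N1 : ℝ) ≤ y := by linarith
        exact_mod_cast this
      have h9 := h1 y hyN
      rw [pow_one] at h9
      have h10 : C1 * ((y : ℝ) / Real.log y) ≤ C1 * (y / (s / 2)) := by
        apply mul_le_mul_of_nonneg_left _ hC1.le
        exact div_le_div_of_nonneg_left hy0.le (by positivity) hlogy
      have h11 : |lam1 y - (X : ℝ) / m| ≤ C1 * (y / (s / 2)) + 3 := by
        have h12 : |(y : ℝ) - (X : ℝ) / m| ≤ 1 := by rw [abs_le]; constructor <;> linarith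
        have h13 := abs_sub_le (lam1 y) y ((X : ℝ) / m)
        linarith
      rw [← hy]
      refine h11.trans ?_
      -- 3 ≤ 2 y / s
      have h14 : s ≤ Real.exp (s / 2) := by
        have := Real.quadratic_le_exp_of_nonneg (by positivity : 0 ≤ s / 2)
        nlinarith
      have h15 : 1 ≤ (y : ℝ) / s := by rw [le_div_iff₀ hs0]; linarith
      have h16 : (y : ℝ) / s ≤ (X : ℝ) / m / s := div_le_div_of_nonneg_right hy1 hs0.le
      have h17 : C1 * (y / (s / 2)) = 2 * C1 * (y / s) := by field_simp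
      rw [h17]
      calc 2 * C1 * (y / s) + 3 ≤ 2 * C1 * (y / s) + 4 * (y / s) := by linarith
        _ ≤ (4 * (C1 + 1)) * (y / s) := by nlinarith
        _ ≤ (4 * (C1 + 1)) * ((X : ℝ) / m / s) := mul_le_mul_of_nonneg_left h16 (by positivity)
        _ = _ := by ring
    refine (sum_le_sum h3).trans ?_
    rw [← mul_sum]
    apply mul_le_mul_of_nonneg_left _ (by positivity)
    refine (sum_le_sum_of_subset_of_nonneg (filter_subset _ _) (fun _ _ _ => by positivity)).trans ?_
    have h := harmonic_le_one_add_log X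
    rw [harmonic_eq_sum_Icc] at h
    push_cast at h
    simp only [one_div]
    exact h
  refine (add_le_add hbig hsmall).trans ?_
  have e1 : s + 2 ≤ 2 * (Real.log X / s) := by
    rw [← hs2]
    have : s ^ 2 / s = s := by field_simp
    rw [this]; linarith
  have e2 : 7 * (X : ℝ) * (s + 2) ≤ 14 * X * Real.log X * (1 / s) := by
    calc 7 * (X : ℝ) * (s + 2) ≤ 7 * X * (2 * (Real.log X / s)) := by gcongr
      _ = _ := by ring
  have e3 : (4 * (C1 + 1) * (1 / s)) * X * (1 + Real.log X) ≤ (8 * (C1 + 1)) * X * Real.log X * (1 / s) := by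
    calc (4 * (C1 + 1) * (1 / s)) * X * (1 + Real.log X) ≤ (4 * (C1 + 1) * (1 / s)) * X * (2 * Real.log X) := by
          apply mul_le_mul_of_nonneg_left _ (by positivity)
          linarith
      _ = _ := by ring
  have e4 : 0 ≤ X * Real.log X := by positivity
  calc 7 * (X : ℝ) * (s + 2) + (4 * (C1 + 1) * (1 / s)) * X * (1 + Real.log X) ≤
      14 * X * Real.log X * (1 / s) + (8 * (C1 + 1)) * X * Real.log X * (1 / s) := add_le_add e2 e3
    _ = (14 + 8 * (C1 + 1)) * (X * Real.log X) * (1 / s) := by ring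
    _ ≤ (14 + 8 * (C1 + 1)) * (X * Real.log X) * (1 / LL X ^ 2) := by
        apply mul_le_mul_of_nonneg_left hs_le
        positivity
    _ ≤ (8 * (C1 + 1) + 40) * (X * Real.log X) * (1 / LL X ^ 2) := by
        apply mul_le_mul_of_nonneg_right _ (by positivity)
        nlinarith
    _ = _ := by ring

end Pool.Agent.NH21.Bty
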