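import Pool.Agent.NH21.Nls.ES

/-!
# The rate in the Erdős–Kac theorem for Beatty sequences: statements of the steps
-/

set_option autoImplicit false

namespace Pool.Agent.NH21.Bty

open Finset Filter Topology
open Pool.Agent.H807R2.Dav (ee)

/-- the number of distinct prime factors -/
def om (n : ℕ) : ℕ := n.primeFactors.card

/-- the deviation of the weights of a Beatty sequence from their mean `θ` -/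
noncomputable def gB (κ θ : ℝ) (n : ℕ) : ℝ := Int.fract (κ - ((n : ℝ) + 1) * θ) - Int.fract (κ - n * θ)

/-- the sum over primes (weighted by `Λ`) along the multiples of `m` -/
noncomputable def PP (κ θ : ℝ) (X m : ℕ) : ℝ :=
  ∑ d ∈ Icc 1 (X / m), ArithmeticFunction.vonMangoldt d * gB κ θ (d * m)

/-- the iterated logarithm -/
noncomputable def LL (X : ℕ) : ℝ := Real.log (Real.log X)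

/-- Log: the logarithmic identity for `z ^ ω(n)` with a bounded weight -/
def S_Log : Prop := ∃ C : ℝ, ∀ X : ℕ, 2 ≤ X → ∀ (g : ℕ → ℝ) (B : ℝ), (∀ n, |g n| ≤ B) → ∀ z : ℂ, ‖z‖ = 1 →
  ‖(Real.log X : ℂ) * ∑ n ∈ Icc 1 X, (g n : ℂ) * z ^ om n -
    z * ∑ m ∈ Icc 1 X, z ^ om m *
      ((∑ d ∈ Icc 1 (X / m), ArithmeticFunction.vonMangoldt d * g (d * m) : ℝ) : ℂ)‖ ≤ C * B * X

/-- UB: upper bound for weighted mean values of functions close to `z ^ ω(n)` -/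
def S_UB : Prop := ∃ K : ℝ, 0 < K ∧ ∀ Q : ℕ, 1 ≤ Q → ∀ z : ℂ, ‖z - 1‖ ≤ 2 / 5 → ∀ f : ℕ → ℂ,
  (∀ n, ‖f n‖ ≤ (7 / 5) ^ om n) →
  (∀ p k n : ℕ, p.Prime → 1 ≤ k → 1 ≤ n → ¬ p ∣ Q → ¬ p ∣ n → f (p ^ k * n) = z * f n) →
  (∀ p k n : ℕ, p.Prime → 1 ≤ k → 1 ≤ n → (p ∣ Q ∨ p ∣ n) → ‖f (p ^ k * n)‖ ≤ (7 / 5) ^ om n) →
  ∀ X : ℕ, 2 ≤ X → ‖∑ m ∈ Icc 1 X, f m / (m : ℂ)‖ ≤ K * (1 + Real.log Q) * Real.log X ^ z.re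

/-- WET: an inequality of Erdős–Turán type with weights -/
def S_WET : Prop := ∀ (S : Finset ℕ) (w x : ℕ → ℝ), (∀ n ∈ S, 0 ≤ w n) → ∀ K : ℕ, 1 ≤ K → ∀ δ : ℝ, 0 < δ → δ ≤ 1 →
  |∑ n ∈ S, w n * (Int.fract (x n) - 1 / 2)| ≤
    ∑ h ∈ Icc 1 K, ‖∑ n ∈ S, (w n : ℂ) * ee (h * x n)‖ / h + (∑ n ∈ S, w n) / (K * δ) + (∑ n ∈ S, w n) * δ

/-- EQ: large exponential sums over primes, quantitative -/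
def S_EQ : Prop := ∃ N0 : ℕ, ∀ N : ℕ, N0 ≤ N → ∀ c : ℝ, 0 < c → c ≤ 1 → 4 / c ≤ Real.log N → ∀ α : ℝ,
  c * N ≤ ‖∑ n ∈ Icc 1 N, ((ArithmeticFunction.vonMangoldt n : ℝ) : ℂ) * ee ((n : ℝ) * α)‖ →
  ∃ b : ℕ, 1 ≤ b ∧ (b : ℝ) ≤ 16 / c ^ 2 ∧ ∃ a : ℤ, |α - a / b| ≤ 16 / c ^ 2 / N

/-- A: minor arcs -/
def S_A : Prop := ∃ C : ℝ, ∃ X0 : ℕ, ∀ X : ℕ, X0 ≤ X → ∀ θ κ : ℝ, ∀ a : ℤ, ∀ q : ℕ, 1 ≤ q → IsCoprime a (q : ℤ) →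
  |θ - a / q| ≤ 1 / (q : ℝ) ^ 2 → LL X ^ 24 ≤ q → q ≤ X / LL X ^ 36 →
  ∑ m ∈ Icc 1 X, |PP κ θ X m| ≤ C * X * Real.log X / LL X ^ 2

/-- B: major arcs -/
def S_B : Prop := ∃ C : ℝ, ∃ X0 : ℕ, ∀ X : ℕ, X0 ≤ X → ∀ θ κ : ℝ, ∀ a : ℤ, ∀ q : ℕ, 1 ≤ q → IsCoprime a (q : ℤ) →
  (q : ℝ) ≤ LL X ^ 24 → |θ - a / q| ≤ LL X ^ 36 / (q * X) →
  ∃ b : ℕ → ℝ, (∀ d : ℕ, d ∣ q → |b d| ≤ (q.divisors.card : ℝ) ^ 2 * d / q) ∧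
    ∑ m ∈ Icc 1 X, |PP κ θ X m - (X : ℝ) / m * b (Nat.gcd m q)| ≤ C * X * Real.log X / LL X ^ 2

/-- W: the main terms are close to their values at `z = 1` -/
def S_W : Prop := ∀ θ : ℝ, ∃ K : ℝ, ∀ q : ℕ, 1 ≤ q → ∀ b : ℕ → ℝ,
  (∀ d : ℕ, d ∣ q → |b d| ≤ (q.divisors.card : ℝ) ^ 2 * d / q) → ∀ X : ℕ, 2 * q ≤ X → ∀ z : ℂ, ‖z - 1‖ ≤ 1 / 5 →
  ‖∑ m ∈ Icc 1 X, ((θ + b (Nat.gcd m q) : ℝ) : ℂ) * z ^ om m / (m : ℂ) -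
    (Real.log X : ℂ) ^ (z - 1) * ∑ m ∈ Icc 1 X, ((θ + b (Nat.gcd m q) : ℝ) : ℂ) / (m : ℂ)‖ ≤
    K * ‖z - 1‖ * Real.log X ^ z.re

/-- Core: the mean value of `z ^ ω(n)` with the weights of a Beatty sequence -/
def S_Core : Prop := ∀ θ : ℝ, 0 < θ → ∀ κ : ℝ, ∃ C : ℝ, ∃ X0 : ℕ, ∀ X : ℕ, X0 ≤ X → ∀ z : ℂ, ‖z‖ = 1 → ‖z - 1‖ ≤ 1 / 5 →
  ‖∑ n ∈ Icc 1 X, ((θ + gB κ θ n : ℝ) : ℂ) * z ^ om n - (θ * X : ℝ) * z * (Real.log X : ℂ) ^ (z - 1)‖ ≤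
    C * X * (‖z - 1‖ * Real.log X ^ (z.re - 1) + 1 / LL X ^ 2)

/-- Sum: from the terms of the Beatty sequence to weights on the integers -/
def S_Sum : Prop := ∀ α : ℝ, 0 < α → ∀ β : ℝ, ∃ C : ℝ, ∃ N0 : ℕ, ∀ N : ℕ, N0 ≤ N → ∀ F : ℕ → ℂ, (∀ n, ‖F n‖ ≤ 1) →
  ‖∑ n ∈ Icc 1 N, F (⌊α * n + β⌋.toNat) -
    ∑ m ∈ Icc 1 ⌊α * N + β⌋.toNat, ((α⁻¹ + gB (β * α⁻¹) α⁻¹ m : ℝ) : ℂ) * F m‖ ≤ C

/-- Char: the characteristic function -/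
def S_Char : Prop := ∀ α : ℝ, 0 < α → ∀ β : ℝ, ∃ K : ℝ, ∃ N0 : ℕ, ∀ N : ℕ, N0 ≤ N → ∀ τ : ℝ, |τ| ≤ 1 / 5 →
  ‖(1 / (N : ℂ)) * ∑ n ∈ Icc 1 N, Complex.exp (τ * (om (⌊α * n + β⌋.toNat) : ℂ) * Complex.I) -
    (Real.log N : ℂ) ^ (Complex.exp (τ * Complex.I) - 1)‖ ≤
    K * (|τ| * Real.log N ^ (Real.cos τ - 1) + 1 / LL N ^ 2)

/-- Ess: the smoothing inequality of Esseen for finite sequences and the normal law -/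
def S_Ess : Prop := ∃ C : ℝ, ∀ N : ℕ, 1 ≤ N → ∀ (a : ℕ → ℝ) (T : ℝ), 0 < T → ∀ b : ℝ → ℝ,
  IntervalIntegrable b MeasureTheory.volume 0 T →
  (∀ t ∈ Set.Ioo 0 T, ‖(1 / (N : ℂ)) * ∑ n ∈ Icc 1 N, Complex.exp (t * (a n : ℂ) * Complex.I) -
    Complex.exp (-((t : ℂ) ^ 2 / 2))‖ ≤ t * b t) →
  ∀ x : ℝ, |(((Icc 1 N).filter (fun n => a n ≤ x)).card : ℝ) / N -
    (ProbabilityTheory.gaussianReal 0 1).real (Set.Iic x)| ≤ C * ((∫ t in (0 : ℝ)..T, b t) + 1 / T)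

/-- Fin: from the characteristic function to the distribution function -/
def S_Fin : Prop := ∀ (v : ℕ → ℕ) (K : ℝ), (∀ N : ℕ, ∀ n ∈ Icc 1 N, (v n : ℝ) ≤ K * (1 + Real.log N)) →
  (∃ N0 : ℕ, ∀ N : ℕ, N0 ≤ N → ∀ τ : ℝ, |τ| ≤ 1 / 5 →
    ‖(1 / (N : ℂ)) * ∑ n ∈ Icc 1 N, Complex.exp (τ * (v n : ℂ) * Complex.I) -
      (Real.log N : ℂ) ^ (Complex.exp (τ * Complex.I) - 1)‖ ≤
      K * (|τ| * Real.log N ^ (Real.cos τ - 1) + 1 / LL N ^ 2)) →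
  ∃ C : ℝ, ∃ N0 : ℕ, ∀ N : ℕ, N0 ≤ N → ∀ x : ℝ,
    |(((Icc 1 N).filter (fun n => ((v n : ℝ) - LL N) / Real.sqrt (LL N) ≤ x)).card : ℝ) / N -
      (ProbabilityTheory.gaussianReal 0 1).real (Set.Iic x)| ≤ C / Real.sqrt (LL N)

end Pool.Agent.NH21.Bty
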