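import Pool.Agent.NH21.Bty.Stm
import Pool.Agent.NH21.Bty.LamAux

/-!
# Upper bounds for logarithmic mean values of functions close to `z ^ ω(n)`
-/

set_option autoImplicit false

namespace Pool.Agent.NH21.Bty

open Finset Filter Topology


/-- the majorant -/
noncomputable def aa (n : ℕ) : ℝ := (7 / 5) ^ om n

/-- the logarithmic sum of the majorant -/
noncomputable def AN (N : ℕ) : ℝ := ∑ n ∈ Icc 1 N, aa n / n

theorem aa_pos (n : ℕ) : 0 < aa n := by unfold aa; positivity

theorem AN_nonneg (N : ℕ) : 0 ≤ AN N := sum_nonneg fun n _ => div_nonneg (aa_pos n).le (by positivity)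

theorem AN_mono {M N : ℕ} (h : M ≤ N) : AN M ≤ AN N :=
  sum_le_sum_of_subset_of_nonneg (Icc_subset_Icc_right h)
    fun n _ _ => div_nonneg (aa_pos n).le (by positivity)

theorem two_pow_om (n : ℕ) (hn : 1 ≤ n) : 2 ^ om n ≤ n.divisors.card := by
  rw [Nat.card_divisors (by omega), om, ← prod_const]
  refine prod_le_prod' fun p hp => ?_
  have := (Nat.mem_primeFactors.1 hp)
  have h2 : 0 < n.factorization p := this.1.factorization_pos_of_dvd this.2.2 this.2.1
  omega

theorem aa_sq_le (n : ℕ) (hn : 1 ≤ n) : aa n ^ 2 ≤ n.divisors.card := by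
  have h1 : aa n ^ 2 ≤ (2 : ℝ) ^ om n := by
    unfold aa
    rw [← pow_mul, mul_comm, pow_mul]
    exact pow_le_pow_left₀ (by norm_num) (by norm_num) _
  refine h1.trans ?_
  exact_mod_cast two_pow_om n hn

theorem AN_le (N : ℕ) : AN N ≤ (1 + Real.log N) ^ (3 / 2 : ℝ) := by
  have h0 : 0 ≤ Real.log (N : ℝ) := Real.log_natCast_nonneg N
  have h1 : AN N ^ 2 ≤ (1 + Real.log N) ^ 3 := by
    have h2 : AN N = ∑ n ∈ Icc 1 N, (1 / Real.sqrt n) * (aa n / Real.sqrt n) := by
      unfold AN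
      refine sum_congr rfl fun n _ => ?_
      rw [div_mul_div_comm, one_mul, Real.mul_self_sqrt (by positivity)]
    rw [h2]
    refine (sum_mul_sq_le_sq_mul_sq _ _ _).trans ?_
    have h3 : ∑ n ∈ Icc 1 N, (1 / Real.sqrt n) ^ 2 ≤ 1 + Real.log N := by
      refine le_trans (le_of_eq ?_) (Pool.Agent.H316R2.harm_sum_le N)
      refine sum_congr rfl fun n _ => ?_
      rw [div_pow, Real.sq_sqrt (by positivity), one_pow]
    have h4 : ∑ n ∈ Icc 1 N, (aa n / Real.sqrt n) ^ 2 ≤ (1 + Real.log N) ^ 2 := by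
      refine le_trans (sum_le_sum fun n hn => ?_) (Pool.Agent.H316R2.tau_sum_le N)
      rw [mem_Icc] at hn
      rw [div_pow, Real.sq_sqrt (by positivity)]
      exact div_le_div_of_nonneg_right (aa_sq_le n hn.1) (by positivity)
    calc _ ≤ (1 + Real.log N) * (1 + Real.log N) ^ 2 :=
          mul_le_mul h3 h4 (sum_nonneg fun _ _ => by positivity) (by positivity)
      _ = _ := by ring
  have h2 : AN N ≤ Real.sqrt ((1 + Real.log N) ^ 3) := Real.le_sqrt_of_sq_le h1
  refine h2.trans (le_of_eq ?_)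
  rw [Real.sqrt_eq_rpow, ← Real.rpow_natCast, ← Real.rpow_mul (by positivity)]
  norm_num

/-- the multiples of a prime -/
theorem AN_mult {p : ℕ} (hp : p.Prime) {M N : ℕ} (hMN : M ≤ N) :
    ∑ m ∈ (Icc 1 M).filter (fun m => p ∣ m), aa m / m ≤ 7 / 5 * (1 / p) * AN N := by
  have hp0 : (0 : ℝ) < p := by exact_mod_cast hp.pos
  have hsub : (Icc 1 M).filter (fun m => p ∣ m) ⊆ (Icc 1 N).image (fun n => p * n) := by
    intro m hm
    rw [mem_filter, mem_Icc] at hm
    obtain ⟨⟨h1, h2⟩, n, rfl⟩ := hm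
    rw [mem_image]
    refine ⟨n, ?_, rfl⟩
    rw [mem_Icc]
    constructor
    · rcases Nat.eq_zero_or_pos n with h | h
      · subst h; omega
      · exact h
    · exact le_trans (Nat.le_mul_of_pos_left n hp.pos) (h2.trans hMN)
  refine (sum_le_sum_of_subset_of_nonneg hsub
    fun n _ _ => div_nonneg (aa_pos n).le (by positivity)).trans ?_
  rw [sum_image (fun a _ b _ h => Nat.eq_of_mul_eq_mul_left hp.pos h), AN, mul_sum]
  refine sum_le_sum fun n hn => ?_
  rw [mem_Icc] at hn
  have h1 : om (p * n) ≤ om n + 1 := by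
    unfold om
    rw [Nat.primeFactors_mul hp.ne_zero (by omega), hp.primeFactors, union_comm]
    refine (card_union_le _ _).trans ?_
    rw [card_singleton]
  have h2 : aa (p * n) ≤ 7 / 5 * aa n := by
    unfold aa
    rw [← pow_succ']
    exact pow_le_pow_right₀ (by norm_num) h1
  push_cast
  calc aa (p * n) / (p * n) ≤ (7 / 5 * aa n) / (p * n) :=
        div_le_div_of_nonneg_right h2 (by positivity)
    _ = 7 / 5 * (1 / p) * (aa n / n) := by
        have hn0 : (0 : ℝ) < n := by exact_mod_cast hn.1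
        field_simp

theorem ub1 : ∃ C : ℝ, 0 < C ∧ ∀ Q : ℕ, 1 ≤ Q → ∀ z : ℂ, ‖z - 1‖ ≤ 2 / 5 → ∀ f : ℕ → ℂ,
    (∀ n, ‖f n‖ ≤ (7 / 5) ^ om n) →
    (∀ p k n : ℕ, p.Prime → 1 ≤ k → 1 ≤ n → ¬ p ∣ Q → ¬ p ∣ n → f (p ^ k * n) = z * f n) →
    (∀ p k n : ℕ, p.Prime → 1 ≤ k → 1 ≤ n → (p ∣ Q ∨ p ∣ n) → ‖f (p ^ k * n)‖ ≤ (7 / 5) ^ om n) →
    ∀ N : ℕ, 1 ≤ N → ∀ u : ℝ, Real.log N ≤ u → u < Real.log ((N + 1 : ℕ) : ℝ) →
    ‖∑ m ∈ Icc 1 N, Real.log m • (f m / m) - z * ∑ m ∈ Icc 1 N, (u - Real.log m) • (f m / m)‖ ≤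
      C * (1 + Real.log Q) * AN N := by
  obtain ⟨C0, hC0, hC⟩ := lam_minFac_sum
  refine ⟨10 + 5 * C0, by positivity, fun Q hQ z hz f H1 H2 H3 N hN u hu1 hu2 => ?_⟩
  have hz' : ‖z‖ ≤ 7 / 5 := by
    calc ‖z‖ = ‖(z - 1) + 1‖ := by ring_nf
      _ ≤ ‖z - 1‖ + ‖(1 : ℂ)‖ := norm_add_le _ _
      _ ≤ 2 / 5 + 1 := by rw [norm_one]; linarith
      _ = 7 / 5 := by norm_num
  have hA := AN_nonneg N
  have hlQ : 0 ≤ Real.log (Q : ℝ) := Real.log_natCast_nonneg Q
  -- first step
  have h1 := sum_log_eq N (fun m => f m / (m : ℂ))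
  set S : ℕ → ℝ := fun m => ∑ d ∈ Icc 1 (N / m), ArithmeticFunction.vonMangoldt d / d with hS
  have h2 : ‖∑ m ∈ Icc 1 N, Real.log m • (f m / m) - z * ∑ m ∈ Icc 1 N, S m • (f m / m)‖ ≤
      (3 * Real.log Q + 5 * C0) * AN N := by
    rw [h1, mul_sum, ← sum_sub_distrib]
    have h3 : ∀ m ∈ Icc 1 N, ‖∑ d ∈ Icc 1 (N / m), ArithmeticFunction.vonMangoldt d • (f (d * m) / ((d * m : ℕ) : ℂ)) -
        z * (S m • (f m / m))‖ ≤
        ∑ d ∈ Icc 1 (N / m), (3 * (aa m / m) * (ArithmeticFunction.vonMangoldt d * (if d.minFac ∣ Q then 1 / (d : ℝ) else 0)) +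
          3 * (ArithmeticFunction.vonMangoldt d / d * (if d.minFac ∣ m then aa m / m else 0))) := by
      intro m hm
      rw [mem_Icc] at hm
      have hm0 : (0 : ℝ) < m := by exact_mod_cast hm.1
      have e : z * (S m • (f m / m)) = ∑ d ∈ Icc 1 (N / m), (ArithmeticFunction.vonMangoldt d / d) • (z * (f m / m)) := by
        rw [← sum_smul, mul_smul_comm]
      rw [e, ← sum_sub_distrib]
      refine (norm_sum_le _ _).trans (sum_le_sum fun d hd => ?_)
      rw [mem_Icc] at hd
      have hd0 : (0 : ℝ) < d := by exact_mod_cast hd.1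
      have hL : 0 ≤ ArithmeticFunction.vonMangoldt d := ArithmeticFunction.vonMangoldt_nonneg
      have e2 : ArithmeticFunction.vonMangoldt d • (f (d * m) / ((d * m : ℕ) : ℂ)) - (ArithmeticFunction.vonMangoldt d / d) • (z * (f m / m)) =
          (ArithmeticFunction.vonMangoldt d / d) • ((f (d * m) - z * f m) / m) := by
        simp only [Complex.real_smul]
        have hd1 : (d : ℂ) ≠ 0 := by exact_mod_cast hd0.ne'
        have hm1 : (m : ℂ) ≠ 0 := by exact_mod_cast hm0.ne'
        push_cast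
        field_simp
      have hLd : 0 ≤ ArithmeticFunction.vonMangoldt d / d := div_nonneg hL hd0.le
      rw [e2, norm_smul, Real.norm_eq_abs, abs_of_nonneg hLd, norm_div, Complex.norm_natCast]
      by_cases hp : IsPrimePow d
      · have hpp : d.minFac.Prime := Nat.minFac_prime hp.ne_one
        obtain ⟨k, hk0, hk⟩ := ipp_minFac hp
        by_cases hbad : d.minFac ∣ Q ∨ d.minFac ∣ m
        · have h5 : ‖f (d * m) - z * f m‖ ≤ 3 * aa m := by
            have h6 := H3 d.minFac k m hpp hk0 hm.1 hbad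
            rw [hk] at h6
            refine (norm_sub_le _ _).trans ?_
            rw [norm_mul]
            have h7 : ‖z‖ * ‖f m‖ ≤ 7 / 5 * aa m :=
              mul_le_mul hz' (H1 m) (norm_nonneg _) (by norm_num)
            have h8 : ‖f (d * m)‖ ≤ aa m := h6
            have := aa_pos m
            linarith
          have h9 : ArithmeticFunction.vonMangoldt d / d * (‖f (d * m) - z * f m‖ / m) ≤ ArithmeticFunction.vonMangoldt d / d * (3 * (aa m / m)) := by
            refine mul_le_mul_of_nonneg_left ?_ hLd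
            rw [← mul_div_assoc]
            exact div_le_div_of_nonneg_right h5 hm0.le
          refine h9.trans ?_
          have ham : 0 ≤ aa m / m := div_nonneg (aa_pos m).le hm0.le
          rcases hbad with h | h
          · rw [if_pos h]
            have : 0 ≤ 3 * (ArithmeticFunction.vonMangoldt d / d * (if d.minFac ∣ m then aa m / m else 0)) := by
              split_ifs <;> positivity
            have e3 : ArithmeticFunction.vonMangoldt d / d * (3 * (aa m / m)) = 3 * (aa m / m) * (ArithmeticFunction.vonMangoldt d * (1 / d)) := by ring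
            linarith
          · rw [if_pos h]
            have : 0 ≤ 3 * (aa m / m) * (ArithmeticFunction.vonMangoldt d * (if d.minFac ∣ Q then 1 / (d : ℝ) else 0)) := by
              split_ifs <;> positivity
            have e3 : ArithmeticFunction.vonMangoldt d / d * (3 * (aa m / m)) = 3 * (ArithmeticFunction.vonMangoldt d / d * (aa m / m)) := by ring
            linarith
        · push Not at hbad
          have h6 := H2 d.minFac k m hpp hk0 hm.1 hbad.1 hbad.2
          rw [hk] at h6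
          rw [h6, sub_self, norm_zero, if_neg hbad.1, if_neg hbad.2]
          simp
      · rw [ArithmeticFunction.vonMangoldt_eq_zero_iff.2 hp]
        simp
    refine (norm_sum_le _ _).trans ((sum_le_sum h3).trans ?_)
    simp_rw [sum_add_distrib]
    have h4 : ∑ m ∈ Icc 1 N, ∑ d ∈ Icc 1 (N / m),
        3 * (aa m / m) * (ArithmeticFunction.vonMangoldt d * (if d.minFac ∣ Q then 1 / (d : ℝ) else 0)) ≤ 3 * Real.log Q * AN N := by
      rw [AN, mul_sum]
      refine sum_le_sum fun m hm => ?_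
      rw [← mul_sum]
      have ham : 0 ≤ aa m / m := div_nonneg (aa_pos m).le (by positivity)
      calc 3 * (aa m / m) * ∑ d ∈ Icc 1 (N / m), ArithmeticFunction.vonMangoldt d * (if d.minFac ∣ Q then 1 / (d : ℝ) else 0)
          ≤ 3 * (aa m / m) * Real.log Q :=
            mul_le_mul_of_nonneg_left (lam_Q_sum Q hQ _) (by positivity)
        _ = _ := by ring
    have h5 : ∑ m ∈ Icc 1 N, ∑ d ∈ Icc 1 (N / m),
        3 * (ArithmeticFunction.vonMangoldt d / d * (if d.minFac ∣ m then aa m / m else 0)) ≤ 5 * C0 * AN N := by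
      rw [hyp_comm N (fun d m => 3 * (ArithmeticFunction.vonMangoldt d / d * (if d.minFac ∣ m then aa m / m else 0)))]
      have h6 : ∀ d ∈ Icc 1 N, ∑ m ∈ Icc 1 (N / d),
          3 * (ArithmeticFunction.vonMangoldt d / d * (if d.minFac ∣ m then aa m / m else 0)) ≤
          5 * AN N * (ArithmeticFunction.vonMangoldt d * (1 / (d * d.minFac))) := by
        intro d hd
        rw [mem_Icc] at hd
        have hL : 0 ≤ ArithmeticFunction.vonMangoldt d := ArithmeticFunction.vonMangoldt_nonneg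
        rw [← mul_sum, ← mul_sum, ← sum_filter]
        by_cases hp : IsPrimePow d
        · have hpp : d.minFac.Prime := Nat.minFac_prime hp.ne_one
          have h7 := AN_mult hpp (Nat.div_le_self N d)
          have hmf : (0 : ℝ) < d.minFac := by exact_mod_cast hpp.pos
          have hd0 : (0 : ℝ) < d := by exact_mod_cast hd.1
          calc 3 * (ArithmeticFunction.vonMangoldt d / d * ∑ m ∈ (Icc 1 (N / d)).filter (fun m => d.minFac ∣ m), aa m / m)
              ≤ 3 * (ArithmeticFunction.vonMangoldt d / d * (7 / 5 * (1 / d.minFac) * AN N)) := by gcongr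
            _ = 21 / 5 * (AN N * (ArithmeticFunction.vonMangoldt d * (1 / (d * d.minFac)))) := by
                field_simp
                ring
            _ ≤ 5 * (AN N * (ArithmeticFunction.vonMangoldt d * (1 / (d * d.minFac)))) :=
                mul_le_mul_of_nonneg_right (by norm_num) (by positivity)
            _ = _ := by ring
        · rw [ArithmeticFunction.vonMangoldt_eq_zero_iff.2 hp]
          simp
      refine (sum_le_sum h6).trans ?_
      rw [← mul_sum]
      calc 5 * AN N * ∑ d ∈ Icc 1 N, ArithmeticFunction.vonMangoldt d * (1 / (d * d.minFac)) ≤ 5 * AN N * C0 :=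
            mul_le_mul_of_nonneg_left (hC N) (by positivity)
        _ = _ := by ring
    linarith
  -- second step
  have h3 : ‖z * ∑ m ∈ Icc 1 N, S m • (f m / m) - z * ∑ m ∈ Icc 1 N, (u - Real.log m) • (f m / m)‖ ≤
      10 * AN N := by
    rw [← mul_sub, ← sum_sub_distrib, norm_mul]
    have h4 : ‖∑ m ∈ Icc 1 N, (S m • (f m / (m : ℂ)) - (u - Real.log m) • (f m / m))‖ ≤ 7 * AN N := by
      rw [AN, mul_sum]
      refine (norm_sum_le _ _).trans (sum_le_sum fun m hm => ?_)
      rw [mem_Icc] at hm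
      have hm0 : (0 : ℝ) < m := by exact_mod_cast hm.1
      have hk : 1 ≤ N / m := (Nat.le_div_iff_mul_le hm.1).2 (by omega)
      have hk0 : (0 : ℝ) < ((N / m : ℕ) : ℝ) := by exact_mod_cast hk
      have h5 := lam_div_bound (N / m) hk
      have h6 : Real.log ((N / m : ℕ) : ℝ) + Real.log m ≤ u := by
        refine le_trans ?_ hu1
        rw [← Real.log_mul hk0.ne' hm0.ne']
        refine Real.log_le_log (by positivity) ?_
        exact_mod_cast Nat.div_mul_le_self N m
      have h7 : u ≤ Real.log ((N / m : ℕ) : ℝ) + Real.log m + 1 := by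
        have h8 : Real.log ((N + 1 : ℕ) : ℝ) ≤ Real.log (2 * ((N / m : ℕ) : ℝ) * m) := by
          refine Real.log_le_log (by positivity) ?_
          have h9 : N < (N / m + 1) * m := by
            have := Nat.lt_mul_div_succ N hm.1
            rw [mul_comm]
            exact this
          have h10 : N + 1 ≤ 2 * (N / m) * m := by nlinarith
          exact_mod_cast h10
        rw [Real.log_mul (by positivity) hm0.ne', Real.log_mul (by norm_num) hk0.ne'] at h8
        have := Real.log_two_lt_d9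
        linarith
      rw [← sub_smul, norm_smul, Real.norm_eq_abs, norm_div, Complex.norm_natCast]
      have h8 : |S m - (u - Real.log m)| ≤ 7 := by
        have h9 := abs_le.1 h5
        rw [abs_le]
        constructor
        · simp only [hS]; linarith [h9.1]
        · simp only [hS]; linarith [h9.2]
      exact mul_le_mul h8 (div_le_div_of_nonneg_right (H1 m) hm0.le) (by positivity) (by norm_num)
    calc ‖z‖ * ‖∑ m ∈ Icc 1 N, (S m • (f m / (m : ℂ)) - (u - Real.log m) • (f m / m))‖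
        ≤ 7 / 5 * (7 * AN N) := mul_le_mul hz' h4 (norm_nonneg _) (by norm_num)
      _ ≤ 10 * AN N := by nlinarith
  calc ‖∑ m ∈ Icc 1 N, Real.log m • (f m / m) - z * ∑ m ∈ Icc 1 N, (u - Real.log m) • (f m / m)‖
      ≤ ‖∑ m ∈ Icc 1 N, Real.log m • (f m / m) - z * ∑ m ∈ Icc 1 N, S m • (f m / m)‖ +
        ‖z * ∑ m ∈ Icc 1 N, S m • (f m / m) - z * ∑ m ∈ Icc 1 N, (u - Real.log m) • (f m / m)‖ :=
        norm_sub_le_norm_sub_add_norm_sub _ _ _
    _ ≤ (3 * Real.log Q + 5 * C0) * AN N + 10 * AN N := add_le_add h2 h3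
    _ ≤ (10 + 5 * C0) * (1 + Real.log Q) * AN N := by
        have h4 : 3 * Real.log Q + 5 * C0 + 10 ≤ (10 + 5 * C0) * (1 + Real.log Q) := by nlinarith
        nlinarith

theorem rpow_aux {u e : ℝ} (hu : 2 / 3 ≤ u) (he1 : -1 ≤ e) (he2 : e ≤ 0) : u ^ e ≤ 3 / 2 := by
  rcases le_total 1 u with h | h
  · have := Real.rpow_le_one_of_one_le_of_nonpos h he2
    linarith
  · have h1 := Real.rpow_le_rpow_of_exponent_ge (by linarith : 0 < u) h he1
    rw [Real.rpow_neg_one] at h1
    have h2 : u⁻¹ ≤ 3 / 2 := by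
      rw [inv_le_comm₀ (by linarith) (by norm_num)]
      norm_num
      linarith
    linarith

theorem one_add_rpow {u : ℝ} (hu : 2 / 3 ≤ u) : (1 + u) ^ (3 / 2 : ℝ) ≤ 4 * u ^ (3 / 2 : ℝ) := by
  have hu0 : 0 < u := by linarith
  have h1 : (1 + u) ^ (3 / 2 : ℝ) ≤ (5 / 2 * u) ^ (3 / 2 : ℝ) :=
    Real.rpow_le_rpow (by linarith) (by linarith) (by norm_num)
  rw [Real.mul_rpow (by norm_num) hu0.le] at h1
  have h2 : (5 / 2 : ℝ) ^ (3 / 2 : ℝ) ≤ 4 := by
    have h3 : ((5 / 2 : ℝ) ^ (3 / 2 : ℝ)) ^ 2 ≤ 4 ^ 2 := by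
      rw [← Real.rpow_natCast, ← Real.rpow_mul (by norm_num)]
      norm_num
    exact le_of_sq_le_sq h3 (by norm_num)
  exact h1.trans (mul_le_mul_of_nonneg_right h2 (by positivity))

/-- the integration of the differential inequality -/
theorem calc_part (C : ℝ) (hC : 0 ≤ C) (z : ℂ) (hz1 : 3 / 5 ≤ z.re) (hz2 : z.re ≤ 7 / 5) (I T : ℝ → ℂ)
    (b : ℝ) (hb : Real.log 2 ≤ b) (hI : ContinuousOn I (Set.Icc (Real.log 2) b))
    (hI' : ∀ u ∈ Set.Ico (Real.log 2) b, HasDerivWithinAt I (T u) (Set.Ici u) u)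
    (hI0 : ‖I (Real.log 2)‖ ≤ 1)
    (hE : ∀ u ∈ Set.Icc (Real.log 2) b, ‖(u : ℂ) * T u - (1 + z) * I u‖ ≤ C * (1 + u) ^ (3 / 2 : ℝ)) :
    ‖I b‖ ≤ (4 + 120 * C) * b ^ (1 + z.re) := by
  have hl2 : (2 / 3 : ℝ) ≤ Real.log 2 := by have := Real.log_two_gt_d9; linarith
  set J : ℝ → ℂ := fun u => Complex.exp (-(1 + z) * ((Real.log u : ℝ) : ℂ)) * I u with hJ
  have hexp : ∀ u : ℝ, 0 < u → ‖Complex.exp (-(1 + z) * ((Real.log u : ℝ) : ℂ))‖ = u ^ (-(1 + z.re)) := by
    intro u hu
    rw [Complex.norm_exp, Real.rpow_def_of_pos hu]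
    congr 1
    simp only [Complex.mul_re, Complex.neg_re, Complex.add_re, Complex.one_re, Complex.ofReal_re,
      Complex.ofReal_im, mul_zero, sub_zero]
    ring
  set J' : ℝ → ℂ := fun u => Complex.exp (-(1 + z) * ((Real.log u : ℝ) : ℂ)) * (-(1 + z) * ((u⁻¹ : ℝ) : ℂ)) * I u +
    Complex.exp (-(1 + z) * ((Real.log u : ℝ) : ℂ)) * T u with hJ'
  have hder : ∀ u : ℝ, 0 < u → HasDerivAt (fun u : ℝ => Complex.exp (-(1 + z) * ((Real.log u : ℝ) : ℂ)))
      (Complex.exp (-(1 + z) * ((Real.log u : ℝ) : ℂ)) * (-(1 + z) * ((u⁻¹ : ℝ) : ℂ))) u := by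
    intro u hu
    exact ((Real.hasDerivAt_log hu.ne').ofReal_comp.const_mul (-(1 + z))).cexp
  have hcont : ContinuousOn J (Set.Icc (Real.log 2) b) := by
    refine ContinuousOn.mul ?_ hI
    intro u hu
    exact (hder u (by linarith [hu.1])).continuousAt.continuousWithinAt
  have hJd : ∀ u ∈ Set.Ico (Real.log 2) b, HasDerivWithinAt J (J' u) (Set.Ici u) u := by
    intro u hu
    exact (hder u (by linarith [hu.1])).hasDerivWithinAt.mul (hI' u hu)
  set D : ℝ := 6 * C with hD
  set B : ℝ → ℝ := fun u => 4 + 20 * D - 10 * D * u ^ (-(1 / 10) : ℝ) with hB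
  set B' : ℝ → ℝ := fun u => D * u ^ (-(11 / 10) : ℝ) with hB'
  have hBd : ∀ u : ℝ, 0 < u → HasDerivAt B (B' u) u := by
    intro u hu
    have h1 := (Real.hasDerivAt_rpow_const (x := u) (p := (-(1 / 10) : ℝ)) (Or.inl hu.ne')).const_mul (10 * D)
    have h2 := h1.const_sub (4 + 20 * D)
    have e : B' u = -(10 * D * (-(1 / 10) * u ^ ((-(1 / 10) : ℝ) - 1))) := by
      simp only [hB']
      rw [show ((-(1 / 10) : ℝ) - 1) = -(11 / 10) by norm_num]
      ring
    rw [e]
    exact h2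
  have ha : ‖J (Real.log 2)‖ ≤ B (Real.log 2) := by
    have h0 : 0 < Real.log 2 := by linarith
    simp only [hJ, hB]
    rw [norm_mul, hexp _ h0]
    have h1 : Real.log 2 ^ (-(1 + z.re)) ≤ 4 := by
      have h2 : Real.log 2 ^ (-(1 + z.re)) ≤ Real.log 2 ^ (-3 : ℝ) :=
        Real.rpow_le_rpow_of_exponent_ge h0 (by have := Real.log_two_lt_d9; linarith) (by linarith)
      have h3 : Real.log 2 ^ (-3 : ℝ) ≤ 27 / 8 := by
        rw [Real.rpow_neg h0.le, show (3 : ℝ) = ((3 : ℕ) : ℝ) by norm_num, Real.rpow_natCast,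
          inv_le_comm₀ (by positivity) (by norm_num)]
        calc (27 / 8 : ℝ)⁻¹ = (2 / 3) ^ 3 := by norm_num
          _ ≤ Real.log 2 ^ 3 := pow_le_pow_left₀ (by norm_num) hl2 3
      linarith
    have h4 : Real.log 2 ^ (-(1 + z.re)) * ‖I (Real.log 2)‖ ≤ 4 * 1 :=
      mul_le_mul h1 hI0 (norm_nonneg _) (by norm_num)
    have h5 := rpow_aux hl2 (e := -(1 / 10)) (by norm_num) (by norm_num)
    have h6 : 10 * D * Real.log 2 ^ (-(1 / 10) : ℝ) ≤ 10 * D * (3 / 2) :=
      mul_le_mul_of_nonneg_left h5 (by positivity)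
    have h7 : 0 ≤ D := by positivity
    linarith
  have hbound : ∀ u ∈ Set.Ico (Real.log 2) b, ‖J' u‖ ≤ B' u := by
    intro u hu
    have hu0 : 0 < u := by linarith [hu.1]
    have hu23 : 2 / 3 ≤ u := by linarith [hu.1]
    have hu1 : (u : ℂ) ≠ 0 := by exact_mod_cast hu0.ne'
    have e : J' u = Complex.exp (-(1 + z) * ((Real.log u : ℝ) : ℂ)) * ((u : ℂ)⁻¹ *
        ((u : ℂ) * T u - (1 + z) * I u)) := by
      simp only [hJ']
      push_cast
      field_simp
      ring
    rw [e, norm_mul, hexp u hu0, norm_mul, norm_inv, Complex.norm_real, Real.norm_eq_abs, abs_of_pos hu0]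
    have h1 := hE u ⟨hu.1, hu.2.le⟩
    have h2 := one_add_rpow hu23
    have h3 := rpow_aux hu23 (e := 3 / 5 - z.re) (by linarith) (by linarith)
    simp only [hB']
    calc u ^ (-(1 + z.re)) * (u⁻¹ * ‖(u : ℂ) * T u - (1 + z) * I u‖)
        ≤ u ^ (-(1 + z.re)) * (u⁻¹ * (C * (4 * u ^ (3 / 2 : ℝ)))) := by
          refine mul_le_mul_of_nonneg_left ?_ (by positivity)
          refine mul_le_mul_of_nonneg_left ?_ (by positivity)
          exact h1.trans (mul_le_mul_of_nonneg_left h2 hC)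
      _ = 4 * C * (u ^ (-(1 + z.re)) * u ^ (-1 : ℝ) * u ^ (3 / 2 : ℝ)) := by
          rw [Real.rpow_neg_one]; ring
      _ = 4 * C * (u ^ (3 / 5 - z.re) * u ^ (-(11 / 10) : ℝ)) := by
          rw [← Real.rpow_add hu0, ← Real.rpow_add hu0, ← Real.rpow_add hu0]
          congr 2
          ring
      _ ≤ 4 * C * (3 / 2 * u ^ (-(11 / 10) : ℝ)) := by
          refine mul_le_mul_of_nonneg_left ?_ (by positivity)
          exact mul_le_mul_of_nonneg_right h3 (by positivity)
      _ = D * u ^ (-(11 / 10) : ℝ) := by rw [hD]; ring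
  have hmain := image_norm_le_of_norm_deriv_right_le_deriv_boundary' hcont hJd ha
    (fun u hu => (hBd u (by linarith [hu.1])).continuousAt.continuousWithinAt)
    (fun u hu => (hBd u (by linarith [hu.1])).hasDerivWithinAt) hbound (Set.right_mem_Icc.2 hb)
  have hb0 : 0 < b := by linarith
  have h1 : ‖J b‖ ≤ 4 + 120 * C := by
    refine hmain.trans ?_
    simp only [hB]
    have : 0 ≤ 10 * D * b ^ (-(1 / 10) : ℝ) := by positivity
    linarith
  have h2 : ‖I b‖ = ‖J b‖ * b ^ (1 + z.re) := by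
    simp only [hJ]
    rw [norm_mul, hexp b hb0, mul_assoc, mul_comm ‖I b‖, ← mul_assoc, ← Real.rpow_add hb0]
    simp
  rw [h2]
  exact mul_le_mul_of_nonneg_right h1 (by positivity)

/-- the right derivative of a truncation -/
theorem hasDeriv_trunc (c : ℝ) (u : ℝ) :
    HasDerivWithinAt (fun v : ℝ => max (v - c) 0) (if c ≤ u then 1 else 0) (Set.Ici u) u := by
  split_ifs with h
  · have h1 : HasDerivWithinAt (fun v : ℝ => v - c) 1 (Set.Ici u) u :=
      ((hasDerivAt_id u).sub_const c).hasDerivWithinAt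
    refine h1.congr (fun v hv => ?_) ?_
    · rw [Set.mem_Ici] at hv
      exact max_eq_left (by linarith)
    · exact max_eq_left (by linarith)
  · push Not at h
    refine HasDerivAt.hasDerivWithinAt ?_
    refine (hasDerivAt_const u (0 : ℝ)).congr_of_eventuallyEq ?_
    filter_upwards [Iio_mem_nhds h] with v hv
    rw [Set.mem_Iio] at hv
    exact max_eq_right (by linarith)

theorem ub : S_UB := by
  obtain ⟨C1, hC1, hub⟩ := ub1
  refine ⟨10 + 300 * C1, by positivity, fun Q hQ z hz f H1 H2 H3 X hX => ?_⟩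
  have hlQ : 0 ≤ Real.log (Q : ℝ) := Real.log_natCast_nonneg Q
  have hl2 : (2 / 3 : ℝ) ≤ Real.log 2 := by have := Real.log_two_gt_d9; linarith
  have hX0 : (0 : ℝ) < X := by exact_mod_cast (by omega : 0 < X)
  have hzre : |z.re - 1| ≤ 2 / 5 := by
    have := Complex.abs_re_le_norm (z - 1)
    rw [Complex.sub_re, Complex.one_re] at this
    exact this.trans hz
  have hz1 : 3 / 5 ≤ z.re := by linarith [(abs_le.1 hzre).1]
  have hz2 : z.re ≤ 7 / 5 := by linarith [(abs_le.1 hzre).2]
  set C : ℝ := C1 * (1 + Real.log Q) with hC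
  have hC0 : 0 ≤ C := by positivity
  set I : ℝ → ℂ := fun u => ∑ m ∈ Icc 1 X, (max (u - Real.log m) 0) • (f m / (m : ℂ)) with hI
  set T : ℝ → ℂ := fun u => ∑ m ∈ Icc 1 X, (if Real.log m ≤ u then (1 : ℝ) else 0) • (f m / (m : ℂ)) with hT
  have hder : ∀ u : ℝ, HasDerivWithinAt I (T u) (Set.Ici u) u := by
    intro u
    simp only [hI, hT]
    exact HasDerivWithinAt.fun_sum fun m _ => (hasDeriv_trunc (Real.log m) u).smul_const _
  have hcont : Continuous I := by
    simp only [hI]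
    fun_prop
  -- the values in the range
  have hval : ∀ u ∈ Set.Icc (Real.log 2) (Real.log X), ∃ N : ℕ, 1 ≤ N ∧ Real.log N ≤ u ∧
      u < Real.log ((N + 1 : ℕ) : ℝ) ∧ T u = ∑ m ∈ Icc 1 N, f m / (m : ℂ) ∧
      I u = ∑ m ∈ Icc 1 N, (u - Real.log m) • (f m / (m : ℂ)) := by
    intro u hu
    have hu0 : 0 ≤ u := by linarith [hu.1]
    have hN1 : 1 ≤ ⌊Real.exp u⌋₊ := by
      rw [Nat.one_le_floor_iff]
      exact Real.one_le_exp hu0
    have hNX : ⌊Real.exp u⌋₊ ≤ X := by
      rw [← Nat.cast_le (α := ℝ)]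
      refine (Nat.floor_le (Real.exp_pos u).le).trans ?_
      rw [← Real.exp_log hX0]
      exact Real.exp_le_exp.2 hu.2
    have hmem : ∀ m : ℕ, 1 ≤ m → (Real.log m ≤ u ↔ m ≤ ⌊Real.exp u⌋₊) := by
      intro m hm
      rw [Nat.le_floor_iff (Real.exp_pos u).le, Real.log_le_iff_le_exp (by exact_mod_cast hm)]
    refine ⟨⌊Real.exp u⌋₊, hN1, (hmem _ hN1).2 le_rfl, ?_, ?_, ?_⟩
    · rw [Real.lt_log_iff_exp_lt (by positivity)]
      push_cast
      exact Nat.lt_floor_add_one _
    · simp only [hT]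
      symm
      rw [← sum_subset (Icc_subset_Icc_right hNX)]
      · refine sum_congr rfl fun m hm => ?_
        rw [mem_Icc] at hm
        rw [if_pos ((hmem m hm.1).2 hm.2), one_smul]
      · intro m hm hm2
        rw [mem_Icc] at hm hm2
        rw [if_neg, zero_smul]
        rw [hmem m hm.1]
        omega
    · simp only [hI]
      symm
      rw [← sum_subset (Icc_subset_Icc_right hNX)]
      · refine sum_congr rfl fun m hm => ?_
        rw [mem_Icc] at hm
        rw [max_eq_left (by linarith [(hmem m hm.1).2 hm.2])]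
      · intro m hm hm2
        rw [mem_Icc] at hm hm2
        rw [max_eq_right, zero_smul]
        have : ¬ Real.log m ≤ u := by rw [hmem m hm.1]; omega
        push Not at this
        linarith
  have hE : ∀ u ∈ Set.Icc (Real.log 2) (Real.log X),
      ‖(u : ℂ) * T u - (1 + z) * I u‖ ≤ C * (1 + u) ^ (3 / 2 : ℝ) := by
    intro u hu
    obtain ⟨N, hN, h1, h2, h3, h4⟩ := hval u hu
    have e : (u : ℂ) * T u - (1 + z) * I u =
        ∑ m ∈ Icc 1 N, Real.log m • (f m / m) - z * ∑ m ∈ Icc 1 N, (u - Real.log m) • (f m / m) := by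
      have e1 : (u : ℂ) * T u = ∑ m ∈ Icc 1 N, Real.log m • (f m / (m : ℂ)) + I u := by
        rw [h3, h4, mul_sum, ← sum_add_distrib]
        refine sum_congr rfl fun m _ => ?_
        rw [← add_smul, Complex.real_smul]
        push_cast
        ring
      rw [e1, ← h4]
      ring
    rw [e]
    refine (hub Q hQ z hz f H1 H2 H3 N hN u h1 h2).trans ?_
    refine mul_le_mul_of_nonneg_left ?_ hC0
    refine (AN_le N).trans ?_
    have h0 : 0 ≤ Real.log (N : ℝ) := Real.log_natCast_nonneg N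
    exact Real.rpow_le_rpow (by linarith) (by linarith) (by norm_num)
  set b : ℝ := Real.log X with hb
  have hb2 : Real.log 2 ≤ b := Real.log_le_log (by norm_num) (by exact_mod_cast hX)
  have hI0 : ‖I (Real.log 2)‖ ≤ 1 := by
    have e : I (Real.log 2) = (Real.log 2) • f 1 := by
      simp only [hI]
      rw [sum_eq_single_of_mem 1 (mem_Icc.2 ⟨le_rfl, by omega⟩)]
      · have : (0 : ℝ) ≤ Real.log 2 := by linarith
        simp [this]
      · intro m hm hm1
        rw [mem_Icc] at hm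
        rw [max_eq_right, zero_smul]
        rw [sub_nonpos]
        exact Real.log_le_log (by norm_num) (by exact_mod_cast (by omega : 2 ≤ m))
    rw [e, norm_smul, Real.norm_eq_abs, abs_of_nonneg (by linarith)]
    have h1 : ‖f 1‖ ≤ 1 := by
      have := H1 1
      simpa [om] using this
    have := Real.log_two_lt_d9
    calc Real.log 2 * ‖f 1‖ ≤ 1 * 1 := mul_le_mul (by linarith) h1 (norm_nonneg _) (by norm_num)
      _ = 1 := by norm_num
  have hIb := calc_part C hC0 z hz1 hz2 I T b hb2 hcont.continuousOn (fun u _ => hder u) hI0 hE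
  have hEb := hE b ⟨hb2, le_rfl⟩
  have hb23 : 2 / 3 ≤ b := by linarith
  have hb0 : 0 < b := by linarith
  have hTb : T b = ∑ m ∈ Icc 1 X, f m / (m : ℂ) := by
    simp only [hT]
    refine sum_congr rfl fun m hm => ?_
    rw [mem_Icc] at hm
    rw [if_pos, one_smul]
    exact Real.log_le_log (by exact_mod_cast hm.1) (by exact_mod_cast hm.2)
  rw [← hTb]
  have h1z : ‖1 + z‖ ≤ 12 / 5 := by
    calc ‖1 + z‖ = ‖(z - 1) + 2‖ := by ring_nf
      _ ≤ ‖z - 1‖ + ‖(2 : ℂ)‖ := norm_add_le _ _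
      _ ≤ 12 / 5 := by
          have : ‖(2 : ℂ)‖ = 2 := by norm_num
          linarith
  have h2 : b * ‖T b‖ ≤ b * ((10 + 300 * C) * b ^ z.re) := by
    have e : (b : ℂ) * T b = ((b : ℂ) * T b - (1 + z) * I b) + (1 + z) * I b := by ring
    have h3 : b * ‖T b‖ = ‖(b : ℂ) * T b‖ := by
      rw [norm_mul, Complex.norm_real, Real.norm_eq_abs, abs_of_pos hb0]
    rw [h3, e]
    have h4 := one_add_rpow hb23
    have h5 := rpow_aux hb23 (e := 1 / 2 - z.re) (by linarith) (by linarith)
    have h6 : b ^ (3 / 2 : ℝ) ≤ 3 / 2 * b ^ (1 + z.re) := by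
      have : b ^ (3 / 2 : ℝ) = b ^ (1 / 2 - z.re) * b ^ (1 + z.re) := by
        rw [← Real.rpow_add hb0]; congr 1; ring
      rw [this]
      exact mul_le_mul_of_nonneg_right h5 (by positivity)
    have h7 : b ^ (1 + z.re) = b * b ^ z.re := by
      rw [Real.rpow_add hb0, Real.rpow_one]
    have h8 : 0 ≤ b ^ (1 + z.re) := by positivity
    calc _ ≤ ‖(b : ℂ) * T b - (1 + z) * I b‖ + ‖1 + z‖ * ‖I b‖ := by
          refine (norm_add_le _ _).trans ?_
          rw [norm_mul (1 + z)]
      _ ≤ C * (4 * (3 / 2 * b ^ (1 + z.re))) + 12 / 5 * ((4 + 120 * C) * b ^ (1 + z.re)) := by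
          refine add_le_add (hEb.trans (mul_le_mul_of_nonneg_left (h4.trans ?_) hC0)) ?_
          · exact mul_le_mul_of_nonneg_left h6 (by norm_num)
          · exact mul_le_mul h1z hIb (norm_nonneg _) (by norm_num)
      _ ≤ (10 + 300 * C) * b ^ (1 + z.re) := by nlinarith
      _ = b * ((10 + 300 * C) * b ^ z.re) := by rw [h7]; ring
  have h3 := le_of_mul_le_mul_left h2 hb0
  refine h3.trans (mul_le_mul_of_nonneg_right ?_ (by positivity))
  rw [hC]
  nlinarith

end Pool.Agent.NH21.Bty
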